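import Pool.Agent.X11.Peltesohn

/-!
# Cyclic Steiner triple systems: construction and counting isomorphism classes
-/

namespace Pool.Agent.X11.STS

open Finset

set_option linter.unusedSectionVars false

section count

variable {n : ℕ} [NeZero n]

/-- action of a permutation on blocks -/
def act (σ : Equiv.Perm (ZMod n)) (b : Finset (ZMod n)) : Finset (ZMod n) := b.map σ.toEmbedding

lemma act_mul (σ τ : Equiv.Perm (ZMod n)) (b : Finset (ZMod n)) :
    act (σ * τ) b = act σ (act τ b) := by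
  unfold act
  rw [Finset.map_map]
  rfl

lemma act_one (b : Finset (ZMod n)) : act 1 b = b := by
  unfold act
  have : (1 : Equiv.Perm (ZMod n)).toEmbedding = Function.Embedding.refl _ := rfl
  rw [this, Finset.map_refl]

lemma act_inv_act (σ : Equiv.Perm (ZMod n)) (b : Finset (ZMod n)) : act σ⁻¹ (act σ b) = b := by
  rw [← act_mul, inv_mul_cancel, act_one]

lemma act_act_inv (σ : Equiv.Perm (ZMod n)) (b : Finset (ZMod n)) : act σ (act σ⁻¹ b) = b := by
  rw [← act_mul, mul_inv_cancel, act_one]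

lemma act_inj (σ : Equiv.Perm (ZMod n)) : Function.Injective (act σ) := by
  intro b c h
  rw [← act_inv_act σ b, h, act_inv_act]

/-- `B ≅ B'` -/
def Iso (B B' : Finset (Finset (ZMod n))) : Prop :=
  ∃ σ : Equiv.Perm (ZMod n), ∀ b, b ∈ B ↔ act σ b ∈ B'

lemma Iso.symm {B B' : Finset (Finset (ZMod n))} (h : Iso B B') : Iso B' B := by
  obtain ⟨σ, hσ⟩ := h
  refine ⟨σ⁻¹, fun b => ?_⟩
  rw [hσ, act_act_inv]

/-- the shift -/
def tau : Equiv.Perm (ZMod n) := Equiv.addRight 1

lemma tau_apply (x : ZMod n) : (tau : Equiv.Perm (ZMod n)) x = x + 1 := rfl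

lemma act_tau (b : Finset (ZMod n)) : act tau b = b.image (fun x => x + 1) := by
  unfold act; rw [Finset.map_eq_image]; rfl

lemma inv_iff {B : Finset (Finset (ZMod n))} {σ : Equiv.Perm (ZMod n)}
    (h : ∀ b ∈ B, act σ b ∈ B) (b : Finset (ZMod n)) : b ∈ B ↔ act σ b ∈ B := by
  refine ⟨h b, fun hb => ?_⟩
  have h1 : B.image (act σ) ⊆ B := by
    intro c hc
    obtain ⟨d, hd, rfl⟩ := Finset.mem_image.mp hc
    exact h d hd
  have h2 : B.image (act σ) = B :=
    Finset.eq_of_subset_of_card_le h1 (by rw [Finset.card_image_of_injective _ (act_inj σ)])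
  rw [← h2] at hb
  obtain ⟨d, hd, hde⟩ := Finset.mem_image.mp hb
  rwa [← act_inj σ hde]

lemma perm_eq {π π' : Equiv.Perm (ZMod n)} (h : π⁻¹ * tau * π = π'⁻¹ * tau * π')
    (h0 : π⁻¹ 0 = π'⁻¹ 0) : π = π' := by
  have key : ∀ k : ℕ, π⁻¹ (k : ZMod n) = π'⁻¹ (k : ZMod n) := by
    intro k
    induction k with
    | zero => simpa using h0
    | succ k ih =>
      have e : ∀ ρ : Equiv.Perm (ZMod n), ρ⁻¹ ((k + 1 : ℕ) : ZMod n)
          = (ρ⁻¹ * tau * ρ : Equiv.Perm (ZMod n)) (ρ⁻¹ (k : ZMod n)) := by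
        intro ρ
        have e0 : ρ (ρ⁻¹ (k : ZMod n)) = (k : ZMod n) := Equiv.apply_symm_apply ρ _
        rw [Equiv.Perm.mul_apply, Equiv.Perm.mul_apply, e0, tau_apply]
        push_cast; rfl
      rw [e π, e π', h, ih]
  have : π⁻¹ = π'⁻¹ := by
    refine Equiv.ext fun x => ?_
    have := key x.val
    rwa [ZMod.natCast_zmod_val] at this
  exact inv_injective this

/-- an isomorphism class contains at most `n` shift-invariant labelled systems -/
lemma class_le (B0 : Finset (Finset (ZMod n))) (C : Finset (Finset (Finset (ZMod n))))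
    (hC : ∀ B ∈ C, (∀ b ∈ B, act tau b ∈ B) ∧ Iso B0 B) : C.card ≤ n := by
  classical
  let Aut := {g : Equiv.Perm (ZMod n) // ∀ b, b ∈ B0 ↔ act g b ∈ B0}
  choose! hinv hiso using hC
  choose! p hp using hiso
  have hπ : ∀ (B : {B // B ∈ C}) (g : Aut) (b : Finset (ZMod n)),
      b ∈ B0 ↔ act (p B.1 * g.1) b ∈ B.1 := by
    intro B g b
    rw [act_mul, ← hp B.1 B.2, ← g.2]
  have hΦ : ∀ (B : {B // B ∈ C}) (g : Aut) (b : Finset (ZMod n)),
      b ∈ B0 ↔ act ((p B.1 * g.1)⁻¹ * tau * (p B.1 * g.1)) b ∈ B0 := by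
    intro B g b
    have e1 := hπ B g b
    have e2 := inv_iff (hinv B.1 B.2) (act (p B.1 * g.1) b)
    have e3 := hπ B g (act ((p B.1 * g.1)⁻¹ * tau * (p B.1 * g.1)) b)
    have e4 : act (p B.1 * g.1) (act ((p B.1 * g.1)⁻¹ * tau * (p B.1 * g.1)) b)
        = act tau (act (p B.1 * g.1) b) := by
      rw [← act_mul, ← act_mul]; congr 1; group
    rw [e4] at e3
    exact (e1.trans e2).trans e3.symm
  let Φ : {B // B ∈ C} × Aut → Aut × ZMod n := fun q =>
    (⟨(p q.1.1 * q.2.1)⁻¹ * tau * (p q.1.1 * q.2.1), hΦ q.1 q.2⟩, (p q.1.1 * q.2.1)⁻¹ 0)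
  have hΦinj : Function.Injective Φ := by
    rintro ⟨B, g⟩ ⟨B', g'⟩ h
    simp only [Φ, Prod.mk.injEq] at h
    have h1 := perm_eq (congrArg Subtype.val h.1) h.2
    have h2 : B = B' := by
      apply Subtype.ext
      ext b
      have e1 := hπ B g (act (p B.1 * g.1)⁻¹ b)
      have e2 := hπ B' g' (act (p B'.1 * g'.1)⁻¹ b)
      rw [act_act_inv] at e1 e2
      rw [← e1, ← e2, h1]
    subst h2
    have h3 : g = g' := Subtype.ext (mul_left_cancel h1)
    rw [h3]
  have : Fintype Aut := Fintype.ofFinite _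
  have hcard := Fintype.card_le_of_injective Φ hΦinj
  rw [Fintype.card_prod, Fintype.card_prod, Fintype.card_coe, ZMod.card] at hcard
  have hpos : 0 < Fintype.card Aut :=
    Fintype.card_pos_iff.mpr ⟨⟨1, fun b => by rw [act_one]⟩⟩
  have : C.card * Fintype.card Aut ≤ n * Fintype.card Aut := by linarith [mul_comm (Fintype.card Aut) n]
  exact Nat.le_of_mul_le_mul_right this hpos

lemma count (M : ℕ) (F : Finset (Finset (Finset (ZMod n))))
    (hF : ∀ B ∈ F, ∀ b ∈ B, act tau b ∈ B) (hM : n * M ≤ F.card) :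
    ∃ f : Fin M → Finset (Finset (ZMod n)), (∀ i, f i ∈ F) ∧ ∀ i j, i ≠ j → ¬ Iso (f i) (f j) := by
  classical
  induction M generalizing F with
  | zero => exact ⟨fun i => i.elim0, fun i => i.elim0, fun i => i.elim0⟩
  | succ M ih =>
    have hn : 0 < n := Nat.pos_of_ne_zero (NeZero.ne n)
    have hpos : 0 < F.card := by nlinarith
    obtain ⟨B0, hB0⟩ := Finset.card_pos.mp hpos
    set C := F.filter (fun B => Iso B0 B) with hC
    have hle : C.card ≤ n := by
      apply class_le B0 C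
      intro B hB
      rw [hC, Finset.mem_filter] at hB
      exact ⟨hF B hB.1, hB.2⟩
    set F' := F.filter (fun B => ¬ Iso B0 B) with hF'
    have hsum : C.card + F'.card = F.card := Finset.card_filter_add_card_filter_not _
    obtain ⟨f, hf1, hf2⟩ := ih F' (fun B hB => hF B (Finset.mem_filter.mp hB).1) (by
      have : n * (M + 1) = n * M + n := by ring
      omega)
    refine ⟨Fin.cons B0 f, ?_, ?_⟩
    · intro i
      refine Fin.cases ?_ (fun i => ?_) i
      · simpa using hB0
      · simpa using (Finset.mem_filter.mp (hf1 i)).1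
    · intro i j
      refine Fin.cases ?_ (fun i => ?_) i <;> refine Fin.cases ?_ (fun j => ?_) j
      · intro h; exact absurd rfl h
      · intro _
        rw [Fin.cons_zero, Fin.cons_succ]
        exact (Finset.mem_filter.mp (hf1 j)).2
      · intro _
        rw [Fin.cons_zero, Fin.cons_succ]
        exact fun h => (Finset.mem_filter.mp (hf1 i)).2 h.symm
      · intro h
        rw [Fin.cons_succ, Fin.cons_succ]
        exact hf2 i j (fun h2 => h (by rw [h2]))

end count

section construct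

variable {n : ℕ} [NeZero n]

/-- block `{t, t + x, t + c}` -/
def blk (t x c : ZMod n) : Finset (ZMod n) := {t, t + x, t + c}

lemma mem_blk {t x c u : ZMod n} : u ∈ blk t x c ↔ u = t ∨ u = t + x ∨ u = t + c := by
  simp [blk]

/-- the six differences of `{0, x, c}` -/
def dif (x c : ZMod n) : Fin 6 → ZMod n := ![x, -x, c, -c, c - x, x - c]

/-- position of the first point -/
def pos (x c : ZMod n) : Fin 6 → ZMod n := ![0, x, 0, c, x, c]

lemma blk_pair {t x c u v : ZMod n} (huv : u ≠ v) (hu : u ∈ blk t x c) (hv : v ∈ blk t x c) :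
    ∃ j, dif x c j = v - u ∧ u = t + pos x c j := by
  rw [mem_blk] at hu hv
  rcases hu with rfl | rfl | rfl <;> rcases hv with rfl | rfl | rfl
  · exact absurd rfl huv
  · exact ⟨0, by simp [dif], by simp [pos]⟩
  · exact ⟨2, by simp [dif], by simp [pos]⟩
  · exact ⟨1, by simp [dif], by simp [pos]⟩
  · exact absurd rfl huv
  · exact ⟨4, by simp [dif], by simp [pos]⟩
  · exact ⟨3, by simp [dif], by simp [pos]⟩
  · exact ⟨5, by simp [dif], by simp [pos]⟩
  · exact absurd rfl huv

lemma blk_of_dif {x c u v : ZMod n} {j : Fin 6} (h : dif x c j = v - u) :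
    u ∈ blk (u - pos x c j) x c ∧ v ∈ blk (u - pos x c j) x c := by
  rw [mem_blk, mem_blk]
  have hv : v = u + dif x c j := by rw [h]; ring
  rw [hv]
  fin_cases j
  · exact ⟨by simp [pos], by simp [pos, dif]⟩
  · exact ⟨by simp [pos], by simp [pos, dif, sub_eq_add_neg]⟩
  · exact ⟨by simp [pos], by simp [pos, dif]⟩
  · exact ⟨by simp [pos], by simp [pos, dif, sub_eq_add_neg]⟩
  · exact ⟨by simp [pos], by right; right; simp [pos, dif]; ring⟩
  · exact ⟨by simp [pos], by right; left; simp [pos, dif]; ring⟩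

variable {ι : Type*} [Fintype ι] [DecidableEq ι]

/-- covering hypothesis -/
def Cov (x c : ι → ZMod n) (E : Finset (ZMod n)) : Prop :=
  ∀ d : ZMod n, d ≠ 0 → d ∉ E → ∃ (i : ι) (j : Fin 6), dif (x i) (c i) j = d

lemma cov_facts {x c : ι → ZMod n} {E : Finset (ZMod n)} (hE0 : (0 : ZMod n) ∉ E)
    (hcard : 6 * Fintype.card ι + E.card + 1 ≤ n) (hcov : Cov x c E) :
    (6 * Fintype.card ι + E.card + 1 = n) ∧
    (∀ i j, dif (x i) (c i) j ≠ 0 ∧ dif (x i) (c i) j ∉ E) ∧
    (∀ i j i' j', dif (x i) (c i) j = dif (x i') (c i') j' → i = i' ∧ j = j') := by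
  classical
  set T : Finset (ZMod n) := univ \ insert 0 E with hT
  set δ : ι × Fin 6 → ZMod n := fun p => dif (x p.1) (c p.1) p.2 with hδ
  have hTcard : T.card + E.card + 1 = n := by
    have h1 := Finset.card_sdiff_add_card_eq_card (Finset.subset_univ (insert 0 E))
    rw [Finset.card_insert_of_notMem hE0, Finset.card_univ, ZMod.card] at h1
    omega
  have hsub : T ⊆ univ.image δ := by
    intro d hd
    rw [hT, Finset.mem_sdiff, Finset.mem_insert, not_or] at hd
    obtain ⟨i, j, hij⟩ := hcov d hd.2.1 hd.2.2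
    exact Finset.mem_image.mpr ⟨(i, j), Finset.mem_univ _, hij⟩
  have hle : (univ.image δ).card ≤ 6 * Fintype.card ι := by
    refine Finset.card_image_le.trans ?_
    rw [Finset.card_univ, Fintype.card_prod, Fintype.card_fin]; omega
  have hle2 := Finset.card_le_card hsub
  have heq : T = univ.image δ := Finset.eq_of_subset_of_card_le hsub (by omega)
  have hcardeq : (univ.image δ).card = (univ : Finset (ι × Fin 6)).card := by
    rw [← heq, Finset.card_univ, Fintype.card_prod, Fintype.card_fin]; omega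
  have hinj := Finset.card_image_iff.mp hcardeq
  refine ⟨by omega, ?_, ?_⟩
  · intro i j
    have : δ (i, j) ∈ T := by rw [heq]; exact Finset.mem_image_of_mem _ (Finset.mem_univ _)
    rw [hT, Finset.mem_sdiff, Finset.mem_insert, not_or] at this
    exact this.2
  · intro i j i' j' h
    have := hinj (Finset.mem_coe.mpr (Finset.mem_univ (i, j)))
      (Finset.mem_coe.mpr (Finset.mem_univ (i', j'))) h
    exact Prod.mk.injEq _ _ _ _ ▸ this

/-- the property of being a cyclic Steiner triple system on `ZMod n` -/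
structure IsCyc (B : Finset (Finset (ZMod n))) : Prop where
  card3 : ∀ b ∈ B, b.card = 3
  uniq : ∀ x y : ZMod n, x ≠ y → ∃! b : Finset (ZMod n), b ∈ B ∧ x ∈ b ∧ y ∈ b
  shift : ∀ b ∈ B, b.image (fun x => x + 1) ∈ B

/-- hypotheses on the short orbit -/
structure Short (E : Finset (ZMod n)) (Sh : Finset (Finset (ZMod n))) : Prop where
  zero : (0 : ZMod n) ∉ E
  card3 : ∀ b ∈ Sh, b.card = 3
  uniq : ∀ u v : ZMod n, u ≠ v → v - u ∈ E → ∃! b : Finset (ZMod n), b ∈ Sh ∧ u ∈ b ∧ v ∈ b
  dif : ∀ b ∈ Sh, ∀ u ∈ b, ∀ v ∈ b, u ≠ v → v - u ∈ E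
  shift : ∀ b ∈ Sh, b.image (fun x => x + 1) ∈ Sh

/-- the system -/
def sys (x c : ι → ZMod n) (Sh : Finset (Finset (ZMod n))) : Finset (Finset (ZMod n)) :=
  (univ : Finset (ZMod n × ι)).image (fun p => blk p.1 (x p.2) (c p.2)) ∪ Sh

lemma mem_sys {x c : ι → ZMod n} {Sh : Finset (Finset (ZMod n))} {b : Finset (ZMod n)} :
    b ∈ sys x c Sh ↔ (∃ t i, blk t (x i) (c i) = b) ∨ b ∈ Sh := by
  simp [sys]

lemma sys_isCyc {x c : ι → ZMod n} {E : Finset (ZMod n)} {Sh : Finset (Finset (ZMod n))}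
    (hS : Short E Sh) (hcard : 6 * Fintype.card ι + E.card + 1 ≤ n) (hcov : Cov x c E) :
    IsCyc (sys x c Sh) := by
  obtain ⟨-, h0, hinj⟩ := cov_facts hS.zero hcard hcov
  refine ⟨?_, ?_, ?_⟩
  · intro b hb
    rw [mem_sys] at hb
    rcases hb with ⟨t, i, rfl⟩ | hb
    · have e0 : x i ≠ 0 := (h0 i 0).1
      have e2 : c i ≠ 0 := (h0 i 2).1
      have e4 : c i - x i ≠ 0 := (h0 i 4).1
      rw [blk, Finset.card_eq_three]
      refine ⟨t, t + x i, t + c i, ?_, ?_, ?_, rfl⟩
      · intro h; exact e0 (by linear_combination -h)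
      · intro h; exact e2 (by linear_combination -h)
      · intro h; exact e4 (by linear_combination -h)
    · exact hS.card3 b hb
  · intro u v huv
    by_cases hE : v - u ∈ E
    · obtain ⟨b, ⟨hb1, hb2⟩, hb3⟩ := hS.uniq u v huv hE
      refine ⟨b, ⟨mem_sys.mpr (Or.inr hb1), hb2⟩, ?_⟩
      rintro b' ⟨hb', hu, hv⟩
      rw [mem_sys] at hb'
      rcases hb' with ⟨t, i, rfl⟩ | hb'
      · exfalso
        obtain ⟨j, hj, -⟩ := blk_pair huv hu hv
        apply (h0 i j).2
        rw [hj]; exact hE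
      · exact hb3 b' ⟨hb', hu, hv⟩
    · obtain ⟨i, j, hij⟩ := hcov (v - u) (sub_ne_zero.mpr huv.symm) hE
      obtain ⟨hu, hv⟩ := blk_of_dif hij
      refine ⟨blk (u - pos (x i) (c i) j) (x i) (c i), ⟨mem_sys.mpr (Or.inl ⟨_, i, rfl⟩), hu, hv⟩, ?_⟩
      rintro b' ⟨hb', hu', hv'⟩
      rw [mem_sys] at hb'
      rcases hb' with ⟨t, i', rfl⟩ | hb'
      · obtain ⟨j', hj', ht⟩ := blk_pair huv hu' hv'
        obtain ⟨rfl, rfl⟩ := hinj i j i' j' (hij.trans hj'.symm)
        have : t = u - pos (x i) (c i) j := by rw [ht]; ring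
        rw [this]
      · exact absurd (hS.dif b' hb' u hu' v hv' huv) hE
  · intro b hb
    rw [mem_sys] at hb ⊢
    rcases hb with ⟨t, i, rfl⟩ | hb
    · left
      refine ⟨t + 1, i, ?_⟩
      unfold blk
      rw [Finset.image_insert, Finset.image_insert, Finset.image_singleton]
      have e1 : t + 1 + x i = t + x i + 1 := by ring
      have e2 : t + 1 + c i = t + c i + 1 := by ring
      rw [e1, e2]
    · right; exact hS.shift b hb

end construct

section family

variable {n : ℕ} [NeZero n]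

/-- second point of the base block, reflected or not -/
def xx (L : Finset (ℕ × ℕ)) (F : {p // p ∈ L} → Bool) (i : {p // p ∈ L}) : ZMod n :=
  if F i then (i.1.2 : ZMod n) else (i.1.1 : ZMod n)

/-- third point of the base block -/
def cc (L : Finset (ℕ × ℕ)) (i : {p // p ∈ L}) : ZMod n := (i.1.1 : ZMod n) + (i.1.2 : ZMod n)

lemma cov_of {L : Finset (ℕ × ℕ)} {E : Finset (ZMod n)}
    (h : ∀ d : ZMod n, d ≠ 0 → d ∉ E → ∃ p ∈ L, d = (p.1 : ZMod n) ∨ d = -(p.1 : ZMod n) ∨
      d = (p.2 : ZMod n) ∨ d = -(p.2 : ZMod n) ∨ d = (p.1 : ZMod n) + p.2 ∨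
      d = -((p.1 : ZMod n) + p.2)) (F : {p // p ∈ L} → Bool) : Cov (xx L F) (cc L) E := by
  intro d hd hdE
  obtain ⟨p, hp, h⟩ := h d hd hdE
  refine ⟨⟨p, hp⟩, ?_⟩
  unfold xx cc
  by_cases hF : F ⟨p, hp⟩ = true
  · rw [if_pos hF]
    simp only
    rcases h with h | h | h | h | h | h <;> rw [h]
    · exact ⟨4, by simp [dif]⟩
    · exact ⟨5, by simp [dif]⟩
    · exact ⟨0, by simp [dif]⟩
    · exact ⟨1, by simp [dif]⟩
    · exact ⟨2, by simp [dif]⟩
    · exact ⟨3, by simp [dif]⟩
  · rw [if_neg hF]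
    simp only
    rcases h with h | h | h | h | h | h <;> rw [h]
    · exact ⟨0, by simp [dif]⟩
    · exact ⟨1, by simp [dif]⟩
    · exact ⟨4, by simp [dif]⟩
    · exact ⟨5, by simp [dif]⟩
    · exact ⟨2, by simp [dif]⟩
    · exact ⟨3, by simp [dif]⟩

lemma sys_ne {L : Finset (ℕ × ℕ)} {E : Finset (ZMod n)} {Sh : Finset (Finset (ZMod n))}
    (hS : Short E Sh) (hcard : 6 * Fintype.card {p // p ∈ L} + E.card + 1 ≤ n)
    (hcov : ∀ F, Cov (xx L F) (cc L) E) {F F' : {p // p ∈ L} → Bool} (i : {p // p ∈ L})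
    (h1 : F i = false) (h2 : F' i = true) : sys (xx L F) (cc L) Sh ≠ sys (xx L F') (cc L) Sh := by
  intro heq
  have hcyc := sys_isCyc hS hcard (hcov F)
  obtain ⟨-, h0, hinj⟩ := cov_facts hS.zero hcard (hcov F)
  obtain ⟨-, h0', -⟩ := cov_facts hS.zero hcard (hcov F')
  have a0 : xx L F i ≠ 0 := (h0 i 0).1
  have a1 : xx L F' i ≠ 0 := (h0' i 0).1
  have a2 : cc L i ≠ (0 : ZMod n) := (h0 i 2).1
  have a3 : (xx L F i : ZMod n) ≠ xx L F' i := by
    intro h
    have e : (dif (xx L F i) (cc L i) 0 : ZMod n) = dif (xx L F i) (cc L i) 4 := by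
      have e1 : (xx L F' i : ZMod n) = cc L i - xx L F i := by
        unfold xx cc; rw [h1, h2]; simp
      simp only [dif, Matrix.cons_val]
      rw [← e1]; exact h
    have := (hinj _ _ _ _ e).2
    exact absurd this (by decide)
  have m1 : blk 0 (xx L F i) (cc L i) ∈ sys (xx L F) (cc L) Sh := mem_sys.mpr (Or.inl ⟨0, i, rfl⟩)
  have m2 : blk 0 (xx L F' i) (cc L i) ∈ sys (xx L F) (cc L) Sh := by
    rw [heq]; exact mem_sys.mpr (Or.inl ⟨0, i, rfl⟩)
  obtain ⟨b, -, hb⟩ := hcyc.uniq 0 (cc L i) a2.symm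
  have e1 := hb _ ⟨m1, by simp [blk], by simp [blk]⟩
  have e2 := hb _ ⟨m2, by simp [blk], by simp [blk]⟩
  have e3 : (xx L F i : ZMod n) ∈ blk 0 (xx L F' i) (cc L i) := by
    rw [e2, ← e1]; simp [blk]
  rw [mem_blk] at e3
  rcases e3 with h | h | h
  · exact a0 h
  · rw [zero_add] at h; exact a3 h
  · have e4 : (dif (xx L F i) (cc L i) 0 : ZMod n) = dif (xx L F i) (cc L i) 2 := by
      simp only [dif, Matrix.cons_val]
      rw [zero_add] at h; exact h
    have := (hinj _ _ _ _ e4).2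
    exact absurd this (by decide)

lemma exists_family_of {L : Finset (ℕ × ℕ)} {E : Finset (ZMod n)} {Sh : Finset (Finset (ZMod n))}
    (hS : Short E Sh) (hcard : 6 * L.card + E.card + 1 ≤ n)
    (h : ∀ d : ZMod n, d ≠ 0 → d ∉ E → ∃ p ∈ L, d = (p.1 : ZMod n) ∨ d = -(p.1 : ZMod n) ∨
      d = (p.2 : ZMod n) ∨ d = -(p.2 : ZMod n) ∨ d = (p.1 : ZMod n) + p.2 ∨
      d = -((p.1 : ZMod n) + p.2)) :
    ∃ 𝓕 : Finset (Finset (Finset (ZMod n))), 6 * L.card + E.card + 1 = n ∧ 𝓕.card = 2 ^ L.card ∧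
      ∀ B ∈ 𝓕, IsCyc B := by
  have hcard' : 6 * Fintype.card {p // p ∈ L} + E.card + 1 ≤ n := by
    rwa [Fintype.card_coe]
  have hcov := fun F => cov_of h F
  have heq := (cov_facts hS.zero hcard' (hcov (fun _ => false))).1
  rw [Fintype.card_coe] at heq
  refine ⟨(univ : Finset ({p // p ∈ L} → Bool)).image (fun F => sys (xx L F) (cc L) Sh), heq, ?_, ?_⟩
  · rw [Finset.card_image_of_injective, Finset.card_univ, Fintype.card_fun, Fintype.card_bool,
      Fintype.card_coe]
    intro F F' hFF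
    by_contra hne
    obtain ⟨i, hi⟩ := Function.ne_iff.mp hne
    cases hb : F i <;> cases hb' : F' i
    · exact hi (by rw [hb, hb'])
    · exact sys_ne hS hcard' hcov i hb hb' hFF
    · exact sys_ne hS hcard' hcov i hb' hb hFF.symm
    · exact hi (by rw [hb, hb'])
  · intro B hB
    obtain ⟨F, -, rfl⟩ := Finset.mem_image.mp hB
    exact sys_isCyc hS hcard' (hcov F)

/-- covering in `ZMod n` from the covering of natural numbers -/
lemma cover_cast {L : Finset (ℕ × ℕ)} {k : ℕ} (hL : Heffter n k L) (d : ZMod n) (hd : d ≠ 0)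
    (h3 : 3 * d.val ≠ n) (h3' : 3 * d.val ≠ 2 * n) (h2 : 2 * d.val ≠ n) :
    ∃ p ∈ L, d = (p.1 : ZMod n) ∨ d = -(p.1 : ZMod n) ∨
      d = (p.2 : ZMod n) ∨ d = -(p.2 : ZMod n) ∨ d = (p.1 : ZMod n) + p.2 ∨
      d = -((p.1 : ZMod n) + p.2) := by
  have hlt := ZMod.val_lt d
  have hpos : 0 < d.val := Nat.pos_of_ne_zero (by rwa [Ne, ZMod.val_eq_zero])
  have hd' : d = ((d.val : ℕ) : ZMod n) := (ZMod.natCast_zmod_val d).symm
  by_cases hlow : 2 * d.val < n
  · obtain ⟨p, hp, h⟩ := hL.2 d.val hpos hlow h3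
    refine ⟨p, hp, ?_⟩
    rcases h with h | h | h | h
    · left; rw [hd', h]
    · right; right; left; rw [hd', h]
    · right; right; right; right; left; rw [hd', h]; push_cast; ring
    · right; right; right; right; right
      rw [hd', eq_neg_iff_add_eq_zero]
      have : ((d.val + p.1 + p.2 : ℕ) : ZMod n) = 0 := by rw [h]; simp
      push_cast at this ⊢
      rw [← this]; ring
  · obtain ⟨p, hp, h⟩ := hL.2 (n - d.val) (by omega) (by omega) (by omega)
    refine ⟨p, hp, ?_⟩
    have hd2 : d = -(((n - d.val : ℕ)) : ZMod n) := by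
      rw [Nat.cast_sub hlt.le]; simp
    rcases h with h | h | h | h
    · right; left; rw [hd2, h]
    · right; right; right; left; rw [hd2, h]
    · right; right; right; right; right; rw [hd2, h]; push_cast; ring
    · right; right; right; right; left
      rw [hd2]
      have : ((n - d.val + p.1 + p.2 : ℕ) : ZMod n) = 0 := by rw [h]; simp
      push_cast at this ⊢
      linear_combination -this

lemma short_empty : Short (∅ : Finset (ZMod n)) ∅ where
  zero := by simp
  card3 := by simp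
  uniq := by simp
  dif := by simp
  shift := by simp

lemma short_three (h : ZMod n) (h3 : 3 * h = 0) (h0 : h ≠ 0) (h20 : 2 * h ≠ 0) :
    Short {h, 2 * h} ((univ : Finset (ZMod n)).image (fun t => blk t h (2 * h))) where
  zero := by
    simp only [Finset.mem_insert, Finset.mem_singleton, not_or]
    exact ⟨h0.symm, h20.symm⟩
  card3 := by
    intro b hb
    obtain ⟨t, -, rfl⟩ := Finset.mem_image.mp hb
    rw [blk, Finset.card_eq_three]
    refine ⟨t, t + h, t + 2 * h, ?_, ?_, ?_, rfl⟩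
    · intro e; exact h0 (by linear_combination -e)
    · intro e; exact h20 (by linear_combination -e)
    · intro e; exact h0 (by linear_combination -e)
  uniq := by
    intro u v huv hE
    have hrot : ∀ t : ZMod n, blk (t + h) h (2 * h) = blk t h (2 * h) := by
      intro t
      ext w
      rw [mem_blk, mem_blk]
      constructor
      · rintro (e | e | e)
        · right; left; exact e
        · right; right; rw [e]; ring
        · left; rw [e]; linear_combination h3
      · rintro (e | e | e)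
        · right; right; rw [e]; linear_combination -h3
        · left; exact e
        · right; left; rw [e]; ring
    have hrot2 : ∀ t : ZMod n, blk (t + 2 * h) h (2 * h) = blk t h (2 * h) := by
      intro t
      have : t + 2 * h = t + h + h := by ring
      rw [this, hrot, hrot]
    refine ⟨blk u h (2 * h), ⟨Finset.mem_image_of_mem _ (Finset.mem_univ _), ?_, ?_⟩, ?_⟩
    · simp [blk]
    · rw [Finset.mem_insert, Finset.mem_singleton] at hE
      rw [mem_blk]
      rcases hE with e | e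
      · right; left; rw [← e]; ring
      · right; right; rw [← e]; ring
    · rintro b ⟨hb, hu, -⟩
      obtain ⟨t, -, rfl⟩ := Finset.mem_image.mp hb
      rw [mem_blk] at hu
      rcases hu with rfl | rfl | rfl
      · rfl
      · exact (hrot t).symm
      · exact (hrot2 t).symm
  dif := by
    intro b hb u hu v hv huv
    obtain ⟨t, -, rfl⟩ := Finset.mem_image.mp hb
    rw [mem_blk] at hu hv
    rw [Finset.mem_insert, Finset.mem_singleton]
    rcases hu with rfl | rfl | rfl <;> rcases hv with rfl | rfl | rfl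
    · exact absurd rfl huv
    · left; ring
    · right; ring
    · right; linear_combination -h3
    · exact absurd rfl huv
    · left; ring
    · left; linear_combination -h3
    · right; linear_combination -h3
    · exact absurd rfl huv
  shift := by
    intro b hb
    obtain ⟨t, -, rfl⟩ := Finset.mem_image.mp hb
    refine Finset.mem_image.mpr ⟨t + 1, Finset.mem_univ _, ?_⟩
    unfold blk
    rw [Finset.image_insert, Finset.image_insert, Finset.image_singleton]
    have e1 : t + 1 + h = t + h + 1 := by ring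
    have e2 : t + 1 + 2 * h = t + 2 * h + 1 := by ring
    rw [e1, e2]

end family

theorem exists_family (n : ℕ) [NeZero n] (hn : n % 6 = 1 ∨ n % 6 = 3) (h81 : 81 ≤ n) :
    ∃ 𝓕 : Finset (Finset (Finset (ZMod n))), 𝓕.card = 2 ^ (n / 6) ∧ ∀ B ∈ 𝓕, IsCyc B := by
  obtain ⟨L, hL⟩ := exists_heffter n hn h81
  rcases hn with h1 | h3
  · obtain ⟨F, hF1, hF2, hF3⟩ := exists_family_of (n := n) (L := L) short_empty (by
      have := hL.1
      rw [Finset.card_empty]; omega) (fun d hd _ => cover_cast hL d hd (by omega) (by omega)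
        (by omega))
    refine ⟨F, ?_, hF3⟩
    rw [hF2]
    rw [Finset.card_empty] at hF1
    congr 1; omega
  · obtain ⟨h, rfl⟩ : ∃ h, n = 3 * h := ⟨n / 3, by omega⟩
    have hval : ((h : ℕ) : ZMod (3 * h)).val = h := by
      rw [ZMod.val_natCast, Nat.mod_eq_of_lt (by omega)]
    have hval2 : ((2 * h : ℕ) : ZMod (3 * h)).val = 2 * h := by
      rw [ZMod.val_natCast, Nat.mod_eq_of_lt (by omega)]
    have e3 : 3 * ((h : ℕ) : ZMod (3 * h)) = 0 := by
      have : ((3 * h : ℕ) : ZMod (3 * h)) = 0 := ZMod.natCast_self _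
      rw [← this]; push_cast; ring
    have e0 : ((h : ℕ) : ZMod (3 * h)) ≠ 0 := by
      intro e; rw [e, ZMod.val_zero] at hval; omega
    have e20 : 2 * ((h : ℕ) : ZMod (3 * h)) ≠ 0 := by
      intro e
      have : ((2 * h : ℕ) : ZMod (3 * h)) = 0 := by push_cast; exact e
      rw [this, ZMod.val_zero] at hval2; omega
    have hcE : ({((h : ℕ) : ZMod (3 * h)), 2 * ((h : ℕ) : ZMod (3 * h))} :
        Finset (ZMod (3 * h))).card = 2 := by
      rw [Finset.card_pair]
      intro e; apply e0; linear_combination -e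
    obtain ⟨F, hF1, hF2, hF3⟩ := exists_family_of (n := 3 * h) (L := L)
      (short_three _ e3 e0 e20) (by
        have := hL.1
        rw [hcE]; omega) (fun d hd hdE => by
          rw [Finset.mem_insert, Finset.mem_singleton, not_or] at hdE
          refine cover_cast hL d hd ?_ ?_ (by omega)
          · intro e
            apply hdE.1
            have e5 : d.val = h := by omega
            calc d = ((d.val : ℕ) : ZMod (3 * h)) := (ZMod.natCast_zmod_val d).symm
              _ = (h : ZMod (3 * h)) := by rw [e5]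
          · intro e
            apply hdE.2
            have e2 : d.val = 2 * h := by omega
            calc d = ((d.val : ℕ) : ZMod (3 * h)) := (ZMod.natCast_zmod_val d).symm
              _ = ((2 * h : ℕ) : ZMod (3 * h)) := by rw [e2]
              _ = 2 * (h : ZMod (3 * h)) := by push_cast; ring)
    refine ⟨F, ?_, hF3⟩
    rw [hF2]
    rw [hcE] at hF1
    congr 1; omega

lemma growth (M : ℕ) : ∃ N : ℕ, ∀ n, N ≤ n → n * M ≤ 2 ^ (n / 6) := by
  refine ⟨144 * (M + 1), fun n hn => ?_⟩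
  obtain ⟨j, hj⟩ : ∃ j, n / 6 = 2 * j ∨ n / 6 = 2 * j + 1 := ⟨n / 6 / 2, by omega⟩
  have h1 : j + 1 ≤ 2 ^ j := Nat.lt_two_pow_self
  have h2 : (j + 1) * (j + 1) ≤ 2 ^ (n / 6) := by
    calc (j + 1) * (j + 1) ≤ 2 ^ j * 2 ^ j := Nat.mul_le_mul h1 h1
      _ = 2 ^ (2 * j) := by rw [two_mul, pow_add]
      _ ≤ 2 ^ (n / 6) := Nat.pow_le_pow_right (by norm_num) (by omega)
  have h3 : n ≤ 12 * (j + 1) := by omega
  have h4 : 12 * M ≤ j + 1 := by omega
  calc n * M ≤ 12 * (j + 1) * M := Nat.mul_le_mul_right _ h3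
    _ = (j + 1) * (12 * M) := by ring
    _ ≤ (j + 1) * (j + 1) := Nat.mul_le_mul_left _ h4
    _ ≤ _ := h2

theorem main (M : ℕ) : ∃ N : ℕ, ∀ n : ℕ, N ≤ n → (n % 6 = 1 ∨ n % 6 = 3) →
      ∃ B : Fin M → Finset (Finset (ZMod n)),
        (∀ i, (∀ b ∈ B i, b.card = 3) ∧
          (∀ x y : ZMod n, x ≠ y → ∃! b : Finset (ZMod n), b ∈ B i ∧ x ∈ b ∧ y ∈ b) ∧
          (∀ b ∈ B i, b.image (fun x => x + 1) ∈ B i)) ∧
        (∀ i j, i ≠ j → ¬ ∃ σ : Equiv.Perm (ZMod n),
          ∀ b : Finset (ZMod n), b ∈ B i ↔ b.map σ.toEmbedding ∈ B j) := by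
  obtain ⟨N, hN⟩ := growth M
  refine ⟨max N 81, fun n hn hmod => ?_⟩
  have : NeZero n := ⟨by omega⟩
  obtain ⟨F, hF1, hF2⟩ := exists_family n hmod (by omega)
  obtain ⟨f, hf1, hf2⟩ := count M F (fun B hB b hb => by
    rw [act_tau]; exact (hF2 B hB).shift b hb) (by rw [hF1]; exact hN n (by omega))
  exact ⟨f, fun i => ⟨(hF2 _ (hf1 i)).card3, (hF2 _ (hf1 i)).uniq, (hF2 _ (hf1 i)).shift⟩,
    fun i j hij h => hf2 i j hij h⟩

end Pool.Agent.X11.STS
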