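import Pool.Agent.X11.ColPart

/-!
# Coloured binary partitions: the Chebyshev structure of `U_2`
-/

namespace Pool.Agent.X11.ColPart

open PowerSeries

noncomputable section

/-- `z = (1+x)/(1-x)` -/
def z : ℤ⟦X⟧ := (1 + X) * iv 1

lemma iv_one_mul : (1 - X : ℤ⟦X⟧) * iv 1 = 1 := by
  have := mul_iv (d := 1) one_ne_zero
  rwa [pow_one] at this

lemma one_sub_X_ne : (1 - X : ℤ⟦X⟧) ≠ 0 := by
  intro h; have := iv_one_mul; rw [h, zero_mul] at this; exact zero_ne_one this

lemma z_mul : (1 - X) * z = 1 + X := by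
  unfold z; linear_combination (1 + X : ℤ⟦X⟧) * iv_one_mul

lemma z_expand : (1 - X ^ 2) * expand 2 two_ne_zero z = 1 + X ^ 2 := by
  have := congrArg (expand 2 two_ne_zero) z_mul
  simpa [map_mul, map_sub, map_add] using this

lemma z_quad : z ^ 2 + 1 = 2 * expand 2 two_ne_zero z * z := by
  have h2 : (1 - X ^ 2 : ℤ⟦X⟧) ≠ 0 := by
    intro h; have := mul_iv (d := 2) two_ne_zero; rw [h, zero_mul] at this
    exact zero_ne_one this
  have h3 : ((1 - X : ℤ⟦X⟧) ^ 2 * (1 - X ^ 2)) ≠ 0 := mul_ne_zero (pow_ne_zero _ one_sub_X_ne) h2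
  apply mul_left_cancel₀ h3
  linear_combination (1 - X ^ 2 : ℤ⟦X⟧) * ((1 - X) * z + (1 + X)) * z_mul
    - 2 * (1 - X) ^ 2 * z * z_expand - 2 * (1 + X ^ 2) * (1 - X) * z_mul

lemma A_two : A 2 = z * expand 2 two_ne_zero (A 2) := by
  have h := A_expand (k := 2) le_rfl
  have h3 : ((1 - X : ℤ⟦X⟧) ^ 2) ≠ 0 := pow_ne_zero _ one_sub_X_ne
  apply mul_left_cancel₀ h3
  linear_combination h - (1 - X) * expand 2 two_ne_zero (A 2) * z_mul

lemma A_pow (m : ℕ) : A 2 ^ m = z ^ m * expand 2 two_ne_zero (A 2 ^ m) := by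
  conv_lhs => rw [A_two, mul_pow]
  rw [map_pow]

lemma U_one : U 2 (1 : ℤ⟦X⟧) = 1 := by
  ext n
  rw [coeff_U, coeff_one, coeff_one]
  by_cases h : n = 0 <;> simp [h]

lemma iv_one_coeff (n : ℕ) : coeff n (iv 1) = 1 := by
  have h : iv 1 = mk (fun _ => (1 : ℤ)) := by
    have h2 : (1 - X : ℤ⟦X⟧) * mk (fun _ => (1 : ℤ)) = 1 := by
      rw [mul_comm]; exact mk_one_mul_one_sub_eq_one ℤ
    exact mul_left_cancel₀ one_sub_X_ne (iv_one_mul.trans h2.symm)
  rw [h, coeff_mk]

lemma z_coeff (n : ℕ) : coeff n z = if n = 0 then 1 else 2 := by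
  unfold z
  rw [add_mul, one_mul, map_add, iv_one_coeff]
  cases n with
  | zero => simp
  | succ n => rw [coeff_succ_X_mul, iv_one_coeff]; simp

lemma U_z : U 2 z = z := by
  ext n
  rw [coeff_U, z_coeff, z_coeff]
  by_cases h : n = 0 <;> simp [h]

open Polynomial.Chebyshev in
lemma U_z_pow (k : ℕ) : U 2 (z ^ k) = Polynomial.aeval z (T ℤ k) := by
  induction k using Nat.strong_induction_on with
  | _ k ih =>
    match k with
    | 0 => simp [U_one]
    | 1 => simp [U_z]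
    | (k + 2) =>
      have h1 : z ^ (k + 2) = C (2 : ℤ) * (z ^ (k + 1) * expand 2 two_ne_zero z) - z ^ k := by
        have : (C (2 : ℤ) : ℤ⟦X⟧) = 2 := by simp
        rw [this]
        linear_combination z ^ k * z_quad
      rw [h1, U_sub, U_C_mul, U_mul_expand, ih (k + 1) (by omega), ih k (by omega)]
      have h2 : (T ℤ ((k + 2 : ℕ) : ℤ)) = 2 * Polynomial.X * T ℤ ((k + 1 : ℕ) : ℤ) - T ℤ (k : ℤ) := by
        push_cast
        exact T_add_two ℤ k
      rw [h2]
      simp only [map_sub, map_mul, Polynomial.aeval_X, map_ofNat]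
      ring

open Polynomial.Chebyshev in
/-- `Y^k ↦ T_{k+m}(Y)` -/
def tau (m : ℕ) : Polynomial ℤ →ₗ[ℤ] Polynomial ℤ :=
  (Polynomial.basisMonomials ℤ).constr ℤ (fun k => T ℤ ((k + m : ℕ) : ℤ))

/-- `Y^k ↦ U_{k+m}(Y)` -/
def sigma (m : ℕ) : Polynomial ℤ →ₗ[ℤ] Polynomial ℤ :=
  (Polynomial.basisMonomials ℤ).constr ℤ (fun k => Polynomial.Chebyshev.U ℤ ((k + m : ℕ) : ℤ))

lemma tau_X_pow (m k : ℕ) : tau m (Polynomial.X ^ k) = Polynomial.Chebyshev.T ℤ ((k + m : ℕ) : ℤ) := by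
  have h : (Polynomial.X ^ k : Polynomial ℤ) = Polynomial.basisMonomials ℤ k := by
    simp [Polynomial.coe_basisMonomials, ← Polynomial.X_pow_eq_monomial]
  rw [h, tau, Module.Basis.constr_basis]

lemma sigma_X_pow (m k : ℕ) :
    sigma m (Polynomial.X ^ k) = Polynomial.Chebyshev.U ℤ ((k + m : ℕ) : ℤ) := by
  have h : (Polynomial.X ^ k : Polynomial ℤ) = Polynomial.basisMonomials ℤ k := by
    simp [Polynomial.coe_basisMonomials, ← Polynomial.X_pow_eq_monomial]
  rw [h, sigma, Module.Basis.constr_basis]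

lemma poly_ind {p : Polynomial ℤ → Prop} (f : Polynomial ℤ)
    (hadd : ∀ f g, p f → p g → p (f + g)) (hmon : ∀ (a : ℤ) (k : ℕ), p (a • Polynomial.X ^ k)) :
    p f := by
  induction f using Polynomial.induction_on' with
  | add f g hf hg => exact hadd f g hf hg
  | monomial n a =>
    have := hmon a n
    rwa [Polynomial.X_pow_eq_monomial, Polynomial.smul_monomial, smul_eq_mul, mul_one] at this

lemma U_aeval (m : ℕ) (f : Polynomial ℤ) :
    U 2 (z ^ m * Polynomial.aeval z f) = Polynomial.aeval z (tau m f) := by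
  refine poly_ind (p := fun f => U 2 (z ^ m * Polynomial.aeval z f)
    = Polynomial.aeval z (tau m f)) f ?_ ?_
  · intro f g hf hg
    rw [map_add, mul_add, U_add, hf, hg, map_add, map_add]
  · intro a k
    rw [map_smul, map_smul, tau_X_pow, map_smul, map_pow, Polynomial.aeval_X]
    have hC : (C a : ℤ⟦X⟧) = (a : ℤ⟦X⟧) := by simp
    have h1 : z ^ m * (a • z ^ k) = C a * z ^ (k + m) := by
      rw [zsmul_eq_mul, hC]; ring
    rw [h1, U_C_mul, U_z_pow, zsmul_eq_mul, hC]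

lemma coeff_step (m n : ℕ) (f : Polynomial ℤ) :
    coeff (2 * n) (Polynomial.aeval z f * A 2 ^ m)
      = coeff n (Polynomial.aeval z (tau m f) * A 2 ^ m) := by
  rw [← coeff_U, A_pow m]
  have : Polynomial.aeval z f * (z ^ m * expand 2 two_ne_zero (A 2 ^ m))
    = (z ^ m * Polynomial.aeval z f) * expand 2 two_ne_zero (A 2 ^ m) := by ring
  rw [this, U_mul_expand, U_aeval, ← A_pow m]

lemma coeff_iter (m s n : ℕ) (f : Polynomial ℤ) :
    coeff (2 ^ s * n) (Polynomial.aeval z f * A 2 ^ m)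
      = coeff n (Polynomial.aeval z ((tau m)^[s] f) * A 2 ^ m) := by
  induction s generalizing f with
  | zero => simp
  | succ s ih =>
    have : 2 ^ (s + 1) * n = 2 * (2 ^ s * n) := by ring
    rw [this, coeff_step, ih, Function.iterate_succ_apply]

lemma S_diff (m n : ℕ) : S 2 m (4 * n) - S 2 m n
    = coeff n (Polynomial.aeval z (tau m (tau m 1) - 1) * A 2 ^ m) := by
  rw [S_eq le_rfl, S_eq le_rfl]
  have h := coeff_iter m 2 n 1
  simp only [map_one, one_mul, Function.iterate_succ, Function.iterate_zero, Function.comp_apply,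
    id] at h
  have e : 2 ^ 2 * n = 4 * n := by norm_num
  rw [e] at h
  have e2 : Polynomial.aeval z (tau m (tau m 1) - 1) = Polynomial.aeval z (tau m (tau m 1)) - 1 := by
    simp
  rw [h, e2, sub_mul, one_mul, LinearMap.map_sub]

lemma tau_mul (m : ℕ) (h : Polynomial ℤ) :
    tau m ((Polynomial.X ^ 2 - 1) * h) = 2 * (Polynomial.X ^ 2 - 1) * sigma m h := by
  refine poly_ind (p := fun h => tau m ((Polynomial.X ^ 2 - 1) * h)
    = 2 * (Polynomial.X ^ 2 - 1) * sigma m h) h ?_ ?_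
  · intro f g hf hg
    rw [mul_add, map_add, hf, hg, map_add]; ring
  · intro a k
    have h1 : (Polynomial.X ^ 2 - 1 : Polynomial ℤ) * (a • Polynomial.X ^ k)
      = a • (Polynomial.X ^ (k + 2)) - a • Polynomial.X ^ k := by
      rw [mul_smul_comm]; rw [← smul_sub]; congr 1; ring
    rw [h1, map_sub, map_smul, map_smul, map_smul, tau_X_pow, tau_X_pow, sigma_X_pow]
    have h2 := Polynomial.Chebyshev.one_sub_X_sq_mul_U_eq_pol_in_T ℤ ((k + m : ℕ) : ℤ)
    have h3 := Polynomial.Chebyshev.T_add_two ℤ ((k + m : ℕ) : ℤ)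
    have e : ((k + 2 + m : ℕ) : ℤ) = ((k + m : ℕ) : ℤ) + 2 := by push_cast; ring
    rw [e, ← smul_sub, mul_smul_comm]
    congr 1
    linear_combination (2 : Polynomial ℤ) * h2 - h3

lemma tau_iter_mul (m s : ℕ) (h : Polynomial ℤ) :
    (tau m)^[s] ((Polynomial.X ^ 2 - 1) * h)
      = 2 ^ s * (Polynomial.X ^ 2 - 1) * (sigma m)^[s] h := by
  induction s generalizing h with
  | zero => simp
  | succ s ih =>
    rw [Function.iterate_succ_apply, tau_mul, Function.iterate_succ_apply]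
    have : (2 : Polynomial ℤ) * (Polynomial.X ^ 2 - 1) * sigma m h
      = (Polynomial.X ^ 2 - 1) * ((2 : ℤ) • sigma m h) := by
      rw [zsmul_eq_mul]; push_cast; ring
    rw [this, ih]
    have h2 : ∀ t (f : Polynomial ℤ), (sigma m)^[t] ((2 : ℤ) • f) = (2 : ℤ) • (sigma m)^[t] f := by
      intro t
      induction t with
      | zero => intro f; rfl
      | succ t iht => intro f; rw [Function.iterate_succ_apply, map_smul, iht,
                        Function.iterate_succ_apply]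
    rw [h2, zsmul_eq_mul]; push_cast; ring

lemma z_sq_sub : z ^ 2 - 1 = 4 * (X * iv 1 ^ 2) := by
  have h3 : ((1 - X : ℤ⟦X⟧) ^ 2) ≠ 0 := pow_ne_zero _ one_sub_X_ne
  apply mul_left_cancel₀ h3
  linear_combination ((1 - X) * z + (1 + X)) * z_mul
    - 4 * X * ((1 - X) * iv 1 + 1) * iv_one_mul

/-- main formula -/
lemma S_diff_formula (m s n : ℕ) (H : Polynomial ℤ)
    (hR : tau m (tau m 1) - 1 = (Polynomial.X ^ 2 - 1) * H) :
    S 2 m (4 * (2 ^ s * n)) - S 2 m (2 ^ s * n)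
      = 2 ^ (s + 2) * coeff n (X * iv 1 ^ 2 * Polynomial.aeval z ((sigma m)^[s] H) * A 2 ^ m) := by
  rw [S_diff, hR, coeff_iter, tau_iter_mul]
  have : Polynomial.aeval z (2 ^ s * (Polynomial.X ^ 2 - 1) * (sigma m)^[s] H) * A 2 ^ m
    = C ((2 : ℤ) ^ (s + 2)) *
      (X * iv 1 ^ 2 * Polynomial.aeval z ((sigma m)^[s] H) * A 2 ^ m) := by
    simp only [map_mul, map_sub, map_pow, map_one, Polynomial.aeval_X, map_ofNat]
    rw [z_sq_sub]; ring
  rw [this, coeff_C_mul]

end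

end Pool.Agent.X11.ColPart
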