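import Pool.Agent.X11.BinVal

/-!
# Coloured binary partitions: final valuation statements in terms of `S 2 m n`
-/

namespace Pool.Agent.X11.ColPart

open PowerSeries

noncomputable section

lemma sigma_iter_two_pow_mul (m s N : ℕ) (f : Polynomial ℤ) :
    (sigma m)^[s] (2 ^ N * f) = 2 ^ N * (sigma m)^[s] f := by
  have h2 : ∀ t (f : Polynomial ℤ), (sigma m)^[t] (((2 : ℤ) ^ N) • f)
      = ((2 : ℤ) ^ N) • (sigma m)^[t] f := by
    intro t
    induction t with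
    | zero => intro f; rfl
    | succ t iht => intro f; rw [Function.iterate_succ_apply, map_smul, iht,
                      Function.iterate_succ_apply]
  have e : ∀ f : Polynomial ℤ, (2 : Polynomial ℤ) ^ N * f = ((2 : ℤ) ^ N) • f := by
    intro f; rw [zsmul_eq_mul]; push_cast; ring
  rw [e, h2, ← e]

lemma sigma_two_pow_mul (m N : ℕ) (f : Polynomial ℤ) :
    sigma m (2 ^ N * f) = 2 ^ N * sigma m f := sigma_iter_two_pow_mul m 1 N f

/-- difference when `H = 2^N * G` -/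
lemma S_diff_two_pow (m s n N : ℕ) (G : Polynomial ℤ)
    (hR : tau m (tau m 1) - 1 = (Polynomial.X ^ 2 - 1) * (2 ^ N * G)) :
    S 2 m (4 * (2 ^ s * n)) - S 2 m (2 ^ s * n)
      = 2 ^ (s + 2 + N) * coeff n (X * iv 1 ^ 2 * Polynomial.aeval z ((sigma m)^[s] G) * A 2 ^ m) := by
  rw [S_diff_formula m s n _ hR, sigma_iter_two_pow_mul]
  have : X * iv 1 ^ 2 * Polynomial.aeval z (2 ^ N * (sigma m)^[s] G) * A 2 ^ m
    = C ((2 : ℤ) ^ N) * (X * iv 1 ^ 2 * Polynomial.aeval z ((sigma m)^[s] G) * A 2 ^ m) := by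
    simp only [map_mul, map_pow, map_ofNat]
    ring
  rw [this, coeff_C_mul]; ring

/-- even number of colours, exact valuation -/
lemma even_val (a s u t : ℕ) (hu : Odd u) (ht : Odd t) :
    ∃ w : ℤ, Odd w ∧ S 2 (2 ^ (a + 1) * u) (4 * (2 ^ s * t)) - S 2 (2 ^ (a + 1) * u) (2 ^ s * t)
      = 2 ^ (s + 2 * a + 3) * w := by
  obtain ⟨g, h1, -, h3⟩ := cheb_fact u a
  set m := 2 ^ (a + 1) * u with hm
  have hme : Even m := by rw [hm, pow_succ]; exact ⟨2 ^ a * u, by ring⟩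
  have hR := R_even m (2 ^ (2 * a + 1) * g ^ 2) (by
    rw [hm]; push_cast; rw [h1]; ring)
  have hR2 : tau m (tau m 1) - 1
      = (Polynomial.X ^ 2 - 1) * (2 ^ (2 * a + 1) * (g ^ 2 + 2 * sigma m (g ^ 2))) := by
    rw [hR, sigma_two_pow_mul]; ring
  refine ⟨coeff t (X * iv 1 ^ 2 * Polynomial.aeval z
    ((sigma m)^[s] (g ^ 2 + 2 * sigma m (g ^ 2))) * A 2 ^ m), ?_, ?_⟩
  · have hp := last_parity m t ((sigma m)^[s] (g ^ 2 + 2 * sigma m (g ^ 2)))
    rw [parity_iter m hme, h3] at hp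
    rw [← Int.not_even_iff_odd, ← ZMod.intCast_eq_zero_iff_even, hp]
    have e1 : ((t : ℕ) : ZMod 2) = 1 := ZMod.natCast_eq_one_iff_odd.mpr ht
    have e2 : (((u : ℕ) : ℤ) : ZMod 2) = 1 := by
      rw [Int.cast_natCast]; exact ZMod.natCast_eq_one_iff_odd.mpr hu
    rw [e1, e2]; decide
  · rw [S_diff_two_pow m s t _ _ hR2]
    have : s + 2 + (2 * a + 1) = s + 2 * a + 3 := by ring
    rw [this]

/-- `m ≡ -1` modulo `2^a`, `a ≥ 2` -/
lemma odd_dvd (a s u t m : ℕ) (hm : m + 1 = 2 ^ (a + 2) * u) :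
    (2 : ℤ) ^ (s + a + 5) ∣ S 2 m (4 * (2 ^ s * t)) - S 2 m (2 ^ s * t) := by
  obtain ⟨g, h1, h2, -⟩ := cheb_fact u (a + 1)
  have hmz : (2 : ℤ) ^ (a + 1 + 1) * u = (m : ℤ) + 1 := by
    have : ((m + 1 : ℕ) : ℤ) = ((2 ^ (a + 2) * u : ℕ) : ℤ) := by rw [hm]
    push_cast at this
    linarith
  rw [hmz] at h1 h2
  have e : (m : ℤ) + 1 - 1 = m := by ring
  rw [e] at h2
  set T' := Polynomial.Chebyshev.T ℤ (2 ^ (a + 1) * (u : ℤ)) with hT'
  have hT : Polynomial.Chebyshev.T ℤ (m : ℤ) - Polynomial.X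
      = (Polynomial.X ^ 2 - 1) * (2 ^ (a + 2) * (2 ^ (a + 1) * Polynomial.X * g ^ 2 - g * T')) := by
    have h4 := Polynomial.Chebyshev.T_eq_U_sub_X_mul_U ℤ ((m : ℤ) + 1)
    have h5 := Polynomial.Chebyshev.T_eq_U_sub_X_mul_U ℤ (m : ℤ)
    have h6 := Polynomial.Chebyshev.U_add_two ℤ ((m : ℤ) - 1)
    have e1 : (m : ℤ) - 1 + 2 = m + 1 := by ring
    have e2 : (m : ℤ) - 1 + 1 = m := by ring
    rw [e] at h4
    rw [e1, e2] at h6
    have e3 : (2 : Polynomial ℤ) ^ (2 * (a + 1) + 1) = 2 ^ (a + 2) * 2 ^ (a + 1) := by ring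
    rw [e3] at h1
    have e4 : (2 : Polynomial ℤ) ^ (a + 1 + 1) = 2 ^ (a + 2) := by ring
    rw [e4] at h2
    linear_combination Polynomial.X * h1 - (Polynomial.X ^ 2 - 1) * h2 + h5
      - Polynomial.X * h4 - Polynomial.X * h6
  have hR := R_odd m (2 ^ (2 * (a + 1) + 1) * g ^ 2)
    (2 ^ (a + 2) * (2 ^ (a + 1) * Polynomial.X * g ^ 2 - g * T')) (by rw [h1]; ring) hT
  have hR2 : tau m (tau m 1) - 1
      = (Polynomial.X ^ 2 - 1) * (2 ^ (a + 3) * (2 ^ a * g ^ 2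
        + sigma m (2 ^ (a + 1) * Polynomial.X * g ^ 2 - g * T'))) := by
    rw [hR, sigma_two_pow_mul]; ring
  rw [S_diff_two_pow m s t _ _ hR2]
  have : s + 2 + (a + 3) = s + a + 5 := by ring
  rw [this]
  exact dvd_mul_right _ _

end

end Pool.Agent.X11.ColPart
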