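import Pool.Agent.X11.Bin

/-!
# Coloured binary partitions: factorisations of Chebyshev polynomials and parity
-/

namespace Pool.Agent.X11.ColPart

open PowerSeries

noncomputable section

lemma pell (n : ℤ) : (Polynomial.Chebyshev.T ℤ n) ^ 2
    = 1 + (Polynomial.X ^ 2 - 1) * (Polynomial.Chebyshev.U ℤ (n - 1)) ^ 2 := by
  have h1 := congrArg (fun p => p.comp (2 * Polynomial.X))
    (Polynomial.Chebyshev.S_sq_add_S_sq (R := ℤ) (n - 1))
  simp only [Polynomial.sub_comp, Polynomial.add_comp, Polynomial.mul_comp, Polynomial.pow_comp,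
    Polynomial.X_comp, Polynomial.one_comp, Polynomial.Chebyshev.S_comp_two_mul_X] at h1
  have h2 := Polynomial.Chebyshev.T_eq_U_sub_X_mul_U ℤ n
  have e : n - 1 + 1 = n := by ring
  rw [e] at h1
  rw [h2]
  linear_combination h1

lemma T_double (j : ℤ) : Polynomial.Chebyshev.T ℤ (2 * j) = 2 * (Polynomial.Chebyshev.T ℤ j) ^ 2 - 1 := by
  have h := Polynomial.Chebyshev.T_mul_T ℤ j j
  rw [sub_self, Polynomial.Chebyshev.T_zero] at h
  have e : j + j = 2 * j := by ring
  rw [e] at h
  linear_combination -h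

lemma U_double (j : ℤ) : Polynomial.Chebyshev.U ℤ (2 * j - 1)
    = 2 * Polynomial.Chebyshev.T ℤ j * Polynomial.Chebyshev.U ℤ (j - 1) := by
  by_cases hj : j = 0
  · subst hj; simp
  have h := congrArg Polynomial.derivative (T_double j)
  rw [Polynomial.Chebyshev.T_derivative_eq_U] at h
  simp only [Polynomial.derivative_sub, Polynomial.derivative_mul, Polynomial.derivative_pow,
    Polynomial.derivative_one, Polynomial.Chebyshev.T_derivative_eq_U,
    Polynomial.derivative_ofNat] at h
  have h2 : ((2 * j : ℤ) : Polynomial ℤ) ≠ 0 := by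
    exact_mod_cast (by omega : (2 * j : ℤ) ≠ 0)
  apply mul_left_cancel₀ h2
  rw [h]
  push_cast
  simp
  ring

/-- factorisation of `T_{2^{a+1} u} - 1` and of `U_{2^{a+1} u - 1}` -/
lemma cheb_fact (u : ℤ) (a : ℕ) : ∃ g : Polynomial ℤ,
    Polynomial.Chebyshev.T ℤ (2 ^ (a + 1) * u) - 1
      = 2 ^ (2 * a + 1) * (Polynomial.X ^ 2 - 1) * g ^ 2 ∧
    Polynomial.Chebyshev.U ℤ (2 ^ (a + 1) * u - 1)
      = 2 ^ (a + 1) * g * Polynomial.Chebyshev.T ℤ (2 ^ a * u) ∧
    g.eval 1 = u := by
  induction a with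
  | zero =>
    refine ⟨Polynomial.Chebyshev.U ℤ (u - 1), ?_, ?_, ?_⟩
    · simp only [zero_add, pow_one, mul_zero]
      rw [T_double]
      linear_combination (2 : Polynomial ℤ) * pell u
    · simp only [zero_add, pow_one, pow_zero, one_mul]
      rw [U_double]; ring
    · rw [Polynomial.Chebyshev.U_eval_one]; push_cast; ring
  | succ a ih =>
    obtain ⟨g, h1, h2, h3⟩ := ih
    refine ⟨g * Polynomial.Chebyshev.T ℤ (2 ^ a * u), ?_, ?_, ?_⟩
    · have e : (2 : ℤ) ^ (a + 1 + 1) * u = 2 * (2 ^ (a + 1) * u) := by ring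
      have e2 : (2 : ℤ) ^ (a + 1) * u = 2 * (2 ^ a * u) := by ring
      have h4 := T_double (2 ^ a * u)
      rw [← e2] at h4
      rw [e, T_double]
      have e3 : (2 : Polynomial ℤ) ^ (2 * (a + 1) + 1) = 4 * 2 ^ (2 * a + 1) := by ring
      rw [e3]
      linear_combination (2 * Polynomial.Chebyshev.T ℤ (2 ^ (a + 1) * u) + 2) * h1
        + 2 * (2 ^ (2 * a + 1) * (Polynomial.X ^ 2 - 1) * g ^ 2) * h4
    · have e : (2 : ℤ) ^ (a + 1 + 1) * u = 2 * (2 ^ (a + 1) * u) := by ring
      rw [e, U_double, h2]; ring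
    · rw [Polynomial.eval_mul, h3, Polynomial.Chebyshev.T_eval_one, mul_one]

/-- `R = τ²(1) - 1` in terms of the factorisation of `T_m - 1` -/
lemma R_even (m : ℕ) (W : Polynomial ℤ)
    (hW : Polynomial.Chebyshev.T ℤ (m : ℤ) - 1 = (Polynomial.X ^ 2 - 1) * W) :
    tau m (tau m 1) - 1 = (Polynomial.X ^ 2 - 1) * (W + 2 * sigma m W) := by
  have h1 : tau m 1 = Polynomial.Chebyshev.T ℤ (m : ℤ) := by
    have := tau_X_pow m 0
    simpa using this
  have h2 : Polynomial.Chebyshev.T ℤ (m : ℤ) = 1 + (Polynomial.X ^ 2 - 1) * W := by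
    linear_combination hW
  have h3 : tau m (tau m 1) = tau m 1 + tau m ((Polynomial.X ^ 2 - 1) * W) := by
    conv_lhs => rw [h1, h2, LinearMap.map_add]
  rw [h3, tau_mul, h1]
  linear_combination hW

/-- `R = τ²(1) - 1` in terms of `T_m - Y` and `T_{m+1} - 1` -/
lemma R_odd (m : ℕ) (W V : Polynomial ℤ)
    (hW : Polynomial.Chebyshev.T ℤ ((m : ℤ) + 1) - 1 = (Polynomial.X ^ 2 - 1) * W)
    (hV : Polynomial.Chebyshev.T ℤ (m : ℤ) - Polynomial.X = (Polynomial.X ^ 2 - 1) * V) :
    tau m (tau m 1) - 1 = (Polynomial.X ^ 2 - 1) * (W + 2 * sigma m V) := by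
  have h1 : tau m 1 = Polynomial.Chebyshev.T ℤ (m : ℤ) := by
    have := tau_X_pow m 0
    simpa using this
  have h2 : Polynomial.Chebyshev.T ℤ (m : ℤ) = Polynomial.X + (Polynomial.X ^ 2 - 1) * V := by
    linear_combination hV
  have h4 : tau m Polynomial.X = Polynomial.Chebyshev.T ℤ ((m : ℤ) + 1) := by
    have := tau_X_pow m 1
    rw [pow_one] at this
    rw [this]; congr 1; push_cast; ring
  have h3 : tau m (tau m 1) = tau m Polynomial.X + tau m ((Polynomial.X ^ 2 - 1) * V) := by
    rw [h1]; conv_lhs => rw [h2, LinearMap.map_add]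
  rw [h3, tau_mul, h4]
  linear_combination hW

/-! ### Parity -/

/-- sum of the even-indexed coefficients, modulo 2 -/
def beta : Polynomial ℤ →ₗ[ℤ] ZMod 2 :=
  (Polynomial.basisMonomials ℤ).constr ℤ (fun k => if Even k then (1 : ZMod 2) else 0)

lemma beta_X_pow (k : ℕ) : beta (Polynomial.X ^ k) = if Even k then 1 else 0 := by
  have h : (Polynomial.X ^ k : Polynomial ℤ) = Polynomial.basisMonomials ℤ k := by
    simp [Polynomial.coe_basisMonomials, ← Polynomial.X_pow_eq_monomial]
  rw [h, beta, Module.Basis.constr_basis]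

lemma beta_two_mul (f : Polynomial ℤ) : beta (2 * f) = 0 := by
  have : (2 : Polynomial ℤ) * f = (2 : ℤ) • f := by rw [zsmul_eq_mul]; push_cast; ring
  rw [this, map_smul, zsmul_eq_mul]
  have : ((2 : ℤ) : ZMod 2) = 0 := by decide
  rw [this, zero_mul]

lemma beta_U (j : ℕ) : beta (Polynomial.Chebyshev.U ℤ (j : ℤ)) = if Even j then 1 else 0 := by
  induction j using Nat.strong_induction_on with
  | _ j ih =>
    match j with
    | 0 =>
      have := beta_X_pow 0
      simpa using this
    | 1 =>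
      have := beta_two_mul Polynomial.X
      simpa using this
    | (j + 2) =>
      have h := Polynomial.Chebyshev.U_add_two ℤ (j : ℤ)
      push_cast
      rw [h, map_sub, mul_assoc, beta_two_mul, ih j (by omega), zero_sub]
      have e : Even (j + 2) ↔ Even j := by
        rw [Nat.even_add]; simp
      simp only [e]
      split_ifs <;> decide

lemma sigma_eval (m : ℕ) (hm : Even m) (f : Polynomial ℤ) :
    (((sigma m f).eval 1 : ℤ) : ZMod 2) = beta f := by
  refine poly_ind (p := fun f => (((sigma m f).eval 1 : ℤ) : ZMod 2) = beta f) f ?_ ?_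
  · intro f g hf hg
    rw [map_add, Polynomial.eval_add, Int.cast_add, hf, hg, map_add]
  · intro a k
    have key : ((((k + m : ℕ) : ℤ) + 1 : ℤ) : ZMod 2) = if Even k then 1 else 0 := by
      obtain ⟨r, rfl⟩ := hm
      have h2 : (2 : ZMod 2) = 0 := by decide
      split_ifs with h
      · obtain ⟨t, rfl⟩ := h
        push_cast
        linear_combination ((t : ZMod 2) + r) * h2
      · rw [Nat.not_even_iff_odd] at h
        obtain ⟨t, rfl⟩ := h
        push_cast
        linear_combination ((t : ZMod 2) + r + 1) * h2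
    rw [map_smul, map_smul, sigma_X_pow, beta_X_pow, Polynomial.eval_smul,
      Polynomial.Chebyshev.U_eval_one, smul_eq_mul, Int.cast_mul]
    have e : a • (if Even k then (1 : ZMod 2) else 0) = (a : ZMod 2) * (if Even k then 1 else 0) :=
      zsmul_eq_mul _ _
    rw [e, ← key]
    norm_num

lemma beta_sigma (m : ℕ) (hm : Even m) (f : Polynomial ℤ) : beta (sigma m f) = beta f := by
  refine poly_ind (p := fun f => beta (sigma m f) = beta f) f ?_ ?_
  · intro f g hf hg
    rw [map_add, map_add, hf, hg, map_add]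
  · intro a k
    rw [map_smul, map_smul, map_smul, sigma_X_pow, beta_X_pow, beta_U]
    have e : Even (k + m) ↔ Even k := by
      rw [Nat.even_add]; simp [hm]
    simp only [e]

lemma beta_sq (f : Polynomial ℤ) : beta (f ^ 2) = ((f.eval 1 : ℤ) : ZMod 2) := by
  refine poly_ind (p := fun f => beta (f ^ 2) = ((f.eval 1 : ℤ) : ZMod 2)) f ?_ ?_
  · intro f g hf hg
    have : (f + g) ^ 2 = f ^ 2 + 2 * (f * g) + g ^ 2 := by ring
    rw [this, map_add, map_add, beta_two_mul, hf, hg, Polynomial.eval_add]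
    push_cast; ring
  · intro a k
    have : (a • (Polynomial.X : Polynomial ℤ) ^ k) ^ 2 = (a ^ 2) • Polynomial.X ^ (2 * k) := by
      rw [zsmul_eq_mul, zsmul_eq_mul]; push_cast; ring
    rw [this, map_smul, beta_X_pow, if_pos (even_two_mul k), Polynomial.eval_smul, zsmul_eq_mul,
      smul_eq_mul]
    simp only [Polynomial.eval_pow, Polynomial.eval_X, one_pow, mul_one]
    push_cast
    generalize (a : ZMod 2) = b
    revert b; decide

lemma parity_iter (m : ℕ) (hm : Even m) (g : Polynomial ℤ) (s : ℕ) :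
    ((((sigma m)^[s] (g ^ 2 + 2 * sigma m (g ^ 2))).eval 1 : ℤ) : ZMod 2)
      = ((g.eval 1 : ℤ) : ZMod 2) := by
  have hb : ∀ t f, beta ((sigma m)^[t] f) = beta f := by
    intro t
    induction t with
    | zero => intro f; rfl
    | succ t ih => intro f; rw [Function.iterate_succ_apply, ih, beta_sigma m hm]
  cases s with
  | zero =>
    simp only [Function.iterate_zero, id, Polynomial.eval_add, Polynomial.eval_mul,
      Polynomial.eval_pow, Polynomial.eval_ofNat]
    push_cast
    have h2 : (2 : ZMod 2) = 0 := by decide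
    rw [h2, zero_mul, add_zero]
    generalize ((g.eval 1 : ℤ) : ZMod 2) = b
    revert b; decide
  | succ s =>
    rw [Function.iterate_succ_apply', sigma_eval m hm, hb, map_add, beta_two_mul, add_zero, beta_sq]

/-- reduction mod 2 of power series -/
abbrev red : ℤ⟦X⟧ →+* (ZMod 2)⟦X⟧ := PowerSeries.map (Int.castRingHom (ZMod 2))

lemma red_z : red z = 1 := by
  ext n
  rw [coeff_map, z_coeff, coeff_one]
  split_ifs <;> simp
  decide

lemma A_const : coeff 0 (A 2) = 1 := by
  have h := X_pow_dvd_iff.mp (A_sub (k := 2) le_rfl 0) 0 (by omega)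
  rw [map_sub] at h
  have h2 : coeff 0 (P 2 0) = 1 := by simp [P, iv_one_coeff]
  linarith

lemma red_A : red (A 2) = 1 := by
  have h : red (A 2) = expand 2 two_ne_zero (red (A 2)) := by
    conv_lhs => rw [A_two, map_mul, red_z, one_mul, map_expand]
  ext n
  induction n using Nat.strong_induction_on with
  | _ n ih =>
    by_cases hn : n = 0
    · subst hn
      rw [coeff_map, A_const]; simp
    · rw [h, coeff_expand, coeff_one, if_neg hn]
      split_ifs with h2
      · rw [ih (n / 2) (by omega), coeff_one, if_neg]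
        omega
      · rfl

lemma red_aeval (f : Polynomial ℤ) : red (Polynomial.aeval z f) = C ((f.eval 1 : ℤ) : ZMod 2) := by
  refine poly_ind (p := fun f => red (Polynomial.aeval z f) = C ((f.eval 1 : ℤ) : ZMod 2)) f ?_ ?_
  · intro f g hf hg
    rw [map_add, map_add, hf, hg, Polynomial.eval_add, Int.cast_add, map_add]
  · intro a k
    rw [map_smul, map_pow, Polynomial.aeval_X, zsmul_eq_mul, map_mul, map_pow, red_z, one_pow,
      mul_one, Polynomial.eval_smul, Polynomial.eval_pow, Polynomial.eval_X, one_pow, smul_eq_mul,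
      mul_one]
    simp

lemma koebe_coeff (n : ℕ) : coeff n (X * iv 1 ^ 2) = (n : ℤ) := by
  cases n with
  | zero => simp
  | succ n =>
    rw [coeff_succ_X_mul, pow_two, coeff_mul]
    simp [iv_one_coeff]

/-- parity of the last factor -/
lemma last_parity (m n : ℕ) (f : Polynomial ℤ) :
    ((coeff n (X * iv 1 ^ 2 * Polynomial.aeval z f * A 2 ^ m) : ℤ) : ZMod 2)
      = (n : ZMod 2) * ((f.eval 1 : ℤ) : ZMod 2) := by
  have h : ((coeff n (X * iv 1 ^ 2 * Polynomial.aeval z f * A 2 ^ m) : ℤ) : ZMod 2)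
      = coeff n (red (X * iv 1 ^ 2 * Polynomial.aeval z f * A 2 ^ m)) := by
    rw [coeff_map]; rfl
  have h2 : red (X * iv 1 ^ 2 * Polynomial.aeval z f * A 2 ^ m)
      = C ((f.eval 1 : ℤ) : ZMod 2) * red (X * iv 1 ^ 2) := by
    rw [RingHom.map_mul, RingHom.map_mul red (X * iv 1 ^ 2), RingHom.map_pow, red_A, one_pow,
      mul_one, red_aeval, mul_comm]
  rw [h, h2, coeff_C_mul, coeff_map, koebe_coeff]
  simp [mul_comm]

end

end Pool.Agent.X11.ColPart
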