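import Pool.Agent.X11.F729

/-!
# A root of `t^6 + t^5 + 2` in the field with 729 elements
-/

namespace Pool.Agent.X11.Bose

open Polynomial

/-- field with 729 elements -/
abbrev K := GaloisField 3 6

noncomputable instance : Fintype K := Fintype.ofFinite K

lemma card_K : Fintype.card K = 729 := by
  rw [← Nat.card_eq_fintype_card]
  exact (GaloisField.card 3 6 (by norm_num)).trans (by norm_num)

lemma h0 : (3 : K) = 0 := by
  have := CharP.cast_eq_zero K 3
  exact_mod_cast this

/-- the polynomial -/
noncomputable def P : (ZMod 3)[X] := 2 + X ^ 5 + X ^ 6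

lemma natDegree_P : P.natDegree = 6 := by
  unfold P; compute_degree!

lemma P_ne : P ≠ 0 := by
  intro h; have := natDegree_P; rw [h, natDegree_zero] at this; omega

lemma dvd_P : P ∣ X ^ 729 - X := by
  have hP : (2 : AdjoinRoot P) + (AdjoinRoot.root P) ^ 5 + (AdjoinRoot.root P) ^ 6 = 0 := by
    have h := AdjoinRoot.mk_self (f := P)
    conv at h => lhs; arg 2; unfold P
    simpa only [map_add, map_pow, AdjoinRoot.mk_X, map_ofNat] using h
  have h3 : (3 : AdjoinRoot P) = 0 := by
    have h : (3 : ZMod 3) = 0 := by decide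
    have := congrArg (AdjoinRoot.of P) h
    simpa only [map_ofNat, map_zero] using this
  have h := F729.p729 hP h3
  rw [← AdjoinRoot.mk_eq_zero, map_sub, map_pow, AdjoinRoot.mk_X, h, sub_self]

lemma exists_root : ∃ t : K, 2 + t ^ 5 + t ^ 6 = 0 := by
  obtain ⟨Q, hQ⟩ := dvd_P
  have hne : (X ^ 729 - X : (ZMod 3)[X]) ≠ 0 := by
    intro h
    have h2 : (X ^ 729 - X : (ZMod 3)[X]).natDegree = 729 := by compute_degree!
    rw [h, natDegree_zero] at h2; omega
  have hQ0 : Q ≠ 0 := by rintro rfl; rw [mul_zero] at hQ; exact hne hQ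
  have hdeg : Q.natDegree = 723 := by
    have h2 : (X ^ 729 - X : (ZMod 3)[X]).natDegree = 729 := by compute_degree!
    rw [hQ, natDegree_mul P_ne hQ0, natDegree_P] at h2; omega
  have hinj := (algebraMap (ZMod 3) K).injective
  have hQ' : Q.map (algebraMap (ZMod 3) K) ≠ 0 := by
    rwa [Ne, Polynomial.map_eq_zero_iff hinj]
  obtain ⟨t, ht⟩ := exists_eval_ne_zero_of_natDegree_lt_card (Q.map (algebraMap (ZMod 3) K)) hQ' (by
    rw [natDegree_map, hdeg, Cardinal.mk_fintype, card_K]
    exact_mod_cast (by norm_num : 723 < 729))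
  refine ⟨t, ?_⟩
  have h1 : (P.map (algebraMap (ZMod 3) K)).eval t * (Q.map (algebraMap (ZMod 3) K)).eval t = 0 := by
    rw [← eval_mul, ← Polynomial.map_mul, ← hQ]
    simp only [Polynomial.map_sub, Polynomial.map_pow, map_X, eval_sub, eval_pow, eval_X]
    have := FiniteField.pow_card t
    rw [card_K] at this
    rw [this, sub_self]
  have h2 := (mul_eq_zero.mp h1).resolve_right ht
  unfold P at h2
  simpa using h2

section facts

variable {t : K} (hP : 2 + t ^ 5 + t ^ 6 = 0)

include hP

lemma t_ne : t ≠ 0 := by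
  rintro rfl
  have h1 : (2 : K) = 0 := by simpa using hP
  have h2 : (1 : K) = 0 := by linear_combination h0 - h1
  exact one_ne_zero h2

lemma orderOf_t : orderOf t = 728 := by
  have h364 := F729.p364 hP h0
  refine orderOf_eq_of_pow_and_pow_div_prime (by norm_num) ?_ ?_
  · have : t ^ 728 = (t ^ 364) ^ 2 := by rw [← pow_mul]
    rw [this, h364]
    linear_combination h0
  · intro p hp hdvd
    have hcases : p = 2 ∨ p = 7 ∨ p = 13 := by
      have h728 : (728 : ℕ) = 2 ^ 3 * 7 * 13 := by norm_num
      rw [h728] at hdvd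
      rcases (Nat.Prime.dvd_mul hp).mp hdvd with h | h
      · rcases (Nat.Prime.dvd_mul hp).mp h with h | h
        · left
          exact (Nat.prime_dvd_prime_iff_eq hp Nat.prime_two).mp (hp.dvd_of_dvd_pow h)
        · right; left
          exact (Nat.prime_dvd_prime_iff_eq hp (by norm_num)).mp h
      · right; right
        exact (Nat.prime_dvd_prime_iff_eq hp (by norm_num)).mp h
    rcases hcases with rfl | rfl | rfl
    · intro h
      have e : 728 / 2 = 364 := by norm_num
      rw [e, h364] at h
      have : (1 : K) = 0 := by linear_combination h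
      exact one_ne_zero this
    · intro h
      have e : 728 / 7 = 104 := by norm_num
      rw [e] at h
      have := F729.i104 hP h0
      rw [h, sub_self, zero_mul] at this
      exact zero_ne_one this
    · intro h
      have e : 728 / 13 = 56 := by norm_num
      rw [e] at h
      have := F729.i56 hP h0
      rw [h, sub_self, zero_mul] at this
      exact zero_ne_one this

lemma generator (x : K) (hx : x ≠ 0) : ∃ n : ℕ, t ^ n = x := by
  classical
  set u : Kˣ := Units.mk0 t (t_ne hP) with hu
  have ho : orderOf u = 728 := by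
    rw [← orderOf_units, hu, Units.val_mk0]; exact orderOf_t hP
  have htop : Subgroup.zpowers u = ⊤ := by
    apply Subgroup.eq_top_of_card_eq
    rw [Nat.card_zpowers, ho, Nat.card_eq_fintype_card, Fintype.card_units, card_K]
  have hmem : Units.mk0 x hx ∈ Subgroup.zpowers u := by rw [htop]; exact Subgroup.mem_top _
  rw [← (isOfFinOrder_of_finite u).mem_powers_iff_mem_zpowers] at hmem
  obtain ⟨n, hn⟩ := hmem
  refine ⟨n, ?_⟩
  have := congrArg Units.val hn
  simpa [hu] using this

lemma pow_eq_iff (n m : ℕ) : t ^ n = t ^ m ↔ n ≡ m [MOD 728] := by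
  have h := pow_eq_pow_iff_modEq (x := Units.mk0 t (t_ne hP)) (n := n) (m := m)
  rw [← orderOf_units, Units.val_mk0, orderOf_t hP] at h
  rw [← h, ← Units.val_inj, Units.val_pow_eq_pow_val, Units.val_pow_eq_pow_val, Units.val_mk0]

end facts

/-- elements not fixed by `x ↦ x^9` and `x ↦ x^27` have degree 6 -/
lemma degree_six {x : K} (h9 : x ^ 9 ≠ x) (h27 : x ^ 27 ≠ x) :
    (minpoly (ZMod 3) x).natDegree = 6 := by
  have hint : IsIntegral (ZMod 3) x := Algebra.IsIntegral.isIntegral x
  have hfin := IntermediateField.adjoin.finrank hint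
  set d := (minpoly (ZMod 3) x).natDegree with hd
  have hmul := Module.finrank_mul_finrank (ZMod 3) (IntermediateField.adjoin (ZMod 3) {x}) K
  rw [hfin, GaloisField.finrank 3 (by norm_num : (6 : ℕ) ≠ 0)] at hmul
  have hdvd : d ∣ 6 := ⟨_, hmul.symm⟩
  have hpow : x ^ (3 ^ d) = x := by
    set y : IntermediateField.adjoin (ZMod 3) {x} :=
      ⟨x, IntermediateField.mem_adjoin_simple_self (ZMod 3) x⟩ with hy
    have : Fintype (IntermediateField.adjoin (ZMod 3) {x}) := Fintype.ofFinite _
    have hc : Fintype.card (IntermediateField.adjoin (ZMod 3) {x}) = 3 ^ d := by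
      rw [Module.card_eq_pow_finrank (K := ZMod 3), hfin, ZMod.card]
    have h := FiniteField.pow_card y
    rw [hc] at h
    exact congrArg Subtype.val h
  have hd4 : d = 1 ∨ d = 2 ∨ d = 3 ∨ d = 6 := by
    have hle := Nat.le_of_dvd (by norm_num) hdvd
    interval_cases d <;> omega
  rcases hd4 with h | h | h | h
  · exfalso; apply h9
    rw [h] at hpow
    have : x ^ 9 = (x ^ (3 ^ 1)) ^ 3 := by rw [← pow_mul]; norm_num
    rw [this, hpow]
    simpa using hpow
  · exfalso; apply h9; rw [h] at hpow; exact hpow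
  · exfalso; apply h27; rw [h] at hpow; exact hpow
  · exact h

end Pool.Agent.X11.Bose
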