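import Mathlib

/-!
# Coloured `k`-ary partitions: generating functions and the operator `U_k`
-/

namespace Pool.Agent.X11.ColPart

open PowerSeries

/-- `S k m n` is the coefficient of `x^n` in
`(1-x)^{-m} ∏_{j ≥ 0} (1-x^{k^j})^{-(k-1)m}`; the factors with `j > n` do not influence this
coefficient (for `k ≥ 2`), so the product is cut at `j = n`. -/
noncomputable def S (k m n : ℕ) : ℤ :=
  coeff n ((invOfUnit (1 - X : ℤ⟦X⟧) 1) ^ m *
    ∏ j ∈ Finset.range (n + 1), (invOfUnit (1 - X ^ (k ^ j) : ℤ⟦X⟧) 1) ^ ((k - 1) * m))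

/-- inverse of `1 - x^d` -/
noncomputable def iv (d : ℕ) : ℤ⟦X⟧ := invOfUnit (1 - X ^ d : ℤ⟦X⟧) 1

lemma mul_iv {d : ℕ} (hd : d ≠ 0) : (1 - X ^ d : ℤ⟦X⟧) * iv d = 1 := by
  unfold iv
  apply mul_invOfUnit
  simp [hd]

lemma iv_one : iv 1 = invOfUnit (1 - X : ℤ⟦X⟧) 1 := by simp [iv]

/-- partial products for `m = 1` -/
noncomputable def P (k N : ℕ) : ℤ⟦X⟧ := iv 1 * ∏ j ∈ Finset.range N, (iv (k ^ j)) ^ (k - 1)

noncomputable def A (k : ℕ) : ℤ⟦X⟧ := mk (fun n => coeff n (P k (n + 1)))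

lemma X_pow_dvd_iv_sub_one {d N : ℕ} (hd : d ≠ 0) (h : N ≤ d) : (X ^ N : ℤ⟦X⟧) ∣ iv d - 1 := by
  have h1 : iv d - 1 = X ^ d * iv d := by linear_combination mul_iv hd
  rw [h1]
  exact Dvd.dvd.mul_right (pow_dvd_pow _ h) _

lemma P_succ_sub {k : ℕ} (hk : 2 ≤ k) (N : ℕ) : (X ^ (N + 1) : ℤ⟦X⟧) ∣ P k (N + 1) - P k N := by
  have h1 : P k (N + 1) - P k N = P k N * ((iv (k ^ N)) ^ (k - 1) - 1) := by
    unfold P; rw [Finset.prod_range_succ]; ring
  rw [h1]
  apply Dvd.dvd.mul_left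
  have h2 : (iv (k ^ N)) - 1 ∣ (iv (k ^ N)) ^ (k - 1) - 1 := sub_one_dvd_pow_sub_one _ _
  refine dvd_trans (X_pow_dvd_iv_sub_one (by positivity) ?_) h2
  exact Nat.lt_pow_self (by omega)
where
  sub_one_dvd_pow_sub_one (a : ℤ⟦X⟧) (n : ℕ) : a - 1 ∣ a ^ n - 1 := by
    simpa using sub_dvd_pow_sub_pow a 1 n

lemma P_sub {k : ℕ} (hk : 2 ≤ k) (N : ℕ) : ∀ M, N ≤ M → (X ^ (N + 1) : ℤ⟦X⟧) ∣ P k M - P k N := by
  intro M hM
  induction M, hM using Nat.le_induction with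
  | base => simp
  | succ M hM ih =>
    have h : P k (M + 1) - P k N = (P k (M + 1) - P k M) + (P k M - P k N) := by ring
    rw [h]
    exact dvd_add (dvd_trans (pow_dvd_pow _ (by omega)) (P_succ_sub hk M)) ih

lemma A_sub {k : ℕ} (hk : 2 ≤ k) (N : ℕ) : (X ^ (N + 1) : ℤ⟦X⟧) ∣ A k - P k N := by
  rw [X_pow_dvd_iff]
  intro n hn
  rw [map_sub, A, coeff_mk]
  rcases le_total N (n + 1) with h | h
  · have := X_pow_dvd_iff.mp (P_sub hk N (n + 1) h) n (by omega)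
    rw [map_sub] at this; exact this
  · have := X_pow_dvd_iff.mp (P_sub hk (n + 1) N h) n (by omega)
    rw [map_sub] at this; linarith

lemma S_eq {k : ℕ} (hk : 2 ≤ k) (m n : ℕ) : S k m n = coeff n (A k ^ m) := by
  have h1 : (X ^ (n + 2) : ℤ⟦X⟧) ∣ A k ^ m - P k (n + 1) ^ m :=
    dvd_trans (A_sub hk (n + 1)) (sub_dvd_pow_sub_pow _ _ _)
  have h2 := X_pow_dvd_iff.mp h1 n (by omega)
  rw [map_sub] at h2
  have h3 : P k (n + 1) ^ m = (invOfUnit (1 - X : ℤ⟦X⟧) 1) ^ m *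
    ∏ j ∈ Finset.range (n + 1), (invOfUnit (1 - X ^ (k ^ j) : ℤ⟦X⟧) 1) ^ ((k - 1) * m) := by
    unfold P
    rw [mul_pow, iv_one, ← Finset.prod_pow]
    congr 1
    refine Finset.prod_congr rfl (fun j _ => ?_)
    rw [← pow_mul]; rfl
  unfold S
  rw [← h3]; linarith

lemma expand_iv {k : ℕ} (hk : k ≠ 0) {d : ℕ} (hd : d ≠ 0) : expand k hk (iv d) = iv (k * d) := by
  have h1 := congrArg (expand k hk) (mul_iv hd)
  rw [map_mul, map_sub, map_one, map_pow, expand_X, ← pow_mul] at h1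
  have h2 := mul_iv (d := k * d) (by positivity)
  have h3 : (1 - X ^ (k * d) : ℤ⟦X⟧) ≠ 0 := by
    intro h; rw [h, zero_mul] at h2; exact zero_ne_one h2
  exact mul_left_cancel₀ h3 (h1.trans h2.symm)

lemma P_expand {k : ℕ} (hk : 2 ≤ k) (N : ℕ) :
    (1 - X) ^ k * P k (N + 1) = (1 - X ^ k) * expand k (by omega) (P k N) := by
  have hk0 : k ≠ 0 := by omega
  have h1 : expand k hk0 (P k N) = iv k * ∏ j ∈ Finset.range N, (iv (k ^ (j + 1))) ^ (k - 1) := by
    unfold P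
    rw [map_mul, expand_iv hk0 one_ne_zero, mul_one, map_prod]
    congr 1
    refine Finset.prod_congr rfl (fun j _ => ?_)
    rw [map_pow, expand_iv hk0 (by positivity), pow_succ']
  have h2 : P k (N + 1) = iv 1 ^ k * ∏ j ∈ Finset.range N, (iv (k ^ (j + 1))) ^ (k - 1) := by
    unfold P
    rw [Finset.prod_range_succ']
    have : iv 1 ^ k = iv 1 * iv 1 ^ (k - 1) := by
      rw [← pow_succ']; congr 1; omega
    rw [this, pow_zero]; ring
  have h3 : (1 - X : ℤ⟦X⟧) ^ k * iv 1 ^ k = 1 := by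
    rw [← mul_pow]
    have := mul_iv (d := 1) one_ne_zero
    rw [pow_one] at this
    rw [this, one_pow]
  have h4 := mul_iv (d := k) hk0
  rw [h1, h2]
  linear_combination (∏ j ∈ Finset.range N, (iv (k ^ (j + 1))) ^ (k - 1)) * (h3 - h4)

lemma X_pow_dvd_expand {k : ℕ} (hk : 2 ≤ k) (N : ℕ) (f : ℤ⟦X⟧) (h : (X ^ N : ℤ⟦X⟧) ∣ f) :
    (X ^ N : ℤ⟦X⟧) ∣ expand k (by omega) f := by
  obtain ⟨g, rfl⟩ := h
  rw [map_mul, map_pow, expand_X, ← pow_mul]
  apply Dvd.dvd.mul_right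
  apply pow_dvd_pow
  nlinarith

/-- functional equation `(1-x)^k A(x) = (1-x^k) A(x^k)` -/
lemma A_expand {k : ℕ} (hk : 2 ≤ k) :
    (1 - X) ^ k * A k = (1 - X ^ k) * expand k (by omega) (A k) := by
  rw [← sub_eq_zero]
  ext n
  rw [map_zero]
  have h1 : (X ^ (n + 1) : ℤ⟦X⟧) ∣
      (1 - X) ^ k * A k - (1 - X ^ k) * expand k (by omega) (A k) := by
    have e : (1 - X) ^ k * A k - (1 - X ^ k) * expand k (by omega) (A k)
      = (1 - X) ^ k * (A k - P k (n + 1))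
        - (1 - X ^ k) * expand k (by omega) (A k - P k n) := by
      rw [map_sub]
      linear_combination P_expand hk n
    rw [e]
    apply dvd_sub
    · apply Dvd.dvd.mul_left
      exact dvd_trans (pow_dvd_pow _ (by omega)) (A_sub hk (n + 1))
    · apply Dvd.dvd.mul_left
      exact X_pow_dvd_expand hk _ _ (A_sub hk n)
  exact X_pow_dvd_iff.mp h1 n (by omega)

/-! ### The operator `U` -/

variable {R : Type*} [CommRing R]

/-- `U k (∑ a_n x^n) = ∑ a_{kn} x^n` -/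
noncomputable def U (k : ℕ) (f : R⟦X⟧) : R⟦X⟧ := mk (fun n => coeff (k * n) f)

@[simp] lemma coeff_U (k n : ℕ) (f : R⟦X⟧) : coeff n (U k f) = coeff (k * n) f := by simp [U]

lemma U_add (k : ℕ) (f g : R⟦X⟧) : U k (f + g) = U k f + U k g := by ext n; simp
lemma U_sub (k : ℕ) (f g : R⟦X⟧) : U k (f - g) = U k f - U k g := by ext n; simp
lemma U_C_mul (k : ℕ) (a : R) (f : R⟦X⟧) : U k (C a * f) = C a * U k f := by ext n; simp

lemma U_mul_expand {k : ℕ} (hk : k ≠ 0) (f g : R⟦X⟧) : U k (f * expand k hk g) = U k f * g := by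
  ext n
  have hinj : Set.InjOn (fun p : ℕ × ℕ => (k * p.1, k * p.2))
      (Finset.HasAntidiagonal.antidiagonal n : Finset (ℕ × ℕ)) := by
    intro a _ b _ h
    simp only [Prod.mk.injEq] at h
    exact Prod.ext (Nat.eq_of_mul_eq_mul_left (Nat.pos_of_ne_zero hk) h.1)
      (Nat.eq_of_mul_eq_mul_left (Nat.pos_of_ne_zero hk) h.2)
  rw [coeff_U, coeff_mul, coeff_mul]
  have h1 : ∑ p ∈ (Finset.HasAntidiagonal.antidiagonal n).image
      (fun p : ℕ × ℕ => (k * p.1, k * p.2)), coeff p.1 f * coeff p.2 (expand k hk g)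
      = ∑ p ∈ Finset.HasAntidiagonal.antidiagonal (k * n),
        coeff p.1 f * coeff p.2 (expand k hk g) := by
    apply Finset.sum_subset
    · intro q hq
      rw [Finset.mem_image] at hq
      obtain ⟨p, hp, rfl⟩ := hq
      rw [Finset.HasAntidiagonal.mem_antidiagonal] at hp ⊢
      rw [← mul_add, hp]
    · intro q hq hq2
      rw [Finset.HasAntidiagonal.mem_antidiagonal] at hq
      rw [coeff_expand]
      split_ifs with h
      · exfalso
        apply hq2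
        obtain ⟨j, hj⟩ := h
        rw [hj] at hq
        have h1 : k ∣ q.1 := by
          have : q.1 = k * n - k * j := by omega
          rw [this, ← Nat.mul_sub]; exact dvd_mul_right _ _
        obtain ⟨i, hi⟩ := h1
        rw [Finset.mem_image]
        refine ⟨(i, j), ?_, Prod.ext hi.symm hj.symm⟩
        rw [Finset.HasAntidiagonal.mem_antidiagonal]
        rw [hi, ← mul_add] at hq
        exact Nat.eq_of_mul_eq_mul_left (Nat.pos_of_ne_zero hk) hq
      · rw [mul_zero]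
  rw [← h1, Finset.sum_image hinj]
  refine Finset.sum_congr rfl (fun p _ => ?_)
  rw [coeff_U, coeff_expand_mul]

end Pool.Agent.X11.ColPart
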