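import Mathlib

/-!
# Computations in the field with 729 elements, generated by a root of `t^6 + t^5 + 2`
-/

set_option linter.unusedVariables false

namespace Pool.Agent.X11.F729

lemma p1 {R : Type*} [CommRing R] {t : R} (hP : 2 + t ^ 5 + t ^ 6 = 0) (h0 : (3 : R) = 0) :
    t ^ 1 = t := by
  rw [pow_one]

lemma p2 {R : Type*} [CommRing R] {t : R} (hP : 2 + t ^ 5 + t ^ 6 = 0) (h0 : (3 : R) = 0) :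
    t ^ 2 = t ^ 2 := by
  rfl

lemma p3 {R : Type*} [CommRing R] {t : R} (hP : 2 + t ^ 5 + t ^ 6 = 0) (h0 : (3 : R) = 0) :
    t ^ 3 = t ^ 3 := by
  rfl

lemma p4 {R : Type*} [CommRing R] {t : R} (hP : 2 + t ^ 5 + t ^ 6 = 0) (h0 : (3 : R) = 0) :
    t ^ 4 = t ^ 4 := by
  rfl

lemma p5 {R : Type*} [CommRing R] {t : R} (hP : 2 + t ^ 5 + t ^ 6 = 0) (h0 : (3 : R) = 0) :
    t ^ 5 = t ^ 5 := by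
  rfl

lemma p10 {R : Type*} [CommRing R] {t : R} (hP : 2 + t ^ 5 + t ^ 6 = 0) (h0 : (3 : R) = 0) :
    t ^ 10 = 1 + 2 * t + t ^ 2 + 2 * t ^ 3 + t ^ 4 + 2 * t ^ 5 := by
  calc t ^ 10 = t ^ 5 * t ^ 5 := by rw [← pow_add]
    _ = (t ^ 5) * (t ^ 5) := congrArg₂ (· * ·) (p5 hP h0) (p5 hP h0)
    _ = _ := by linear_combination (1 + 2 * t + t ^ 2 + 2 * t ^ 3 + t ^ 4) * hP + ((-1) + (-2) * t + (-1) * t ^ 2 + (-2) * t ^ 3 + (-1) * t ^ 4 + (-1) * t ^ 5 + (-1) * t ^ 6 + (-1) * t ^ 7 + (-1) * t ^ 8 + (-1) * t ^ 9) * h0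

lemma p11 {R : Type*} [CommRing R] {t : R} (hP : 2 + t ^ 5 + t ^ 6 = 0) (h0 : (3 : R) = 0) :
    t ^ 11 = 2 + t + 2 * t ^ 2 + t ^ 3 + 2 * t ^ 4 + 2 * t ^ 5 := by
  calc t ^ 11 = t ^ 10 * t ^ 1 := by rw [← pow_add]
    _ = (1 + 2 * t + t ^ 2 + 2 * t ^ 3 + t ^ 4 + 2 * t ^ 5) * (t) := congrArg₂ (· * ·) (p10 hP h0) (p1 hP h0)
    _ = _ := by linear_combination (2) * hP + ((-2) + (-1) * t ^ 5) * h0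

lemma p22 {R : Type*} [CommRing R] {t : R} (hP : 2 + t ^ 5 + t ^ 6 = 0) (h0 : (3 : R) = 0) :
    t ^ 22 = t ^ 2 + 2 * t ^ 5 := by
  calc t ^ 22 = t ^ 11 * t ^ 11 := by rw [← pow_add]
    _ = (2 + t + 2 * t ^ 2 + t ^ 3 + 2 * t ^ 4 + 2 * t ^ 5) * (2 + t + 2 * t ^ 2 + t ^ 3 + 2 * t ^ 4 + 2 * t ^ 5) := congrArg₂ (· * ·) (p11 hP h0) (p11 hP h0)
    _ = _ := by linear_combination (2 + 2 * t + t ^ 2 + t ^ 3 + t ^ 4) * hP + (2 * t ^ 2 + 2 * t ^ 3 + 4 * t ^ 4 + 4 * t ^ 5 + 3 * t ^ 6 + 3 * t ^ 7 + 2 * t ^ 8 + 2 * t ^ 9 + t ^ 10) * h0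

lemma p44 {R : Type*} [CommRing R] {t : R} (hP : 2 + t ^ 5 + t ^ 6 = 0) (h0 : (3 : R) = 0) :
    t ^ 44 = t ^ 2 + 2 * t ^ 3 + 2 * t ^ 4 := by
  calc t ^ 44 = t ^ 22 * t ^ 22 := by rw [← pow_add]
    _ = (t ^ 2 + 2 * t ^ 5) * (t ^ 2 + 2 * t ^ 5) := congrArg₂ (· * ·) (p22 hP h0) (p22 hP h0)
    _ = _ := by linear_combination (t ^ 2 + 2 * t ^ 3 + t ^ 4) * hP + ((-1) * t ^ 2 + (-2) * t ^ 3 + (-1) * t ^ 4 + t ^ 7 + (-1) * t ^ 8 + (-1) * t ^ 9 + t ^ 10) * h0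

lemma p45 {R : Type*} [CommRing R] {t : R} (hP : 2 + t ^ 5 + t ^ 6 = 0) (h0 : (3 : R) = 0) :
    t ^ 45 = t ^ 3 + 2 * t ^ 4 + 2 * t ^ 5 := by
  calc t ^ 45 = t ^ 44 * t ^ 1 := by rw [← pow_add]
    _ = (t ^ 2 + 2 * t ^ 3 + 2 * t ^ 4) * (t) := congrArg₂ (· * ·) (p44 hP h0) (p1 hP h0)
    _ = _ := by ring

lemma p90 {R : Type*} [CommRing R] {t : R} (hP : 2 + t ^ 5 + t ^ 6 = 0) (h0 : (3 : R) = 0) :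
    t ^ 90 = 1 + t ^ 2 + t ^ 3 + t ^ 4 + 2 * t ^ 5 := by
  calc t ^ 90 = t ^ 45 * t ^ 45 := by rw [← pow_add]
    _ = (t ^ 3 + 2 * t ^ 4 + 2 * t ^ 5) * (t ^ 3 + 2 * t ^ 4 + 2 * t ^ 5) := congrArg₂ (· * ·) (p45 hP h0) (p45 hP h0)
    _ = _ := by linear_combination (1 + t ^ 2 + t ^ 3 + t ^ 4) * hP + ((-1) + (-1) * t ^ 2 + (-1) * t ^ 3 + (-1) * t ^ 4 + (-1) * t ^ 5 + t ^ 7 + 2 * t ^ 8 + 2 * t ^ 9 + t ^ 10) * h0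

lemma p91 {R : Type*} [CommRing R] {t : R} (hP : 2 + t ^ 5 + t ^ 6 = 0) (h0 : (3 : R) = 0) :
    t ^ 91 = 2 + t + t ^ 3 + t ^ 4 + 2 * t ^ 5 := by
  calc t ^ 91 = t ^ 90 * t ^ 1 := by rw [← pow_add]
    _ = (1 + t ^ 2 + t ^ 3 + t ^ 4 + 2 * t ^ 5) * (t) := congrArg₂ (· * ·) (p90 hP h0) (p1 hP h0)
    _ = _ := by linear_combination (2) * hP + ((-2) + (-1) * t ^ 5) * h0

lemma p182 {R : Type*} [CommRing R] {t : R} (hP : 2 + t ^ 5 + t ^ 6 = 0) (h0 : (3 : R) = 0) :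
    t ^ 182 = t + t ^ 3 + t ^ 4 + 2 * t ^ 5 := by
  calc t ^ 182 = t ^ 91 * t ^ 91 := by rw [← pow_add]
    _ = (2 + t + t ^ 3 + t ^ 4 + 2 * t ^ 5) * (2 + t + t ^ 3 + t ^ 4 + 2 * t ^ 5) := congrArg₂ (· * ·) (p91 hP h0) (p91 hP h0)
    _ = _ := by linear_combination (2 + 2 * t ^ 2 + t ^ 4) * hP + (t + (-1) * t ^ 2 + t ^ 3 + t ^ 4 + 2 * t ^ 5 + t ^ 6 + t ^ 8 + t ^ 9 + t ^ 10) * h0

lemma p364 {R : Type*} [CommRing R] {t : R} (hP : 2 + t ^ 5 + t ^ 6 = 0) (h0 : (3 : R) = 0) :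
    t ^ 364 = 2 := by
  calc t ^ 364 = t ^ 182 * t ^ 182 := by rw [← pow_add]
    _ = (t + t ^ 3 + t ^ 4 + 2 * t ^ 5) * (t + t ^ 3 + t ^ 4 + 2 * t ^ 5) := congrArg₂ (· * ·) (p182 hP h0) (p182 hP h0)
    _ = _ := by linear_combination (2 + 2 * t ^ 2 + t ^ 4) * hP + ((-2) + (-1) * t ^ 2 + t ^ 6 + t ^ 8 + t ^ 9 + t ^ 10) * h0

lemma p6 {R : Type*} [CommRing R] {t : R} (hP : 2 + t ^ 5 + t ^ 6 = 0) (h0 : (3 : R) = 0) :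
    t ^ 6 = 1 + 2 * t ^ 5 := by
  calc t ^ 6 = t ^ 3 * t ^ 3 := by rw [← pow_add]
    _ = (t ^ 3) * (t ^ 3) := congrArg₂ (· * ·) (p3 hP h0) (p3 hP h0)
    _ = _ := by linear_combination (1) * hP + ((-1) + (-1) * t ^ 5) * h0

lemma p12 {R : Type*} [CommRing R] {t : R} (hP : 2 + t ^ 5 + t ^ 6 = 0) (h0 : (3 : R) = 0) :
    t ^ 12 = 2 + 2 * t + t ^ 2 + 2 * t ^ 3 + t ^ 4 := by
  calc t ^ 12 = t ^ 6 * t ^ 6 := by rw [← pow_add]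
    _ = (1 + 2 * t ^ 5) * (1 + 2 * t ^ 5) := congrArg₂ (· * ·) (p6 hP h0) (p6 hP h0)
    _ = _ := by linear_combination (1 + 2 * t + t ^ 2 + 2 * t ^ 3 + t ^ 4) * hP + ((-1) + (-2) * t + (-1) * t ^ 2 + (-2) * t ^ 3 + (-1) * t ^ 4 + t ^ 5 + (-1) * t ^ 6 + (-1) * t ^ 7 + (-1) * t ^ 8 + (-1) * t ^ 9 + t ^ 10) * h0

lemma p13 {R : Type*} [CommRing R] {t : R} (hP : 2 + t ^ 5 + t ^ 6 = 0) (h0 : (3 : R) = 0) :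
    t ^ 13 = 2 * t + 2 * t ^ 2 + t ^ 3 + 2 * t ^ 4 + t ^ 5 := by
  calc t ^ 13 = t ^ 12 * t ^ 1 := by rw [← pow_add]
    _ = (2 + 2 * t + t ^ 2 + 2 * t ^ 3 + t ^ 4) * (t) := congrArg₂ (· * ·) (p12 hP h0) (p1 hP h0)
    _ = _ := by ring

lemma p26 {R : Type*} [CommRing R] {t : R} (hP : 2 + t ^ 5 + t ^ 6 = 0) (h0 : (3 : R) = 0) :
    t ^ 26 = 2 + 2 * t + t ^ 2 + 2 * t ^ 3 + t ^ 5 := by
  calc t ^ 26 = t ^ 13 * t ^ 13 := by rw [← pow_add]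
    _ = (2 * t + 2 * t ^ 2 + t ^ 3 + 2 * t ^ 4 + t ^ 5) * (2 * t + 2 * t ^ 2 + t ^ 3 + 2 * t ^ 4 + t ^ 5) := congrArg₂ (· * ·) (p13 hP h0) (p13 hP h0)
    _ = _ := by linear_combination (2 + 2 * t + t ^ 4) * hP + ((-2) + (-2) * t + t ^ 2 + 2 * t ^ 3 + 2 * t ^ 4 + 3 * t ^ 5 + 3 * t ^ 6 + 2 * t ^ 7 + 2 * t ^ 8 + t ^ 9) * h0

lemma p52 {R : Type*} [CommRing R] {t : R} (hP : 2 + t ^ 5 + t ^ 6 = 0) (h0 : (3 : R) = 0) :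
    t ^ 52 = 2 * t + t ^ 2 + 2 * t ^ 3 + t ^ 4 := by
  calc t ^ 52 = t ^ 26 * t ^ 26 := by rw [← pow_add]
    _ = (2 + 2 * t + t ^ 2 + 2 * t ^ 3 + t ^ 5) * (2 + 2 * t + t ^ 2 + 2 * t ^ 3 + t ^ 5) := congrArg₂ (· * ·) (p26 hP h0) (p26 hP h0)
    _ = _ := by linear_combination (2 + 2 * t ^ 2 + 2 * t ^ 3 + t ^ 4) * hP + (2 * t + t ^ 2 + 2 * t ^ 3 + 2 * t ^ 4 + 2 * t ^ 5 + 2 * t ^ 6 + (-1) * t ^ 9) * h0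

lemma p104 {R : Type*} [CommRing R] {t : R} (hP : 2 + t ^ 5 + t ^ 6 = 0) (h0 : (3 : R) = 0) :
    t ^ 104 = 2 * t ^ 2 + t ^ 3 + 2 * t ^ 5 := by
  calc t ^ 104 = t ^ 52 * t ^ 52 := by rw [← pow_add]
    _ = (2 * t + t ^ 2 + 2 * t ^ 3 + t ^ 4) * (2 * t + t ^ 2 + 2 * t ^ 3 + t ^ 4) := congrArg₂ (· * ·) (p52 hP h0) (p52 hP h0)
    _ = _ := by linear_combination (t ^ 2) * hP + (t ^ 3 + 3 * t ^ 4 + 2 * t ^ 5 + 2 * t ^ 6 + t ^ 7) * h0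

lemma p7 {R : Type*} [CommRing R] {t : R} (hP : 2 + t ^ 5 + t ^ 6 = 0) (h0 : (3 : R) = 0) :
    t ^ 7 = 2 + t + t ^ 5 := by
  calc t ^ 7 = t ^ 6 * t ^ 1 := by rw [← pow_add]
    _ = (1 + 2 * t ^ 5) * (t) := congrArg₂ (· * ·) (p6 hP h0) (p1 hP h0)
    _ = _ := by linear_combination (2) * hP + ((-2) + (-1) * t ^ 5) * h0

lemma p14 {R : Type*} [CommRing R] {t : R} (hP : 2 + t ^ 5 + t ^ 6 = 0) (h0 : (3 : R) = 0) :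
    t ^ 14 = 1 + 2 * t ^ 2 + 2 * t ^ 3 + t ^ 4 + t ^ 5 := by
  calc t ^ 14 = t ^ 7 * t ^ 7 := by rw [← pow_add]
    _ = (2 + t + t ^ 5) * (2 + t + t ^ 5) := congrArg₂ (· * ·) (p7 hP h0) (p7 hP h0)
    _ = _ := by linear_combination (2 * t + t ^ 2 + 2 * t ^ 3 + t ^ 4) * hP + (1 + (-1) * t ^ 2 + (-2) * t ^ 3 + (-1) * t ^ 4 + t ^ 5 + (-1) * t ^ 7 + (-1) * t ^ 8 + (-1) * t ^ 9) * h0

lemma p28 {R : Type*} [CommRing R] {t : R} (hP : 2 + t ^ 5 + t ^ 6 = 0) (h0 : (3 : R) = 0) :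
    t ^ 28 = 2 + t + 2 * t ^ 2 + 2 * t ^ 3 + t ^ 4 := by
  calc t ^ 28 = t ^ 14 * t ^ 14 := by rw [← pow_add]
    _ = (1 + 2 * t ^ 2 + 2 * t ^ 3 + t ^ 4 + t ^ 5) * (1 + 2 * t ^ 2 + 2 * t ^ 3 + t ^ 4 + t ^ 5) := congrArg₂ (· * ·) (p14 hP h0) (p14 hP h0)
    _ = _ := by linear_combination (1 + t + t ^ 2 + t ^ 3 + t ^ 4) * hP + ((-1) + (-1) * t + t ^ 4 + 3 * t ^ 5 + 2 * t ^ 6 + 2 * t ^ 7 + t ^ 8) * h0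

lemma p56 {R : Type*} [CommRing R] {t : R} (hP : 2 + t ^ 5 + t ^ 6 = 0) (h0 : (3 : R) = 0) :
    t ^ 56 = t + t ^ 2 + 2 * t ^ 5 := by
  calc t ^ 56 = t ^ 28 * t ^ 28 := by rw [← pow_add]
    _ = (2 + t + 2 * t ^ 2 + 2 * t ^ 3 + t ^ 4) * (2 + t + 2 * t ^ 2 + 2 * t ^ 3 + t ^ 4) := congrArg₂ (· * ·) (p28 hP h0) (p28 hP h0)
    _ = _ := by linear_combination (2 + t ^ 2) * hP + (t + 2 * t ^ 2 + 4 * t ^ 3 + 4 * t ^ 4 + 2 * t ^ 5 + 2 * t ^ 6 + t ^ 7) * h0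

lemma p8 {R : Type*} [CommRing R] {t : R} (hP : 2 + t ^ 5 + t ^ 6 = 0) (h0 : (3 : R) = 0) :
    t ^ 8 = 1 + 2 * t + t ^ 2 + 2 * t ^ 5 := by
  calc t ^ 8 = t ^ 4 * t ^ 4 := by rw [← pow_add]
    _ = (t ^ 4) * (t ^ 4) := congrArg₂ (· * ·) (p4 hP h0) (p4 hP h0)
    _ = _ := by linear_combination (1 + 2 * t + t ^ 2) * hP + ((-1) + (-2) * t + (-1) * t ^ 2 + (-1) * t ^ 5 + (-1) * t ^ 6 + (-1) * t ^ 7) * h0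

lemma p9 {R : Type*} [CommRing R] {t : R} (hP : 2 + t ^ 5 + t ^ 6 = 0) (h0 : (3 : R) = 0) :
    t ^ 9 = 2 + t + 2 * t ^ 2 + t ^ 3 + t ^ 5 := by
  calc t ^ 9 = t ^ 8 * t ^ 1 := by rw [← pow_add]
    _ = (1 + 2 * t + t ^ 2 + 2 * t ^ 5) * (t) := congrArg₂ (· * ·) (p8 hP h0) (p1 hP h0)
    _ = _ := by linear_combination (2) * hP + ((-2) + (-1) * t ^ 5) * h0

lemma p18 {R : Type*} [CommRing R] {t : R} (hP : 2 + t ^ 5 + t ^ 6 = 0) (h0 : (3 : R) = 0) :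
    t ^ 18 = 2 * t + t ^ 3 + t ^ 4 := by
  calc t ^ 18 = t ^ 9 * t ^ 9 := by rw [← pow_add]
    _ = (2 + t + 2 * t ^ 2 + t ^ 3 + t ^ 5) * (2 + t + 2 * t ^ 2 + t ^ 3 + t ^ 5) := congrArg₂ (· * ·) (p9 hP h0) (p9 hP h0)
    _ = _ := by linear_combination (2 + t + 2 * t ^ 3 + t ^ 4) * hP + (3 * t ^ 2 + t ^ 3 + t ^ 4 + 2 * t ^ 5 + t ^ 7 + (-1) * t ^ 9) * h0

lemma p19 {R : Type*} [CommRing R] {t : R} (hP : 2 + t ^ 5 + t ^ 6 = 0) (h0 : (3 : R) = 0) :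
    t ^ 19 = 2 * t ^ 2 + t ^ 4 + t ^ 5 := by
  calc t ^ 19 = t ^ 18 * t ^ 1 := by rw [← pow_add]
    _ = (2 * t + t ^ 3 + t ^ 4) * (t) := congrArg₂ (· * ·) (p18 hP h0) (p1 hP h0)
    _ = _ := by ring

lemma p38 {R : Type*} [CommRing R] {t : R} (hP : 2 + t ^ 5 + t ^ 6 = 0) (h0 : (3 : R) = 0) :
    t ^ 38 = t + t ^ 3 + 2 * t ^ 4 := by
  calc t ^ 38 = t ^ 19 * t ^ 19 := by rw [← pow_add]
    _ = (2 * t ^ 2 + t ^ 4 + t ^ 5) * (2 * t ^ 2 + t ^ 4 + t ^ 5) := congrArg₂ (· * ·) (p19 hP h0) (p19 hP h0)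
    _ = _ := by linear_combination (t + t ^ 3 + t ^ 4) * hP + ((-1) * t + (-1) * t ^ 3 + t ^ 6 + t ^ 7) * h0

lemma p39 {R : Type*} [CommRing R] {t : R} (hP : 2 + t ^ 5 + t ^ 6 = 0) (h0 : (3 : R) = 0) :
    t ^ 39 = t ^ 2 + t ^ 4 + 2 * t ^ 5 := by
  calc t ^ 39 = t ^ 38 * t ^ 1 := by rw [← pow_add]
    _ = (t + t ^ 3 + 2 * t ^ 4) * (t) := congrArg₂ (· * ·) (p38 hP h0) (p1 hP h0)
    _ = _ := by ring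

lemma p78 {R : Type*} [CommRing R] {t : R} (hP : 2 + t ^ 5 + t ^ 6 = 0) (h0 : (3 : R) = 0) :
    t ^ 78 = 2 + t ^ 2 + 2 * t ^ 4 + t ^ 5 := by
  calc t ^ 78 = t ^ 39 * t ^ 39 := by rw [← pow_add]
    _ = (t ^ 2 + t ^ 4 + 2 * t ^ 5) * (t ^ 2 + t ^ 4 + 2 * t ^ 5) := congrArg₂ (· * ·) (p39 hP h0) (p39 hP h0)
    _ = _ := by linear_combination (2 + t ^ 2 + t ^ 4) * hP + ((-2) + (-1) * t ^ 2 + (-1) * t ^ 4 + (-1) * t ^ 5 + t ^ 7 + t ^ 9 + t ^ 10) * h0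

lemma p156 {R : Type*} [CommRing R] {t : R} (hP : 2 + t ^ 5 + t ^ 6 = 0) (h0 : (3 : R) = 0) :
    t ^ 156 = 1 + t + 2 * t ^ 2 + t ^ 4 + t ^ 5 := by
  calc t ^ 156 = t ^ 78 * t ^ 78 := by rw [← pow_add]
    _ = (2 + t ^ 2 + 2 * t ^ 4 + t ^ 5) * (2 + t ^ 2 + 2 * t ^ 4 + t ^ 5) := congrArg₂ (· * ·) (p78 hP h0) (p78 hP h0)
    _ = _ := by linear_combination (t + t ^ 2 + t ^ 4) * hP + (1 + (-1) * t + 2 * t ^ 4 + t ^ 5 + t ^ 6 + t ^ 8 + t ^ 9) * h0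

lemma p157 {R : Type*} [CommRing R] {t : R} (hP : 2 + t ^ 5 + t ^ 6 = 0) (h0 : (3 : R) = 0) :
    t ^ 157 = 1 + t + t ^ 2 + 2 * t ^ 3 := by
  calc t ^ 157 = t ^ 156 * t ^ 1 := by rw [← pow_add]
    _ = (1 + t + 2 * t ^ 2 + t ^ 4 + t ^ 5) * (t) := congrArg₂ (· * ·) (p156 hP h0) (p1 hP h0)
    _ = _ := by linear_combination (1) * hP + ((-1)) * h0

lemma p314 {R : Type*} [CommRing R] {t : R} (hP : 2 + t ^ 5 + t ^ 6 = 0) (h0 : (3 : R) = 0) :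
    t ^ 314 = 2 + 2 * t + 2 * t ^ 4 := by
  calc t ^ 314 = t ^ 157 * t ^ 157 := by rw [← pow_add]
    _ = (1 + t + t ^ 2 + 2 * t ^ 3) * (1 + t + t ^ 2 + 2 * t ^ 3) := congrArg₂ (· * ·) (p157 hP h0) (p157 hP h0)
    _ = _ := by linear_combination (1) * hP + ((-1) + t ^ 2 + 2 * t ^ 3 + t ^ 4 + t ^ 5 + t ^ 6) * h0

lemma p315 {R : Type*} [CommRing R] {t : R} (hP : 2 + t ^ 5 + t ^ 6 = 0) (h0 : (3 : R) = 0) :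
    t ^ 315 = 2 * t + 2 * t ^ 2 + 2 * t ^ 5 := by
  calc t ^ 315 = t ^ 314 * t ^ 1 := by rw [← pow_add]
    _ = (2 + 2 * t + 2 * t ^ 4) * (t) := congrArg₂ (· * ·) (p314 hP h0) (p1 hP h0)
    _ = _ := by ring

lemma p630 {R : Type*} [CommRing R] {t : R} (hP : 2 + t ^ 5 + t ^ 6 = 0) (h0 : (3 : R) = 0) :
    t ^ 630 = 1 + t + 2 * t ^ 2 + t ^ 3 + 2 * t ^ 4 + 2 * t ^ 5 := by
  calc t ^ 630 = t ^ 315 * t ^ 315 := by rw [← pow_add]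
    _ = (2 * t + 2 * t ^ 2 + 2 * t ^ 5) * (2 * t + 2 * t ^ 2 + 2 * t ^ 5) := congrArg₂ (· * ·) (p315 hP h0) (p315 hP h0)
    _ = _ := by linear_combination (1 + t + t ^ 2 + 2 * t ^ 3 + t ^ 4) * hP + ((-1) + (-1) * t + t ^ 3 + (-1) * t ^ 5 + 2 * t ^ 6 + 2 * t ^ 7 + (-1) * t ^ 8 + (-1) * t ^ 9 + t ^ 10) * h0

lemma p20 {R : Type*} [CommRing R] {t : R} (hP : 2 + t ^ 5 + t ^ 6 = 0) (h0 : (3 : R) = 0) :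
    t ^ 20 = 1 + 2 * t ^ 3 := by
  calc t ^ 20 = t ^ 10 * t ^ 10 := by rw [← pow_add]
    _ = (1 + 2 * t + t ^ 2 + 2 * t ^ 3 + t ^ 4 + 2 * t ^ 5) * (1 + 2 * t + t ^ 2 + 2 * t ^ 3 + t ^ 4 + 2 * t ^ 5) := congrArg₂ (· * ·) (p10 hP h0) (p10 hP h0)
    _ = _ := by linear_combination (2 * t + t ^ 4) * hP + (2 * t ^ 2 + 2 * t ^ 3 + 3 * t ^ 4 + 4 * t ^ 5 + 4 * t ^ 6 + 2 * t ^ 7 + 3 * t ^ 8 + t ^ 9 + t ^ 10) * h0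

lemma p40 {R : Type*} [CommRing R] {t : R} (hP : 2 + t ^ 5 + t ^ 6 = 0) (h0 : (3 : R) = 0) :
    t ^ 40 = 2 + t ^ 3 + 2 * t ^ 5 := by
  calc t ^ 40 = t ^ 20 * t ^ 20 := by rw [← pow_add]
    _ = (1 + 2 * t ^ 3) * (1 + 2 * t ^ 3) := congrArg₂ (· * ·) (p20 hP h0) (p20 hP h0)
    _ = _ := by linear_combination (1) * hP + ((-1) + t ^ 3 + (-1) * t ^ 5 + t ^ 6) * h0

lemma p41 {R : Type*} [CommRing R] {t : R} (hP : 2 + t ^ 5 + t ^ 6 = 0) (h0 : (3 : R) = 0) :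
    t ^ 41 = 2 + 2 * t + t ^ 4 + t ^ 5 := by
  calc t ^ 41 = t ^ 40 * t ^ 1 := by rw [← pow_add]
    _ = (2 + t ^ 3 + 2 * t ^ 5) * (t) := congrArg₂ (· * ·) (p40 hP h0) (p1 hP h0)
    _ = _ := by linear_combination (2) * hP + ((-2) + (-1) * t ^ 5) * h0

lemma p82 {R : Type*} [CommRing R] {t : R} (hP : 2 + t ^ 5 + t ^ 6 = 0) (h0 : (3 : R) = 0) :
    t ^ 82 = 2 + 2 * t + t ^ 2 + t ^ 3 + 2 * t ^ 4 + t ^ 5 := by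
  calc t ^ 82 = t ^ 41 * t ^ 41 := by rw [← pow_add]
    _ = (2 + 2 * t + t ^ 4 + t ^ 5) * (2 + 2 * t + t ^ 4 + t ^ 5) := congrArg₂ (· * ·) (p41 hP h0) (p41 hP h0)
    _ = _ := by linear_combination (1 + t ^ 3 + t ^ 4) * hP + (2 * t + t ^ 2 + (-1) * t ^ 3 + 2 * t ^ 5 + t ^ 6) * h0

lemma p164 {R : Type*} [CommRing R] {t : R} (hP : 2 + t ^ 5 + t ^ 6 = 0) (h0 : (3 : R) = 0) :
    t ^ 164 = 1 + 2 * t + 2 * t ^ 2 + 2 * t ^ 3 + 2 * t ^ 4 + 2 * t ^ 5 := by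
  calc t ^ 164 = t ^ 82 * t ^ 82 := by rw [← pow_add]
    _ = (2 + 2 * t + t ^ 2 + t ^ 3 + 2 * t ^ 4 + t ^ 5) * (2 + 2 * t + t ^ 2 + t ^ 3 + 2 * t ^ 4 + t ^ 5) := congrArg₂ (· * ·) (p82 hP h0) (p82 hP h0)
    _ = _ := by linear_combination (t ^ 4) * hP + (1 + 2 * t + 2 * t ^ 2 + 2 * t ^ 3 + 3 * t ^ 4 + 4 * t ^ 5 + 3 * t ^ 6 + 2 * t ^ 7 + 2 * t ^ 8 + t ^ 9) * h0

lemma p165 {R : Type*} [CommRing R] {t : R} (hP : 2 + t ^ 5 + t ^ 6 = 0) (h0 : (3 : R) = 0) :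
    t ^ 165 = 2 + t + 2 * t ^ 2 + 2 * t ^ 3 + 2 * t ^ 4 := by
  calc t ^ 165 = t ^ 164 * t ^ 1 := by rw [← pow_add]
    _ = (1 + 2 * t + 2 * t ^ 2 + 2 * t ^ 3 + 2 * t ^ 4 + 2 * t ^ 5) * (t) := congrArg₂ (· * ·) (p164 hP h0) (p1 hP h0)
    _ = _ := by linear_combination (2) * hP + ((-2)) * h0

lemma p330 {R : Type*} [CommRing R] {t : R} (hP : 2 + t ^ 5 + t ^ 6 = 0) (h0 : (3 : R) = 0) :
    t ^ 330 = 2 * t + t ^ 2 + t ^ 4 + t ^ 5 := by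
  calc t ^ 330 = t ^ 165 * t ^ 165 := by rw [← pow_add]
    _ = (2 + t + 2 * t ^ 2 + 2 * t ^ 3 + 2 * t ^ 4) * (2 + t + 2 * t ^ 2 + 2 * t ^ 3 + 2 * t ^ 4) := congrArg₂ (· * ·) (p165 hP h0) (p165 hP h0)
    _ = _ := by linear_combination (2 + t + t ^ 2) * hP + (2 * t ^ 2 + 4 * t ^ 3 + 5 * t ^ 4 + 3 * t ^ 5 + 3 * t ^ 6 + 2 * t ^ 7 + t ^ 8) * h0

lemma p660 {R : Type*} [CommRing R] {t : R} (hP : 2 + t ^ 5 + t ^ 6 = 0) (h0 : (3 : R) = 0) :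
    t ^ 660 = 1 + 2 * t + t ^ 2 + 2 * t ^ 3 + 2 * t ^ 4 := by
  calc t ^ 660 = t ^ 330 * t ^ 330 := by rw [← pow_add]
    _ = (2 * t + t ^ 2 + t ^ 4 + t ^ 5) * (2 * t + t ^ 2 + t ^ 4 + t ^ 5) := congrArg₂ (· * ·) (p330 hP h0) (p330 hP h0)
    _ = _ := by linear_combination (1 + 2 * t + t ^ 3 + t ^ 4) * hP + ((-1) + (-2) * t + t ^ 2 + (-1) * t ^ 4 + t ^ 5 + t ^ 6) * h0

lemma p661 {R : Type*} [CommRing R] {t : R} (hP : 2 + t ^ 5 + t ^ 6 = 0) (h0 : (3 : R) = 0) :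
    t ^ 661 = t + 2 * t ^ 2 + t ^ 3 + 2 * t ^ 4 + 2 * t ^ 5 := by
  calc t ^ 661 = t ^ 660 * t ^ 1 := by rw [← pow_add]
    _ = (1 + 2 * t + t ^ 2 + 2 * t ^ 3 + 2 * t ^ 4) * (t) := congrArg₂ (· * ·) (p660 hP h0) (p1 hP h0)
    _ = _ := by ring

lemma p15 {R : Type*} [CommRing R] {t : R} (hP : 2 + t ^ 5 + t ^ 6 = 0) (h0 : (3 : R) = 0) :
    t ^ 15 = 1 + t + 2 * t ^ 3 + 2 * t ^ 4 := by
  calc t ^ 15 = t ^ 14 * t ^ 1 := by rw [← pow_add]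
    _ = (1 + 2 * t ^ 2 + 2 * t ^ 3 + t ^ 4 + t ^ 5) * (t) := congrArg₂ (· * ·) (p14 hP h0) (p1 hP h0)
    _ = _ := by linear_combination (1) * hP + ((-1)) * h0

lemma p30 {R : Type*} [CommRing R] {t : R} (hP : 2 + t ^ 5 + t ^ 6 = 0) (h0 : (3 : R) = 0) :
    t ^ 30 = 1 + 2 * t ^ 2 + t ^ 3 + 2 * t ^ 4 + t ^ 5 := by
  calc t ^ 30 = t ^ 15 * t ^ 15 := by rw [← pow_add]
    _ = (1 + t + 2 * t ^ 3 + 2 * t ^ 4) * (1 + t + 2 * t ^ 3 + 2 * t ^ 4) := congrArg₂ (· * ·) (p15 hP h0) (p15 hP h0)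
    _ = _ := by linear_combination (t + t ^ 2) * hP + ((-1) * t ^ 2 + t ^ 3 + 2 * t ^ 4 + t ^ 5 + t ^ 6 + 2 * t ^ 7 + t ^ 8) * h0

lemma p31 {R : Type*} [CommRing R] {t : R} (hP : 2 + t ^ 5 + t ^ 6 = 0) (h0 : (3 : R) = 0) :
    t ^ 31 = 1 + t + 2 * t ^ 3 + t ^ 4 + t ^ 5 := by
  calc t ^ 31 = t ^ 30 * t ^ 1 := by rw [← pow_add]
    _ = (1 + 2 * t ^ 2 + t ^ 3 + 2 * t ^ 4 + t ^ 5) * (t) := congrArg₂ (· * ·) (p30 hP h0) (p1 hP h0)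
    _ = _ := by linear_combination (1) * hP + ((-1)) * h0

lemma p57 {R : Type*} [CommRing R] {t : R} (hP : 2 + t ^ 5 + t ^ 6 = 0) (h0 : (3 : R) = 0) :
    t ^ 57 = 2 + t ^ 2 + t ^ 3 + t ^ 5 := by
  calc t ^ 57 = t ^ 56 * t ^ 1 := by rw [← pow_add]
    _ = (t + t ^ 2 + 2 * t ^ 5) * (t) := congrArg₂ (· * ·) (p56 hP h0) (p1 hP h0)
    _ = _ := by linear_combination (2) * hP + ((-2) + (-1) * t ^ 5) * h0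

lemma p114 {R : Type*} [CommRing R] {t : R} (hP : 2 + t ^ 5 + t ^ 6 = 0) (h0 : (3 : R) = 0) :
    t ^ 114 = 2 * t + t ^ 2 + 2 * t ^ 4 + t ^ 5 := by
  calc t ^ 114 = t ^ 57 * t ^ 57 := by rw [← pow_add]
    _ = (2 + t ^ 2 + t ^ 3 + t ^ 5) * (2 + t ^ 2 + t ^ 3 + t ^ 5) := congrArg₂ (· * ·) (p57 hP h0) (p57 hP h0)
    _ = _ := by linear_combination (2 + 2 * t + 2 * t ^ 3 + t ^ 4) * hP + ((-2) * t + t ^ 2 + (-1) * t ^ 4 + t ^ 5 + (-1) * t ^ 6 + (-1) * t ^ 9) * h0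

lemma p115 {R : Type*} [CommRing R] {t : R} (hP : 2 + t ^ 5 + t ^ 6 = 0) (h0 : (3 : R) = 0) :
    t ^ 115 = 1 + 2 * t ^ 2 + t ^ 3 + t ^ 5 := by
  calc t ^ 115 = t ^ 114 * t ^ 1 := by rw [← pow_add]
    _ = (2 * t + t ^ 2 + 2 * t ^ 4 + t ^ 5) * (t) := congrArg₂ (· * ·) (p114 hP h0) (p1 hP h0)
    _ = _ := by linear_combination (1) * hP + ((-1)) * h0

lemma p230 {R : Type*} [CommRing R] {t : R} (hP : 2 + t ^ 5 + t ^ 6 = 0) (h0 : (3 : R) = 0) :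
    t ^ 230 = 1 + t + t ^ 2 + t ^ 3 + 2 * t ^ 4 := by
  calc t ^ 230 = t ^ 115 * t ^ 115 := by rw [← pow_add]
    _ = (1 + 2 * t ^ 2 + t ^ 3 + t ^ 5) * (1 + 2 * t ^ 2 + t ^ 3 + t ^ 5) := congrArg₂ (· * ·) (p115 hP h0) (p115 hP h0)
    _ = _ := by linear_combination (t + 2 * t ^ 3 + t ^ 4) * hP + ((-1) * t + t ^ 2 + (-1) * t ^ 3 + 2 * t ^ 5 + t ^ 7 + (-1) * t ^ 9) * h0

lemma p231 {R : Type*} [CommRing R] {t : R} (hP : 2 + t ^ 5 + t ^ 6 = 0) (h0 : (3 : R) = 0) :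
    t ^ 231 = t + t ^ 2 + t ^ 3 + t ^ 4 + 2 * t ^ 5 := by
  calc t ^ 231 = t ^ 230 * t ^ 1 := by rw [← pow_add]
    _ = (1 + t + t ^ 2 + t ^ 3 + 2 * t ^ 4) * (t) := congrArg₂ (· * ·) (p230 hP h0) (p1 hP h0)
    _ = _ := by ring

lemma p462 {R : Type*} [CommRing R] {t : R} (hP : 2 + t ^ 5 + t ^ 6 = 0) (h0 : (3 : R) = 0) :
    t ^ 462 = t + 2 * t ^ 3 + t ^ 4 + t ^ 5 := by
  calc t ^ 462 = t ^ 231 * t ^ 231 := by rw [← pow_add]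
    _ = (t + t ^ 2 + t ^ 3 + t ^ 4 + 2 * t ^ 5) * (t + t ^ 2 + t ^ 3 + t ^ 4 + 2 * t ^ 5) := congrArg₂ (· * ·) (p231 hP h0) (p231 hP h0)
    _ = _ := by linear_combination (t + 2 * t ^ 2 + t ^ 4) * hP + ((-1) * t + (-1) * t ^ 2 + t ^ 5 + 2 * t ^ 6 + t ^ 7 + t ^ 8 + t ^ 9 + t ^ 10) * h0

lemma p29 {R : Type*} [CommRing R] {t : R} (hP : 2 + t ^ 5 + t ^ 6 = 0) (h0 : (3 : R) = 0) :
    t ^ 29 = 2 * t + t ^ 2 + 2 * t ^ 3 + 2 * t ^ 4 + t ^ 5 := by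
  calc t ^ 29 = t ^ 28 * t ^ 1 := by rw [← pow_add]
    _ = (2 + t + 2 * t ^ 2 + 2 * t ^ 3 + t ^ 4) * (t) := congrArg₂ (· * ·) (p28 hP h0) (p1 hP h0)
    _ = _ := by ring

lemma p58 {R : Type*} [CommRing R] {t : R} (hP : 2 + t ^ 5 + t ^ 6 = 0) (h0 : (3 : R) = 0) :
    t ^ 58 = 1 + 2 * t + t ^ 3 + t ^ 4 + 2 * t ^ 5 := by
  calc t ^ 58 = t ^ 29 * t ^ 29 := by rw [← pow_add]
    _ = (2 * t + t ^ 2 + 2 * t ^ 3 + 2 * t ^ 4 + t ^ 5) * (2 * t + t ^ 2 + 2 * t ^ 3 + 2 * t ^ 4 + t ^ 5) := congrArg₂ (· * ·) (p29 hP h0) (p29 hP h0)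
    _ = _ := by linear_combination (1 + 2 * t + 2 * t ^ 2 + t ^ 4) * hP + ((-1) + (-2) * t + t ^ 3 + 2 * t ^ 4 + 3 * t ^ 5 + 3 * t ^ 6 + 2 * t ^ 7 + 2 * t ^ 8 + t ^ 9) * h0

lemma p59 {R : Type*} [CommRing R] {t : R} (hP : 2 + t ^ 5 + t ^ 6 = 0) (h0 : (3 : R) = 0) :
    t ^ 59 = 2 + t + 2 * t ^ 2 + t ^ 4 + 2 * t ^ 5 := by
  calc t ^ 59 = t ^ 58 * t ^ 1 := by rw [← pow_add]
    _ = (1 + 2 * t + t ^ 3 + t ^ 4 + 2 * t ^ 5) * (t) := congrArg₂ (· * ·) (p58 hP h0) (p1 hP h0)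
    _ = _ := by linear_combination (2) * hP + ((-2) + (-1) * t ^ 5) * h0

lemma p118 {R : Type*} [CommRing R] {t : R} (hP : 2 + t ^ 5 + t ^ 6 = 0) (h0 : (3 : R) = 0) :
    t ^ 118 = 2 + 2 * t + t ^ 2 + t ^ 3 := by
  calc t ^ 118 = t ^ 59 * t ^ 59 := by rw [← pow_add]
    _ = (2 + t + 2 * t ^ 2 + t ^ 4 + 2 * t ^ 5) * (2 + t + 2 * t ^ 2 + t ^ 4 + 2 * t ^ 5) := congrArg₂ (· * ·) (p59 hP h0) (p59 hP h0)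
    _ = _ := by linear_combination (1 + t + t ^ 2 + t ^ 4) * hP + (2 * t ^ 2 + t ^ 3 + 2 * t ^ 4 + 3 * t ^ 5 + 2 * t ^ 6 + 2 * t ^ 7 + t ^ 9 + t ^ 10) * h0

lemma p236 {R : Type*} [CommRing R] {t : R} (hP : 2 + t ^ 5 + t ^ 6 = 0) (h0 : (3 : R) = 0) :
    t ^ 236 = 2 + 2 * t + 2 * t ^ 2 + 2 * t ^ 3 + 2 * t ^ 4 + t ^ 5 := by
  calc t ^ 236 = t ^ 118 * t ^ 118 := by rw [← pow_add]
    _ = (2 + 2 * t + t ^ 2 + t ^ 3) * (2 + 2 * t + t ^ 2 + t ^ 3) := congrArg₂ (· * ·) (p118 hP h0) (p118 hP h0)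
    _ = _ := by linear_combination (1) * hP + (2 * t + 2 * t ^ 2 + 2 * t ^ 3 + t ^ 4) * h0

lemma p472 {R : Type*} [CommRing R] {t : R} (hP : 2 + t ^ 5 + t ^ 6 = 0) (h0 : (3 : R) = 0) :
    t ^ 472 = 1 + 2 * t ^ 2 + t ^ 3 + 2 * t ^ 5 := by
  calc t ^ 472 = t ^ 236 * t ^ 236 := by rw [← pow_add]
    _ = (2 + 2 * t + 2 * t ^ 2 + 2 * t ^ 3 + 2 * t ^ 4 + t ^ 5) * (2 + 2 * t + 2 * t ^ 2 + 2 * t ^ 3 + 2 * t ^ 4 + t ^ 5) := congrArg₂ (· * ·) (p236 hP h0) (p236 hP h0)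
    _ = _ := by linear_combination (t + 2 * t ^ 2 + t ^ 4) * hP + (1 + 2 * t + 2 * t ^ 2 + 5 * t ^ 3 + 6 * t ^ 4 + 6 * t ^ 5 + 5 * t ^ 6 + 3 * t ^ 7 + 2 * t ^ 8 + t ^ 9) * h0

lemma p473 {R : Type*} [CommRing R] {t : R} (hP : 2 + t ^ 5 + t ^ 6 = 0) (h0 : (3 : R) = 0) :
    t ^ 473 = 2 + t + 2 * t ^ 3 + t ^ 4 + t ^ 5 := by
  calc t ^ 473 = t ^ 472 * t ^ 1 := by rw [← pow_add]
    _ = (1 + 2 * t ^ 2 + t ^ 3 + 2 * t ^ 5) * (t) := congrArg₂ (· * ·) (p472 hP h0) (p1 hP h0)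
    _ = _ := by linear_combination (2) * hP + ((-2) + (-1) * t ^ 5) * h0

lemma p728 {R : Type*} [CommRing R] {t : R} (hP : 2 + t ^ 5 + t ^ 6 = 0) (h0 : (3 : R) = 0) :
    t ^ 728 = 1 := by
  calc t ^ 728 = t ^ 364 * t ^ 364 := by rw [← pow_add]
    _ = (2) * (2) := congrArg₂ (· * ·) (p364 hP h0) (p364 hP h0)
    _ = _ := by linear_combination (1) * h0

lemma p729 {R : Type*} [CommRing R] {t : R} (hP : 2 + t ^ 5 + t ^ 6 = 0) (h0 : (3 : R) = 0) :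
    t ^ 729 = t := by
  calc t ^ 729 = t ^ 728 * t ^ 1 := by rw [← pow_add]
    _ = (1) * (t) := congrArg₂ (· * ·) (p728 hP h0) (p1 hP h0)
    _ = _ := by ring

lemma p24 {R : Type*} [CommRing R] {t : R} (hP : 2 + t ^ 5 + t ^ 6 = 0) (h0 : (3 : R) = 0) :
    t ^ 24 = 1 + 2 * t + t ^ 4 + 2 * t ^ 5 := by
  calc t ^ 24 = t ^ 12 * t ^ 12 := by rw [← pow_add]
    _ = (2 + 2 * t + t ^ 2 + 2 * t ^ 3 + t ^ 4) * (2 + 2 * t + t ^ 2 + 2 * t ^ 3 + t ^ 4) := congrArg₂ (· * ·) (p12 hP h0) (p12 hP h0)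
    _ = _ := by linear_combination (t ^ 2) * hP + (1 + 2 * t + 2 * t ^ 2 + 4 * t ^ 3 + 4 * t ^ 4 + 2 * t ^ 5 + 2 * t ^ 6 + t ^ 7) * h0

lemma p48 {R : Type*} [CommRing R] {t : R} (hP : 2 + t ^ 5 + t ^ 6 = 0) (h0 : (3 : R) = 0) :
    t ^ 48 = 1 + 2 * t ^ 2 + 2 * t ^ 5 := by
  calc t ^ 48 = t ^ 24 * t ^ 24 := by rw [← pow_add]
    _ = (1 + 2 * t + t ^ 4 + 2 * t ^ 5) * (1 + 2 * t + t ^ 4 + 2 * t ^ 5) := congrArg₂ (· * ·) (p24 hP h0) (p24 hP h0)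
    _ = _ := by linear_combination (2 * t + t ^ 2 + t ^ 4) * hP + (2 * t ^ 5 + 2 * t ^ 6 + (-1) * t ^ 7 + t ^ 9 + t ^ 10) * h0

lemma p49 {R : Type*} [CommRing R] {t : R} (hP : 2 + t ^ 5 + t ^ 6 = 0) (h0 : (3 : R) = 0) :
    t ^ 49 = 2 + t + 2 * t ^ 3 + t ^ 5 := by
  calc t ^ 49 = t ^ 48 * t ^ 1 := by rw [← pow_add]
    _ = (1 + 2 * t ^ 2 + 2 * t ^ 5) * (t) := congrArg₂ (· * ·) (p48 hP h0) (p1 hP h0)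
    _ = _ := by linear_combination (2) * hP + ((-2) + (-1) * t ^ 5) * h0

lemma p98 {R : Type*} [CommRing R] {t : R} (hP : 2 + t ^ 5 + t ^ 6 = 0) (h0 : (3 : R) = 0) :
    t ^ 98 = 2 * t + t ^ 3 + 2 * t ^ 4 + 2 * t ^ 5 := by
  calc t ^ 98 = t ^ 49 * t ^ 49 := by rw [← pow_add]
    _ = (2 + t + 2 * t ^ 3 + t ^ 5) * (2 + t + 2 * t ^ 3 + t ^ 5) := congrArg₂ (· * ·) (p49 hP h0) (p49 hP h0)
    _ = _ := by linear_combination (2 + t + 2 * t ^ 2 + 2 * t ^ 3 + t ^ 4) * hP + ((-1) * t ^ 2 + t ^ 3 + t ^ 6 + (-1) * t ^ 7 + (-1) * t ^ 9) * h0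

lemma p99 {R : Type*} [CommRing R] {t : R} (hP : 2 + t ^ 5 + t ^ 6 = 0) (h0 : (3 : R) = 0) :
    t ^ 99 = 2 + 2 * t ^ 2 + t ^ 4 := by
  calc t ^ 99 = t ^ 98 * t ^ 1 := by rw [← pow_add]
    _ = (2 * t + t ^ 3 + 2 * t ^ 4 + 2 * t ^ 5) * (t) := congrArg₂ (· * ·) (p98 hP h0) (p1 hP h0)
    _ = _ := by linear_combination (2) * hP + ((-2)) * h0

lemma p36 {R : Type*} [CommRing R] {t : R} (hP : 2 + t ^ 5 + t ^ 6 = 0) (h0 : (3 : R) = 0) :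
    t ^ 36 = t + 2 * t ^ 2 + t ^ 4 + t ^ 5 := by
  calc t ^ 36 = t ^ 18 * t ^ 18 := by rw [← pow_add]
    _ = (2 * t + t ^ 3 + t ^ 4) * (2 * t + t ^ 3 + t ^ 4) := congrArg₂ (· * ·) (p18 hP h0) (p18 hP h0)
    _ = _ := by linear_combination (t + t ^ 2) * hP + ((-1) * t + t ^ 4 + t ^ 5) * h0

lemma p37 {R : Type*} [CommRing R] {t : R} (hP : 2 + t ^ 5 + t ^ 6 = 0) (h0 : (3 : R) = 0) :
    t ^ 37 = 1 + t ^ 2 + 2 * t ^ 3 := by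
  calc t ^ 37 = t ^ 36 * t ^ 1 := by rw [← pow_add]
    _ = (t + 2 * t ^ 2 + t ^ 4 + t ^ 5) * (t) := congrArg₂ (· * ·) (p36 hP h0) (p1 hP h0)
    _ = _ := by linear_combination (1) * hP + ((-1)) * h0

lemma p74 {R : Type*} [CommRing R] {t : R} (hP : 2 + t ^ 5 + t ^ 6 = 0) (h0 : (3 : R) = 0) :
    t ^ 74 = 2 + 2 * t ^ 2 + t ^ 3 + t ^ 4 := by
  calc t ^ 74 = t ^ 37 * t ^ 37 := by rw [← pow_add]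
    _ = (1 + t ^ 2 + 2 * t ^ 3) * (1 + t ^ 2 + 2 * t ^ 3) := congrArg₂ (· * ·) (p37 hP h0) (p37 hP h0)
    _ = _ := by linear_combination (1) * hP + ((-1) + t ^ 3 + t ^ 5 + t ^ 6) * h0

lemma p148 {R : Type*} [CommRing R] {t : R} (hP : 2 + t ^ 5 + t ^ 6 = 0) (h0 : (3 : R) = 0) :
    t ^ 148 = 2 + t + t ^ 3 + 2 * t ^ 4 := by
  calc t ^ 148 = t ^ 74 * t ^ 74 := by rw [← pow_add]
    _ = (2 + 2 * t ^ 2 + t ^ 3 + t ^ 4) * (2 + 2 * t ^ 2 + t ^ 3 + t ^ 4) := congrArg₂ (· * ·) (p74 hP h0) (p74 hP h0)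
    _ = _ := by linear_combination (1 + t + t ^ 2) * hP + ((-1) * t + 2 * t ^ 2 + t ^ 3 + 2 * t ^ 4 + t ^ 5 + t ^ 6) * h0

lemma p296 {R : Type*} [CommRing R] {t : R} (hP : 2 + t ^ 5 + t ^ 6 = 0) (h0 : (3 : R) = 0) :
    t ^ 296 = 2 + t + 2 * t ^ 2 + t ^ 3 + t ^ 4 := by
  calc t ^ 296 = t ^ 148 * t ^ 148 := by rw [← pow_add]
    _ = (2 + t + t ^ 3 + 2 * t ^ 4) * (2 + t + t ^ 3 + 2 * t ^ 4) := congrArg₂ (· * ·) (p148 hP h0) (p148 hP h0)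
    _ = _ := by linear_combination (1 + t ^ 2) * hP + (t + (-1) * t ^ 2 + t ^ 3 + 3 * t ^ 4 + t ^ 5 + t ^ 7 + t ^ 8) * h0

lemma p297 {R : Type*} [CommRing R] {t : R} (hP : 2 + t ^ 5 + t ^ 6 = 0) (h0 : (3 : R) = 0) :
    t ^ 297 = 2 * t + t ^ 2 + 2 * t ^ 3 + t ^ 4 + t ^ 5 := by
  calc t ^ 297 = t ^ 296 * t ^ 1 := by rw [← pow_add]
    _ = (2 + t + 2 * t ^ 2 + t ^ 3 + t ^ 4) * (t) := congrArg₂ (· * ·) (p296 hP h0) (p1 hP h0)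
    _ = _ := by ring

lemma p16 {R : Type*} [CommRing R] {t : R} (hP : 2 + t ^ 5 + t ^ 6 = 0) (h0 : (3 : R) = 0) :
    t ^ 16 = t + t ^ 2 + 2 * t ^ 4 + 2 * t ^ 5 := by
  calc t ^ 16 = t ^ 8 * t ^ 8 := by rw [← pow_add]
    _ = (1 + 2 * t + t ^ 2 + 2 * t ^ 5) * (1 + 2 * t + t ^ 2 + 2 * t ^ 5) := congrArg₂ (· * ·) (p8 hP h0) (p8 hP h0)
    _ = _ := by linear_combination (2 + t ^ 2 + 2 * t ^ 3 + t ^ 4) * hP + ((-1) + t + t ^ 2 + (-1) * t ^ 4 + 2 * t ^ 6 + t ^ 7 + (-1) * t ^ 8 + (-1) * t ^ 9 + t ^ 10) * h0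

lemma p17 {R : Type*} [CommRing R] {t : R} (hP : 2 + t ^ 5 + t ^ 6 = 0) (h0 : (3 : R) = 0) :
    t ^ 17 = 2 + t ^ 2 + t ^ 3 := by
  calc t ^ 17 = t ^ 16 * t ^ 1 := by rw [← pow_add]
    _ = (t + t ^ 2 + 2 * t ^ 4 + 2 * t ^ 5) * (t) := congrArg₂ (· * ·) (p16 hP h0) (p1 hP h0)
    _ = _ := by linear_combination (2) * hP + ((-2)) * h0

lemma p34 {R : Type*} [CommRing R] {t : R} (hP : 2 + t ^ 5 + t ^ 6 = 0) (h0 : (3 : R) = 0) :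
    t ^ 34 = 2 + t ^ 2 + t ^ 3 + t ^ 4 + t ^ 5 := by
  calc t ^ 34 = t ^ 17 * t ^ 17 := by rw [← pow_add]
    _ = (2 + t ^ 2 + t ^ 3) * (2 + t ^ 2 + t ^ 3) := congrArg₂ (· * ·) (p17 hP h0) (p17 hP h0)
    _ = _ := by linear_combination (1) * hP + (t ^ 2 + t ^ 3) * h0

lemma p68 {R : Type*} [CommRing R] {t : R} (hP : 2 + t ^ 5 + t ^ 6 = 0) (h0 : (3 : R) = 0) :
    t ^ 68 = 2 + 2 * t + 2 * t ^ 3 + 2 * t ^ 5 := by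
  calc t ^ 68 = t ^ 34 * t ^ 34 := by rw [← pow_add]
    _ = (2 + t ^ 2 + t ^ 3 + t ^ 4 + t ^ 5) * (2 + t ^ 2 + t ^ 3 + t ^ 4 + t ^ 5) := congrArg₂ (· * ·) (p34 hP h0) (p34 hP h0)
    _ = _ := by linear_combination (1 + 2 * t + 2 * t ^ 2 + t ^ 3 + t ^ 4) * hP + ((-2) * t + t ^ 4 + t ^ 5) * h0

lemma p69 {R : Type*} [CommRing R] {t : R} (hP : 2 + t ^ 5 + t ^ 6 = 0) (h0 : (3 : R) = 0) :
    t ^ 69 = 2 + 2 * t + 2 * t ^ 2 + 2 * t ^ 4 + t ^ 5 := by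
  calc t ^ 69 = t ^ 68 * t ^ 1 := by rw [← pow_add]
    _ = (2 + 2 * t + 2 * t ^ 3 + 2 * t ^ 5) * (t) := congrArg₂ (· * ·) (p68 hP h0) (p1 hP h0)
    _ = _ := by linear_combination (2) * hP + ((-2) + (-1) * t ^ 5) * h0

lemma p138 {R : Type*} [CommRing R] {t : R} (hP : 2 + t ^ 5 + t ^ 6 = 0) (h0 : (3 : R) = 0) :
    t ^ 138 = 1 + 2 * t + t ^ 2 + 2 * t ^ 3 + t ^ 4 := by
  calc t ^ 138 = t ^ 69 * t ^ 69 := by rw [← pow_add]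
    _ = (2 + 2 * t + 2 * t ^ 2 + 2 * t ^ 4 + t ^ 5) * (2 + 2 * t + 2 * t ^ 2 + 2 * t ^ 4 + t ^ 5) := congrArg₂ (· * ·) (p69 hP h0) (p69 hP h0)
    _ = _ := by linear_combination (t ^ 2 + t ^ 4) * hP + (1 + 2 * t + 3 * t ^ 2 + 2 * t ^ 3 + 3 * t ^ 4 + 4 * t ^ 5 + 4 * t ^ 6 + t ^ 7 + t ^ 8 + t ^ 9) * h0

lemma p139 {R : Type*} [CommRing R] {t : R} (hP : 2 + t ^ 5 + t ^ 6 = 0) (h0 : (3 : R) = 0) :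
    t ^ 139 = t + 2 * t ^ 2 + t ^ 3 + 2 * t ^ 4 + t ^ 5 := by
  calc t ^ 139 = t ^ 138 * t ^ 1 := by rw [← pow_add]
    _ = (1 + 2 * t + t ^ 2 + 2 * t ^ 3 + t ^ 4) * (t) := congrArg₂ (· * ·) (p138 hP h0) (p1 hP h0)
    _ = _ := by ring

lemma p278 {R : Type*} [CommRing R] {t : R} (hP : 2 + t ^ 5 + t ^ 6 = 0) (h0 : (3 : R) = 0) :
    t ^ 278 = 2 * t + t ^ 2 + t ^ 3 + t ^ 4 + 2 * t ^ 5 := by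
  calc t ^ 278 = t ^ 139 * t ^ 139 := by rw [← pow_add]
    _ = (t + 2 * t ^ 2 + t ^ 3 + 2 * t ^ 4 + t ^ 5) * (t + 2 * t ^ 2 + t ^ 3 + 2 * t ^ 4 + t ^ 5) := congrArg₂ (· * ·) (p139 hP h0) (p139 hP h0)
    _ = _ := by linear_combination (2 * t + t ^ 4) * hP + ((-2) * t + t ^ 3 + t ^ 4 + 2 * t ^ 5 + 3 * t ^ 6 + 2 * t ^ 7 + 2 * t ^ 8 + t ^ 9) * h0

lemma p279 {R : Type*} [CommRing R] {t : R} (hP : 2 + t ^ 5 + t ^ 6 = 0) (h0 : (3 : R) = 0) :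
    t ^ 279 = 2 + 2 * t ^ 2 + t ^ 3 + t ^ 4 + 2 * t ^ 5 := by
  calc t ^ 279 = t ^ 278 * t ^ 1 := by rw [← pow_add]
    _ = (2 * t + t ^ 2 + t ^ 3 + t ^ 4 + 2 * t ^ 5) * (t) := congrArg₂ (· * ·) (p278 hP h0) (p1 hP h0)
    _ = _ := by linear_combination (2) * hP + ((-2) + (-1) * t ^ 5) * h0

lemma p208 {R : Type*} [CommRing R] {t : R} (hP : 2 + t ^ 5 + t ^ 6 = 0) (h0 : (3 : R) = 0) :
    t ^ 208 = 1 + 2 * t ^ 2 + 2 * t ^ 3 + 2 * t ^ 4 := by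
  calc t ^ 208 = t ^ 104 * t ^ 104 := by rw [← pow_add]
    _ = (2 * t ^ 2 + t ^ 3 + 2 * t ^ 5) * (2 * t ^ 2 + t ^ 3 + 2 * t ^ 5) := congrArg₂ (· * ·) (p104 hP h0) (p104 hP h0)
    _ = _ := by linear_combination (1 + 2 * t ^ 2 + 2 * t ^ 3 + t ^ 4) * hP + ((-1) + (-2) * t ^ 2 + (-2) * t ^ 3 + t ^ 5 + 2 * t ^ 7 + (-1) * t ^ 9 + t ^ 10) * h0

lemma p209 {R : Type*} [CommRing R] {t : R} (hP : 2 + t ^ 5 + t ^ 6 = 0) (h0 : (3 : R) = 0) :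
    t ^ 209 = t + 2 * t ^ 3 + 2 * t ^ 4 + 2 * t ^ 5 := by
  calc t ^ 209 = t ^ 208 * t ^ 1 := by rw [← pow_add]
    _ = (1 + 2 * t ^ 2 + 2 * t ^ 3 + 2 * t ^ 4) * (t) := congrArg₂ (· * ·) (p208 hP h0) (p1 hP h0)
    _ = _ := by ring

lemma p418 {R : Type*} [CommRing R] {t : R} (hP : 2 + t ^ 5 + t ^ 6 = 0) (h0 : (3 : R) = 0) :
    t ^ 418 = 2 + t ^ 3 + 2 * t ^ 4 + 2 * t ^ 5 := by
  calc t ^ 418 = t ^ 209 * t ^ 209 := by rw [← pow_add]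
    _ = (t + 2 * t ^ 3 + 2 * t ^ 4 + 2 * t ^ 5) * (t + 2 * t ^ 3 + 2 * t ^ 4 + 2 * t ^ 5) := congrArg₂ (· * ·) (p209 hP h0) (p209 hP h0)
    _ = _ := by linear_combination (2 + 2 * t ^ 2 + t ^ 3 + t ^ 4) * hP + ((-2) + (-1) * t ^ 2 + (-1) * t ^ 3 + 2 * t ^ 6 + 2 * t ^ 7 + 3 * t ^ 8 + 2 * t ^ 9 + t ^ 10) * h0

lemma p836 {R : Type*} [CommRing R] {t : R} (hP : 2 + t ^ 5 + t ^ 6 = 0) (h0 : (3 : R) = 0) :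
    t ^ 836 = 2 + t ^ 2 + 2 * t ^ 3 + t ^ 5 := by
  calc t ^ 836 = t ^ 418 * t ^ 418 := by rw [← pow_add]
    _ = (2 + t ^ 3 + 2 * t ^ 4 + 2 * t ^ 5) * (2 + t ^ 3 + 2 * t ^ 4 + 2 * t ^ 5) := congrArg₂ (· * ·) (p418 hP h0) (p418 hP h0)
    _ = _ := by linear_combination (1 + t ^ 2 + t ^ 3 + t ^ 4) * hP + ((-1) * t ^ 2 + 2 * t ^ 4 + 2 * t ^ 5 + t ^ 7 + 2 * t ^ 8 + 2 * t ^ 9 + t ^ 10) * h0

lemma p837 {R : Type*} [CommRing R] {t : R} (hP : 2 + t ^ 5 + t ^ 6 = 0) (h0 : (3 : R) = 0) :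
    t ^ 837 = 1 + 2 * t + t ^ 3 + 2 * t ^ 4 + 2 * t ^ 5 := by
  calc t ^ 837 = t ^ 836 * t ^ 1 := by rw [← pow_add]
    _ = (2 + t ^ 2 + 2 * t ^ 3 + t ^ 5) * (t) := congrArg₂ (· * ·) (p836 hP h0) (p1 hP h0)
    _ = _ := by linear_combination (1) * hP + ((-1) + (-1) * t ^ 5) * h0

lemma p32 {R : Type*} [CommRing R] {t : R} (hP : 2 + t ^ 5 + t ^ 6 = 0) (h0 : (3 : R) = 0) :
    t ^ 32 = 1 + t + t ^ 2 + 2 * t ^ 4 := by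
  calc t ^ 32 = t ^ 16 * t ^ 16 := by rw [← pow_add]
    _ = (t + t ^ 2 + 2 * t ^ 4 + 2 * t ^ 5) * (t + t ^ 2 + 2 * t ^ 4 + 2 * t ^ 5) := congrArg₂ (· * ·) (p16 hP h0) (p16 hP h0)
    _ = _ := by linear_combination (1 + t + t ^ 3 + t ^ 4) * hP + ((-1) + (-1) * t + (-1) * t ^ 4 + t ^ 5 + 2 * t ^ 6 + t ^ 7 + t ^ 8 + 2 * t ^ 9 + t ^ 10) * h0

lemma p33 {R : Type*} [CommRing R] {t : R} (hP : 2 + t ^ 5 + t ^ 6 = 0) (h0 : (3 : R) = 0) :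
    t ^ 33 = t + t ^ 2 + t ^ 3 + 2 * t ^ 5 := by
  calc t ^ 33 = t ^ 32 * t ^ 1 := by rw [← pow_add]
    _ = (1 + t + t ^ 2 + 2 * t ^ 4) * (t) := congrArg₂ (· * ·) (p32 hP h0) (p1 hP h0)
    _ = _ := by ring

lemma p23 {R : Type*} [CommRing R] {t : R} (hP : 2 + t ^ 5 + t ^ 6 = 0) (h0 : (3 : R) = 0) :
    t ^ 23 = 2 + t ^ 3 + t ^ 5 := by
  calc t ^ 23 = t ^ 22 * t ^ 1 := by rw [← pow_add]
    _ = (t ^ 2 + 2 * t ^ 5) * (t) := congrArg₂ (· * ·) (p22 hP h0) (p1 hP h0)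
    _ = _ := by linear_combination (2) * hP + ((-2) + (-1) * t ^ 5) * h0

lemma p46 {R : Type*} [CommRing R] {t : R} (hP : 2 + t ^ 5 + t ^ 6 = 0) (h0 : (3 : R) = 0) :
    t ^ 46 = 2 + t ^ 4 := by
  calc t ^ 46 = t ^ 23 * t ^ 23 := by rw [← pow_add]
    _ = (2 + t ^ 3 + t ^ 5) * (2 + t ^ 3 + t ^ 5) := congrArg₂ (· * ·) (p23 hP h0) (p23 hP h0)
    _ = _ := by linear_combination (1 + 2 * t ^ 3 + t ^ 4) * hP + ((-1) * t ^ 4 + t ^ 5 + (-1) * t ^ 9) * h0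

lemma p92 {R : Type*} [CommRing R] {t : R} (hP : 2 + t ^ 5 + t ^ 6 = 0) (h0 : (3 : R) = 0) :
    t ^ 92 = 2 + 2 * t + t ^ 2 + t ^ 4 + 2 * t ^ 5 := by
  calc t ^ 92 = t ^ 46 * t ^ 46 := by rw [← pow_add]
    _ = (2 + t ^ 4) * (2 + t ^ 4) := congrArg₂ (· * ·) (p46 hP h0) (p46 hP h0)
    _ = _ := by linear_combination (1 + 2 * t + t ^ 2) * hP + ((-2) * t + (-1) * t ^ 2 + t ^ 4 + (-1) * t ^ 5 + (-1) * t ^ 6 + (-1) * t ^ 7) * h0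

lemma p93 {R : Type*} [CommRing R] {t : R} (hP : 2 + t ^ 5 + t ^ 6 = 0) (h0 : (3 : R) = 0) :
    t ^ 93 = 2 + 2 * t + 2 * t ^ 2 + t ^ 3 + 2 * t ^ 5 := by
  calc t ^ 93 = t ^ 92 * t ^ 1 := by rw [← pow_add]
    _ = (2 + 2 * t + t ^ 2 + t ^ 4 + 2 * t ^ 5) * (t) := congrArg₂ (· * ·) (p92 hP h0) (p1 hP h0)
    _ = _ := by linear_combination (2) * hP + ((-2) + (-1) * t ^ 5) * h0

lemma i104 {R : Type*} [CommRing R] {t : R} (hP : 2 + t ^ 5 + t ^ 6 = 0) (h0 : (3 : R) = 0) :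
    (t ^ 104 - 1) * (2 * t + t ^ 2 + t ^ 4) = 1 := by
  rw [p104 hP h0]
  linear_combination (1 + 2 * t + t ^ 2 + 2 * t ^ 3) * hP + ((-1) + (-2) * t + (-1) * t ^ 2 + t ^ 4 + t ^ 6 + (-1) * t ^ 8) * h0

lemma i56 {R : Type*} [CommRing R] {t : R} (hP : 2 + t ^ 5 + t ^ 6 = 0) (h0 : (3 : R) = 0) :
    (t ^ 56 - 1) * (1 + 2 * t + t ^ 2 + t ^ 3 + 2 * t ^ 4) = 1 := by
  rw [p56 hP h0]
  linear_combination (2 + t + t ^ 2 + t ^ 3) * hP + ((-2) + (-1) * t + t ^ 5 + t ^ 6 + t ^ 9) * h0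

lemma i99 {R : Type*} [CommRing R] {t : R} (hP : 2 + t ^ 5 + t ^ 6 = 0) (h0 : (3 : R) = 0) :
    (t ^ 99 - t ^ 11) * (t + t ^ 3 + t ^ 4 + 2 * t ^ 5) = 1 := by
  have e : t ^ 99 - t ^ 11 = (2 + 2 * t ^ 2 + t ^ 4) - (2 + t + 2 * t ^ 2 + t ^ 3 + 2 * t ^ 4 + 2 * t ^ 5) := congrArg₂ (· - ·) (p99 hP h0) (p11 hP h0)
  rw [e]
  linear_combination (1 + t ^ 2 + 2 * t ^ 4) * hP + ((-1) + (-1) * t ^ 2 + (-2) * t ^ 4 + (-1) * t ^ 5 + (-2) * t ^ 6 + (-1) * t ^ 7 + (-2) * t ^ 8 + (-2) * t ^ 9 + (-2) * t ^ 10) * h0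

lemma i297 {R : Type*} [CommRing R] {t : R} (hP : 2 + t ^ 5 + t ^ 6 = 0) (h0 : (3 : R) = 0) :
    (t ^ 297 - t ^ 11) * (2 * t + t ^ 3 + 2 * t ^ 4 + 2 * t ^ 5) = 1 := by
  have e : t ^ 297 - t ^ 11 = (2 * t + t ^ 2 + 2 * t ^ 3 + t ^ 4 + t ^ 5) - (2 + t + 2 * t ^ 2 + t ^ 3 + 2 * t ^ 4 + 2 * t ^ 5) := congrArg₂ (· - ·) (p297 hP h0) (p11 hP h0)
  rw [e]
  linear_combination (1 + t + t ^ 2 + t ^ 3 + t ^ 4) * hP + ((-1) + (-2) * t + (-2) * t ^ 3 + (-1) * t ^ 4 + (-2) * t ^ 5 + (-1) * t ^ 6 + (-1) * t ^ 7 + (-1) * t ^ 8 + (-2) * t ^ 9 + (-1) * t ^ 10) * h0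

lemma i279 {R : Type*} [CommRing R] {t : R} (hP : 2 + t ^ 5 + t ^ 6 = 0) (h0 : (3 : R) = 0) :
    (t ^ 279 - t ^ 31) * (1 + 2 * t + 2 * t ^ 2 + t ^ 3 + 2 * t ^ 5) = 1 := by
  have e : t ^ 279 - t ^ 31 = (2 + 2 * t ^ 2 + t ^ 3 + t ^ 4 + 2 * t ^ 5) - (1 + t + 2 * t ^ 3 + t ^ 4 + t ^ 5) := congrArg₂ (· - ·) (p279 hP h0) (p31 hP h0)
  rw [e]
  linear_combination (2 * t + t ^ 2 + t ^ 3 + 2 * t ^ 4) * hP + ((-1) * t + (-1) * t ^ 4 + t ^ 5 + (-1) * t ^ 6 + t ^ 7 + (-1) * t ^ 8 + (-1) * t ^ 9) * h0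

lemma i837 {R : Type*} [CommRing R] {t : R} (hP : 2 + t ^ 5 + t ^ 6 = 0) (h0 : (3 : R) = 0) :
    (t ^ 837 - t ^ 31) * (2 + 2 * t + t ^ 2 + 2 * t ^ 3 + t ^ 4 + t ^ 5) = 1 := by
  have e : t ^ 837 - t ^ 31 = (1 + 2 * t + t ^ 3 + 2 * t ^ 4 + 2 * t ^ 5) - (1 + t + 2 * t ^ 3 + t ^ 4 + t ^ 5) := congrArg₂ (· - ·) (p837 hP h0) (p31 hP h0)
  rw [e]
  linear_combination (1 + t + t ^ 2 + t ^ 3 + t ^ 4) * hP + ((-1) + (-1) * t ^ 3 + t ^ 5) * h0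

lemma w11 {R : Type*} [CommRing R] {t : R} (hP : 2 + t ^ 5 + t ^ 6 = 0) (h0 : (3 : R) = 0) :
    (t ^ 33 - t ^ 11) ^ 2 = 2 * t + 2 * t ^ 2 + t ^ 5 := by
  have e : t ^ 33 - t ^ 11 = (t + t ^ 2 + t ^ 3 + 2 * t ^ 5) - (2 + t + 2 * t ^ 2 + t ^ 3 + 2 * t ^ 4 + 2 * t ^ 5) := congrArg₂ (· - ·) (p33 hP h0) (p11 hP h0)
  rw [e]
  linear_combination (2 + 2 * t + t ^ 2) * hP + ((-2) * t + 3 * t ^ 4 + (-1) * t ^ 5 + (-1) * t ^ 7 + t ^ 8) * h0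

lemma w31 {R : Type*} [CommRing R] {t : R} (hP : 2 + t ^ 5 + t ^ 6 = 0) (h0 : (3 : R) = 0) :
    (t ^ 93 - t ^ 31) ^ 2 = 2 + t ^ 2 + 2 * t ^ 3 + t ^ 4 + t ^ 5 := by
  have e : t ^ 93 - t ^ 31 = (2 + 2 * t + 2 * t ^ 2 + t ^ 3 + 2 * t ^ 5) - (1 + t + 2 * t ^ 3 + t ^ 4 + t ^ 5) := congrArg₂ (· - ·) (p93 hP h0) (p31 hP h0)
  rw [e]
  linear_combination (1 + t + 2 * t ^ 2 + t ^ 4) * hP + ((-1) + (-1) * t ^ 4 + (-2) * t ^ 5 + (-1) * t ^ 6 + t ^ 7 + (-1) * t ^ 8 + (-1) * t ^ 9) * h0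

lemma c1 {R : Type*} [CommRing R] {t : R} (hP : 2 + t ^ 5 + t ^ 6 = 0) (h0 : (3 : R) = 0) :
    (2 * t + 2 * t ^ 2 + t ^ 5) ^ 3 = t + t ^ 3 + 2 * t ^ 4 + t ^ 5 := by
  linear_combination (t + 2 * t ^ 3 + 2 * t ^ 4 + t ^ 5 + 2 * t ^ 6 + t ^ 7 + 2 * t ^ 8 + t ^ 9) * hP + ((-1) * t + t ^ 3 + 6 * t ^ 4 + 7 * t ^ 5 + t ^ 6 + 3 * t ^ 7 + 6 * t ^ 8 + 2 * t ^ 9 + (-1) * t ^ 10 + t ^ 11 + t ^ 12 + (-1) * t ^ 13 + (-1) * t ^ 14) * h0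

lemma c2 {R : Type*} [CommRing R] {t : R} (hP : 2 + t ^ 5 + t ^ 6 = 0) (h0 : (3 : R) = 0) :
    (t + t ^ 3 + 2 * t ^ 4 + t ^ 5) ^ 3 = 1 + t ^ 2 + 2 * t ^ 3 + t ^ 4 + t ^ 5 := by
  linear_combination (1 + t ^ 2 + t ^ 3 + t ^ 4 + 2 * t ^ 5 + t ^ 6 + t ^ 7 + 2 * t ^ 8 + t ^ 9) * hP + ((-1) + (-1) * t ^ 2 + (-1) * t ^ 3 + (-1) * t ^ 4 + (-1) * t ^ 5 + t ^ 6 + t ^ 7 + 2 * t ^ 8 + 5 * t ^ 9 + 5 * t ^ 10 + 5 * t ^ 11 + 6 * t ^ 12 + 4 * t ^ 13 + t ^ 14) * h0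

lemma c3 {R : Type*} [CommRing R] {t : R} (hP : 2 + t ^ 5 + t ^ 6 = 0) (h0 : (3 : R) = 0) :
    (1 + t ^ 2 + 2 * t ^ 3 + t ^ 4 + t ^ 5) ^ 3 = 2 * t + 2 * t ^ 2 + t ^ 5 := by
  linear_combination (2 + 2 * t + 2 * t ^ 2 + t ^ 7 + 2 * t ^ 8 + t ^ 9) * hP + ((-1) + (-2) * t + (-1) * t ^ 2 + 2 * t ^ 3 + 2 * t ^ 4 + 4 * t ^ 5 + 5 * t ^ 6 + 6 * t ^ 7 + 8 * t ^ 8 + 9 * t ^ 9 + 10 * t ^ 10 + 8 * t ^ 11 + 5 * t ^ 12 + 2 * t ^ 13) * h0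

lemma n0 {R : Type*} [CommRing R] {t : R} (hP : 2 + t ^ 5 + t ^ 6 = 0) (h0 : (3 : R) = 0) :
    ((t ^ 93 - t ^ 31) ^ 2 - (2 * t + 2 * t ^ 2 + t ^ 5)) * (1 + 2 * t + 2 * t ^ 2 + t ^ 5) = 1 := by
  rw [w31 hP h0]
  linear_combination (2 + t + t ^ 2 + t ^ 3) * hP + ((-1) + (-1) * t ^ 2 + (-2) * t ^ 3 + t ^ 4 + 2 * t ^ 5 + (-1) * t ^ 6 + (-1) * t ^ 7) * h0

lemma n1 {R : Type*} [CommRing R] {t : R} (hP : 2 + t ^ 5 + t ^ 6 = 0) (h0 : (3 : R) = 0) :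
    ((t ^ 93 - t ^ 31) ^ 2 - (t + t ^ 3 + 2 * t ^ 4 + t ^ 5)) * (2 + 2 * t + 2 * t ^ 3 + t ^ 4 + 2 * t ^ 5) = 1 := by
  rw [w31 hP h0]
  linear_combination (t + t ^ 3) * hP + (1 + 2 * t ^ 3 + t ^ 5 + (-1) * t ^ 9) * h0

lemma n2 {R : Type*} [CommRing R] {t : R} (hP : 2 + t ^ 5 + t ^ 6 = 0) (h0 : (3 : R) = 0) :
    ((t ^ 93 - t ^ 31) ^ 2 - (1 + t ^ 2 + 2 * t ^ 3 + t ^ 4 + t ^ 5)) * (1) = 1 := by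
  rw [w31 hP h0]
  ring

end Pool.Agent.X11.F729
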