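import Mathlib

/-! Domains of natural extensions of piecewise Moebius maps of an interval. -/

namespace Pool.Agent.X11.NatExt

open Set MeasureTheory

/-- The data: the interval `[A, B]`, the pieces `[lo i, hi i]` and the matrices. -/
structure Sys (ι : Type) where
  /-- left endpoint of `I` -/
  A : ℝ
  /-- right endpoint of `I` -/
  B : ℝ
  /-- left endpoints of the pieces -/
  lo : ι → ℝ
  /-- right endpoints of the pieces -/
  hi : ι → ℝ
  /-- the matrices `(a, b; c, d)` -/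
  M : ι → Matrix (Fin 2) (Fin 2) ℝ

namespace Sys

variable {ι : Type}

/-- The piece `I_i`. -/
def piece (S : Sys ι) (i : ι) : Set ℝ := Icc (S.lo i) (S.hi i)

/-- `c x + d`. -/
def den (S : Sys ι) (i : ι) (x : ℝ) : ℝ := S.M i 1 0 * x + S.M i 1 1

/-- `T_i x = (a x + b) / (c x + d)`. -/
noncomputable def map (S : Sys ι) (i : ι) (x : ℝ) : ℝ := (S.M i 0 0 * x + S.M i 0 1) / S.den i x

/-- `(x, y) ↦ (T_i x, (c x + d)² y - c (c x + d))`. -/
noncomputable def tmap (S : Sys ι) (i : ι) (p : ℝ × ℝ) : ℝ × ℝ :=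
  (S.map i p.1, (S.den i p.1) ^ 2 * p.2 - S.M i 1 0 * S.den i p.1)

/-- The standing assumptions of the problem (orientation preserving case). -/
structure Admissible (S : Sys ι) : Prop where
  countable : Countable ι
  lt : S.A < S.B
  le : ∀ i, S.lo i ≤ S.hi i
  cover : ⋃ i, S.piece i = Icc S.A S.B
  disj : ∀ i j, i ≠ j → volume (S.piece i ∩ S.piece j) = 0
  det : ∀ i, (S.M i).det = 1
  nonneg : ∀ i, 0 ≤ S.M i 1 0
  defined : ∀ i, ∀ x ∈ S.piece i, S.den i x ≠ 0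
  maps : ∀ i, ∀ x ∈ S.piece i, S.map i x ∈ Icc S.A S.B
  onto : ⋃ i, S.map i '' S.piece i = Icc S.A S.B
  expand : ∃ k : ℝ, k < 1 ∧ ∀ i, ∀ x ∈ S.piece i, (S.den i x) ^ 2 ≤ k
  bdd : ∃ C : ℝ, ∀ i, ∀ x ∈ S.piece i, |S.M i 1 0 * S.den i x| ≤ C

/-- The image of `K` under the piecewise map: the union of the sets `T̃_i (K ∩ (I_i × ℝ))`. -/
def step (S : Sys ι) (K : Set (ℝ × ℝ)) : Set (ℝ × ℝ) :=
  ⋃ i, S.tmap i '' (K ∩ (S.piece i ×ˢ univ))

/-- `K` is a compact subset of `I × ℝ` which projects onto `I`, and is the closure of its image. -/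
def IsInv (S : Sys ι) (K : Set (ℝ × ℝ)) : Prop :=
  IsCompact K ∧ K ⊆ Icc S.A S.B ×ˢ univ ∧ Prod.fst '' K = Icc S.A S.B ∧ K = closure (S.step K)

/-- The vertical thickening of `K` by `r`. -/
def thick (K : Set (ℝ × ℝ)) (r : ℝ) : Set (ℝ × ℝ) :=
  (fun q : (ℝ × ℝ) × ℝ => (q.1.1, q.1.2 + q.2)) '' (K ×ˢ Icc (-r) r)

theorem mem_thick {K : Set (ℝ × ℝ)} {r : ℝ} {p : ℝ × ℝ} :
    p ∈ thick K r ↔ ∃ y, (p.1, y) ∈ K ∧ |p.2 - y| ≤ r := by
  constructor
  · rintro ⟨⟨⟨x, y⟩, t⟩, ⟨h1, h2⟩, rfl⟩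
    refine ⟨y, h1, ?_⟩
    simp only [add_sub_cancel_left]
    exact abs_le.2 h2
  · rintro ⟨y, h1, h2⟩
    refine ⟨((p.1, y), p.2 - y), ⟨h1, abs_le.1 h2⟩, ?_⟩
    simp

theorem thick_closed {K : Set (ℝ × ℝ)} (hK : IsCompact K) (r : ℝ) : IsClosed (thick K r) := by
  apply IsCompact.isClosed
  apply (hK.prod isCompact_Icc).image
  fun_prop

theorem subset_of_inv (S : Sys ι) {k : ℝ} (hk1 : k < 1)
    (hk : ∀ i, ∀ x ∈ S.piece i, (S.den i x) ^ 2 ≤ k) {K K' : Set (ℝ × ℝ)}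
    (h : S.IsInv K) (h' : S.IsInv K') : K ⊆ K' := by
  obtain ⟨k', hk'⟩ : ∃ k', k' = max k 0 := ⟨_, rfl⟩
  have hk0' : 0 ≤ k' := by rw [hk']; exact le_max_right _ _
  have hk1' : k' < 1 := by rw [hk']; exact max_lt hk1 one_pos
  have hkk : ∀ i, ∀ x ∈ S.piece i, (S.den i x) ^ 2 ≤ k' := fun i x hx => by
    rw [hk']; exact (hk i x hx).trans (le_max_left _ _)
  -- initial bound
  obtain ⟨R, hR⟩ : ∃ R : ℝ, ∀ p ∈ K ∪ K', |p.2| ≤ R := by
    have hb := (h.1.union h'.1).image continuous_snd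
    obtain ⟨R, hR⟩ := hb.isBounded.exists_norm_le
    exact ⟨R, fun p hp => hR p.2 ⟨p, hp, rfl⟩⟩
  have h0 : K ⊆ thick K' (2 * R) := by
    intro p hp
    have hx : p.1 ∈ Prod.fst '' K' := by
      rw [h'.2.2.1]; exact (h.2.1 hp).1
    obtain ⟨q, hq, hqx⟩ := hx
    rw [mem_thick]
    refine ⟨q.2, by rw [← hqx]; exact hq, ?_⟩
    have h1 := abs_le.1 (hR p (Or.inl hp))
    have h2 := abs_le.1 (hR q (Or.inr hq))
    rw [abs_le]
    constructor <;> linarith [h1.1, h1.2, h2.1, h2.2]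
  have hstep : ∀ r, K ⊆ thick K' r → K ⊆ thick K' (k' * r) := by
    intro r hr
    have hs : S.step K ⊆ thick K' (k' * r) := by
      intro p hp
      rw [step, mem_iUnion] at hp
      obtain ⟨i, q, ⟨hqK, hqi⟩, rfl⟩ := hp
      obtain ⟨y', hy', hd⟩ := mem_thick.1 (hr hqK)
      rw [mem_thick]
      refine ⟨(S.den i q.1) ^ 2 * y' - S.M i 1 0 * S.den i q.1, ?_, ?_⟩
      · rw [h'.2.2.2]
        apply subset_closure
        rw [step, mem_iUnion]
        exact ⟨i, (q.1, y'), ⟨hy', ⟨hqi.1, mem_univ _⟩⟩, rfl⟩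
      · have e : (S.tmap i q).2 - ((S.den i q.1) ^ 2 * y' - S.M i 1 0 * S.den i q.1) =
            (S.den i q.1) ^ 2 * (q.2 - y') := by
          simp only [tmap]; ring
        rw [e, abs_mul, abs_of_nonneg (sq_nonneg _)]
        exact mul_le_mul (hkk i q.1 hqi.1) hd (abs_nonneg _) hk0'
    have := closure_minimal hs (thick_closed h'.1 _)
    rw [← h.2.2.2] at this
    exact this
  have hall : ∀ n : ℕ, K ⊆ thick K' (k' ^ n * (2 * R)) := by
    intro n
    induction n with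
    | zero => simpa using h0
    | succ n ih =>
      have := hstep _ ih
      rw [← mul_assoc, ← pow_succ'] at this
      exact this
  intro p hp
  rw [← h'.1.isClosed.closure_eq, Metric.mem_closure_iff]
  intro ε hε
  have hlim : Filter.Tendsto (fun n : ℕ => k' ^ n * (2 * R)) Filter.atTop (nhds (0 * (2 * R))) :=
    (tendsto_pow_atTop_nhds_zero_of_lt_one hk0' hk1').mul_const _
  rw [zero_mul] at hlim
  obtain ⟨n, hn⟩ := (hlim.eventually (gt_mem_nhds hε)).exists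
  obtain ⟨y, hy, hd⟩ := mem_thick.1 (hall n hp)
  refine ⟨(p.1, y), hy, ?_⟩
  rw [Prod.dist_eq, dist_self, Real.dist_eq]
  exact max_lt hε (lt_of_le_of_lt hd hn)

theorem unique (S : Sys ι) (hS : S.Admissible) {K K' : Set (ℝ × ℝ)}
    (h : S.IsInv K) (h' : S.IsInv K') : K' = K := by
  obtain ⟨k, hk1, hk⟩ := hS.expand
  exact Subset.antisymm (S.subset_of_inv hk1 hk h' h) (S.subset_of_inv hk1 hk h h')

end Sys

/-- The covariance identity for boundary curves. -/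
theorem cov {a b c d x y z0 Z0 X : ℝ} (hdet : a * d - b * c = 1)
    (hX : X * (c * x + d) = a * x + b) (hZ : Z0 * (c * z0 + d) = a * z0 + b) :
    (c * z0 + d) * (((c * x + d) ^ 2 * y - c * (c * x + d)) * (X - Z0) - 1) =
      (c * x + d) * (y * (x - z0) - 1) := by
  linear_combination ((c*x+d)*y-c)*(c*z0+d)*hX - ((c*x+d)*y-c)*(c*x+d)*hZ + ((c*x+d)*y-c)*(x-z0)*hdet

end Pool.Agent.X11.NatExt
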