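import Pool.Agent.X11.NatExt

/-! An explicit system whose natural extension domain is disconnected. -/

namespace Pool.Agent.X11.NatExt

open Set MeasureTheory

/-- The left half of the domain. -/
def K1 : Set (ℝ × ℝ) :=
  {p | 0 ≤ p.1 ∧ p.1 ≤ 1 ∧ p.2 * (p.1 - 36 / 19) ≤ 1 ∧ 1 ≤ p.2 * (p.1 - 81 / 17)}

/-- The right half of the domain. -/
def K2 : Set (ℝ × ℝ) :=
  {p | -1 ≤ p.1 ∧ p.1 ≤ 0 ∧ p.2 * (p.1 + 36 / 19) ≤ 1 ∧ 1 ≤ p.2 * (p.1 + 81 / 17)}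

/-- The four matrices. -/
noncomputable def MM : Fin 4 → Matrix (Fin 2) (Fin 2) ℝ :=
  ![!![-25 / 18, -1 / 2; 19 / 72, -5 / 8], !![25 / 12, 3 / 4; 3 / 4, 3 / 4],
    !![-25 / 12, 3 / 4; 3 / 4, -3 / 4], !![25 / 18, -1 / 2; 19 / 72, 5 / 8]]

/-- The system. -/
noncomputable def S : Sys (Fin 4) where
  A := -1
  B := 1
  lo := ![-1, -9 / 25, 0, 9 / 25]
  hi := ![-9 / 25, 0, 9 / 25, 1]
  M := MM

theorem den0 (x : ℝ) : S.den 0 x = 19 / 72 * x + -5 / 8 := by simp [S, Sys.den, MM]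
theorem den1 (x : ℝ) : S.den 1 x = 3 / 4 * x + 3 / 4 := by simp [S, Sys.den, MM]
theorem den2 (x : ℝ) : S.den 2 x = 3 / 4 * x + -3 / 4 := by simp [S, Sys.den, MM]
theorem den3 (x : ℝ) : S.den 3 x = 19 / 72 * x + 5 / 8 := by simp [S, Sys.den, MM]
theorem map0 (x : ℝ) : S.map 0 x = (-25 / 18 * x + -1 / 2) / (19 / 72 * x + -5 / 8) := by
  simp [S, Sys.map, Sys.den, MM]
theorem map1 (x : ℝ) : S.map 1 x = (25 / 12 * x + 3 / 4) / (3 / 4 * x + 3 / 4) := by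
  simp [S, Sys.map, Sys.den, MM]
theorem map2 (x : ℝ) : S.map 2 x = (-25 / 12 * x + 3 / 4) / (3 / 4 * x + -3 / 4) := by
  simp [S, Sys.map, Sys.den, MM]
theorem map3 (x : ℝ) : S.map 3 x = (25 / 18 * x + -1 / 2) / (19 / 72 * x + 5 / 8) := by
  simp [S, Sys.map, Sys.den, MM]
theorem piece0 : S.piece 0 = Icc (-1) (-9 / 25) := by simp [S, Sys.piece]
theorem piece1 : S.piece 1 = Icc (-9 / 25) 0 := by simp [S, Sys.piece]
theorem piece2 : S.piece 2 = Icc 0 (9 / 25) := by simp [S, Sys.piece]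
theorem piece3 : S.piece 3 = Icc (9 / 25) 1 := by simp [S, Sys.piece]
theorem tmap0 (p : ℝ × ℝ) : S.tmap 0 p = ((-25 / 18 * p.1 + -1 / 2) / (19 / 72 * p.1 + -5 / 8),
    (19 / 72 * p.1 + -5 / 8) ^ 2 * p.2 - 19 / 72 * (19 / 72 * p.1 + -5 / 8)) := by
  simp [S, Sys.tmap, Sys.map, Sys.den, MM]
theorem tmap1 (p : ℝ × ℝ) : S.tmap 1 p = ((25 / 12 * p.1 + 3 / 4) / (3 / 4 * p.1 + 3 / 4),
    (3 / 4 * p.1 + 3 / 4) ^ 2 * p.2 - 3 / 4 * (3 / 4 * p.1 + 3 / 4)) := by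
  simp [S, Sys.tmap, Sys.map, Sys.den, MM]
theorem tmap2 (p : ℝ × ℝ) : S.tmap 2 p = ((-25 / 12 * p.1 + 3 / 4) / (3 / 4 * p.1 + -3 / 4),
    (3 / 4 * p.1 + -3 / 4) ^ 2 * p.2 - 3 / 4 * (3 / 4 * p.1 + -3 / 4)) := by
  simp [S, Sys.tmap, Sys.map, Sys.den, MM]
theorem tmap3 (p : ℝ × ℝ) : S.tmap 3 p = ((25 / 18 * p.1 + -1 / 2) / (19 / 72 * p.1 + 5 / 8),
    (19 / 72 * p.1 + 5 / 8) ^ 2 * p.2 - 19 / 72 * (19 / 72 * p.1 + 5 / 8)) := by
  simp [S, Sys.tmap, Sys.map, Sys.den, MM]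

theorem K1_neg {p : ℝ × ℝ} (h : p ∈ K1) : p.2 < 0 := by
  obtain ⟨h0, h1, h2, h3⟩ := h
  by_contra hcon
  push Not at hcon
  nlinarith

theorem K2_pos {p : ℝ × ℝ} (h : p ∈ K2) : 0 < p.2 := by
  obtain ⟨h0, h1, h2, h3⟩ := h
  by_contra hcon
  push Not at hcon
  nlinarith

/-! Forward invariance -/

theorem fwd0 {p : ℝ × ℝ} (hx : p.1 ∈ Icc (-1 : ℝ) (-9 / 25)) (hp : p ∈ K2) : S.tmap 0 p ∈ K2 := by
  obtain ⟨x, y⟩ := p
  obtain ⟨h0, h1, h2, h3⟩ := hp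
  obtain ⟨hx0, hx1⟩ := hx
  simp only at h0 h1 h2 h3 hx0 hx1
  rw [tmap0]
  have hu : 19 / 72 * x + -5 / 8 < 0 := by linarith
  obtain ⟨X, hX⟩ : ∃ X, X = (-25 / 18 * x + -1 / 2) / (19 / 72 * x + -5 / 8) := ⟨_, rfl⟩
  have hX' : X * (19 / 72 * x + -5 / 8) = -25 / 18 * x + -1 / 2 := by
    rw [hX, div_mul_cancel₀ _ hu.ne]
  have c1 := cov (a := -25 / 18) (b := -1 / 2) (c := 19 / 72) (d := -5 / 8) (y := y) (x := x)
    (z0 := -36 / 19) (Z0 := -36 / 19) (X := X) (by norm_num) hX' (by norm_num)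
  have c2 := cov (a := -25 / 18) (b := -1 / 2) (c := 19 / 72) (d := -5 / 8) (y := y) (x := x)
    (z0 := -81 / 17) (Z0 := -13 / 4) (X := X) (by norm_num) hX' (by norm_num)
  simp only [← hX]
  obtain ⟨Y, hY⟩ : ∃ Y, Y = (19 / 72 * x + -5 / 8) ^ 2 * y - 19 / 72 * (19 / 72 * x + -5 / 8) :=
    ⟨_, rfl⟩
  rw [← hY] at c1 c2 ⊢
  have hXl : -1 ≤ X := by
    rw [hX, le_div_iff_of_neg hu]; linarith
  have hXr : X ≤ 0 := by
    rw [hX, div_le_iff_of_neg hu]; linarith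
  have i1 : Y * (X + 36 / 19) ≤ 1 := by
    have : 0 ≤ (19 / 72 * x + -5 / 8) * (y * (x - -36 / 19) - 1) := by
      apply mul_nonneg_of_nonpos_of_nonpos hu.le
      linarith
    rw [← c1] at this
    linarith
  have i2 : 1 ≤ Y * (X + 13 / 4) := by
    have : (19 / 72 * x + -5 / 8) * (y * (x - -81 / 17) - 1) ≤ 0 := by
      apply mul_nonpos_of_nonpos_of_nonneg hu.le
      linarith
    rw [← c2] at this
    linarith
  have hY0 : 0 < Y := by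
    by_contra hcon
    push Not at hcon
    nlinarith
  exact ⟨hXl, hXr, i1, by simp only; nlinarith⟩

theorem fwd3 {p : ℝ × ℝ} (hx : p.1 ∈ Icc (9 / 25 : ℝ) 1) (hp : p ∈ K1) : S.tmap 3 p ∈ K1 := by
  obtain ⟨x, y⟩ := p
  obtain ⟨h0, h1, h2, h3⟩ := hp
  obtain ⟨hx0, hx1⟩ := hx
  simp only at h0 h1 h2 h3 hx0 hx1
  rw [tmap3]
  have hu : 0 < 19 / 72 * x + 5 / 8 := by linarith
  obtain ⟨X, hX⟩ : ∃ X, X = (25 / 18 * x + -1 / 2) / (19 / 72 * x + 5 / 8) := ⟨_, rfl⟩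
  have hX' : X * (19 / 72 * x + 5 / 8) = 25 / 18 * x + -1 / 2 := by
    rw [hX, div_mul_cancel₀ _ hu.ne']
  have c1 := cov (a := 25 / 18) (b := -1 / 2) (c := 19 / 72) (d := 5 / 8) (y := y) (x := x)
    (z0 := 36 / 19) (Z0 := 36 / 19) (X := X) (by norm_num) hX' (by norm_num)
  have c2 := cov (a := 25 / 18) (b := -1 / 2) (c := 19 / 72) (d := 5 / 8) (y := y) (x := x)
    (z0 := 81 / 17) (Z0 := 13 / 4) (X := X) (by norm_num) hX' (by norm_num)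
  simp only [← hX]
  obtain ⟨Y, hY⟩ : ∃ Y, Y = (19 / 72 * x + 5 / 8) ^ 2 * y - 19 / 72 * (19 / 72 * x + 5 / 8) :=
    ⟨_, rfl⟩
  rw [← hY] at c1 c2 ⊢
  have hXl : 0 ≤ X := by
    rw [hX, le_div_iff₀ hu]; linarith
  have hXr : X ≤ 1 := by
    rw [hX, div_le_iff₀ hu]; linarith
  have i1 : Y * (X - 36 / 19) ≤ 1 := by
    have : (19 / 72 * x + 5 / 8) * (y * (x - 36 / 19) - 1) ≤ 0 := by
      apply mul_nonpos_of_nonneg_of_nonpos hu.le
      linarith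
    rw [← c1] at this
    linarith
  have i2 : 1 ≤ Y * (X - 13 / 4) := by
    have : 0 ≤ (19 / 72 * x + 5 / 8) * (y * (x - 81 / 17) - 1) := by
      apply mul_nonneg hu.le
      linarith
    rw [← c2] at this
    linarith
  have hY0 : Y < 0 := by
    by_contra hcon
    push Not at hcon
    nlinarith
  exact ⟨hXl, hXr, i1, by simp only; nlinarith⟩

theorem fwd1 {p : ℝ × ℝ} (hx : p.1 ∈ Icc (-9 / 25 : ℝ) 0) (hp : p ∈ K2) : S.tmap 1 p ∈ K1 := by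
  obtain ⟨x, y⟩ := p
  obtain ⟨h0, h1, h2, h3⟩ := hp
  obtain ⟨hx0, hx1⟩ := hx
  simp only at h0 h1 h2 h3 hx0 hx1
  rw [tmap1]
  have hu : 0 < 3 / 4 * x + 3 / 4 := by linarith
  obtain ⟨X, hX⟩ : ∃ X, X = (25 / 12 * x + 3 / 4) / (3 / 4 * x + 3 / 4) := ⟨_, rfl⟩
  have hX' : X * (3 / 4 * x + 3 / 4) = 25 / 12 * x + 3 / 4 := by
    rw [hX, div_mul_cancel₀ _ hu.ne']
  have c1 := cov (a := 25 / 12) (b := 3 / 4) (c := 3 / 4) (d := 3 / 4) (y := y) (x := x)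
    (z0 := -36 / 19) (Z0 := 81 / 17) (X := X) (by norm_num) hX' (by norm_num)
  have c2 := cov (a := 25 / 12) (b := 3 / 4) (c := 3 / 4) (d := 3 / 4) (y := y) (x := x)
    (z0 := -81 / 17) (Z0 := 13 / 4) (X := X) (by norm_num) hX' (by norm_num)
  simp only [← hX]
  obtain ⟨Y, hY⟩ : ∃ Y, Y = (3 / 4 * x + 3 / 4) ^ 2 * y - 3 / 4 * (3 / 4 * x + 3 / 4) :=
    ⟨_, rfl⟩
  rw [← hY] at c1 c2 ⊢
  have hXl : 0 ≤ X := by
    rw [hX, le_div_iff₀ hu]; linarith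
  have hXr : X ≤ 1 := by
    rw [hX, div_le_iff₀ hu]; linarith
  have i1 : 1 ≤ Y * (X - 81 / 17) := by
    have : (3 / 4 * x + 3 / 4) * (y * (x - -36 / 19) - 1) ≤ 0 := by
      apply mul_nonpos_of_nonneg_of_nonpos hu.le
      linarith
    rw [← c1] at this
    linarith
  have i2 : Y * (X - 13 / 4) ≤ 1 := by
    have : 0 ≤ (3 / 4 * x + 3 / 4) * (y * (x - -81 / 17) - 1) := by
      apply mul_nonneg hu.le
      linarith
    rw [← c2] at this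
    linarith
  have hY0 : Y < 0 := by
    by_contra hcon
    push Not at hcon
    nlinarith
  exact ⟨hXl, hXr, by simp only; nlinarith, i1⟩

theorem fwd2 {p : ℝ × ℝ} (hx : p.1 ∈ Icc (0 : ℝ) (9 / 25)) (hp : p ∈ K1) : S.tmap 2 p ∈ K2 := by
  obtain ⟨x, y⟩ := p
  obtain ⟨h0, h1, h2, h3⟩ := hp
  obtain ⟨hx0, hx1⟩ := hx
  simp only at h0 h1 h2 h3 hx0 hx1
  rw [tmap2]
  have hu : 3 / 4 * x + -3 / 4 < 0 := by linarith
  obtain ⟨X, hX⟩ : ∃ X, X = (-25 / 12 * x + 3 / 4) / (3 / 4 * x + -3 / 4) := ⟨_, rfl⟩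
  have hX' : X * (3 / 4 * x + -3 / 4) = -25 / 12 * x + 3 / 4 := by
    rw [hX, div_mul_cancel₀ _ hu.ne]
  have c1 := cov (a := -25 / 12) (b := 3 / 4) (c := 3 / 4) (d := -3 / 4) (y := y) (x := x)
    (z0 := 36 / 19) (Z0 := -81 / 17) (X := X) (by norm_num) hX' (by norm_num)
  have c2 := cov (a := -25 / 12) (b := 3 / 4) (c := 3 / 4) (d := -3 / 4) (y := y) (x := x)
    (z0 := 81 / 17) (Z0 := -13 / 4) (X := X) (by norm_num) hX' (by norm_num)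
  simp only [← hX]
  obtain ⟨Y, hY⟩ : ∃ Y, Y = (3 / 4 * x + -3 / 4) ^ 2 * y - 3 / 4 * (3 / 4 * x + -3 / 4) :=
    ⟨_, rfl⟩
  rw [← hY] at c1 c2 ⊢
  have hXl : -1 ≤ X := by
    rw [hX, le_div_iff_of_neg hu]; linarith
  have hXr : X ≤ 0 := by
    rw [hX, div_le_iff_of_neg hu]; linarith
  have i1 : 1 ≤ Y * (X + 81 / 17) := by
    have : 0 ≤ (3 / 4 * x + -3 / 4) * (y * (x - 36 / 19) - 1) := by
      apply mul_nonneg_of_nonpos_of_nonpos hu.le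
      linarith
    rw [← c1] at this
    linarith
  have i2 : Y * (X + 13 / 4) ≤ 1 := by
    have : (3 / 4 * x + -3 / 4) * (y * (x - 81 / 17) - 1) ≤ 0 := by
      apply mul_nonpos_of_nonpos_of_nonneg hu.le
      linarith
    rw [← c2] at this
    linarith
  have hY0 : 0 < Y := by
    by_contra hcon
    push Not at hcon
    nlinarith
  exact ⟨hXl, hXr, by simp only; nlinarith, i1⟩

theorem fwd2' {y : ℝ} (hp : ((0 : ℝ), y) ∈ K2) : S.tmap 2 (0, y) ∈ K2 := by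
  obtain ⟨_, _, h2, h3⟩ := hp
  simp only at h2 h3
  rw [tmap2]
  refine ⟨by norm_num, by norm_num, ?_, ?_⟩ <;> norm_num <;> linarith

theorem fwd1' {y : ℝ} (hp : ((0 : ℝ), y) ∈ K1) : S.tmap 1 (0, y) ∈ K1 := by
  obtain ⟨_, _, h2, h3⟩ := hp
  simp only at h2 h3
  rw [tmap1]
  refine ⟨by norm_num, by norm_num, ?_, ?_⟩ <;> norm_num <;> linarith

theorem step_subset : S.step (K1 ∪ K2) ⊆ K1 ∪ K2 := by
  intro p hp
  rw [Sys.step, mem_iUnion] at hp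
  obtain ⟨i, q, ⟨hq, hqi⟩, rfl⟩ := hp
  have hqi := hqi.1
  fin_cases i
  · change q.1 ∈ S.piece 0 at hqi
    change S.tmap 0 q ∈ _
    rw [piece0] at hqi
    rcases hq with hq | hq
    · exact absurd hq.1 (by have := hqi.2; linarith)
    · exact Or.inr (fwd0 hqi hq)
  · change q.1 ∈ S.piece 1 at hqi
    change S.tmap 1 q ∈ _
    rw [piece1] at hqi
    rcases hq with hq | hq
    · have : q.1 = 0 := le_antisymm hqi.2 hq.1
      obtain ⟨x, y⟩ := q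
      simp only at this
      subst this
      exact Or.inl (fwd1' hq)
    · exact Or.inl (fwd1 hqi hq)
  · change q.1 ∈ S.piece 2 at hqi
    change S.tmap 2 q ∈ _
    rw [piece2] at hqi
    rcases hq with hq | hq
    · exact Or.inr (fwd2 hqi hq)
    · have : q.1 = 0 := le_antisymm hq.2.1 hqi.1
      obtain ⟨x, y⟩ := q
      simp only at this
      subst this
      exact Or.inr (fwd2' hq)
  · change q.1 ∈ S.piece 3 at hqi
    change S.tmap 3 q ∈ _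
    rw [piece3] at hqi
    rcases hq with hq | hq
    · exact Or.inl (fwd3 hqi hq)
    · exact absurd hq.2.1 (by have := hqi.1; intro h; linarith)

end Pool.Agent.X11.NatExt
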