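import Pool.Agent.X11.NatExtEx

/-! The domain is invariant, disconnected and of positive measure. -/

namespace Pool.Agent.X11.NatExt

open Set MeasureTheory

theorem bwd3 {X Y : ℝ} (h : (X, Y) ∈ K1) (hc : 1 ≤ Y * (X - 13 / 4)) :
    ∃ q : ℝ × ℝ, q.1 ∈ Icc (9 / 25 : ℝ) 1 ∧ q ∈ K1 ∧ S.tmap 3 q = (X, Y) := by
  obtain ⟨h0, h1, h2, h3⟩ := h
  simp only at h0 h1 h2 h3
  obtain ⟨w, hw⟩ : ∃ w, w = 25 / 18 - 19 / 72 * X := ⟨_, rfl⟩
  have hw0 : 0 < w := by rw [hw]; linarith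
  obtain ⟨x, hx⟩ : ∃ x, x = (5 / 8 * X + 1 / 2) / w := ⟨_, rfl⟩
  have hxw : x * w = 5 / 8 * X + 1 / 2 := by rw [hx, div_mul_cancel₀ _ hw0.ne']
  have huw : (19 / 72 * x + 5 / 8) * w = 1 := by
    rw [add_mul, mul_assoc, hxw, hw]; ring
  have hu : 0 < 19 / 72 * x + 5 / 8 := by
    by_contra hcon
    push Not at hcon
    have := mul_nonpos_of_nonpos_of_nonneg hcon hw0.le
    linarith
  have hx0 : 9 / 25 ≤ x := by rw [hx, le_div_iff₀ hw0, hw]; linarith
  have hx1 : x ≤ 1 := by rw [hx, div_le_iff₀ hw0, hw]; linarith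
  obtain ⟨y, hy⟩ : ∃ y, y = w ^ 2 * Y + 19 / 72 * w := ⟨_, rfl⟩
  have hX' : X * (19 / 72 * x + 5 / 8) = 25 / 18 * x + -1 / 2 := by
    have : (X * (19 / 72 * x + 5 / 8) - (25 / 18 * x + -1 / 2)) * w = 0 := by
      rw [sub_mul, mul_assoc, huw, add_mul, mul_assoc, hxw, hw]; ring
    rcases mul_eq_zero.1 this with h | h
    · linarith
    · exact absurd h hw0.ne'
  have hYv : (19 / 72 * x + 5 / 8) ^ 2 * y - 19 / 72 * (19 / 72 * x + 5 / 8) = Y := by
    rw [hy]
    linear_combination (((19 / 72 * x + 5 / 8) * w + 1) * Y + 19 / 72 * (19 / 72 * x + 5 / 8)) * huw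
  have c1 := cov (a := 25 / 18) (b := -1 / 2) (c := 19 / 72) (d := 5 / 8) (y := y) (x := x)
    (z0 := 36 / 19) (Z0 := 36 / 19) (X := X) (by norm_num) hX' (by norm_num)
  have c2 := cov (a := 25 / 18) (b := -1 / 2) (c := 19 / 72) (d := 5 / 8) (y := y) (x := x)
    (z0 := 81 / 17) (Z0 := 13 / 4) (X := X) (by norm_num) hX' (by norm_num)
  rw [hYv] at c1 c2
  refine ⟨(x, y), ⟨hx0, hx1⟩, ⟨by simp only; linarith, hx1, ?_, ?_⟩, ?_⟩
  · simp only
    by_contra hcon
    push Not at hcon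
    have : 0 < (19 / 72 * x + 5 / 8) * (y * (x - 36 / 19) - 1) := mul_pos hu (by linarith)
    rw [← c1] at this
    linarith
  · simp only
    by_contra hcon
    push Not at hcon
    have : (19 / 72 * x + 5 / 8) * (y * (x - 81 / 17) - 1) < 0 := mul_neg_of_pos_of_neg hu (by linarith)
    rw [← c2] at this
    linarith
  · rw [tmap3]
    simp only
    rw [hYv, ← hX', mul_div_assoc, div_self hu.ne', mul_one]

theorem bwd1 {X Y : ℝ} (h : (X, Y) ∈ K1) (hc : Y * (X - 13 / 4) ≤ 1) :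
    ∃ q : ℝ × ℝ, q.1 ∈ Icc (-9 / 25 : ℝ) 0 ∧ q ∈ K2 ∧ S.tmap 1 q = (X, Y) := by
  obtain ⟨h0, h1, h2, h3⟩ := h
  simp only at h0 h1 h2 h3
  obtain ⟨w, hw⟩ : ∃ w, w = 25 / 12 - 3 / 4 * X := ⟨_, rfl⟩
  have hw0 : 0 < w := by rw [hw]; linarith
  obtain ⟨x, hx⟩ : ∃ x, x = (3 / 4 * X - 3 / 4) / w := ⟨_, rfl⟩
  have hxw : x * w = 3 / 4 * X - 3 / 4 := by rw [hx, div_mul_cancel₀ _ hw0.ne']
  have huw : (3 / 4 * x + 3 / 4) * w = 1 := by
    rw [add_mul, mul_assoc, hxw, hw]; ring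
  have hu : 0 < 3 / 4 * x + 3 / 4 := by
    by_contra hcon
    push Not at hcon
    have := mul_nonpos_of_nonpos_of_nonneg hcon hw0.le
    linarith
  have hx0 : -9 / 25 ≤ x := by rw [hx, le_div_iff₀ hw0, hw]; linarith
  have hx1 : x ≤ 0 := by rw [hx, div_le_iff₀ hw0, hw]; linarith
  obtain ⟨y, hy⟩ : ∃ y, y = w ^ 2 * Y + 3 / 4 * w := ⟨_, rfl⟩
  have hX' : X * (3 / 4 * x + 3 / 4) = 25 / 12 * x + 3 / 4 := by
    have : (X * (3 / 4 * x + 3 / 4) - (25 / 12 * x + 3 / 4)) * w = 0 := by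
      rw [sub_mul, mul_assoc, huw, add_mul, mul_assoc, hxw, hw]; ring
    rcases mul_eq_zero.1 this with h | h
    · linarith
    · exact absurd h hw0.ne'
  have hYv : (3 / 4 * x + 3 / 4) ^ 2 * y - 3 / 4 * (3 / 4 * x + 3 / 4) = Y := by
    rw [hy]
    linear_combination (((3 / 4 * x + 3 / 4) * w + 1) * Y + 3 / 4 * (3 / 4 * x + 3 / 4)) * huw
  have c1 := cov (a := 25 / 12) (b := 3 / 4) (c := 3 / 4) (d := 3 / 4) (y := y) (x := x)
    (z0 := -36 / 19) (Z0 := 81 / 17) (X := X) (by norm_num) hX' (by norm_num)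
  have c2 := cov (a := 25 / 12) (b := 3 / 4) (c := 3 / 4) (d := 3 / 4) (y := y) (x := x)
    (z0 := -81 / 17) (Z0 := 13 / 4) (X := X) (by norm_num) hX' (by norm_num)
  rw [hYv] at c1 c2
  refine ⟨(x, y), ⟨hx0, hx1⟩, ⟨by simp only; linarith, hx1, ?_, ?_⟩, ?_⟩
  · simp only
    by_contra hcon
    push Not at hcon
    have : 0 < (3 / 4 * x + 3 / 4) * (y * (x - -36 / 19) - 1) := mul_pos hu (by linarith)
    rw [← c1] at this
    linarith
  · simp only
    by_contra hcon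
    push Not at hcon
    have : (3 / 4 * x + 3 / 4) * (y * (x - -81 / 17) - 1) < 0 := mul_neg_of_pos_of_neg hu (by linarith)
    rw [← c2] at this
    linarith
  · rw [tmap1]
    simp only
    rw [hYv, ← hX', mul_div_assoc, div_self hu.ne', mul_one]

theorem bwd2 {X Y : ℝ} (h : (X, Y) ∈ K2) (hc : Y * (X + 13 / 4) ≤ 1) :
    ∃ q : ℝ × ℝ, q.1 ∈ Icc (0 : ℝ) (9 / 25) ∧ q ∈ K1 ∧ S.tmap 2 q = (X, Y) := by
  obtain ⟨h0, h1, h2, h3⟩ := h
  simp only at h0 h1 h2 h3
  obtain ⟨w, hw⟩ : ∃ w, w = -25 / 12 - 3 / 4 * X := ⟨_, rfl⟩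
  have hw0 : w < 0 := by rw [hw]; linarith
  obtain ⟨x, hx⟩ : ∃ x, x = (-3 / 4 * X - 3 / 4) / w := ⟨_, rfl⟩
  have hxw : x * w = -3 / 4 * X - 3 / 4 := by rw [hx, div_mul_cancel₀ _ hw0.ne]
  have huw : (3 / 4 * x + -3 / 4) * w = 1 := by
    rw [add_mul, mul_assoc, hxw, hw]; ring
  have hu : 3 / 4 * x + -3 / 4 < 0 := by
    by_contra hcon
    push Not at hcon
    have := mul_nonpos_of_nonneg_of_nonpos hcon hw0.le
    linarith
  have hx0 : 0 ≤ x := by rw [hx, le_div_iff_of_neg hw0]; linarith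
  have hx1 : x ≤ 9 / 25 := by rw [hx, div_le_iff_of_neg hw0, hw]; linarith
  obtain ⟨y, hy⟩ : ∃ y, y = w ^ 2 * Y + 3 / 4 * w := ⟨_, rfl⟩
  have hX' : X * (3 / 4 * x + -3 / 4) = -25 / 12 * x + 3 / 4 := by
    have : (X * (3 / 4 * x + -3 / 4) - (-25 / 12 * x + 3 / 4)) * w = 0 := by
      rw [sub_mul, mul_assoc, huw, add_mul, mul_assoc, hxw, hw]; ring
    rcases mul_eq_zero.1 this with h | h
    · linarith
    · exact absurd h hw0.ne
  have hYv : (3 / 4 * x + -3 / 4) ^ 2 * y - 3 / 4 * (3 / 4 * x + -3 / 4) = Y := by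
    rw [hy]
    linear_combination (((3 / 4 * x + -3 / 4) * w + 1) * Y + 3 / 4 * (3 / 4 * x + -3 / 4)) * huw
  have c1 := cov (a := -25 / 12) (b := 3 / 4) (c := 3 / 4) (d := -3 / 4) (y := y) (x := x)
    (z0 := 36 / 19) (Z0 := -81 / 17) (X := X) (by norm_num) hX' (by norm_num)
  have c2 := cov (a := -25 / 12) (b := 3 / 4) (c := 3 / 4) (d := -3 / 4) (y := y) (x := x)
    (z0 := 81 / 17) (Z0 := -13 / 4) (X := X) (by norm_num) hX' (by norm_num)
  rw [hYv] at c1 c2
  refine ⟨(x, y), ⟨hx0, hx1⟩, ⟨hx0, by simp only; linarith, ?_, ?_⟩, ?_⟩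
  · simp only
    by_contra hcon
    push Not at hcon
    have : (3 / 4 * x + -3 / 4) * (y * (x - 36 / 19) - 1) < 0 := mul_neg_of_neg_of_pos hu (by linarith)
    rw [← c1] at this
    linarith
  · simp only
    by_contra hcon
    push Not at hcon
    have : 0 < (3 / 4 * x + -3 / 4) * (y * (x - 81 / 17) - 1) := mul_pos_of_neg_of_neg hu (by linarith)
    rw [← c2] at this
    linarith
  · rw [tmap2]
    simp only
    rw [hYv, ← hX', mul_div_assoc, div_self hu.ne, mul_one]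

theorem bwd0 {X Y : ℝ} (h : (X, Y) ∈ K2) (hc : 1 ≤ Y * (X + 13 / 4)) :
    ∃ q : ℝ × ℝ, q.1 ∈ Icc (-1 : ℝ) (-9 / 25) ∧ q ∈ K2 ∧ S.tmap 0 q = (X, Y) := by
  obtain ⟨h0, h1, h2, h3⟩ := h
  simp only at h0 h1 h2 h3
  obtain ⟨w, hw⟩ : ∃ w, w = -25 / 18 - 19 / 72 * X := ⟨_, rfl⟩
  have hw0 : w < 0 := by rw [hw]; linarith
  obtain ⟨x, hx⟩ : ∃ x, x = (-5 / 8 * X + 1 / 2) / w := ⟨_, rfl⟩
  have hxw : x * w = -5 / 8 * X + 1 / 2 := by rw [hx, div_mul_cancel₀ _ hw0.ne]
  have huw : (19 / 72 * x + -5 / 8) * w = 1 := by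
    rw [add_mul, mul_assoc, hxw, hw]; ring
  have hu : 19 / 72 * x + -5 / 8 < 0 := by
    by_contra hcon
    push Not at hcon
    have := mul_nonpos_of_nonneg_of_nonpos hcon hw0.le
    linarith
  have hx0 : -1 ≤ x := by rw [hx, le_div_iff_of_neg hw0, hw]; linarith
  have hx1 : x ≤ -9 / 25 := by rw [hx, div_le_iff_of_neg hw0, hw]; linarith
  obtain ⟨y, hy⟩ : ∃ y, y = w ^ 2 * Y + 19 / 72 * w := ⟨_, rfl⟩
  have hX' : X * (19 / 72 * x + -5 / 8) = -25 / 18 * x + -1 / 2 := by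
    have : (X * (19 / 72 * x + -5 / 8) - (-25 / 18 * x + -1 / 2)) * w = 0 := by
      rw [sub_mul, mul_assoc, huw, add_mul, mul_assoc, hxw, hw]; ring
    rcases mul_eq_zero.1 this with h | h
    · linarith
    · exact absurd h hw0.ne
  have hYv : (19 / 72 * x + -5 / 8) ^ 2 * y - 19 / 72 * (19 / 72 * x + -5 / 8) = Y := by
    rw [hy]
    linear_combination (((19 / 72 * x + -5 / 8) * w + 1) * Y + 19 / 72 * (19 / 72 * x + -5 / 8)) * huw
  have c1 := cov (a := -25 / 18) (b := -1 / 2) (c := 19 / 72) (d := -5 / 8) (y := y) (x := x)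
    (z0 := -36 / 19) (Z0 := -36 / 19) (X := X) (by norm_num) hX' (by norm_num)
  have c2 := cov (a := -25 / 18) (b := -1 / 2) (c := 19 / 72) (d := -5 / 8) (y := y) (x := x)
    (z0 := -81 / 17) (Z0 := -13 / 4) (X := X) (by norm_num) hX' (by norm_num)
  rw [hYv] at c1 c2
  refine ⟨(x, y), ⟨hx0, hx1⟩, ⟨hx0, by simp only; linarith, ?_, ?_⟩, ?_⟩
  · simp only
    by_contra hcon
    push Not at hcon
    have : (19 / 72 * x + -5 / 8) * (y * (x - -36 / 19) - 1) < 0 := mul_neg_of_neg_of_pos hu (by linarith)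
    rw [← c1] at this
    linarith
  · simp only
    by_contra hcon
    push Not at hcon
    have : 0 < (19 / 72 * x + -5 / 8) * (y * (x - -81 / 17) - 1) := mul_pos_of_neg_of_neg hu (by linarith)
    rw [← c2] at this
    linarith
  · rw [tmap0]
    simp only
    rw [hYv, ← hX', mul_div_assoc, div_self hu.ne, mul_one]

theorem subset_step : K1 ∪ K2 ⊆ S.step (K1 ∪ K2) := by
  rintro ⟨X, Y⟩ hp
  rw [Sys.step, mem_iUnion]
  rcases hp with hp | hp
  · rcases le_total 1 (Y * (X - 13 / 4)) with hc | hc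
    · obtain ⟨q, h1, h2, h3⟩ := bwd3 hp hc
      exact ⟨3, q, ⟨Or.inl h2, ⟨by rw [piece3]; exact h1, mem_univ _⟩⟩, h3⟩
    · obtain ⟨q, h1, h2, h3⟩ := bwd1 hp hc
      exact ⟨1, q, ⟨Or.inr h2, ⟨by rw [piece1]; exact h1, mem_univ _⟩⟩, h3⟩
  · rcases le_total (Y * (X + 13 / 4)) 1 with hc | hc
    · obtain ⟨q, h1, h2, h3⟩ := bwd2 hp hc
      exact ⟨2, q, ⟨Or.inl h2, ⟨by rw [piece2]; exact h1, mem_univ _⟩⟩, h3⟩
    · obtain ⟨q, h1, h2, h3⟩ := bwd0 hp hc
      exact ⟨0, q, ⟨Or.inr h2, ⟨by rw [piece0]; exact h1, mem_univ _⟩⟩, h3⟩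

theorem step_eq : S.step (K1 ∪ K2) = K1 ∪ K2 := Subset.antisymm step_subset subset_step

theorem K1_closed : IsClosed K1 := by
  have h1 : IsClosed {p : ℝ × ℝ | 0 ≤ p.1} := isClosed_le (by fun_prop) (by fun_prop)
  have h2 : IsClosed {p : ℝ × ℝ | p.1 ≤ 1} := isClosed_le (by fun_prop) (by fun_prop)
  have h3 : IsClosed {p : ℝ × ℝ | p.2 * (p.1 - 36 / 19) ≤ 1} :=
    isClosed_le (by fun_prop) (by fun_prop)
  have h4 : IsClosed {p : ℝ × ℝ | 1 ≤ p.2 * (p.1 - 81 / 17)} :=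
    isClosed_le (by fun_prop) (by fun_prop)
  exact h1.inter (h2.inter (h3.inter h4))

theorem K2_closed : IsClosed K2 := by
  have h1 : IsClosed {p : ℝ × ℝ | -1 ≤ p.1} := isClosed_le (by fun_prop) (by fun_prop)
  have h2 : IsClosed {p : ℝ × ℝ | p.1 ≤ 0} := isClosed_le (by fun_prop) (by fun_prop)
  have h3 : IsClosed {p : ℝ × ℝ | p.2 * (p.1 + 36 / 19) ≤ 1} :=
    isClosed_le (by fun_prop) (by fun_prop)
  have h4 : IsClosed {p : ℝ × ℝ | 1 ≤ p.2 * (p.1 + 81 / 17)} :=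
    isClosed_le (by fun_prop) (by fun_prop)
  exact h1.inter (h2.inter (h3.inter h4))

theorem K_compact : IsCompact (K1 ∪ K2) := by
  apply IsCompact.of_isClosed_subset ((isCompact_Icc (a := (-1 : ℝ)) (b := 1)).prod
    (isCompact_Icc (a := (-2 : ℝ)) (b := 2))) (K1_closed.union K2_closed)
  rintro ⟨x, y⟩ (h | h)
  · have hn := K1_neg h
    obtain ⟨h0, h1, h2, h3⟩ := h
    simp only at h0 h1 h2 h3 hn
    refine ⟨⟨by simp only; linarith, h1⟩, ⟨?_, by simp only; linarith⟩⟩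
    simp only
    by_contra hcon
    push Not at hcon
    nlinarith
  · have hn := K2_pos h
    obtain ⟨h0, h1, h2, h3⟩ := h
    simp only at h0 h1 h2 h3 hn
    refine ⟨⟨h0, by simp only; linarith⟩, ⟨by simp only; linarith, ?_⟩⟩
    simp only
    by_contra hcon
    push Not at hcon
    nlinarith

theorem box : Icc (0 : ℝ) 1 ×ˢ Icc (-1 / 2 : ℝ) (-3 / 10) ⊆ K1 := by
  rintro ⟨x, y⟩ ⟨⟨h0, h1⟩, ⟨h2, h3⟩⟩
  simp only at h0 h1 h2 h3
  exact ⟨h0, h1, by simp only; nlinarith, by simp only; nlinarith⟩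

theorem proj : Prod.fst '' (K1 ∪ K2) = Icc (-1 : ℝ) 1 := by
  ext x
  constructor
  · rintro ⟨p, hp | hp, rfl⟩
    · exact ⟨by linarith [hp.1], hp.2.1⟩
    · exact ⟨hp.1, by linarith [hp.2.1]⟩
  · rintro ⟨h0, h1⟩
    rcases le_total 0 x with h | h
    · exact ⟨(x, -2 / 5), Or.inl (box ⟨⟨h, h1⟩, ⟨by norm_num, by norm_num⟩⟩), rfl⟩
    · refine ⟨(x, 2 / 5), Or.inr ⟨h0, h, ?_, ?_⟩, rfl⟩ <;> simp only <;> linarith

theorem inv : S.IsInv (K1 ∪ K2) := by
  refine ⟨K_compact, ?_, ?_, ?_⟩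
  · intro p hp
    have : p.1 ∈ Prod.fst '' (K1 ∪ K2) := ⟨p, hp, rfl⟩
    rw [proj] at this
    exact ⟨by simpa [S] using this, mem_univ _⟩
  · rw [proj]; simp [S]
  · rw [step_eq, (K1_closed.union K2_closed).closure_eq]

theorem vol_pos : 0 < volume (K1 ∪ K2) := by
  refine lt_of_lt_of_le ?_ (measure_mono (box.trans subset_union_left))
  rw [Measure.volume_eq_prod, Measure.prod_prod, Real.volume_Icc, Real.volume_Icc]
  rw [← ENNReal.ofReal_mul (by norm_num)]
  exact ENNReal.ofReal_pos.2 (by norm_num)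

theorem not_preconnected : ¬ IsPreconnected (K1 ∪ K2) := by
  intro h
  have h1 := h.image Prod.snd continuous_snd.continuousOn
  have h2 := h1.ordConnected
  have ha : (-2 / 5 : ℝ) ∈ Prod.snd '' (K1 ∪ K2) :=
    ⟨(0, -2 / 5), Or.inl (box ⟨⟨by norm_num, by norm_num⟩, ⟨by norm_num, by norm_num⟩⟩), rfl⟩
  have hb : (2 / 5 : ℝ) ∈ Prod.snd '' (K1 ∪ K2) := by
    refine ⟨(0, 2 / 5), Or.inr ⟨by norm_num, by norm_num, ?_, ?_⟩, rfl⟩ <;> norm_num
  obtain ⟨p, hp, h0⟩ := h2.out ha hb (show (0 : ℝ) ∈ Icc (-2 / 5 : ℝ) (2 / 5) by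
    constructor <;> norm_num)
  rcases hp with hp | hp
  · have := K1_neg hp
    linarith
  · have := K2_pos hp
    linarith

/-! ### Admissibility -/

theorem admissible : S.Admissible where
  countable := inferInstance
  lt := by norm_num [S]
  le := by
    intro i
    fin_cases i <;> simp [S] <;> norm_num
  cover := by
    ext x
    rw [mem_iUnion, Fin.exists_fin_succ, Fin.exists_fin_succ, Fin.exists_fin_succ,
      Fin.exists_fin_one]
    change (x ∈ S.piece 0 ∨ x ∈ S.piece 1 ∨ x ∈ S.piece 2 ∨ x ∈ S.piece 3) ↔ x ∈ Icc (-1 : ℝ) 1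
    rw [piece0, piece1, piece2, piece3]
    simp only [mem_Icc]
    constructor
    · rintro (h | h | h | h) <;> constructor <;> linarith [h.1, h.2]
    · rintro ⟨h1, h2⟩
      rcases le_total x (-9 / 25) with h | h
      · exact Or.inl ⟨h1, h⟩
      · rcases le_total x 0 with h' | h'
        · exact Or.inr (Or.inl ⟨h, h'⟩)
        · rcases le_total x (9 / 25) with h'' | h''
          · exact Or.inr (Or.inr (Or.inl ⟨h', h''⟩))
          · exact Or.inr (Or.inr (Or.inr ⟨h'', h2⟩))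
  disj := by
    have h : ∀ i j : Fin 4, i < j → S.hi i ≤ S.lo j := by
      intro i j hij
      fin_cases i <;> fin_cases j <;> first
        | (exfalso; revert hij; decide)
        | (simp [S]; done)
        | (simp [S]; norm_num; done)
    have key : ∀ i j : Fin 4, i < j → volume (S.piece i ∩ S.piece j) = 0 := by
      intro i j hij
      refine measure_mono_null (t := {S.lo j}) ?_ (by simp)
      rintro x ⟨⟨_, h1⟩, ⟨h2, _⟩⟩
      exact mem_singleton_iff.2 (le_antisymm (h1.trans (h i j hij)) h2)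
    intro i j hij
    rcases lt_or_gt_of_ne hij with h' | h'
    · exact key i j h'
    · rw [inter_comm]; exact key j i h'
  det := by
    intro i
    fin_cases i <;> simp [S, MM, Matrix.det_fin_two] <;> norm_num
  nonneg := by
    intro i
    fin_cases i <;> simp [S, MM] <;> norm_num
  defined := by
    intro i x hx
    fin_cases i
    · change x ∈ S.piece 0 at hx
      change S.den 0 x ≠ 0
      rw [piece0] at hx
      rw [den0]
      have := hx.2
      intro h; linarith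
    · change x ∈ S.piece 1 at hx
      change S.den 1 x ≠ 0
      rw [piece1] at hx
      rw [den1]
      have := hx.1
      intro h; linarith
    · change x ∈ S.piece 2 at hx
      change S.den 2 x ≠ 0
      rw [piece2] at hx
      rw [den2]
      have := hx.2
      intro h; linarith
    · change x ∈ S.piece 3 at hx
      change S.den 3 x ≠ 0
      rw [piece3] at hx
      rw [den3]
      have := hx.1
      intro h; linarith
  maps := by
    intro i x hx
    change S.map i x ∈ Icc (-1 : ℝ) 1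
    have hxI : x ∈ Icc (-1 : ℝ) 1 := by
      fin_cases i
      · change x ∈ S.piece 0 at hx
        rw [piece0] at hx
        exact ⟨by linarith [hx.1], by linarith [hx.2]⟩
      · change x ∈ S.piece 1 at hx
        rw [piece1] at hx
        exact ⟨by linarith [hx.1], by linarith [hx.2]⟩
      · change x ∈ S.piece 2 at hx
        rw [piece2] at hx
        exact ⟨by linarith [hx.1], by linarith [hx.2]⟩
      · change x ∈ S.piece 3 at hx
        rw [piece3] at hx
        exact ⟨by linarith [hx.1], by linarith [hx.2]⟩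
    rw [← proj] at hxI ⊢
    obtain ⟨p, hp, rfl⟩ := hxI
    have h1 : S.tmap i p ∈ S.step (K1 ∪ K2) := by
      rw [Sys.step, mem_iUnion]
      exact ⟨i, p, ⟨hp, ⟨hx, mem_univ _⟩⟩, rfl⟩
    exact ⟨S.tmap i p, step_subset h1, rfl⟩
  onto := by
    ext X
    change X ∈ ⋃ i, S.map i '' S.piece i ↔ X ∈ Icc (-1 : ℝ) 1
    rw [← proj]
    constructor
    · intro h
      rw [mem_iUnion] at h
      obtain ⟨i, x, hx, rfl⟩ := h
      have hxI : x ∈ Icc (-1 : ℝ) 1 := by
        fin_cases i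
        · change x ∈ S.piece 0 at hx
          rw [piece0] at hx
          exact ⟨by linarith [hx.1], by linarith [hx.2]⟩
        · change x ∈ S.piece 1 at hx
          rw [piece1] at hx
          exact ⟨by linarith [hx.1], by linarith [hx.2]⟩
        · change x ∈ S.piece 2 at hx
          rw [piece2] at hx
          exact ⟨by linarith [hx.1], by linarith [hx.2]⟩
        · change x ∈ S.piece 3 at hx
          rw [piece3] at hx
          exact ⟨by linarith [hx.1], by linarith [hx.2]⟩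
      rw [← proj] at hxI
      obtain ⟨p, hp, rfl⟩ := hxI
      have h1 : S.tmap i p ∈ S.step (K1 ∪ K2) := by
        rw [Sys.step, mem_iUnion]
        exact ⟨i, p, ⟨hp, ⟨hx, mem_univ _⟩⟩, rfl⟩
      exact ⟨S.tmap i p, step_subset h1, rfl⟩
    · rintro ⟨p, hp, rfl⟩
      have h1 := subset_step hp
      rw [Sys.step, mem_iUnion] at h1
      obtain ⟨i, q, ⟨_, hqi⟩, hq⟩ := h1
      rw [mem_iUnion]
      exact ⟨i, q.1, hqi.1, by rw [← hq]; rfl⟩
  expand := by
    refine ⟨64 / 81, by norm_num, ?_⟩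
    intro i x hx
    fin_cases i
    · change x ∈ S.piece 0 at hx
      change (S.den 0 x) ^ 2 ≤ _
      rw [piece0] at hx
      rw [den0]
      have h1 := hx.1
      have h2 := hx.2
      nlinarith
    · change x ∈ S.piece 1 at hx
      change (S.den 1 x) ^ 2 ≤ _
      rw [piece1] at hx
      rw [den1]
      have h1 := hx.1
      have h2 := hx.2
      nlinarith
    · change x ∈ S.piece 2 at hx
      change (S.den 2 x) ^ 2 ≤ _
      rw [piece2] at hx
      rw [den2]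
      have h1 := hx.1
      have h2 := hx.2
      nlinarith
    · change x ∈ S.piece 3 at hx
      change (S.den 3 x) ^ 2 ≤ _
      rw [piece3] at hx
      rw [den3]
      have h1 := hx.1
      have h2 := hx.2
      nlinarith
  bdd := by
    have hc : ∀ i, |S.M i 1 0| ≤ 3 / 4 := by
      intro i
      fin_cases i <;> simp [S, MM] <;> rw [abs_le] <;> constructor <;> norm_num
    have hd : ∀ i, ∀ x ∈ S.piece i, |S.den i x| ≤ 1 := by
      intro i x hx
      rw [abs_le]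
      fin_cases i
      · change x ∈ S.piece 0 at hx
        change -1 ≤ S.den 0 x ∧ S.den 0 x ≤ 1
        rw [piece0] at hx
        rw [den0]
        constructor <;> linarith [hx.1, hx.2]
      · change x ∈ S.piece 1 at hx
        change -1 ≤ S.den 1 x ∧ S.den 1 x ≤ 1
        rw [piece1] at hx
        rw [den1]
        constructor <;> linarith [hx.1, hx.2]
      · change x ∈ S.piece 2 at hx
        change -1 ≤ S.den 2 x ∧ S.den 2 x ≤ 1
        rw [piece2] at hx
        rw [den2]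
        constructor <;> linarith [hx.1, hx.2]
      · change x ∈ S.piece 3 at hx
        change -1 ≤ S.den 3 x ∧ S.den 3 x ≤ 1
        rw [piece3] at hx
        rw [den3]
        constructor <;> linarith [hx.1, hx.2]
    refine ⟨3 / 4 * 1, fun i x hx => ?_⟩
    rw [abs_mul]
    exact mul_le_mul (hc i) (hd i x hx) (abs_nonneg _) (by norm_num)

end Pool.Agent.X11.NatExt
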