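import Mathlib

/-!
# Peltesohn's solutions of Heffter's difference problems
-/

namespace Pool.Agent.X11.STS

/-- `L` is a set of at most `k` pairs whose associated differences cover everything -/
def Heffter (n k : ℕ) (L : Finset (ℕ × ℕ)) : Prop :=
  L.card ≤ k ∧ ∀ v, 1 ≤ v → 2 * v < n → 3 * v ≠ n →
    ∃ p ∈ L, v = p.1 ∨ v = p.2 ∨ v = p.1 + p.2 ∨ v + p.1 + p.2 = n

/-- arithmetic progression of pairs -/
def prog (I : Finset ℕ) (f : ℕ → ℕ × ℕ) : Finset (ℕ × ℕ) := I.image f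

lemma mem_prog {I : Finset ℕ} {f : ℕ → ℕ × ℕ} (r : ℕ) (hr : r ∈ I) : f r ∈ prog I f :=
  Finset.mem_image_of_mem f hr

lemma card_prog (I : Finset ℕ) (f : ℕ → ℕ × ℕ) : (prog I f).card ≤ I.card :=
  Finset.card_image_le

lemma card_union {A B : Finset (ℕ × ℕ)} {a b : ℕ} (ha : A.card ≤ a) (hb : B.card ≤ b) :
    (A ∪ B).card ≤ a + b := (Finset.card_union_le A B).trans (add_le_add ha hb)

/-- membership in a union of four sets -/
lemma m1 {A B C D : Finset (ℕ × ℕ)} {p : ℕ × ℕ} (h : p ∈ A) : p ∈ A ∪ (B ∪ (C ∪ D)) := by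
  simp [h]
lemma m2 {A B C D : Finset (ℕ × ℕ)} {p : ℕ × ℕ} (h : p ∈ B) : p ∈ A ∪ (B ∪ (C ∪ D)) := by
  simp [h]
lemma m3 {A B C D : Finset (ℕ × ℕ)} {p : ℕ × ℕ} (h : p ∈ C) : p ∈ A ∪ (B ∪ (C ∪ D)) := by
  simp [h]
lemma m4 {A B C D : Finset (ℕ × ℕ)} {p : ℕ × ℕ} (h : p ∈ D) : p ∈ A ∪ (B ∪ (C ∪ D)) := by
  simp [h]

lemma pelt1 (s : ℕ) (hs : 1 ≤ s) : ∃ L, Heffter (18 * s + 1) (3 * s) L := by
  set f1 : ℕ → ℕ × ℕ := fun r => (3 * r + 1, 4 * s + 1 - r) with hf1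
  set f2 : ℕ → ℕ × ℕ := fun r => (3 * r + 2, 8 * s - r) with hf2
  set f3 : ℕ → ℕ × ℕ := fun r => (3 * r + 3, 6 * s - 1 - 2 * r) with hf3
  refine ⟨prog (Finset.range s) f1 ∪ (prog (Finset.range s) f2 ∪
    (prog (Finset.range (s - 1)) f3 ∪ {(3 * s, 3 * s + 1)})), ?_, ?_⟩
  · refine (card_union (card_prog _ _) (card_union (card_prog _ _)
      (card_union (card_prog _ _) (Finset.card_singleton _).le))).trans ?_
    simp only [Finset.card_range]; omega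
  · intro v h1 h2 _
    have g1 : ∀ r, r < s → f1 r ∈ prog (Finset.range s) f1 := fun r hr =>
      mem_prog r (Finset.mem_range.mpr hr)
    have g2 : ∀ r, r < s → f2 r ∈ prog (Finset.range s) f2 := fun r hr =>
      mem_prog r (Finset.mem_range.mpr hr)
    have g3 : ∀ r, r < s - 1 → f3 r ∈ prog (Finset.range (s - 1)) f3 := fun r hr =>
      mem_prog r (Finset.mem_range.mpr hr)
    by_cases c1 : v < 3 * s
    · rcases (by omega : v % 3 = 1 ∨ v % 3 = 2 ∨ v % 3 = 0) with h | h | h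
      · exact ⟨_, m1 (g1 (v / 3) (by omega)), by simp only [hf1]; omega⟩
      · exact ⟨_, m2 (g2 (v / 3) (by omega)), by simp only [hf2]; omega⟩
      · exact ⟨_, m3 (g3 (v / 3 - 1) (by omega)), by simp only [hf3]; omega⟩
    by_cases c2 : v ≤ 3 * s + 1
    · exact ⟨(3 * s, 3 * s + 1), m4 (by simp), by simp only; omega⟩
    by_cases c3 : v ≤ 4 * s + 1
    · exact ⟨_, m1 (g1 (4 * s + 1 - v) (by omega)), by simp only [hf1]; omega⟩
    by_cases c4 : v ≤ 6 * s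
    · rcases (by omega : v % 2 = 0 ∨ v % 2 = 1) with h | h
      · exact ⟨_, m1 (g1 ((v - 4 * s - 2) / 2) (by omega)), by simp only [hf1]; omega⟩
      · exact ⟨_, m3 (g3 ((6 * s - 1 - v) / 2) (by omega)), by simp only [hf3]; omega⟩
    by_cases c5 : v = 6 * s + 1
    · exact ⟨(3 * s, 3 * s + 1), m4 (by simp), by simp only; omega⟩
    by_cases c6 : v ≤ 7 * s
    · exact ⟨_, m3 (g3 (v - 6 * s - 2) (by omega)), by simp only [hf3]; omega⟩
    by_cases c7 : v ≤ 8 * s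
    · exact ⟨_, m2 (g2 (8 * s - v) (by omega)), by simp only [hf2]; omega⟩
    rcases (by omega : v % 2 = 0 ∨ v % 2 = 1) with h | h
    · exact ⟨_, m2 (g2 ((v - 8 * s - 2) / 2) (by omega)), by simp only [hf2]; omega⟩
    · exact ⟨_, m2 (g2 ((10 * s - 1 - v) / 2) (by omega)), by simp only [hf2]; omega⟩

lemma pelt7 (s : ℕ) : ∃ L, Heffter (18 * s + 7) (3 * s + 1) L := by
  set f1 : ℕ → ℕ × ℕ := fun r => (3 * r + 1, 8 * s + 3 - r) with hf1
  set f2 : ℕ → ℕ × ℕ := fun r => (3 * r + 2, 6 * s + 1 - 2 * r) with hf2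
  set f3 : ℕ → ℕ × ℕ := fun r => (3 * r + 3, 4 * s + 1 - r) with hf3
  refine ⟨prog (Finset.range s) f1 ∪ (prog (Finset.range s) f2 ∪
    (prog (Finset.range s) f3 ∪ {(3 * s + 1, 4 * s + 2)})), ?_, ?_⟩
  · refine (card_union (card_prog _ _) (card_union (card_prog _ _)
      (card_union (card_prog _ _) (Finset.card_singleton _).le))).trans ?_
    simp only [Finset.card_range]; omega
  · intro v h1 h2 _
    have g1 : ∀ r, r < s → f1 r ∈ prog (Finset.range s) f1 := fun r hr =>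
      mem_prog r (Finset.mem_range.mpr hr)
    have g2 : ∀ r, r < s → f2 r ∈ prog (Finset.range s) f2 := fun r hr =>
      mem_prog r (Finset.mem_range.mpr hr)
    have g3 : ∀ r, r < s → f3 r ∈ prog (Finset.range s) f3 := fun r hr =>
      mem_prog r (Finset.mem_range.mpr hr)
    by_cases c1 : v ≤ 3 * s
    · rcases (by omega : v % 3 = 1 ∨ v % 3 = 2 ∨ v % 3 = 0) with h | h | h
      · exact ⟨_, m1 (g1 (v / 3) (by omega)), by simp only [hf1]; omega⟩
      · exact ⟨_, m2 (g2 (v / 3) (by omega)), by simp only [hf2]; omega⟩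
      · exact ⟨_, m3 (g3 (v / 3 - 1) (by omega)), by simp only [hf3]; omega⟩
    by_cases c2 : v ≤ 3 * s + 1
    · exact ⟨(3 * s + 1, 4 * s + 2), m4 (by simp), by simp only; omega⟩
    by_cases c3 : v ≤ 4 * s + 1
    · exact ⟨_, m3 (g3 (4 * s + 1 - v) (by omega)), by simp only [hf3]; omega⟩
    by_cases c3' : v = 4 * s + 2
    · exact ⟨(3 * s + 1, 4 * s + 2), m4 (by simp), by simp only; omega⟩
    by_cases c4 : v ≤ 6 * s + 2
    · rcases (by omega : v % 2 = 0 ∨ v % 2 = 1) with h | h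
      · exact ⟨_, m3 (g3 ((v - 4 * s - 4) / 2) (by omega)), by simp only [hf3]; omega⟩
      · exact ⟨_, m2 (g2 ((6 * s + 1 - v) / 2) (by omega)), by simp only [hf2]; omega⟩
    by_cases c6 : v ≤ 7 * s + 2
    · exact ⟨_, m2 (g2 (v - 6 * s - 3) (by omega)), by simp only [hf2]; omega⟩
    by_cases c5 : v = 7 * s + 3
    · exact ⟨(3 * s + 1, 4 * s + 2), m4 (by simp), by simp only; omega⟩
    by_cases c7 : v ≤ 8 * s + 3
    · exact ⟨_, m1 (g1 (8 * s + 3 - v) (by omega)), by simp only [hf1]; omega⟩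
    rcases (by omega : v % 2 = 0 ∨ v % 2 = 1) with h | h
    · exact ⟨_, m1 (g1 ((v - 8 * s - 4) / 2) (by omega)), by simp only [hf1]; omega⟩
    · exact ⟨_, m1 (g1 ((10 * s + 3 - v) / 2) (by omega)), by simp only [hf1]; omega⟩

lemma pelt13 (s : ℕ) : ∃ L, Heffter (18 * s + 13) (3 * s + 2) L := by
  set f1 : ℕ → ℕ × ℕ := fun r => (3 * r + 2, 6 * s + 3 - 2 * r) with hf1
  set f2 : ℕ → ℕ × ℕ := fun r => (3 * r + 3, 8 * s + 5 - r) with hf2
  set f3 : ℕ → ℕ × ℕ := fun r => (3 * r + 1, 4 * s + 3 - r) with hf3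
  refine ⟨prog (Finset.range s) f1 ∪ (prog (Finset.range s) f2 ∪
    (prog (Finset.range (s + 1)) f3 ∪ {(3 * s + 2, 7 * s + 5)})), ?_, ?_⟩
  · refine (card_union (card_prog _ _) (card_union (card_prog _ _)
      (card_union (card_prog _ _) (Finset.card_singleton _).le))).trans ?_
    simp only [Finset.card_range]; omega
  · intro v h1 h2 _
    have g1 : ∀ r, r < s → f1 r ∈ prog (Finset.range s) f1 := fun r hr =>
      mem_prog r (Finset.mem_range.mpr hr)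
    have g2 : ∀ r, r < s → f2 r ∈ prog (Finset.range s) f2 := fun r hr =>
      mem_prog r (Finset.mem_range.mpr hr)
    have g3 : ∀ r, r < s + 1 → f3 r ∈ prog (Finset.range (s + 1)) f3 := fun r hr =>
      mem_prog r (Finset.mem_range.mpr hr)
    by_cases c1 : v ≤ 3 * s + 1
    · rcases (by omega : v % 3 = 1 ∨ v % 3 = 2 ∨ v % 3 = 0) with h | h | h
      · exact ⟨_, m3 (g3 (v / 3) (by omega)), by simp only [hf3]; omega⟩
      · exact ⟨_, m1 (g1 (v / 3) (by omega)), by simp only [hf1]; omega⟩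
      · exact ⟨_, m2 (g2 (v / 3 - 1) (by omega)), by simp only [hf2]; omega⟩
    by_cases c2 : v ≤ 3 * s + 2
    · exact ⟨(3 * s + 2, 7 * s + 5), m4 (by simp), by simp only; omega⟩
    by_cases c3 : v ≤ 4 * s + 3
    · exact ⟨_, m3 (g3 (4 * s + 3 - v) (by omega)), by simp only [hf3]; omega⟩
    by_cases c4 : v ≤ 6 * s + 4
    · rcases (by omega : v % 2 = 0 ∨ v % 2 = 1) with h | h
      · exact ⟨_, m3 (g3 ((v - 4 * s - 4) / 2) (by omega)), by simp only [hf3]; omega⟩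
      · exact ⟨_, m1 (g1 ((6 * s + 3 - v) / 2) (by omega)), by simp only [hf1]; omega⟩
    by_cases c6 : v ≤ 7 * s + 4
    · exact ⟨_, m1 (g1 (v - 6 * s - 5) (by omega)), by simp only [hf1]; omega⟩
    by_cases c5 : v = 7 * s + 5
    · exact ⟨(3 * s + 2, 7 * s + 5), m4 (by simp), by simp only; omega⟩
    by_cases c7 : v ≤ 8 * s + 5
    · exact ⟨_, m2 (g2 (8 * s + 5 - v) (by omega)), by simp only [hf2]; omega⟩
    by_cases c8 : v = 8 * s + 6
    · exact ⟨(3 * s + 2, 7 * s + 5), m4 (by simp), by simp only; omega⟩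
    rcases (by omega : v % 2 = 0 ∨ v % 2 = 1) with h | h
    · exact ⟨_, m2 (g2 ((v - 8 * s - 8) / 2) (by omega)), by simp only [hf2]; omega⟩
    · exact ⟨_, m2 (g2 ((10 * s + 5 - v) / 2) (by omega)), by simp only [hf2]; omega⟩

lemma pelt3 (s : ℕ) : ∃ L, Heffter (18 * s + 3) (3 * s) L := by
  set f1 : ℕ → ℕ × ℕ := fun r => (3 * r + 1, 8 * s + 1 - r) with hf1
  set f2 : ℕ → ℕ × ℕ := fun r => (3 * r + 2, 4 * s - r) with hf2
  set f3 : ℕ → ℕ × ℕ := fun r => (3 * r + 3, 6 * s - 1 - 2 * r) with hf3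
  refine ⟨prog (Finset.range s) f1 ∪ (prog (Finset.range s) f2 ∪
    (prog (Finset.range s) f3 ∪ ∅)), ?_, ?_⟩
  · refine (card_union (card_prog _ _) (card_union (card_prog _ _)
      (card_union (card_prog _ _) (Finset.card_empty).le))).trans ?_
    simp only [Finset.card_range]; omega
  · intro v h1 h2 h3
    have g1 : ∀ r, r < s → f1 r ∈ prog (Finset.range s) f1 := fun r hr =>
      mem_prog r (Finset.mem_range.mpr hr)
    have g2 : ∀ r, r < s → f2 r ∈ prog (Finset.range s) f2 := fun r hr =>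
      mem_prog r (Finset.mem_range.mpr hr)
    have g3 : ∀ r, r < s → f3 r ∈ prog (Finset.range s) f3 := fun r hr =>
      mem_prog r (Finset.mem_range.mpr hr)
    by_cases c1 : v ≤ 3 * s
    · rcases (by omega : v % 3 = 1 ∨ v % 3 = 2 ∨ v % 3 = 0) with h | h | h
      · exact ⟨_, m1 (g1 (v / 3) (by omega)), by simp only [hf1]; omega⟩
      · exact ⟨_, m2 (g2 (v / 3) (by omega)), by simp only [hf2]; omega⟩
      · exact ⟨_, m3 (g3 (v / 3 - 1) (by omega)), by simp only [hf3]; omega⟩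
    by_cases c3 : v ≤ 4 * s
    · exact ⟨_, m2 (g2 (4 * s - v) (by omega)), by simp only [hf2]; omega⟩
    by_cases c4 : v ≤ 6 * s
    · rcases (by omega : v % 2 = 0 ∨ v % 2 = 1) with h | h
      · exact ⟨_, m2 (g2 ((v - 4 * s - 2) / 2) (by omega)), by simp only [hf2]; omega⟩
      · exact ⟨_, m3 (g3 ((6 * s - 1 - v) / 2) (by omega)), by simp only [hf3]; omega⟩
    by_cases c6 : v ≤ 7 * s + 1
    · exact ⟨_, m3 (g3 (v - 6 * s - 2) (by omega)), by simp only [hf3]; omega⟩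
    by_cases c7 : v ≤ 8 * s + 1
    · exact ⟨_, m1 (g1 (8 * s + 1 - v) (by omega)), by simp only [hf1]; omega⟩
    rcases (by omega : v % 2 = 0 ∨ v % 2 = 1) with h | h
    · exact ⟨_, m1 (g1 ((v - 8 * s - 2) / 2) (by omega)), by simp only [hf1]; omega⟩
    · exact ⟨_, m1 (g1 ((10 * s + 1 - v) / 2) (by omega)), by simp only [hf1]; omega⟩

lemma pelt15 (s : ℕ) : ∃ L, Heffter (18 * s + 15) (3 * s + 2) L := by
  set f1 : ℕ → ℕ × ℕ := fun r => (3 * r + 1, 4 * s + 3 - r) with hf1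
  set f2 : ℕ → ℕ × ℕ := fun r => (3 * r + 2, 8 * s + 6 - r) with hf2
  set f3 : ℕ → ℕ × ℕ := fun r => (3 * r + 3, 6 * s + 3 - 2 * r) with hf3
  refine ⟨prog (Finset.range (s + 1)) f1 ∪ (prog (Finset.range (s + 1)) f2 ∪
    (prog (Finset.range s) f3 ∪ ∅)), ?_, ?_⟩
  · refine (card_union (card_prog _ _) (card_union (card_prog _ _)
      (card_union (card_prog _ _) (Finset.card_empty).le))).trans ?_
    simp only [Finset.card_range]; omega
  · intro v h1 h2 h3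
    have g1 : ∀ r, r < s + 1 → f1 r ∈ prog (Finset.range (s + 1)) f1 := fun r hr =>
      mem_prog r (Finset.mem_range.mpr hr)
    have g2 : ∀ r, r < s + 1 → f2 r ∈ prog (Finset.range (s + 1)) f2 := fun r hr =>
      mem_prog r (Finset.mem_range.mpr hr)
    have g3 : ∀ r, r < s → f3 r ∈ prog (Finset.range s) f3 := fun r hr =>
      mem_prog r (Finset.mem_range.mpr hr)
    by_cases c1 : v ≤ 3 * s + 2
    · rcases (by omega : v % 3 = 1 ∨ v % 3 = 2 ∨ v % 3 = 0) with h | h | h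
      · exact ⟨_, m1 (g1 (v / 3) (by omega)), by simp only [hf1]; omega⟩
      · exact ⟨_, m2 (g2 (v / 3) (by omega)), by simp only [hf2]; omega⟩
      · exact ⟨_, m3 (g3 (v / 3 - 1) (by omega)), by simp only [hf3]; omega⟩
    by_cases c3 : v ≤ 4 * s + 3
    · exact ⟨_, m1 (g1 (4 * s + 3 - v) (by omega)), by simp only [hf1]; omega⟩
    by_cases c4 : v ≤ 6 * s + 4
    · rcases (by omega : v % 2 = 0 ∨ v % 2 = 1) with h | h
      · exact ⟨_, m1 (g1 ((v - 4 * s - 4) / 2) (by omega)), by simp only [hf1]; omega⟩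
      · exact ⟨_, m3 (g3 ((6 * s + 3 - v) / 2) (by omega)), by simp only [hf3]; omega⟩
    by_cases c6 : v ≤ 7 * s + 5
    · exact ⟨_, m3 (g3 (v - 6 * s - 6) (by omega)), by simp only [hf3]; omega⟩
    by_cases c7 : v ≤ 8 * s + 6
    · exact ⟨_, m2 (g2 (8 * s + 6 - v) (by omega)), by simp only [hf2]; omega⟩
    rcases (by omega : v % 2 = 0 ∨ v % 2 = 1) with h | h
    · exact ⟨_, m2 (g2 ((v - 8 * s - 8) / 2) (by omega)), by simp only [hf2]; omega⟩
    · exact ⟨_, m2 (g2 ((10 * s + 7 - v) / 2) (by omega)), by simp only [hf2]; omega⟩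

lemma pelt9 (s : ℕ) (hs : 4 ≤ s) : ∃ L, Heffter (18 * s + 9) (3 * s + 1) L := by
  set f1 : ℕ → ℕ × ℕ := fun r => (3 * r + 1, 4 * s + 3 - r) with hf1
  set f2 : ℕ → ℕ × ℕ := fun r => (3 * r + 2, 8 * s + 2 - r) with hf2
  set f3 : ℕ → ℕ × ℕ := fun r => (3 * r + 3, 6 * s + 1 - 2 * r) with hf3
  refine ⟨prog (Finset.range (s + 1)) f1 ∪ (prog (Finset.Icc 2 (s - 2)) f2 ∪
    (prog (Finset.Icc 1 (s - 2)) f3 ∪ {(2, 8 * s + 3), (3, 8 * s + 1), (5, 8 * s + 2),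
      (3 * s - 1, 3 * s + 2), (3 * s, 7 * s + 3)})), ?_, ?_⟩
  · refine (card_union (card_prog _ _) (card_union (card_prog _ _)
      (card_union (card_prog _ _) Finset.card_le_five))).trans ?_
    simp only [Finset.card_range, Nat.card_Icc]; omega
  · intro v h1 h2 h3
    have g1 : ∀ r, r < s + 1 → f1 r ∈ prog (Finset.range (s + 1)) f1 := fun r hr =>
      mem_prog r (Finset.mem_range.mpr hr)
    have g2 : ∀ r, 2 ≤ r ∧ r ≤ s - 2 → f2 r ∈ prog (Finset.Icc 2 (s - 2)) f2 := fun r hr =>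
      mem_prog r (Finset.mem_Icc.mpr hr)
    have g3 : ∀ r, 1 ≤ r ∧ r ≤ s - 2 → f3 r ∈ prog (Finset.Icc 1 (s - 2)) f3 := fun r hr =>
      mem_prog r (Finset.mem_Icc.mpr hr)
    have s1 : v = 2 ∨ v = 8 * s + 3 ∨ v = 8 * s + 5 → ∃ p ∈ prog (Finset.range (s + 1)) f1 ∪ (prog (Finset.Icc 2 (s - 2)) f2 ∪
    (prog (Finset.Icc 1 (s - 2)) f3 ∪ {(2, 8 * s + 3), (3, 8 * s + 1), (5, 8 * s + 2),
      (3 * s - 1, 3 * s + 2), (3 * s, 7 * s + 3)})), v = p.1 ∨ v = p.2 ∨ v = p.1 + p.2 ∨ v + p.1 + p.2 = 18 * s + 9 := fun h =>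
      ⟨(2, 8 * s + 3), m4 (by simp), by simp only; omega⟩
    have s2 : v = 3 ∨ v = 8 * s + 1 ∨ v = 8 * s + 4 → ∃ p ∈ prog (Finset.range (s + 1)) f1 ∪ (prog (Finset.Icc 2 (s - 2)) f2 ∪
    (prog (Finset.Icc 1 (s - 2)) f3 ∪ {(2, 8 * s + 3), (3, 8 * s + 1), (5, 8 * s + 2),
      (3 * s - 1, 3 * s + 2), (3 * s, 7 * s + 3)})), v = p.1 ∨ v = p.2 ∨ v = p.1 + p.2 ∨ v + p.1 + p.2 = 18 * s + 9 := fun h =>
      ⟨(3, 8 * s + 1), m4 (by simp), by simp only; omega⟩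
    have s3 : v = 5 ∨ v = 8 * s + 2 ∨ v = 8 * s + 7 → ∃ p ∈ prog (Finset.range (s + 1)) f1 ∪ (prog (Finset.Icc 2 (s - 2)) f2 ∪
    (prog (Finset.Icc 1 (s - 2)) f3 ∪ {(2, 8 * s + 3), (3, 8 * s + 1), (5, 8 * s + 2),
      (3 * s - 1, 3 * s + 2), (3 * s, 7 * s + 3)})), v = p.1 ∨ v = p.2 ∨ v = p.1 + p.2 ∨ v + p.1 + p.2 = 18 * s + 9 := fun h =>
      ⟨(5, 8 * s + 2), m4 (by simp), by simp only; omega⟩
    have s4 : v = 3 * s - 1 ∨ v = 3 * s + 2 ∨ v = 6 * s + 1 → ∃ p ∈ prog (Finset.range (s + 1)) f1 ∪ (prog (Finset.Icc 2 (s - 2)) f2 ∪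
    (prog (Finset.Icc 1 (s - 2)) f3 ∪ {(2, 8 * s + 3), (3, 8 * s + 1), (5, 8 * s + 2),
      (3 * s - 1, 3 * s + 2), (3 * s, 7 * s + 3)})), v = p.1 ∨ v = p.2 ∨ v = p.1 + p.2 ∨ v + p.1 + p.2 = 18 * s + 9 := fun h =>
      ⟨(3 * s - 1, 3 * s + 2), m4 (by simp), by simp only; omega⟩
    have s5 : v = 3 * s ∨ v = 7 * s + 3 ∨ v = 8 * s + 6 → ∃ p ∈ prog (Finset.range (s + 1)) f1 ∪ (prog (Finset.Icc 2 (s - 2)) f2 ∪
    (prog (Finset.Icc 1 (s - 2)) f3 ∪ {(2, 8 * s + 3), (3, 8 * s + 1), (5, 8 * s + 2),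
      (3 * s - 1, 3 * s + 2), (3 * s, 7 * s + 3)})), v = p.1 ∨ v = p.2 ∨ v = p.1 + p.2 ∨ v + p.1 + p.2 = 18 * s + 9 := fun h =>
      ⟨(3 * s, 7 * s + 3), m4 (by simp), by simp only; omega⟩
    by_cases d1 : v = 2 ∨ v = 8 * s + 3 ∨ v = 8 * s + 5
    · exact s1 d1
    by_cases d2 : v = 3 ∨ v = 8 * s + 1 ∨ v = 8 * s + 4
    · exact s2 d2
    by_cases d3 : v = 5 ∨ v = 8 * s + 2 ∨ v = 8 * s + 7
    · exact s3 d3
    by_cases d4 : v = 3 * s - 1 ∨ v = 3 * s + 2 ∨ v = 6 * s + 1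
    · exact s4 d4
    by_cases d5 : v = 3 * s ∨ v = 7 * s + 3 ∨ v = 8 * s + 6
    · exact s5 d5
    clear s1 s2 s3 s4 s5
    by_cases c1 : v ≤ 3 * s + 1
    · rcases (by omega : v % 3 = 1 ∨ v % 3 = 2 ∨ v % 3 = 0) with h | h | h
      · exact ⟨_, m1 (g1 (v / 3) (by omega)), by simp only [hf1]; omega⟩
      · exact ⟨_, m2 (g2 (v / 3) (by omega)), by simp only [hf2]; omega⟩
      · exact ⟨_, m3 (g3 (v / 3 - 1) (by omega)), by simp only [hf3]; omega⟩
    by_cases c3 : v ≤ 4 * s + 3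
    · exact ⟨_, m1 (g1 (4 * s + 3 - v) (by omega)), by simp only [hf1]; omega⟩
    by_cases c4 : v ≤ 6 * s + 4
    · rcases (by omega : v % 2 = 0 ∨ v % 2 = 1) with h | h
      · exact ⟨_, m1 (g1 ((v - 4 * s - 4) / 2) (by omega)), by simp only [hf1]; omega⟩
      · exact ⟨_, m3 (g3 ((6 * s + 1 - v) / 2) (by omega)), by simp only [hf3]; omega⟩
    by_cases c6 : v ≤ 7 * s + 2
    · exact ⟨_, m3 (g3 (v - 6 * s - 4) (by omega)), by simp only [hf3]; omega⟩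
    by_cases c7 : v ≤ 8 * s
    · exact ⟨_, m2 (g2 (8 * s + 2 - v) (by omega)), by simp only [hf2]; omega⟩
    rcases (by omega : v % 2 = 0 ∨ v % 2 = 1) with h | h
    · exact ⟨_, m2 (g2 ((v - 8 * s - 4) / 2) (by omega)), by simp only [hf2]; omega⟩
    · exact ⟨_, m2 (g2 ((10 * s + 5 - v) / 2) (by omega)), by simp only [hf2]; omega⟩

/-- Heffter's difference problems are solvable -/
lemma exists_heffter (n : ℕ) (h : n % 6 = 1 ∨ n % 6 = 3) (hn : 81 ≤ n) :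
    ∃ L, Heffter n (n / 6) L := by
  rcases (by omega : n % 18 = 1 ∨ n % 18 = 7 ∨ n % 18 = 13 ∨ n % 18 = 3 ∨ n % 18 = 9 ∨
    n % 18 = 15) with h | h | h | h | h | h
  · have := pelt1 (n / 18) (by omega)
    have e1 : 18 * (n / 18) + 1 = n := by omega
    have e2 : 3 * (n / 18) = n / 6 := by omega
    rwa [e1, e2] at this
  · have := pelt7 (n / 18)
    have e1 : 18 * (n / 18) + 7 = n := by omega
    have e2 : 3 * (n / 18) + 1 = n / 6 := by omega
    rwa [e1, e2] at this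
  · have := pelt13 (n / 18)
    have e1 : 18 * (n / 18) + 13 = n := by omega
    have e2 : 3 * (n / 18) + 2 = n / 6 := by omega
    rwa [e1, e2] at this
  · have := pelt3 (n / 18)
    have e1 : 18 * (n / 18) + 3 = n := by omega
    have e2 : 3 * (n / 18) = n / 6 := by omega
    rwa [e1, e2] at this
  · have := pelt9 (n / 18) (by omega)
    have e1 : 18 * (n / 18) + 9 = n := by omega
    have e2 : 3 * (n / 18) + 1 = n / 6 := by omega
    rwa [e1, e2] at this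
  · have := pelt15 (n / 18)
    have e1 : 18 * (n / 18) + 15 = n := by omega
    have e2 : 3 * (n / 18) + 2 = n / 6 := by omega
    rwa [e1, e2] at this

end Pool.Agent.X11.STS
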