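import Mathlib

/-!
# A minimal sequence with property (U) none of whose permutations is a basis
-/

namespace Pool.Agent.X11.PermBasis

open Filter Topology

noncomputable section

/-! ### the rearrangement lemma -/

section greedy

variable {𝕂 : Type*} [RCLike 𝕂]

lemma greedy_list {ι : Type*} [DecidableEq ι] (a : ι → 𝕂) (T : 𝕂) : ∀ (n : ℕ) (s : Finset ι),
    s.card = n → ∀ (S : 𝕂) (B : ℝ), 0 ≤ B → S + ∑ i ∈ s, a i = T → ‖S‖ ^ 2 ≤ 2 * ‖T‖ ^ 2 + B →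
    ∃ l : List ι, l.Nodup ∧ (∀ i, i ∈ l ↔ i ∈ s) ∧
      ∀ m, ‖S + ((l.take m).map a).sum‖ ^ 2 ≤ 2 * ‖T‖ ^ 2 + B + 2 * ∑ i ∈ s, ‖a i‖ ^ 2 := by
  intro n
  induction n with
  | zero =>
    intro s hs S B hB hT hS
    rw [Finset.card_eq_zero] at hs
    subst hs
    exact ⟨[], List.nodup_nil, by simp, by intro m; simpa using hS⟩
  | succ n ih =>
    intro s hs S B hB hT hS
    have hne : s.Nonempty := by rw [← Finset.card_pos]; omega
    -- choose the next index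
    have hstep : ∃ j ∈ s, ‖S + a j‖ ^ 2 ≤ 2 * ‖T‖ ^ 2 + (B + 2 * ‖a j‖ ^ 2) := by
      by_cases hc : ‖T‖ ≤ ‖S‖
      · -- some vector points backwards
        have hex : ∃ j ∈ s, RCLike.re (inner 𝕂 (a j) S) ≤ 0 := by
          by_contra hcon
          push Not at hcon
          have h1 : 0 < ∑ j ∈ s, RCLike.re (inner 𝕂 (a j) S) :=
            Finset.sum_pos (fun j hj => hcon j hj) hne
          have h2 : ∑ j ∈ s, RCLike.re (inner 𝕂 (a j) S) = RCLike.re (inner 𝕂 (T - S) S) := by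
            rw [← map_sum, ← sum_inner, ← hT, add_sub_cancel_left]
          rw [h2, inner_sub_left, map_sub, inner_self_eq_norm_sq] at h1
          have h3 : RCLike.re (inner 𝕂 T S) ≤ ‖T‖ * ‖S‖ := re_inner_le_norm T S
          nlinarith [norm_nonneg S, norm_nonneg T]
        obtain ⟨j, hj, hj2⟩ := hex
        refine ⟨j, hj, ?_⟩
        have h1 := @norm_add_sq 𝕂 𝕂 _ _ _ (a j) S
        rw [add_comm S (a j), h1]
        nlinarith [sq_nonneg ‖a j‖]
      · obtain ⟨j, hj⟩ := hne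
        refine ⟨j, hj, ?_⟩
        push Not at hc
        have h1 : ‖S + a j‖ ≤ ‖S‖ + ‖a j‖ := norm_add_le _ _
        have h2 : ‖S + a j‖ ^ 2 ≤ (‖T‖ + ‖a j‖) ^ 2 := by
          apply pow_le_pow_left₀ (norm_nonneg _); linarith
        nlinarith [sq_nonneg (‖T‖ - ‖a j‖)]
    obtain ⟨j, hj, hjB⟩ := hstep
    have hsum : a j + ∑ i ∈ s.erase j, a i = ∑ i ∈ s, a i := Finset.add_sum_erase s a hj
    have hsum2 : ‖a j‖ ^ 2 + ∑ i ∈ s.erase j, ‖a i‖ ^ 2 = ∑ i ∈ s, ‖a i‖ ^ 2 :=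
      Finset.add_sum_erase s (fun i => ‖a i‖ ^ 2) hj
    obtain ⟨l, hl1, hl2, hl3⟩ := ih (s.erase j) (by rw [Finset.card_erase_of_mem hj, hs]; rfl)
      (S + a j) (B + 2 * ‖a j‖ ^ 2) (by positivity) (by rw [add_assoc, hsum, hT]) hjB
    refine ⟨j :: l, ?_, ?_, ?_⟩
    · rw [List.nodup_cons]
      exact ⟨by rw [hl2]; simp, hl1⟩
    · intro i
      rw [List.mem_cons, hl2, Finset.mem_erase]
      constructor
      · rintro (rfl | h)
        · exact hj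
        · exact h.2
      · intro h
        by_cases hij : i = j
        · left; exact hij
        · right; exact ⟨hij, h⟩
    · intro m
      cases m with
      | zero =>
        have : 0 ≤ ∑ i ∈ s, ‖a i‖ ^ 2 := Finset.sum_nonneg (fun i _ => by positivity)
        simp only [List.take_zero, List.map_nil, List.sum_nil, add_zero]
        linarith
      | succ m =>
        have h := hl3 m
        rw [List.take_succ_cons, List.map_cons, List.sum_cons, ← add_assoc]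
        linarith

/-- rearranged partial sums are controlled -/
lemma greedy_perm {N : ℕ} (a : Fin N → 𝕂) : ∃ π : Equiv.Perm (Fin N), ∀ m : ℕ,
    ‖∑ r with r.val < m, a (π r)‖ ^ 2 ≤ 2 * ‖∑ r, a r‖ ^ 2 + 2 * ∑ r, ‖a r‖ ^ 2 := by
  obtain ⟨l, hl1, hl2, hl3⟩ := greedy_list a (∑ r, a r) N Finset.univ (by simp) 0 0 le_rfl
    (by simp) (by simp)
  have hmem : ∀ i, i ∈ l := fun i => (hl2 i).mpr (Finset.mem_univ i)
  let e := hl1.getEquivOfForallMemList l hmem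
  have hlen : l.length = N := by
    have := Fintype.card_congr e
    simpa using this
  refine ⟨(finCongr hlen.symm).trans e, fun m => ?_⟩
  have h := hl3 m
  have h1 : l.map a = List.ofFn (fun r : Fin N => a (e (finCongr hlen.symm r))) := by
    apply List.ext_getElem
    · simp [hlen]
    · intro i h1 h2
      simp [e]
  rw [List.map_take, h1, List.sum_take_ofFn, zero_add, add_zero] at h
  simpa using h

end greedy

/-! ### the dyadic enumeration of `Σ k, Fin (2^k)` -/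

/-- index set of the sequence -/
abbrev Idx := Σ k : ℕ, Fin (2 ^ k)

/-- dyadic enumeration -/
def dy : ℕ ≃ Idx where
  toFun n := ⟨Nat.log 2 (n + 1), ⟨n + 1 - 2 ^ (Nat.log 2 (n + 1)), by
    have h1 := Nat.lt_pow_succ_log_self (b := 2) (by norm_num) (n + 1)
    have h2 := Nat.pow_log_le_self 2 (x := n + 1) (by omega)
    rw [pow_succ] at h1
    omega⟩⟩
  invFun i := 2 ^ i.1 - 1 + i.2.val
  left_inv n := by
    have h2 := Nat.pow_log_le_self 2 (x := n + 1) (by omega)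
    have h3 : 0 < 2 ^ (Nat.log 2 (n + 1)) := by positivity
    simp only
    omega
  right_inv i := by
    obtain ⟨k, r, hr⟩ := i
    have h3 : 0 < 2 ^ k := by positivity
    have hlog : Nat.log 2 (2 ^ k - 1 + r + 1) = k := by
      rw [Nat.log_eq_iff (by right; constructor <;> omega)]
      rw [pow_succ]; omega
    simp only
    have : (2 ^ k - 1 + r + 1 - 2 ^ k) = r := by omega
    rw [Sigma.mk.injEq]
    refine ⟨hlog, ?_⟩
    rw [Fin.heq_ext_iff (by rw [hlog])]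
    simp only [hlog]; omega

lemma dy_symm (k : ℕ) (r : Fin (2 ^ k)) : dy.symm ⟨k, r⟩ = 2 ^ k - 1 + r.val := rfl

lemma dy_apply (k m : ℕ) (hm : m < 2 ^ k) : dy (2 ^ k - 1 + m) = ⟨k, ⟨m, hm⟩⟩ := by
  rw [← Equiv.eq_symm_apply]; rfl

lemma sum_dy {M : Type*} [AddCommMonoid M] (F : Idx → M) (k : ℕ) : ∀ m, m ≤ 2 ^ k →
    ∑ n ∈ Finset.range (2 ^ k - 1 + m), F (dy n)
      = ∑ j ∈ Finset.range k, ∑ r : Fin (2 ^ j), F ⟨j, r⟩ + ∑ r : Fin (2 ^ k) with r.val < m, F ⟨k, r⟩ := by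
  induction k with
  | zero =>
    intro m hm
    rcases (by omega : m = 0 ∨ m = 1) with rfl | rfl
    · simp
    · have h := dy_apply 0 0 (by norm_num)
      simp only [pow_zero, Nat.sub_self, zero_add, Finset.sum_range_succ, Finset.sum_range_zero]
      simp only [pow_zero, Nat.sub_self, zero_add] at h
      rw [h]
      simp
  | succ k ihk =>
    intro m
    induction m with
    | zero =>
      intro _
      have h := ihk (2 ^ k) le_rfl
      have e1 : 2 ^ (k + 1) - 1 + 0 = 2 ^ k - 1 + 2 ^ k := by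
        have : 0 < 2 ^ k := by positivity
        rw [pow_succ]; omega
      rw [e1, h, Finset.sum_range_succ]
      have e2 : (Finset.univ.filter (fun r : Fin (2 ^ k) => r.val < 2 ^ k)) = Finset.univ := by
        ext r; simp
      rw [e2]; simp
    | succ m ihm =>
      intro hm
      have e1 : 2 ^ (k + 1) - 1 + (m + 1) = (2 ^ (k + 1) - 1 + m) + 1 := by ring
      rw [e1, Finset.sum_range_succ, ihm (by omega), dy_apply (k + 1) m (by omega), add_assoc]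
      congr 1
      have e2 : (Finset.univ.filter (fun r : Fin (2 ^ (k + 1)) => r.val < m + 1))
          = insert ⟨m, by omega⟩ (Finset.univ.filter (fun r : Fin (2 ^ (k + 1)) => r.val < m)) := by
        ext r
        simp only [Finset.mem_filter, Finset.mem_univ, true_and, Finset.mem_insert, Fin.ext_iff]
        omega
      rw [e2, Finset.sum_insert (by simp), add_comm]

/-! ### the space -/

variable (𝕂 : Type) [RCLike 𝕂]

/-- index set of the coordinates -/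
abbrev J := Σ k : ℕ, Option (Fin (2 ^ k))

/-- the ambient Hilbert space -/
abbrev H := lp (fun _ : J => 𝕂) 2

/-- `e_{k,j} + f_k` -/
def vec (i : Idx) : H 𝕂 :=
  lp.single 2 (⟨i.1, some i.2⟩ : J) (1 : 𝕂) + lp.single 2 (⟨i.1, none⟩ : J) (1 : 𝕂)

lemma vec_some (i : Idx) (k : ℕ) (j : Fin (2 ^ k)) :
    vec 𝕂 i (⟨k, some j⟩ : J) = if (⟨k, j⟩ : Idx) = i then 1 else 0 := by
  unfold vec
  rw [lp.coeFn_add, Pi.add_apply, lp.single_apply, lp.single_apply, Pi.single_apply, Pi.single_apply]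
  have h1 : ((⟨k, some j⟩ : J) = ⟨i.1, none⟩) ↔ False := by
    constructor
    · intro h
      obtain ⟨k', j'⟩ := i
      simp only [Sigma.mk.injEq] at h
      obtain ⟨rfl, h⟩ := h
      simp at h
    · exact False.elim
  have h2 : ((⟨k, some j⟩ : J) = ⟨i.1, some i.2⟩) ↔ (⟨k, j⟩ : Idx) = i := by
    obtain ⟨k', j'⟩ := i
    constructor
    · intro h
      simp only [Sigma.mk.injEq] at h ⊢
      obtain ⟨rfl, h⟩ := h
      simpa using h
    · intro h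
      simp only [Sigma.mk.injEq] at h ⊢
      obtain ⟨rfl, h⟩ := h
      simpa using h
  simp only [h1, h2, if_false, add_zero]

lemma vec_none (i : Idx) (k : ℕ) :
    vec 𝕂 i (⟨k, none⟩ : J) = if i.1 = k then 1 else 0 := by
  unfold vec
  rw [lp.coeFn_add, Pi.add_apply, lp.single_apply, lp.single_apply, Pi.single_apply, Pi.single_apply]
  have h1 : ((⟨k, none⟩ : J) = ⟨i.1, some i.2⟩) ↔ False := by
    constructor
    · intro h
      obtain ⟨k', j'⟩ := i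
      simp only [Sigma.mk.injEq] at h
      obtain ⟨rfl, h⟩ := h
      simp at h
    · exact False.elim
  have h2 : ((⟨k, none⟩ : J) = ⟨i.1, none⟩) ↔ i.1 = k := by
    obtain ⟨k', j'⟩ := i
    constructor
    · intro h
      simp only [Sigma.mk.injEq] at h ⊢
      exact h.1.symm
    · rintro rfl; rfl
  simp only [h1, h2, if_false, zero_add]

/-- coordinate functional -/
def ev (j : J) : H 𝕂 →L[𝕂] 𝕂 := lp.evalCLM 𝕂 (fun _ : J => 𝕂) 2 j

lemma ev_apply (j : J) (v : H 𝕂) : ev 𝕂 j v = v j := rfl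

/-- defining functional of the space, block `k` -/
def dfn (k : ℕ) : H 𝕂 →L[𝕂] 𝕂 := ev 𝕂 ⟨k, none⟩ - ∑ j : Fin (2 ^ k), ev 𝕂 ⟨k, some j⟩

/-- the space -/
def E : Submodule 𝕂 (H 𝕂) := ⨅ k : ℕ, LinearMap.ker (dfn 𝕂 k).toLinearMap

lemma mem_E {v : H 𝕂} : v ∈ E 𝕂 ↔ ∀ k, v (⟨k, none⟩ : J) = ∑ j : Fin (2 ^ k), v (⟨k, some j⟩ : J) := by
  simp only [E, Submodule.mem_iInf, LinearMap.mem_ker]
  refine forall_congr' fun k => ?_
  have : (dfn 𝕂 k).toLinearMap v = v (⟨k, none⟩ : J) - ∑ j : Fin (2 ^ k), v (⟨k, some j⟩ : J) := by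
    simp [dfn, ev_apply]
  rw [this, sub_eq_zero]

lemma isClosed_E : IsClosed (E 𝕂 : Set (H 𝕂)) := by
  unfold E
  rw [Submodule.coe_iInf]
  exact isClosed_iInter fun k => ContinuousLinearMap.isClosed_ker (dfn 𝕂 k)

instance : CompleteSpace (E 𝕂) := (isClosed_E 𝕂).completeSpace_coe

lemma vec_mem (i : Idx) : vec 𝕂 i ∈ E 𝕂 := by
  rw [mem_E]
  intro k
  rw [vec_none]
  simp only [vec_some]
  obtain ⟨k', j'⟩ := i
  by_cases h : k' = k
  · subst h
    simp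
  · have : ∀ j : Fin (2 ^ k), ((⟨k, j⟩ : Idx) = ⟨k', j'⟩) ↔ False := by
      intro j
      simp only [Sigma.mk.injEq, iff_false, not_and]
      intro h2; exact absurd h2.symm h
    simp [this, h]

/-- the sequence in `E`, indexed by `Idx` -/
def X (i : Idx) : E 𝕂 := ⟨vec 𝕂 i, vec_mem 𝕂 i⟩

/-- coordinate functional on `E` -/
def co (i : Idx) : E 𝕂 →L[𝕂] 𝕂 := (ev 𝕂 ⟨i.1, some i.2⟩).comp (E 𝕂).subtypeL

lemma co_apply (i : Idx) (v : E 𝕂) : co 𝕂 i v = (v : H 𝕂) (⟨i.1, some i.2⟩ : J) := rfl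

lemma co_X (i i' : Idx) : co 𝕂 i (X 𝕂 i') = if i = i' then 1 else 0 := by
  rw [co_apply]; exact vec_some 𝕂 i' i.1 i.2

/-- functional of the extra coordinate on `E` -/
def cn (k : ℕ) : E 𝕂 →L[𝕂] 𝕂 := (ev 𝕂 ⟨k, none⟩).comp (E 𝕂).subtypeL

lemma cn_apply (k : ℕ) (v : E 𝕂) : cn 𝕂 k v = (v : H 𝕂) (⟨k, none⟩ : J) := rfl

lemma cn_X (k : ℕ) (i : Idx) : cn 𝕂 k (X 𝕂 i) = if i.1 = k then 1 else 0 := vec_none 𝕂 i k

/-- coefficients are determined -/
lemma coord {t : ℕ ≃ Idx} {β : Idx → 𝕂} {v : E 𝕂}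
    (h : Tendsto (fun M => ∑ n ∈ Finset.range M, β (t n) • X 𝕂 (t n)) atTop (𝓝 v)) (i : Idx) :
    β i = co 𝕂 i v := by
  have h1 := ((co 𝕂 i).continuous.tendsto v).comp h
  have h2 : Tendsto (fun M => co 𝕂 i (∑ n ∈ Finset.range M, β (t n) • X 𝕂 (t n))) atTop
      (𝓝 (β i)) := by
    apply tendsto_const_nhds.congr'
    filter_upwards [eventually_gt_atTop (t.symm i)] with M hM
    rw [map_sum, Finset.sum_eq_single (t.symm i)]
    · simp [co_X]
    · intro n _ hn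
      rw [map_smul, co_X, if_neg, smul_zero]
      intro h; apply hn; rw [h]; simp
    · intro hn; exact absurd (Finset.mem_range.mpr hM) hn
  exact tendsto_nhds_unique h2 h1

/-! ### convergence -/

/-- block vector -/
def blk (k : ℕ) (g : Option (Fin (2 ^ k)) → 𝕂) : H 𝕂 :=
  ∑ y, lp.single 2 (⟨k, y⟩ : J) (g y)

lemma two_toReal : (2 : ENNReal).toReal = 2 := by simp

lemma norm_sum_single_sq (f : J → 𝕂) (s : Finset J) :
    ‖∑ i ∈ s, lp.single (E := fun _ : J => 𝕂) 2 i (f i)‖ ^ 2 = ∑ i ∈ s, ‖f i‖ ^ 2 := by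
  have h := lp.norm_sum_single (E := fun _ : J => 𝕂) (p := 2) (by simp) f s
  rw [two_toReal] at h
  simpa using h

lemma blk_eq (k : ℕ) (v : H 𝕂) : blk 𝕂 k (fun y => v (⟨k, y⟩ : J))
    = ∑ i ∈ Finset.univ.map (Function.Embedding.sigmaMk (β := fun k : ℕ => Option (Fin (2 ^ k))) k),
      lp.single (E := fun _ : J => 𝕂) 2 i (v i) := by
  rw [Finset.sum_map]; rfl

lemma norm_blk (k : ℕ) (v : H 𝕂) : ‖blk 𝕂 k (fun y => v (⟨k, y⟩ : J))‖ ^ 2
    = ‖v (⟨k, none⟩ : J)‖ ^ 2 + ∑ j : Fin (2 ^ k), ‖v (⟨k, some j⟩ : J)‖ ^ 2 := by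
  rw [blk_eq, norm_sum_single_sq, Finset.sum_map, Fintype.sum_option]; rfl

lemma hasSum_blk (v : H 𝕂) : HasSum (fun k => blk 𝕂 k (fun y => v (⟨k, y⟩ : J))) v := by
  have h := lp.hasSum_single (E := fun _ : J => 𝕂) (p := 2) (by simp) v
  exact h.sigma (fun k => hasSum_fintype _)

lemma sum_block (k : ℕ) (v : E 𝕂) : ∑ r : Fin (2 ^ k), (co 𝕂 ⟨k, r⟩ v • vec 𝕂 ⟨k, r⟩ : H 𝕂)
    = blk 𝕂 k (fun y => (v : H 𝕂) (⟨k, y⟩ : J)) := by
  unfold blk
  rw [Fintype.sum_option]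
  have h := (mem_E 𝕂).mp v.2 k
  change _ = lp.single (E := fun _ : J => 𝕂) 2 (⟨k, none⟩ : J) ((v : H 𝕂) (⟨k, none⟩ : J))
    + ∑ i : Fin (2 ^ k), lp.single (E := fun _ : J => 𝕂) 2 (⟨k, some i⟩ : J)
      ((v : H 𝕂) (⟨k, some i⟩ : J))
  rw [h]
  have h1 : ∀ r : Fin (2 ^ k), (co 𝕂 ⟨k, r⟩ v • vec 𝕂 ⟨k, r⟩ : H 𝕂)
      = lp.single 2 (⟨k, some r⟩ : J) ((v : H 𝕂) (⟨k, some r⟩ : J))
        + lp.single 2 (⟨k, none⟩ : J) ((v : H 𝕂) (⟨k, some r⟩ : J)) := by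
    intro r
    unfold vec
    rw [smul_add, ← lp.single_smul, ← lp.single_smul, co_apply]
    simp
  rw [Finset.sum_congr rfl (fun r _ => h1 r), Finset.sum_add_distrib, add_comm]
  congr 1
  exact (map_sum (lp.singleAddMonoidHom (E := fun _ : J => 𝕂) 2 (⟨k, none⟩ : J)) _ _).symm

lemma partial_block (k : ℕ) (v : E 𝕂) (π : Equiv.Perm (Fin (2 ^ k)))
    (hπ : ∀ m : ℕ, ‖∑ r with r.val < m, co 𝕂 ⟨k, π r⟩ v‖ ^ 2
      ≤ 2 * ‖∑ r, co 𝕂 ⟨k, r⟩ v‖ ^ 2 + 2 * ∑ r, ‖co 𝕂 ⟨k, r⟩ v‖ ^ 2) (m : ℕ) :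
    ‖∑ r with r.val < m, (co 𝕂 ⟨k, π r⟩ v • vec 𝕂 ⟨k, π r⟩ : H 𝕂)‖
      ≤ 3 * ‖blk 𝕂 k (fun y => (v : H 𝕂) (⟨k, y⟩ : J))‖ := by
  set b := blk 𝕂 k (fun y => (v : H 𝕂) (⟨k, y⟩ : J)) with hb
  have hnb : ‖b‖ ^ 2 = ‖(v : H 𝕂) (⟨k, none⟩ : J)‖ ^ 2
      + ∑ j : Fin (2 ^ k), ‖(v : H 𝕂) (⟨k, some j⟩ : J)‖ ^ 2 := norm_blk 𝕂 k v
  have h := (mem_E 𝕂).mp v.2 k
  have h1 : ∀ r : Fin (2 ^ k), (co 𝕂 ⟨k, r⟩ v • vec 𝕂 ⟨k, r⟩ : H 𝕂)
      = lp.single 2 (⟨k, some r⟩ : J) ((v : H 𝕂) (⟨k, some r⟩ : J))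
        + lp.single 2 (⟨k, none⟩ : J) ((v : H 𝕂) (⟨k, some r⟩ : J)) := by
    intro r
    unfold vec
    rw [smul_add, ← lp.single_smul, ← lp.single_smul, co_apply]
    simp
  rw [Finset.sum_congr rfl (fun r _ => h1 (π r)), Finset.sum_add_distrib]
  refine (norm_add_le _ _).trans ?_
  -- first part
  have hA : ‖∑ r with r.val < m, lp.single (E := fun _ : J => 𝕂) 2 (⟨k, some (π r)⟩ : J)
      ((v : H 𝕂) (⟨k, some (π r)⟩ : J))‖ ≤ ‖b‖ := by
    have hinj : Set.InjOn (fun r : Fin (2 ^ k) => (⟨k, some (π r)⟩ : J))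
        (Finset.univ.filter (fun r : Fin (2 ^ k) => r.val < m)) := by
      intro r _ r' _ hr
      simp only [Sigma.mk.injEq, heq_eq_eq, true_and, Option.some.injEq] at hr
      exact π.injective hr
    have e1 : ∑ r with r.val < m, lp.single (E := fun _ : J => 𝕂) 2 (⟨k, some (π r)⟩ : J)
      ((v : H 𝕂) (⟨k, some (π r)⟩ : J))
      = ∑ i ∈ (Finset.univ.filter (fun r : Fin (2 ^ k) => r.val < m)).image
          (fun r => (⟨k, some (π r)⟩ : J)), lp.single (E := fun _ : J => 𝕂) 2 i ((v : H 𝕂) i) := by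
      rw [Finset.sum_image hinj]
    rw [e1]
    apply le_of_sq_le_sq _ (norm_nonneg _)
    rw [norm_sum_single_sq, Finset.sum_image hinj, hnb]
    have e2 : ∑ r with r.val < m, ‖(v : H 𝕂) (⟨k, some (π r)⟩ : J)‖ ^ 2
        ≤ ∑ r, ‖(v : H 𝕂) (⟨k, some (π r)⟩ : J)‖ ^ 2 :=
      Finset.sum_le_sum_of_subset_of_nonneg (Finset.filter_subset _ _) (fun _ _ _ => by positivity)
    have e3 : ∑ r, ‖(v : H 𝕂) (⟨k, some (π r)⟩ : J)‖ ^ 2
        = ∑ r, ‖(v : H 𝕂) (⟨k, some r⟩ : J)‖ ^ 2 :=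
      Equiv.sum_comp π (fun r => ‖(v : H 𝕂) (⟨k, some r⟩ : J)‖ ^ 2)
    rw [e3] at e2
    nlinarith [sq_nonneg ‖(v : H 𝕂) (⟨k, none⟩ : J)‖]
  have hB : ‖∑ r with r.val < m, lp.single (E := fun _ : J => 𝕂) 2 (⟨k, none⟩ : J)
      ((v : H 𝕂) (⟨k, some (π r)⟩ : J))‖ ≤ 2 * ‖b‖ := by
    have e1 : ∑ r with r.val < m, lp.single (E := fun _ : J => 𝕂) 2 (⟨k, none⟩ : J)
      ((v : H 𝕂) (⟨k, some (π r)⟩ : J))
      = lp.single 2 (⟨k, none⟩ : J) (∑ r with r.val < m, (v : H 𝕂) (⟨k, some (π r)⟩ : J)) :=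
      (map_sum (lp.singleAddMonoidHom (E := fun _ : J => 𝕂) 2 (⟨k, none⟩ : J)) _ _).symm
    rw [e1, lp.norm_single (by simp)]
    have e2 := hπ m
    simp only [co_apply] at e2
    rw [← h] at e2
    apply le_of_sq_le_sq _ (by positivity)
    nlinarith
  linarith
where
  le_of_sq_le_sq {x y : ℝ} (h : x ^ 2 ≤ y ^ 2) (hy : 0 ≤ y) : x ≤ y :=
    le_trans (le_abs_self x) (abs_le_of_sq_le_sq h hy)

lemma exists_expansion (v : E 𝕂) : ∃ t : ℕ ≃ Idx,
    Tendsto (fun M => ∑ n ∈ Finset.range M, co 𝕂 (t n) v • X 𝕂 (t n)) atTop (𝓝 v) := by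
  have hex : ∀ k : ℕ, ∃ π : Equiv.Perm (Fin (2 ^ k)), ∀ m : ℕ,
      ‖∑ r with r.val < m, co 𝕂 ⟨k, π r⟩ v‖ ^ 2
      ≤ 2 * ‖∑ r, co 𝕂 ⟨k, r⟩ v‖ ^ 2 + 2 * ∑ r, ‖co 𝕂 ⟨k, r⟩ v‖ ^ 2 := fun k =>
    greedy_perm (fun r => co 𝕂 ⟨k, r⟩ v)
  choose π hπ using hex
  refine ⟨dy.trans (Equiv.sigmaCongrRight π), ?_⟩
  rw [tendsto_subtype_rng]
  have hcoe : (fun M => ((∑ n ∈ Finset.range M, co 𝕂 ((dy.trans (Equiv.sigmaCongrRight π)) n) v •
      X 𝕂 ((dy.trans (Equiv.sigmaCongrRight π)) n) : E 𝕂) : H 𝕂))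
      = fun M => ∑ n ∈ Finset.range M, (fun i : Idx => (co 𝕂 ⟨i.1, π i.1 i.2⟩ v •
        vec 𝕂 ⟨i.1, π i.1 i.2⟩ : H 𝕂)) (dy n) := by
    funext M
    rw [Submodule.coe_sum]
    rfl
  rw [hcoe]
  set F : Idx → H 𝕂 := fun i : Idx => (co 𝕂 ⟨i.1, π i.1 i.2⟩ v • vec 𝕂 ⟨i.1, π i.1 i.2⟩ : H 𝕂)
    with hF
  set b : ℕ → H 𝕂 := fun k => blk 𝕂 k (fun y => (v : H 𝕂) (⟨k, y⟩ : J)) with hb
  have hfull : ∀ j, ∑ r : Fin (2 ^ j), F ⟨j, r⟩ = b j := by
    intro j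
    exact (Equiv.sum_comp (π j) (fun r => (co 𝕂 ⟨j, r⟩ v • vec 𝕂 ⟨j, r⟩ : H 𝕂))).trans
      (sum_block 𝕂 j v)
  have hsum : HasSum b (v : H 𝕂) := hasSum_blk 𝕂 (v : H 𝕂)
  have hQ : Tendsto (fun k => ∑ j ∈ Finset.range k, b j) atTop (𝓝 (v : H 𝕂)) :=
    hsum.tendsto_sum_nat
  have hb0 : Tendsto (fun k => 3 * ‖b k‖) atTop (𝓝 0) := by
    have := hsum.summable.tendsto_atTop_zero.norm.const_mul 3
    simpa using this
  have hlog : Tendsto (fun M : ℕ => Nat.log 2 (M + 1)) atTop atTop := by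
    rw [tendsto_atTop]
    intro B
    filter_upwards [eventually_ge_atTop (2 ^ B)] with M hM
    rw [Nat.le_log_iff_pow_le (by norm_num) (by omega)]
    omega
  have hdec : ∀ M : ℕ, ∑ n ∈ Finset.range M, F (dy n) = ∑ j ∈ Finset.range (Nat.log 2 (M + 1)), b j
      + ∑ r : Fin (2 ^ (Nat.log 2 (M + 1))) with r.val < M + 1 - 2 ^ (Nat.log 2 (M + 1)),
        F ⟨Nat.log 2 (M + 1), r⟩ := by
    intro M
    have h1 := Nat.lt_pow_succ_log_self (b := 2) (by norm_num) (M + 1)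
    have h2 := Nat.pow_log_le_self 2 (x := M + 1) (by omega)
    have h3 : 0 < 2 ^ (Nat.log 2 (M + 1)) := by positivity
    rw [pow_succ] at h1
    have h := sum_dy F (Nat.log 2 (M + 1)) (M + 1 - 2 ^ (Nat.log 2 (M + 1))) (by omega)
    have e : 2 ^ (Nat.log 2 (M + 1)) - 1 + (M + 1 - 2 ^ (Nat.log 2 (M + 1))) = M := by omega
    rw [e] at h
    rw [h]
    congr 1
    exact Finset.sum_congr rfl (fun j _ => hfull j)
  have hrem : Tendsto (fun M : ℕ => ∑ r : Fin (2 ^ (Nat.log 2 (M + 1))) with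
      r.val < M + 1 - 2 ^ (Nat.log 2 (M + 1)), F ⟨Nat.log 2 (M + 1), r⟩) atTop (𝓝 0) := by
    rw [tendsto_zero_iff_norm_tendsto_zero]
    refine squeeze_zero (fun M => norm_nonneg _) (fun M => ?_) (hb0.comp hlog)
    exact partial_block 𝕂 (Nat.log 2 (M + 1)) v (π _) (hπ _) _
  have := (hQ.comp hlog).add hrem
  rw [add_zero] at this
  exact this.congr (fun M => (hdec M).symm)

/-! ### no permutation is a basis -/

/-- number of elements of block `k` that appear before `M` -/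
def cnt (t : ℕ ≃ Idx) (k M : ℕ) : ℕ :=
  (Finset.univ.filter (fun j : Fin (2 ^ k) => t.symm ⟨k, j⟩ < M)).card

lemma cnt_le (t : ℕ ≃ Idx) (k M : ℕ) : cnt t k M ≤ M := by
  have h : (Finset.univ.filter (fun j : Fin (2 ^ k) => t.symm ⟨k, j⟩ < M)).card
      ≤ (Finset.range M).card := by
    apply Finset.card_le_card_of_injOn (fun j => t.symm ⟨k, j⟩)
    · intro j hj
      simpa using hj
    · intro j _ j' _ h
      have := t.symm.injective h
      simpa using this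
  simpa [cnt] using h

lemma exists_half (t : ℕ ≃ Idx) (k : ℕ) : ∃ M, cnt t k M = 2 ^ k / 2 := by
  have hbig : ∃ M, 2 ^ k / 2 ≤ cnt t k M := by
    obtain ⟨B, hB⟩ := (Finset.univ.image (fun j : Fin (2 ^ k) => t.symm ⟨k, j⟩)).bddAbove
    refine ⟨B + 1, ?_⟩
    have : (Finset.univ.filter (fun j : Fin (2 ^ k) => t.symm ⟨k, j⟩ < B + 1)) = Finset.univ := by
      ext j
      simp only [Finset.mem_filter, Finset.mem_univ, true_and, iff_true]
      have h : t.symm ⟨k, j⟩ ≤ B :=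
        hB (Finset.mem_coe.mpr (Finset.mem_image_of_mem (fun j : Fin (2 ^ k) => t.symm ⟨k, j⟩)
        (Finset.mem_univ j)))
      omega
    rw [cnt, this, Finset.card_univ, Fintype.card_fin]
    exact Nat.div_le_self _ _
  classical
  refine ⟨Nat.find hbig, le_antisymm ?_ (Nat.find_spec hbig)⟩
  cases hM : Nat.find hbig with
  | zero =>
    have : cnt t k 0 = 0 := by simp [cnt]
    rw [this]; exact Nat.zero_le _
  | succ M =>
    have h1 : ¬ 2 ^ k / 2 ≤ cnt t k M := Nat.find_min hbig (by rw [hM]; exact Nat.lt_succ_self M)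
    have h2 : cnt t k (M + 1) ≤ cnt t k M + 1 := by
      unfold cnt
      have hsub : (Finset.univ.filter (fun j : Fin (2 ^ k) => t.symm ⟨k, j⟩ < M + 1))
          ⊆ (Finset.univ.filter (fun j : Fin (2 ^ k) => t.symm ⟨k, j⟩ < M)) ∪
            (Finset.univ.filter (fun j : Fin (2 ^ k) => t.symm ⟨k, j⟩ = M)) := by
        intro j
        simp only [Finset.mem_filter, Finset.mem_univ, true_and, Finset.mem_union]
        omega
      have h3 : (Finset.univ.filter (fun j : Fin (2 ^ k) => t.symm ⟨k, j⟩ = M)).card ≤ 1 := by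
        rw [Finset.card_le_one]
        intro a ha b hb
        simp only [Finset.mem_filter, Finset.mem_univ, true_and] at ha hb
        have := t.symm.injective (ha.trans hb.symm)
        simpa using this
      have h4 := Finset.card_le_card hsub
      have h5 := Finset.card_union_le
        (Finset.univ.filter (fun j : Fin (2 ^ k) => t.symm ⟨k, j⟩ < M))
        (Finset.univ.filter (fun j : Fin (2 ^ k) => t.symm ⟨k, j⟩ = M))
      omega
    omega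

/-- threshold: exactly half of block `k` appears before it -/
def thr (t : ℕ ≃ Idx) (k : ℕ) : ℕ := (exists_half t k).choose

lemma thr_spec (t : ℕ ≃ Idx) (k : ℕ) : cnt t k (thr t k) = 2 ^ k / 2 := (exists_half t k).choose_spec

/-- the bad coefficients -/
def bad (t : ℕ ≃ Idx) (i : Idx) : 𝕂 :=
  if i.1 = 0 then 0 else
    (2 / 2 ^ i.1 : 𝕂) * (if t.symm i < thr t i.1 then 1 else -1)

/-- the bad vector, as a function -/
def badf (t : ℕ ≃ Idx) (j : J) : 𝕂 :=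
  match j with
  | ⟨_, none⟩ => 0
  | ⟨k, some r⟩ => bad 𝕂 t ⟨k, r⟩

lemma norm_bad (t : ℕ ≃ Idx) (i : Idx) : ‖bad 𝕂 t i‖ ≤ 2 / 2 ^ i.1 := by
  unfold bad
  split_ifs with h1 h2
  · rw [norm_zero]; positivity
  · simp
  · simp

lemma memlp_badf (t : ℕ ≃ Idx) : Memℓp (badf 𝕂 t) 2 := by
  apply memℓp_gen
  rw [two_toReal]
  rw [summable_sigma_of_nonneg (fun _ => by positivity)]
  refine ⟨fun k => (hasSum_fintype _).summable, ?_⟩
  have hg : Summable (fun k : ℕ => 4 * (1 / 2 : ℝ) ^ k) :=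
    (summable_geometric_of_lt_one (by norm_num) (by norm_num)).mul_left 4
  refine Summable.of_nonneg_of_le (fun k => tsum_nonneg (fun _ => by positivity)) (fun k => ?_) hg
  rw [tsum_fintype, Fintype.sum_option]
  have h1 : ‖badf 𝕂 t (⟨k, none⟩ : J)‖ ^ (2 : ℝ) = 0 := by simp [badf]
  rw [h1, zero_add]
  have h2 : ∀ r : Fin (2 ^ k), ‖badf 𝕂 t (⟨k, some r⟩ : J)‖ ^ (2 : ℝ) ≤ (2 / 2 ^ k) ^ 2 := by
    intro r
    have := norm_bad 𝕂 t ⟨k, r⟩
    rw [Real.rpow_two]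
    exact pow_le_pow_left₀ (norm_nonneg _) this 2
  calc ∑ r : Fin (2 ^ k), ‖badf 𝕂 t (⟨k, some r⟩ : J)‖ ^ (2 : ℝ)
      ≤ ∑ _r : Fin (2 ^ k), ((2 / 2 ^ k) ^ 2 : ℝ) := Finset.sum_le_sum (fun r _ => h2 r)
    _ = 2 ^ k * (2 / 2 ^ k) ^ 2 := by
        rw [Finset.sum_const, Finset.card_univ, Fintype.card_fin]; simp
    _ = 4 * (1 / 2) ^ k := by
        have : (2 : ℝ) ^ k ≠ 0 := by positivity
        rw [one_div, inv_pow]
        field_simp
        norm_num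
    _ ≤ 4 * (1 / 2) ^ k := le_rfl

lemma sum_bad (t : ℕ ≃ Idx) (k : ℕ) : ∑ r : Fin (2 ^ k), bad 𝕂 t ⟨k, r⟩ = 0 := by
  by_cases hk : k = 0
  · simp [bad, hk]
  · unfold bad
    simp only [hk, if_false]
    rw [← Finset.mul_sum]
    have h1 : ∑ r : Fin (2 ^ k), (if t.symm ⟨k, r⟩ < thr t k then (1 : 𝕂) else -1)
        = 0 := by
      rw [Finset.sum_ite, Finset.sum_const, Finset.sum_const]
      have h2 : (Finset.univ.filter (fun r : Fin (2 ^ k) =>
          t.symm ⟨k, r⟩ < thr t k)).card = 2 ^ k / 2 := thr_spec t k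
      have h3 := Finset.card_filter_add_card_filter_not (s := (Finset.univ : Finset (Fin (2 ^ k))))
        (fun r : Fin (2 ^ k) => t.symm ⟨k, r⟩ < thr t k)
      rw [h2, Finset.card_univ, Fintype.card_fin] at h3
      obtain ⟨l, rfl⟩ := Nat.exists_eq_succ_of_ne_zero hk
      have h4 : 2 ^ (l + 1) / 2 = 2 ^ l := by rw [pow_succ]; omega
      have h5 : (Finset.univ.filter (fun r : Fin (2 ^ (l + 1)) =>
          ¬ t.symm ⟨l + 1, r⟩ < thr t (l + 1))).card = 2 ^ l := by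
        simp only [Nat.succ_eq_add_one] at h3
        rw [h4] at h3
        have : 2 ^ (l + 1) = 2 ^ l + 2 ^ l := by ring
        omega
      simp only [Nat.succ_eq_add_one] at h2 ⊢
      rw [h2, h5, h4]
      simp
    rw [h1, mul_zero]

/-- the bad vector -/
def badv (t : ℕ ≃ Idx) : E 𝕂 := ⟨⟨badf 𝕂 t, memlp_badf 𝕂 t⟩, by
  rw [mem_E]
  intro k
  exact (sum_bad 𝕂 t k).symm⟩

lemma co_badv (t : ℕ ≃ Idx) (i : Idx) : co 𝕂 i (badv 𝕂 t) = bad 𝕂 t i := rfl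

lemma cn_badv (t : ℕ ≃ Idx) (k : ℕ) : cn 𝕂 k (badv 𝕂 t) = 0 := rfl

lemma bad_partial (t : ℕ ≃ Idx) (k : ℕ) (hk : k ≠ 0) :
    cn 𝕂 k (∑ n ∈ Finset.range (thr t k), bad 𝕂 t (t n) • X 𝕂 (t n)) = 1 := by
  set M := thr t k with hM
  have hMs : cnt t k M = 2 ^ k / 2 := thr_spec t k
  rw [map_sum]
  have h1 : ∀ n ∈ Finset.range M, cn 𝕂 k (bad 𝕂 t (t n) • X 𝕂 (t n))
      = if (t n).1 = k then (2 / 2 ^ k : 𝕂) else 0 := by
    intro n hn
    rw [map_smul, cn_X]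
    split_ifs with h
    · rw [smul_eq_mul, mul_one, bad, h, if_neg hk, Equiv.symm_apply_apply, ← hM,
        if_pos (Finset.mem_range.mp hn), mul_one]
    · rw [smul_zero]
  rw [Finset.sum_congr rfl h1, ← Finset.sum_filter, Finset.sum_const]
  have h2 : ((Finset.range M).filter (fun n => (t n).1 = k)).card = cnt t k M := by
    symm
    unfold cnt
    apply Finset.card_bij (fun j _ => t.symm ⟨k, j⟩)
    · intro j hj
      simpa using hj
    · intro j _ j' _ h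
      have := t.symm.injective h
      simpa using this
    · intro n hn
      rw [Finset.mem_filter, Finset.mem_range] at hn
      obtain ⟨h1, h2⟩ := hn
      subst h2
      exact ⟨(t n).2, by simp [h1], by simp⟩
  rw [h2, hMs]
  obtain ⟨l, rfl⟩ := Nat.exists_eq_succ_of_ne_zero hk
  have h4 : 2 ^ (l + 1) / 2 = 2 ^ l := by rw [pow_succ]; omega
  simp only [Nat.succ_eq_add_one]
  rw [h4, nsmul_eq_mul]
  push_cast
  have : (2 : 𝕂) ^ l ≠ 0 := pow_ne_zero _ two_ne_zero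
  rw [pow_succ]
  field_simp

lemma no_expansion (t : ℕ ≃ Idx) (β : Idx → 𝕂) :
    ¬ Tendsto (fun M => ∑ n ∈ Finset.range M, β (t n) • X 𝕂 (t n)) atTop (𝓝 (badv 𝕂 t)) := by
  intro h
  have hβ : ∀ i, β i = bad 𝕂 t i := fun i => by rw [coord 𝕂 h i, co_badv]
  have h' : Tendsto (fun M => ∑ n ∈ Finset.range M, bad 𝕂 t (t n) • X 𝕂 (t n)) atTop
      (𝓝 (badv 𝕂 t)) := by
    simpa only [hβ] using h
  rw [Metric.tendsto_atTop] at h'
  obtain ⟨M0, hM0⟩ := h' 1 one_pos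
  -- choose a large block
  set k := M0 + 1 with hk
  have hge : M0 ≤ thr t k := by
    have h1 := cnt_le t k (thr t k)
    rw [thr_spec t k] at h1
    have h2 : M0 < 2 ^ M0 := Nat.lt_two_pow_self
    have h3 : 2 ^ k / 2 = 2 ^ M0 := by rw [hk, pow_succ]; omega
    omega
  have h1 := hM0 _ hge
  rw [dist_eq_norm] at h1
  have h2 : cn 𝕂 k (∑ n ∈ Finset.range (thr t k), bad 𝕂 t (t n) • X 𝕂 (t n)
      - badv 𝕂 t) = 1 := by
    rw [map_sub, bad_partial 𝕂 t k (by omega), cn_badv, sub_zero]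
  have h3 : ‖cn 𝕂 k (∑ n ∈ Finset.range (thr t k), bad 𝕂 t (t n) • X 𝕂 (t n)
      - badv 𝕂 t)‖ ≤ ‖∑ n ∈ Finset.range (thr t k), bad 𝕂 t (t n) • X 𝕂 (t n)
      - badv 𝕂 t‖ := by
    rw [cn_apply]
    exact lp.norm_apply_le_norm (by norm_num) _ _
  rw [h2, norm_one] at h3
  linarith

end

end Pool.Agent.X11.PermBasis
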