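import Mathlib

/-! Finite continued fractions as lists, their matrices, and the reversal involution. -/

namespace Pool.Agent.X11.Rot

open Finset

/-- The value of the finite continued fraction `[c₁, c₂, …]`. -/
def cfVal : List ℕ → ℚ
  | [] => 0
  | c :: l => (c : ℚ) + (cfVal l)⁻¹

/-- `l = [c₁, …, c_λ]` is the normalised simple continued fraction expansion of `p / n`:
nonempty, positive entries, last entry `> 1`, and value `p / n`. -/
def IsCF (p n : ℕ) (l : List ℕ) : Prop :=
  (∃ h : l ≠ [], 1 < l.getLast h) ∧ (∀ c ∈ l, 0 < c) ∧ cfVal l = (p : ℚ) / (n : ℚ)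

/-- Euclid's algorithm. -/
def cf (a b : ℕ) : List ℕ :=
  if _h : b = 0 then [] else (a / b) :: cf b (a % b)
termination_by b
decreasing_by exact Nat.mod_lt _ (Nat.pos_of_ne_zero _h)

theorem cf_zero (a : ℕ) : cf a 0 = [] := by
  rw [cf]; simp

theorem cf_pos (a : ℕ) {b : ℕ} (hb : 0 < b) : cf a b = (a / b) :: cf b (a % b) := by
  rw [cf]; simp [hb.ne']

theorem cfVal_cf (b : ℕ) : ∀ a : ℕ, cfVal (cf a b) = (a : ℚ) / b := by
  induction b using Nat.strong_induction_on with
  | _ b ih =>
    intro a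
    rcases Nat.eq_zero_or_pos b with hb | hb
    · subst hb
      simp [cf_zero, cfVal]
    · rw [cf_pos a hb, cfVal, ih _ (Nat.mod_lt _ hb) b, inv_div]
      have hb' : (b : ℚ) ≠ 0 := by exact_mod_cast hb.ne'
      have h := Nat.div_add_mod a b
      have h' : (b : ℚ) * ((a / b : ℕ) : ℚ) + ((a % b : ℕ) : ℚ) = a := by exact_mod_cast h
      field_simp
      linarith

theorem cf_entries (b : ℕ) : ∀ a : ℕ, b ≤ a → ∀ c ∈ cf a b, 0 < c := by
  induction b using Nat.strong_induction_on with
  | _ b ih =>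
    intro a hab c hc
    rcases Nat.eq_zero_or_pos b with hb | hb
    · subst hb
      simp [cf_zero] at hc
    · rw [cf_pos a hb] at hc
      rcases List.mem_cons.1 hc with h | h
      · rw [h]; exact Nat.div_pos hab hb
      · exact ih _ (Nat.mod_lt _ hb) b (Nat.mod_lt _ hb).le c h

theorem cf_last (b : ℕ) : ∀ a : ℕ, 0 < b → b < a → ∃ h : cf a b ≠ [], 1 < (cf a b).getLast h := by
  induction b using Nat.strong_induction_on with
  | _ b ih =>
    intro a hb hab
    have e := cf_pos a hb
    rcases Nat.eq_zero_or_pos (a % b) with h0 | h0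
    · rw [h0, cf_zero] at e
      refine ⟨by rw [e]; simp, ?_⟩
      simp only [e, List.getLast_singleton]
      have h := Nat.div_add_mod a b
      rw [h0] at h
      by_contra hcon
      have : a / b ≤ 1 := by omega
      have : b * (a / b) ≤ b * 1 := Nat.mul_le_mul_left _ this
      omega
    · obtain ⟨h1, h2⟩ := ih _ (Nat.mod_lt _ hb) b h0 (Nat.mod_lt _ hb)
      refine ⟨by rw [e]; simp, ?_⟩
      simp only [e]
      rw [List.getLast_cons h1]
      exact h2

theorem isCF_cf {p n : ℕ} (hn : 0 < n) (hnp : n < p) : IsCF p n (cf p n) :=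
  ⟨cf_last n p hn hnp, cf_entries n p hnp.le, cfVal_cf n p⟩

/-- For a nonempty list with positive entries and last entry `> 1` the value is `> 1`. -/
theorem one_lt_cfVal : ∀ l : List ℕ, (∃ h : l ≠ [], 1 < l.getLast h) → (∀ c ∈ l, 0 < c) →
    1 < cfVal l
  | [], h, _ => absurd rfl h.1
  | [c], h, _ => by
    obtain ⟨_, h2⟩ := h
    simp only [List.getLast_singleton] at h2
    simp only [cfVal, inv_zero, add_zero]
    exact_mod_cast h2
  | c :: d :: l, h, hp => by
    obtain ⟨h1, h2⟩ := h
    have h3 : d :: l ≠ [] := by simp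
    rw [List.getLast_cons h3] at h2
    have ih := one_lt_cfVal (d :: l) ⟨h3, h2⟩ (fun c hc => hp c (List.mem_cons_of_mem _ hc))
    rw [cfVal]
    have hc : (1 : ℚ) ≤ c := by exact_mod_cast hp c (by simp)
    have : 0 < (cfVal (d :: l))⁻¹ := inv_pos.2 (by linarith)
    linarith

theorem eq_cf_of_isCF : ∀ (l : List ℕ) (p n : ℕ), 0 < n → IsCF p n l → l = cf p n
  | [], _, _, _, h => absurd rfl h.1.1
  | [c], p, n, hn, h => by
    obtain ⟨⟨_, h2⟩, _, h3⟩ := h
    simp only [List.getLast_singleton] at h2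
    simp only [cfVal, inv_zero, add_zero] at h3
    have hn' : (n : ℚ) ≠ 0 := by exact_mod_cast hn.ne'
    rw [eq_div_iff hn'] at h3
    have h4 : c * n = p := by exact_mod_cast h3
    rw [cf_pos p hn, ← h4, Nat.mul_mod_left, cf_zero, Nat.mul_div_cancel _ hn]
  | c :: d :: l, p, n, hn, h => by
    obtain ⟨⟨h1, h2⟩, hp, h3⟩ := h
    have h4 : d :: l ≠ [] := by simp
    rw [List.getLast_cons h4] at h2
    have hp' : ∀ c ∈ d :: l, 0 < c := fun c hc => hp c (List.mem_cons_of_mem _ hc)
    have hv := one_lt_cfVal (d :: l) ⟨h4, h2⟩ hp'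
    rw [cfVal] at h3
    set v := cfVal (d :: l) with hvdef
    have hv0 : 0 < v := by linarith
    have hn' : (0 : ℚ) < n := by exact_mod_cast hn
    have hi0 : 0 < v⁻¹ := inv_pos.2 hv0
    have hi1 : v⁻¹ < 1 := inv_lt_one_of_one_lt₀ hv
    rw [eq_div_iff hn'.ne'] at h3
    have hlow : c * n ≤ p := by
      have : ((c * n : ℕ) : ℚ) ≤ (p : ℚ) := by
        push_cast
        rw [← h3, add_mul]
        have := mul_pos hi0 hn'
        linarith
      exact_mod_cast this
    have hupp : p < (c + 1) * n := by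
      have : (p : ℚ) < (((c + 1) * n : ℕ) : ℚ) := by
        push_cast
        rw [← h3]
        apply mul_lt_mul_of_pos_right _ hn'
        linarith
      exact_mod_cast this
    have hdiv : p / n = c := by
      apply le_antisymm
      · exact Nat.lt_succ_iff.1 ((Nat.div_lt_iff_lt_mul hn).2 hupp)
      · exact (Nat.le_div_iff_mul_le hn).2 hlow
    have hmod : ((p % n : ℕ) : ℚ) = v⁻¹ * n := by
      have h := Nat.div_add_mod p n
      rw [hdiv] at h
      have h' : (n : ℚ) * c + ((p % n : ℕ) : ℚ) = p := by exact_mod_cast h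
      rw [← h3] at h'
      linarith
    have hval : v = (n : ℚ) / ((p % n : ℕ) : ℚ) := by
      rw [hmod]
      field_simp
    have hm0 : 0 < p % n := by
      have : (0 : ℚ) < ((p % n : ℕ) : ℚ) := by rw [hmod]; positivity
      exact_mod_cast this
    have ih := eq_cf_of_isCF (d :: l) n (p % n) hm0 ⟨⟨h4, h2⟩, hp', hval⟩
    rw [cf_pos p hn, hdiv, ← ih]

theorem isCF_iff {p n : ℕ} (hn : 0 < n) (hnp : n < p) (l : List ℕ) :
    IsCF p n l ↔ l = cf p n :=
  ⟨eq_cf_of_isCF l p n hn, fun h => h ▸ isCF_cf hn hnp⟩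

/-! ### Matrices -/

/-- The elementary matrix. -/
def A (c : ℕ) : Matrix (Fin 2) (Fin 2) ℤ := !![(c : ℤ), 1; 1, 0]

/-- The matrix of a list. -/
def Mt (l : List ℕ) : Matrix (Fin 2) (Fin 2) ℤ := (l.map A).prod

theorem Mt_nil : Mt [] = 1 := by simp [Mt]

theorem Mt_cons (c : ℕ) (l : List ℕ) : Mt (c :: l) = A c * Mt l := by simp [Mt]

theorem A_transpose (c : ℕ) : (A c).transpose = A c := by
  ext i j
  fin_cases i <;> fin_cases j <;> simp [A]

theorem Mt_reverse (l : List ℕ) : Mt l.reverse = (Mt l).transpose := by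
  rw [Mt, Mt, Matrix.transpose_list_prod, List.map_reverse, List.map_map]
  congr 2
  apply List.map_congr_left
  intro c _
  exact (A_transpose c).symm

theorem Mt_det (l : List ℕ) : (Mt l).det = (-1) ^ l.length := by
  induction l with
  | nil => simp [Mt]
  | cons c l ih =>
    rw [Mt_cons, Matrix.det_mul, ih, List.length_cons, pow_succ',
      show (A c).det = -1 by simp [A, Matrix.det_fin_two]]

theorem Mt_cons_00 (c : ℕ) (l : List ℕ) :
    Mt (c :: l) 0 0 = c * Mt l 0 0 + Mt l 1 0 := by
  rw [Mt_cons, Matrix.mul_apply]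
  simp [A, Fin.sum_univ_two]

theorem Mt_cons_10 (c : ℕ) (l : List ℕ) : Mt (c :: l) 1 0 = Mt l 0 0 := by
  rw [Mt_cons, Matrix.mul_apply]
  simp [A, Fin.sum_univ_two]

theorem Mt_cf (b : ℕ) : ∀ a : ℕ, Nat.Coprime a b → Mt (cf a b) 0 0 = a ∧ Mt (cf a b) 1 0 = b := by
  induction b using Nat.strong_induction_on with
  | _ b ih =>
    intro a hab
    rcases Nat.eq_zero_or_pos b with hb | hb
    · subst hb
      have : a = 1 := by simpa using hab
      subst this
      simp [cf_zero, Mt_nil]
    · have hc : Nat.Coprime b (a % b) := by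
        rw [Nat.Coprime, Nat.gcd_comm, ← Nat.gcd_rec, Nat.gcd_comm]
        exact hab
      obtain ⟨h1, h2⟩ := ih _ (Nat.mod_lt _ hb) b hc
      rw [cf_pos a hb, Mt_cons_00, Mt_cons_10, h1, h2]
      refine ⟨?_, rfl⟩
      have h := Nat.div_add_mod a b
      have h' : (b : ℤ) * ((a / b : ℕ) : ℤ) + ((a % b : ℕ) : ℤ) = a := by exact_mod_cast h
      linarith

/-- A list with positive entries and last entry at least two is recovered from its matrix. -/
theorem Mt_recover : ∀ l : List ℕ, (∀ c ∈ l, 0 < c) → (∀ h : l ≠ [], 1 < l.getLast h) →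
    ∃ x y : ℕ, Mt l 0 0 = x ∧ Mt l 1 0 = y ∧ y < x ∧ (l ≠ [] → 0 < y) ∧ cf x y = l
  | [], _, _ => ⟨1, 0, by simp [Mt_nil], by simp [Mt_nil], by norm_num, by simp, by simp [cf_zero]⟩
  | [c], _, h => by
    have h2 := h (by simp)
    simp only [List.getLast_singleton] at h2
    refine ⟨c, 1, ?_, ?_, h2, by simp, ?_⟩
    · rw [Mt_cons_00]; simp [Mt_nil]
    · rw [Mt_cons_10]; simp [Mt_nil]
    · rw [cf_pos _ one_pos, Nat.mod_one, cf_zero, Nat.div_one]
  | c :: d :: l, hp, h => by
    have h2 := h (by simp)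
    have h3 : d :: l ≠ [] := by simp
    rw [List.getLast_cons h3] at h2
    obtain ⟨x, y, e1, e2, hyx, hy, e3⟩ := Mt_recover (d :: l)
      (fun c hc => hp c (List.mem_cons_of_mem _ hc)) (fun _ => h2)
    have hy0 := hy h3
    have hc : 0 < c := hp c (by simp)
    refine ⟨c * x + y, x, ?_, ?_, ?_, fun _ => by omega, ?_⟩
    · rw [Mt_cons_00, e1, e2]; push_cast; ring
    · rw [Mt_cons_10, e1]
    · have : 1 * x ≤ c * x := Nat.mul_le_mul_right _ hc
      omega
    · have hx0 : 0 < x := by omega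
      rw [cf_pos _ hx0]
      have hd : (c * x + y) / x = c := by
        rw [Nat.mul_comm, Nat.mul_add_div hx0, Nat.div_eq_of_lt hyx, Nat.add_zero]
      have hm : (c * x + y) % x = y := by
        rw [Nat.mul_comm, Nat.mul_add_mod, Nat.mod_eq_of_lt hyx]
      rw [hd, hm, e3]

/-! ### The reversal involution on `{n : 2 n < p}` -/

/-- The partner of `n`: the upper right entry of the matrix of the expansion of `p / n`. -/
def dual (p n : ℕ) : ℕ := (Mt (cf p n) 0 1).toNat

theorem dual_spec {p n : ℕ} (hp : p % 2 = 1) (hn : 0 < n) (hnp : 2 * n < p)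
    (hc : Nat.Coprime p n) :
    0 < dual p n ∧ 2 * dual p n < p ∧ Nat.Coprime p (dual p n) ∧
    cf p (dual p n) = (cf p n).reverse ∧ dual p (dual p n) = n ∧
    ∃ z : ℤ, (p : ℤ) * z - (dual p n : ℤ) * n = (-1) ^ (cf p n).length := by
  have hnp' : n < p := by omega
  obtain ⟨h00, h10⟩ := Mt_cf n p hc
  obtain ⟨⟨hne, hlast⟩, hent, _⟩ := isCF_cf hn hnp'
  -- the first entry is at least two
  have hcons := cf_pos p hn
  have hfirst : 2 ≤ p / n := (Nat.le_div_iff_mul_le hn).2 hnp.le
  have hrne : (cf p n).reverse ≠ [] := by simpa using hne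
  have hrlast : ∀ h : (cf p n).reverse ≠ [], 1 < (cf p n).reverse.getLast h := by
    intro h
    rw [List.getLast_reverse]
    have : (cf p n).head hne = p / n := by
      simp only [hcons, List.head_cons]
    rw [this]
    omega
  have hrent : ∀ c ∈ (cf p n).reverse, 0 < c := fun c hc => hent c (List.mem_reverse.1 hc)
  obtain ⟨x, y, e1, e2, hyx, hy, e3⟩ := Mt_recover _ hrent hrlast
  have hy0 := hy hrne
  rw [Mt_reverse, Matrix.transpose_apply] at e1 e2
  have hx : x = p := by
    have : (x : ℤ) = p := by rw [← e1, h00]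
    exact_mod_cast this
  subst hx
  have hd : dual x n = y := by rw [dual, e2, Int.toNat_natCast]
  rw [hd]
  have hdet := Mt_det (cf x n)
  rw [Matrix.det_fin_two, h00, h10, e2] at hdet
  have hcop : Nat.Coprime x y := by
    rw [← Nat.isCoprime_iff_coprime]
    refine ⟨(-1) ^ (cf x n).length * Mt (cf x n) 1 1, -((-1) ^ (cf x n).length * n), ?_⟩
    have hs : ((-1 : ℤ) ^ (cf x n).length) * (-1) ^ (cf x n).length = 1 := by
      rw [← mul_pow]; simp
    linear_combination ((-1 : ℤ) ^ (cf x n).length) * hdet + hs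
  refine ⟨hy0, ?_, hcop, e3, ?_, Mt (cf x n) 1 1, hdet⟩
  · -- first entry of the reversed list is at least two
    have h1 := cf_pos x hy0
    have h2 : (cf x y).head (by rw [e3]; exact hrne) = x / y := by
      simp only [h1, List.head_cons]
    have h3 : (cf x y).head (by rw [e3]; exact hrne) = (cf x n).getLast hne := by
      simp only [e3, List.head_reverse]
    rw [h3] at h2
    have h4 : 2 ≤ x / y := by omega
    have h5 : 2 * y ≤ x := (Nat.le_div_iff_mul_le hy0).1 h4
    omega
  · rw [dual, e3, Mt_reverse, Matrix.transpose_apply, h10, Int.toNat_natCast]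

/-- The expansion of `p / (p - n)`. -/
theorem cf_sub {p n : ℕ} (hn : 0 < n) (hnp : 2 * n < p) :
    (cf p (p - n)).length = (cf p n).length + 1 := by
  have h1 : 0 < p - n := by omega
  have hd : p / (p - n) = 1 := by
    rw [Nat.div_eq_iff h1]
    constructor <;> omega
  have hm : p % (p - n) = n := by
    have := Nat.div_add_mod p (p - n)
    rw [hd] at this
    omega
  rw [cf_pos p h1, hd, hm, List.length_cons]
  congr 1
  have hm2 : (p - n) % n = p % n := by
    conv_rhs => rw [show p = (p - n) + n by omega]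
    rw [Nat.add_mod_right]
  rw [cf_pos _ hn, cf_pos p hn, hm2, List.length_cons, List.length_cons]

end Pool.Agent.X11.Rot
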