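import Pool.Agent.X11.RotN

/-! Elementary identities for half sums of the Jacobi symbol. -/

namespace Pool.Agent.X11.Rot

open Finset

theorem sum_parity (m : ℕ) (f : ℕ → ℤ) :
    ∑ n ∈ Ioo 0 (2 * m + 1), f n = ∑ n ∈ Icc 1 m, (f (2 * n) + f (2 * m + 1 - 2 * n)) := by
  rw [sum_add_distrib, ← sum_filter_add_sum_filter_not (Ioo 0 (2 * m + 1)) (fun n => n % 2 = 0)]
  congr 1
  · apply sum_nbij' (fun n => n / 2) (fun n => 2 * n)
    · intro n; simp only [mem_Icc, mem_filter, mem_Ioo]; omega
    · intro n; simp only [mem_Icc, mem_filter, mem_Ioo]; omega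
    · intro n; simp only [mem_filter, mem_Ioo]; omega
    · intro n; simp only [mem_Icc]; omega
    · intro n hn
      simp only [mem_filter, mem_Ioo] at hn
      congr 1
      omega
  · apply sum_nbij' (fun n => (2 * m + 1 - n) / 2) (fun n => 2 * m + 1 - 2 * n)
    · intro n; simp only [mem_Icc, mem_filter, mem_Ioo]; omega
    · intro n; simp only [mem_Icc, mem_filter, mem_Ioo]; omega
    · intro n; simp only [mem_filter, mem_Ioo]; omega
    · intro n; simp only [mem_Icc]; omega
    · intro n hn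
      simp only [mem_filter, mem_Ioo] at hn
      congr 1
      omega

theorem J_mul (p a b : ℕ) : J p (a * b) = J p a * J p b := by
  rw [J, J, J, ← jacobiSym.mul_left]
  push_cast
  rfl

/-- `(χ(2) - 2) ∑ χ(a) a = q ∑_{a < q/2} χ(a)`. -/
theorem half_sum_identity {m : ℕ} (hq : (2 * m + 1) % 4 = 3) :
    (J (2 * m + 1) 2 - 2) * ∑ n ∈ Ioo 0 (2 * m + 1), J (2 * m + 1) n * n =
      (2 * m + 1) * ∑ n ∈ Icc 1 m, J (2 * m + 1) n := by
  set q := 2 * m + 1 with hqdef
  have hqc : (q : ℤ) = 2 * m + 1 := by rw [hqdef]; push_cast; ring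
  obtain ⟨U, hU⟩ : ∃ U : ℤ, U = ∑ n ∈ Icc 1 m, J q n * n := ⟨_, rfl⟩
  obtain ⟨S, hS⟩ : ∃ S : ℤ, S = ∑ n ∈ Icc 1 m, J q n := ⟨_, rfl⟩
  have h1 : ∑ n ∈ Ioo 0 q, J q n * n = 2 * U - q * S := by
    rw [hqdef, sum_split, ← hqdef, hU, hS, mul_sum, mul_sum, ← sum_sub_distrib]
    apply sum_congr rfl
    intro n hn
    rw [mem_Icc] at hn
    rw [J_sub (by omega), J_neg_one_three hq, Nat.cast_sub (by omega)]
    ring
  have h2 : ∑ n ∈ Ioo 0 q, J q n * n = J q 2 * (4 * U - q * S) := by
    rw [hqdef, sum_parity, ← hqdef, hU, hS, mul_sum, mul_sum, ← sum_sub_distrib, mul_sum]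
    apply sum_congr rfl
    intro n hn
    rw [mem_Icc] at hn
    rw [J_sub (by omega), J_neg_one_three hq, Nat.cast_sub (by omega), J_mul]
    push_cast
    ring
  have h3 : J q 2 * J q 2 = 1 := by
    rcases J_cases q 2 (Nat.coprime_comm.1 (Nat.coprime_two_left.2 (Nat.odd_iff.2 (by omega)))) with
      h | h <;> rw [h] <;> norm_num
  rw [← hS]
  have h4 : J q 2 * (2 * U - q * S) = J q 2 * (J q 2 * (4 * U - q * S)) := by rw [← h1, ← h2]
  rw [h1]
  rw [← mul_assoc, h3, one_mul] at h4
  rw [← hqc]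
  linear_combination h4

/-! ### Reduction to the squarefree part -/

theorem J_period (q n : ℕ) : J q (n + q) = J q n := by
  rw [J, J]
  apply jacobiSym.mod_left'
  push_cast
  rw [Int.add_emod_right]

theorem sum_full_zero {m : ℕ} (hq : (2 * m + 1) % 4 = 3) :
    ∑ n ∈ range (2 * m + 1), J (2 * m + 1) n = 0 := by
  have h1 : range (2 * m + 1) = insert 0 (Ioo 0 (2 * m + 1)) := by
    ext n; simp only [mem_range, mem_insert, mem_Ioo]; omega
  rw [h1, sum_insert (by simp), sum_split, sum_eq_zero, add_zero]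
  · rw [J]
    push_cast
    exact jacobiSym.zero_left (by omega)
  · intro n hn
    rw [mem_Icc] at hn
    rw [J_sub (by omega), J_neg_one_three hq]
    ring

theorem sum_shift_period {m : ℕ} (hq : (2 * m + 1) % 4 = 3) (x : ℕ) :
    ∑ n ∈ range (x + (2 * m + 1)), J (2 * m + 1) n = ∑ n ∈ range x, J (2 * m + 1) n := by
  rw [sum_range_add]
  have : ∀ y : ℕ, ∑ n ∈ range (2 * m + 1), J (2 * m + 1) (y + n) = 0 := by
    intro y
    induction y with
    | zero => simpa using sum_full_zero hq
    | succ y ih =>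
      have h1 := sum_range_succ (fun n => J (2 * m + 1) (y + n)) (2 * m + 1)
      have h2 := sum_range_succ' (fun n => J (2 * m + 1) (y + n)) (2 * m + 1)
      rw [h1] at h2
      simp only [add_zero] at h2
      rw [J_period, ih] at h2
      have h3 : ∑ n ∈ range (2 * m + 1), J (2 * m + 1) (y + 1 + n) =
          ∑ n ∈ range (2 * m + 1), J (2 * m + 1) (y + (n + 1)) := by
        apply sum_congr rfl
        intro n _
        congr 1
        ring
      rw [h3]
      linarith
  rw [this, add_zero]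

theorem sum_shift_periods {m : ℕ} (hq : (2 * m + 1) % 4 = 3) (x j : ℕ) :
    ∑ n ∈ range (x + j * (2 * m + 1)), J (2 * m + 1) n = ∑ n ∈ range x, J (2 * m + 1) n := by
  induction j with
  | zero => simp
  | succ j ih =>
    rw [Nat.succ_mul, ← add_assoc, sum_shift_period hq, ih]

/-- The restricted half sums. -/
def HS (q : ℕ) (P : Finset ℕ) (k : ℕ) : ℤ :=
  ∑ n ∈ (range (k * q)).filter (fun n => 2 * n < k * q ∧ ∀ l ∈ P, ¬ l ∣ n), J q n

theorem HS_empty {m : ℕ} (hq : (2 * m + 1) % 4 = 3) (j : ℕ) :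
    HS (2 * m + 1) ∅ (2 * j + 1) = ∑ n ∈ range (m + 1), J (2 * m + 1) n := by
  rw [HS, ← sum_shift_periods hq (m + 1) j]
  apply sum_congr _ (fun _ _ => rfl)
  ext n
  simp only [mem_filter, mem_range, notMem_empty, false_imp_iff, implies_true, and_true]
  have e1 : (2 * j + 1) * (2 * m + 1) = 2 * (j * (2 * m + 1)) + 2 * m + 1 := by ring
  rw [e1]
  generalize j * (2 * m + 1) = y
  omega

theorem HS_eq {m : ℕ} (hq : (2 * m + 1) % 4 = 3) (P : Finset ℕ) :
    (∀ l ∈ P, Nat.Prime l) → ∀ k : ℕ, k % 2 = 1 → (∏ l ∈ P, l) ∣ k →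
    HS (2 * m + 1) P k = (∑ n ∈ range (m + 1), J (2 * m + 1) n) *
      ∏ l ∈ P, (1 - J (2 * m + 1) l) := by
  induction P using Finset.induction_on with
  | empty =>
    intro _ k hk _
    obtain ⟨j, rfl⟩ : ∃ j, k = 2 * j + 1 := ⟨k / 2, by omega⟩
    rw [HS_empty hq, prod_empty, mul_one]
  | insert l P hl ih =>
    intro hP k hk hdvd
    rw [prod_insert hl] at hdvd ⊢
    have hlp : Nat.Prime l := hP l (mem_insert_self _ _)
    have hP' : ∀ l ∈ P, Nat.Prime l := fun x hx => hP x (mem_insert_of_mem hx)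
    obtain ⟨k', rfl⟩ : l ∣ k := (Dvd.intro _ rfl).trans hdvd
    have hk' : k' % 2 = 1 := by
      rcases Nat.mod_two_eq_zero_or_one k' with h | h
      · rw [Nat.mul_mod, h] at hk; simp at hk
      · exact h
    have hd' : (∏ l ∈ P, l) ∣ k' := (Nat.mul_dvd_mul_iff_left hlp.pos).1 hdvd
    have hd : (∏ l ∈ P, l) ∣ l * k' := hd'.mul_left l
    have i1 := ih hP' (l * k') hk hd
    have i2 := ih hP' k' hk' hd'
    have key : HS (2 * m + 1) P (l * k') = HS (2 * m + 1) (insert l P) (l * k') +
        J (2 * m + 1) l * HS (2 * m + 1) P k' := by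
      rw [HS, ← sum_filter_add_sum_filter_not _ (fun n => ¬ l ∣ n)]
      congr 1
      · rw [HS]
        apply sum_congr _ (fun _ _ => rfl)
        ext n
        simp only [mem_filter, mem_range, mem_insert, forall_eq_or_imp]
        tauto
      · rw [HS, mul_sum]
        apply sum_nbij' (fun n => n / l) (fun n => l * n)
        · intro n hn
          simp only [mem_filter, mem_range, not_not] at hn ⊢
          obtain ⟨⟨h1, h2, h3⟩, n', rfl⟩ := hn
          rw [Nat.mul_div_cancel_left _ hlp.pos]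
          rw [mul_assoc, Nat.mul_lt_mul_left hlp.pos] at h1
          rw [mul_assoc, ← mul_assoc 2 l, mul_comm 2 l, mul_assoc, Nat.mul_lt_mul_left hlp.pos] at h2
          exact ⟨h1, h2, fun x hx hxn => h3 x hx (hxn.mul_left l)⟩
        · intro n hn
          simp only [mem_filter, mem_range, not_not] at hn ⊢
          obtain ⟨h1, h2, h3⟩ := hn
          refine ⟨⟨?_, ?_, ?_⟩, Dvd.intro _ rfl⟩
          · rw [mul_assoc]; exact Nat.mul_lt_mul_of_pos_left h1 hlp.pos
          · rw [mul_assoc, ← mul_assoc 2 l, mul_comm 2 l, mul_assoc]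
            exact Nat.mul_lt_mul_of_pos_left h2 hlp.pos
          · intro x hx hxn
            have hxp := hP' x hx
            rcases (hxp.dvd_mul).1 hxn with h | h
            · have : x = l := (Nat.prime_dvd_prime_iff_eq hxp hlp).1 h
              subst this
              exact hl hx
            · exact h3 x hx h
        · intro n hn
          simp only [mem_filter, not_not] at hn
          exact Nat.mul_div_cancel' hn.2
        · intro n _
          exact Nat.mul_div_cancel_left _ hlp.pos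
        · intro n hn
          simp only [mem_filter, not_not] at hn
          rw [← J_mul, Nat.mul_div_cancel' hn.2]
    rw [i1, i2] at key
    linear_combination -key

end Pool.Agent.X11.Rot
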