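import Pool.Agent.X11.RotE
import Pool.Agent.H375R3.RZ5_PO
import Pool.Agent.Y41.XT.L1
import Pool.Agent.Y812.XF.KdCore

/-! `L(1, χ) ≥ 0` and the sign of `∑ χ(a) a` for the Jacobi symbol. -/

namespace Pool.Agent.X11.Rot

open Finset Filter Topology
open Pool.Agent.Y812.XF (jc jc_nat jc_val jc_prim)

theorem jc_quad (q : ℕ) [NeZero q] : (jc q).IsQuadratic := by
  intro a
  rw [jc_val]
  rcases jacobiSym.trichotomy (a.val : ℤ) q with h | h | h <;> rw [h] <;> simp

theorem jc_ne_one {q : ℕ} [NeZero q] (hq : q % 4 = 3) : jc q ≠ 1 := by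
  intro h
  have h1 := jc_nat q (q - 1)
  have h2 : IsUnit (((q - 1 : ℕ)) : ZMod q) := by
    rw [ZMod.isUnit_iff_coprime]
    rw [Nat.coprime_self_sub_left (by omega)]
    exact Nat.coprime_one_left q
  rw [h, MulChar.one_apply h2] at h1
  have h3 : jacobiSym ((q - 1 : ℕ) : ℤ) q = -1 := by
    have := J_sub (p := q) (n := 1) (by omega)
    rw [J_neg_one_three hq] at this
    simpa [J] using this
  rw [h3] at h1
  norm_num at h1

theorem LSeries_re_nonneg (q : ℕ) [NeZero q] {x : ℝ} (hx : 1 < x) :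
    0 ≤ (LSeries (fun n => jc q n) (x : ℂ)).re := by
  have h := DirichletCharacter.LSeries_eulerProduct_hasProd (jc q) (s := (x : ℂ)) (by simpa using hx)
  have hclosed : IsClosed {z : ℂ | 0 ≤ z.re} := isClosed_le continuous_const Complex.continuous_re
  have hmem : ∀ s : Finset Nat.Primes,
      (∏ p ∈ s, (1 - jc q ((p : ℕ) : ZMod q) * ((p : ℕ) : ℂ) ^ (-(x : ℂ)))⁻¹) ∈ {z : ℂ | 0 ≤ z.re} := by
    intro s
    have e : ∏ p ∈ s, (1 - jc q ((p : ℕ) : ZMod q) * ((p : ℕ) : ℂ) ^ (-(x : ℂ)))⁻¹ =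
        ((∏ p ∈ s, (1 - (jacobiSym ((p : ℕ) : ℤ) q : ℝ) * ((p : ℕ) : ℝ) ^ (-x))⁻¹ : ℝ) : ℂ) := by
      rw [Complex.ofReal_prod]
      apply prod_congr rfl
      intro p _
      rw [jc_nat]
      push_cast
      rw [Complex.ofReal_cpow (by positivity)]
      push_cast
      rfl
    rw [e]
    simp only [Set.mem_ofPred_eq, Complex.ofReal_re]
    apply prod_nonneg
    intro p _
    apply inv_nonneg.2
    have hp2 : (2 : ℝ) ≤ ((p : ℕ) : ℝ) := by exact_mod_cast p.2.two_le
    have h1 : ((p : ℕ) : ℝ) ^ (-x) ≤ 1 := by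
      apply Real.rpow_le_one_of_one_le_of_nonpos (by linarith) (by linarith)
    have h0 : 0 ≤ ((p : ℕ) : ℝ) ^ (-x) := by positivity
    rcases jacobiSym.trichotomy ((p : ℕ) : ℤ) q with h | h | h <;> rw [h] <;> push_cast <;> linarith
  exact hclosed.mem_of_tendsto h (Eventually.of_forall hmem)

theorem L_one_re_nonneg {q : ℕ} [NeZero q] (hq : q % 4 = 3) :
    0 ≤ (DirichletCharacter.LFunction (jc q) 1).re := by
  have hdiff := DirichletCharacter.differentiable_LFunction (jc_ne_one hq)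
  have hcont : Continuous (fun x : ℝ => (DirichletCharacter.LFunction (jc q) (x : ℂ)).re) :=
    Complex.continuous_re.comp (hdiff.continuous.comp Complex.continuous_ofReal)
  have ht : Tendsto (fun x : ℝ => (DirichletCharacter.LFunction (jc q) (x : ℂ)).re) (𝓝[>] 1)
      (𝓝 (DirichletCharacter.LFunction (jc q) ((1 : ℝ) : ℂ)).re) :=
    (hcont.tendsto 1).mono_left nhdsWithin_le_nhds
  rw [Complex.ofReal_one] at ht
  refine ge_of_tendsto ht ?_
  filter_upwards [self_mem_nhdsWithin] with x hx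
  rw [DirichletCharacter.LFunction_eq_LSeries _ (by simpa using hx)]
  exact LSeries_re_nonneg q hx

theorem sum_zmod_val {q : ℕ} [NeZero q] (f : ℕ → ℂ) :
    ∑ a : ZMod q, f a.val = ∑ b ∈ range q, f b := by
  refine sum_nbij' (s := (univ : Finset (ZMod q))) (t := range q) (fun a : ZMod q => a.val)
    (fun b : ℕ => (b : ZMod q)) ?_ ?_ ?_ ?_ ?_
  · intro a _; exact mem_range.2 (ZMod.val_lt a)
  · intro b _; exact mem_univ _
  · intro a _; exact ZMod.natCast_zmod_val a
  · intro b hb; exact ZMod.val_cast_of_lt (mem_range.1 hb)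
  · intro a _; rfl

theorem gauss_val {q : ℕ} [NeZero q] (hq : q % 4 = 3) (hs : Squarefree q) :
    gaussSum (jc q) (ZMod.stdAddChar (N := q)) = Complex.I * (Real.sqrt q : ℂ) := by
  have h := Pool.Agent.H375R3.RZ5.gauss 1 q (Nat.odd_iff.2 (by omega)) hs
  unfold gaussSum
  have e : ∀ a : ZMod q, jc q a * (ZMod.stdAddChar a : ℂ) =
      (fun b : ℕ => ((jacobiSym (b : ℤ) q : ℤ) : ℂ) *
        Complex.exp (2 * Real.pi * Complex.I * (b : ℂ) / q)) a.val := by
    intro a
    rw [Pool.Agent.Y41.XT.std_val, jc_val]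
  rw [sum_congr rfl (fun a _ => e a), sum_zmod_val (fun b : ℕ => ((jacobiSym (b : ℤ) q : ℤ) : ℂ) *
        Complex.exp (2 * Real.pi * Complex.I * (b : ℂ) / q))]
  simp only [Pool.Agent.H306R2.RZ.js, Pool.Agent.H375R3.RZ5.eps, jacobiSym.one_left] at h
  rw [if_neg (by omega)] at h
  rw [mul_comm Complex.I]
  calc _ = _ := ?_
    _ = _ := h
    _ = _ := by push_cast; ring
  apply sum_congr rfl
  intro b _
  push_cast
  congr 2
  ring

theorem im_log_std {q : ℕ} [NeZero q] {u : ZMod q} (hu : u ≠ 0) :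
    (Complex.log (1 - ZMod.stdAddChar u)).im = Real.pi * ((u.val : ℝ) / q - 1 / 2) := by
  have hq0 : (0 : ℝ) < q := by exact_mod_cast Nat.pos_of_ne_zero (NeZero.ne q)
  have hv0 : 0 < u.val := Nat.pos_of_ne_zero (by rwa [Ne, ZMod.val_eq_zero])
  have hv : (0 : ℝ) < u.val := by exact_mod_cast hv0
  have hvq : (u.val : ℝ) < q := by exact_mod_cast ZMod.val_lt u
  have h1 : (u.val : ℝ) / q < 1 := by rw [div_lt_one hq0]; exact hvq
  have h0 : 0 < (u.val : ℝ) / q := by positivity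
  obtain ⟨t, ht⟩ : ∃ t : ℝ, t = (u.val : ℝ) / q := ⟨_, rfl⟩
  rw [← ht] at h0 h1 ⊢
  have hpi := Real.pi_pos
  have hsin : 0 < Real.sin (Real.pi * t) :=
    Real.sin_pos_of_pos_of_lt_pi (by positivity) (by nlinarith)
  have key : (1 : ℂ) - ZMod.stdAddChar u = ((2 * Real.sin (Real.pi * t) : ℝ) : ℂ) *
      (Complex.cos ((Real.pi * (t - 1 / 2) : ℝ) : ℂ) +
        Complex.sin ((Real.pi * (t - 1 / 2) : ℝ) : ℂ) * Complex.I) := by
    rw [Pool.Agent.Y41.XT.std_val]
    have e : (2 * Real.pi * Complex.I * (u.val : ℂ) / q : ℂ) =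
        ((2 * (Real.pi * t) : ℝ) : ℂ) * Complex.I := by
      rw [ht]; push_cast; ring
    rw [e, Complex.exp_mul_I, ← Complex.ofReal_cos, ← Complex.ofReal_sin, ← Complex.ofReal_cos,
      ← Complex.ofReal_sin, Real.cos_two_mul, Real.sin_two_mul]
    have e2 : Real.pi * (t - 1 / 2) = Real.pi * t - Real.pi / 2 := by ring
    rw [e2, Real.cos_sub_pi_div_two, Real.sin_sub_pi_div_two]
    have e3 := Real.sin_sq_add_cos_sq (Real.pi * t)
    have e4 : ((Real.sin (Real.pi * t) : ℝ) : ℂ) ^ 2 + ((Real.cos (Real.pi * t) : ℝ) : ℂ) ^ 2 = 1 := by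
      exact_mod_cast e3
    generalize Real.sin (Real.pi * t) = s at *
    generalize Real.cos (Real.pi * t) = c at *
    push_cast
    linear_combination (-2 : ℂ) * e4
  rw [Complex.log_im, key, Complex.arg_mul_cos_add_sin_mul_I (by positivity)]
  constructor <;> nlinarith

/-- The sum `∑ χ(a) a` is not positive. -/
theorem T_nonpos {m : ℕ} (hq : (2 * m + 1) % 4 = 3) (hs : Squarefree (2 * m + 1)) :
    ∑ n ∈ Ioo 0 (2 * m + 1), J (2 * m + 1) n * n ≤ 0 := by
  obtain ⟨q, hqdef⟩ : ∃ q, q = 2 * m + 1 := ⟨_, rfl⟩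
  have hNZ : NeZero q := ⟨by omega⟩
  rw [← hqdef] at hq hs ⊢
  have hq0 : (0 : ℝ) < q := by exact_mod_cast Nat.pos_of_ne_zero (NeZero.ne q)
  have hodd : Odd q := Nat.odd_iff.2 (by omega)
  have h1 := Pool.Agent.Y41.XT.limit (jc_prim hodd hs) (jc_ne_one hq)
  rw [(jc_quad q).inv, gauss_val hq hs] at h1
  have h2 := congrArg Complex.im h1
  have h3 : (DirichletCharacter.LFunction (jc q) 1 * (Complex.I * (Real.sqrt q : ℂ))).im =
      Real.sqrt q * (DirichletCharacter.LFunction (jc q) 1).re := by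
    simp
    ring
  have h4 : (-∑ u : ZMod q, jc q u * Complex.log (1 - ZMod.stdAddChar u)).im =
      -∑ u : ZMod q, ((J q u.val : ℤ) : ℝ) * (Real.pi * ((u.val : ℝ) / q - 1 / 2)) := by
    rw [Complex.neg_im, Complex.im_sum]
    congr 1
    apply sum_congr rfl
    intro u _
    by_cases hu : u = 0
    · subst hu
      have : J q 0 = 0 := by
        rw [J]; push_cast
        exact jacobiSym.zero_left (by omega)
      rw [jc_val, ZMod.val_zero, this]
      have h0 : jacobiSym ((0 : ℕ) : ℤ) q = 0 := this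
      rw [h0]
      simp
    · rw [jc_val, ← Complex.ofReal_intCast, Complex.im_ofReal_mul, im_log_std hu]
      rfl
  rw [h3, h4] at h2
  have h5 : ∑ u : ZMod q, ((J q u.val : ℤ) : ℝ) * (Real.pi * ((u.val : ℝ) / q - 1 / 2)) =
      ∑ b ∈ range q, ((J q b : ℤ) : ℝ) * (Real.pi * ((b : ℝ) / q - 1 / 2)) := by
    have := sum_zmod_val (q := q) (fun b : ℕ => ((((J q b : ℤ) : ℝ) *
      (Real.pi * ((b : ℝ) / q - 1 / 2)) : ℝ) : ℂ))
    exact_mod_cast this
  have h6 : ∑ b ∈ range q, ((J q b : ℤ) : ℝ) * (Real.pi * ((b : ℝ) / q - 1 / 2)) =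
      Real.pi / q * ((∑ b ∈ range q, J q b * b : ℤ) : ℝ) -
        Real.pi / 2 * ((∑ b ∈ range q, J q b : ℤ) : ℝ) := by
    push_cast
    rw [mul_sum, mul_sum, ← sum_sub_distrib]
    apply sum_congr rfl
    intro b _
    ring
  have h7 : ∑ b ∈ range q, J q b = 0 := by
    rw [hqdef]
    exact sum_full_zero (by omega)
  have h8 : ∑ b ∈ range q, J q b * b = ∑ n ∈ Ioo 0 q, J q n * n := by
    have : range q = insert 0 (Ioo 0 q) := by
      ext n; simp only [mem_range, mem_insert, mem_Ioo]; omega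
    rw [this, sum_insert (by simp)]
    simp
  rw [h5, h6, h7, h8] at h2
  have h9 := L_one_re_nonneg hq
  have h10 : 0 ≤ Real.sqrt q * (DirichletCharacter.LFunction (jc q) 1).re :=
    mul_nonneg (Real.sqrt_nonneg _) h9
  rw [h2] at h10
  have h11 : 0 < Real.pi / q := by positivity
  have h12 : ((∑ n ∈ Ioo 0 q, J q n * n : ℤ) : ℝ) ≤ 0 := by
    by_contra hcon
    push Not at hcon
    have := mul_pos h11 hcon
    push_cast at h10 this
    linarith
  exact_mod_cast h12

/-- The half sum is nonnegative for squarefree moduli. -/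
theorem half_nonneg_squarefree {m : ℕ} (hq : (2 * m + 1) % 4 = 3) (hs : Squarefree (2 * m + 1)) :
    0 ≤ ∑ n ∈ Icc 1 m, J (2 * m + 1) n := by
  have h1 := half_sum_identity hq
  have h2 := T_nonpos hq hs
  have h3 : J (2 * m + 1) 2 - 2 ≤ 0 := by
    rcases J_cases (2 * m + 1) 2
      (Nat.coprime_comm.1 (Nat.coprime_two_left.2 (Nat.odd_iff.2 (by omega)))) with
      h | h <;> rw [h] <;> norm_num
  have h4 : 0 ≤ (2 * (m : ℤ) + 1) * ∑ n ∈ Icc 1 m, J (2 * m + 1) n := by
    rw [← h1]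
    exact mul_nonneg_of_nonpos_of_nonpos h3 h2
  by_contra hcon
  push Not at hcon
  have : (2 * (m : ℤ) + 1) * ∑ n ∈ Icc 1 m, J (2 * m + 1) n < 0 :=
    mul_neg_of_pos_of_neg (by positivity) hcon
  linarith

theorem range_eq_Icc (m : ℕ) {q : ℕ} (hq : 1 < q) :
    ∑ n ∈ range (m + 1), J q n = ∑ n ∈ Icc 1 m, J q n := by
  have : range (m + 1) = insert 0 (Icc 1 m) := by
    ext n; simp only [mem_range, mem_insert, mem_Icc]; omega
  rw [this, sum_insert (by simp), J]
  push_cast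
  rw [jacobiSym.zero_left hq, zero_add]

/-- The half sum is nonnegative for all moduli `≡ 3 (mod 4)`. -/
theorem half_nonneg {m : ℕ} (hp : (2 * m + 1) % 4 = 3) :
    0 ≤ ∑ n ∈ Icc 1 m, J (2 * m + 1) n := by
  obtain ⟨q, s, hqs, hsf⟩ := Nat.sq_mul_squarefree (2 * m + 1)
  have hs0 : s ≠ 0 := by
    rintro rfl
    simp at hqs
  have hq0 : q ≠ 0 := by
    rintro rfl
    simp at hqs
  have hs2 : s % 2 = 1 := by
    rcases Nat.mod_two_eq_zero_or_one s with h | h
    · have : (s ^ 2 * q) % 2 = 0 := by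
        rw [Nat.mul_mod, Nat.pow_mod, h]; simp
      omega
    · exact h
  have hss : (s ^ 2) % 4 = 1 := by
    have : s % 4 = 1 ∨ s % 4 = 3 := by omega
    rcases this with h | h <;> rw [Nat.pow_mod, h]
  have hq4 : q % 4 = 3 := by
    have h1 : (s ^ 2 * q) % 4 = 3 := by rw [hqs]; exact hp
    rw [Nat.mul_mod, hss] at h1
    omega
  obtain ⟨r, rfl⟩ : ∃ r, q = 2 * r + 1 := ⟨q / 2, by omega⟩
  have hNZ1 : NeZero s := ⟨hs0⟩
  have hNZ2 : NeZero (2 * r + 1) := ⟨hq0⟩
  have hNZ3 : NeZero (s ^ 2) := ⟨pow_ne_zero 2 hs0⟩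
  have key : ∑ n ∈ Icc 1 m, J (2 * m + 1) n = HS (2 * r + 1) s.primeFactors (s ^ 2) := by
    rw [HS, hqs]
    rw [show ∑ n ∈ Icc 1 m, J (2 * m + 1) n =
      ∑ n ∈ (range (2 * m + 1)).filter (fun n => 2 * n < 2 * m + 1), J (2 * m + 1) n by
        rw [← range_eq_Icc m (by omega)]
        apply sum_congr _ (fun _ _ => rfl)
        ext n
        simp only [mem_range, mem_filter]
        omega]
    rw [← filter_filter, sum_filter (fun n => ∀ l ∈ s.primeFactors, ¬ l ∣ n)]
    apply sum_congr rfl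
    intro n _
    have e : J (2 * m + 1) n = J (2 * r + 1) n * J s n ^ 2 := by
      rw [J, J, J, ← hqs, jacobiSym.mul_right, jacobiSym.pow_right]
      ring
    rw [e]
    by_cases hc : Nat.Coprime s n
    · rw [if_pos]
      · rcases J_cases s n hc with h | h <;> rw [h] <;> ring
      · intro l hl hln
        have hlp := Nat.prime_of_mem_primeFactors hl
        exact hlp.one_lt.ne' (Nat.eq_one_of_dvd_coprimes hc (Nat.dvd_of_mem_primeFactors hl) hln)
    · rw [if_neg, J_zero (Nat.pos_of_ne_zero hs0) hc]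
      · ring
      · intro hall
        apply hc
        rw [Nat.coprime_iff_gcd_eq_one] at *
        by_contra hg
        obtain ⟨l, hl, hld⟩ := Nat.exists_prime_and_dvd hg
        exact hall l (Nat.mem_primeFactors.2 ⟨hl, hld.trans (Nat.gcd_dvd_left _ _), hs0⟩)
          (hld.trans (Nat.gcd_dvd_right _ _))
  rw [key, HS_eq (by omega) _ (fun l hl => Nat.prime_of_mem_primeFactors hl) _
    (by omega) ((Nat.prod_primeFactors_dvd s).trans (Dvd.intro_left s (by ring)))]
  rw [range_eq_Icc r (by omega)]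
  apply mul_nonneg (half_nonneg_squarefree hq4 hsf)
  apply prod_nonneg
  intro l _
  rw [J]
  rcases jacobiSym.trichotomy (l : ℤ) (2 * r + 1) with h | h | h <;> rw [h] <;> norm_num

end Pool.Agent.X11.Rot
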