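import Pool.Agent.X11.RotCF

/-! The counts of Rotkiewicz and their exact evaluation. -/

namespace Pool.Agent.X11.Rot

open Finset

/-- `M_p`: the `0 < n < p` with `(n / p) = (-1) ^ λ(n)`. -/
def MSet (p : ℕ) : Set ℕ :=
  {n | 0 < n ∧ n < p ∧ ∃ l, IsCF p n l ∧ jacobiSym (n : ℤ) p = (-1) ^ l.length}

/-- `M̄_p`: the `0 < n < p` with `(n / p) = (-1) ^ (λ(n) + 1)`. -/
def MbarSet (p : ℕ) : Set ℕ :=
  {n | 0 < n ∧ n < p ∧ ∃ l, IsCF p n l ∧ jacobiSym (n : ℤ) p = (-1) ^ (l.length + 1)}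

/-- `N(p)`. -/
noncomputable def N (p : ℕ) : ℕ := (MSet p).ncard

/-- `N̄(p)`. -/
noncomputable def Nbar (p : ℕ) : ℕ := (MbarSet p).ncard

/-- Jacobi symbol. -/
def J (p n : ℕ) : ℤ := jacobiSym (n : ℤ) p

/-- Parity sign of the length. -/
def L (p n : ℕ) : ℤ := (-1) ^ (cf p n).length

theorem L_cases (p n : ℕ) : L p n = 1 ∨ L p n = -1 := neg_one_pow_eq_or ℤ _

theorem MSet_eq (p : ℕ) : MSet p = ((Ioo 0 p).filter (fun n => J p n = L p n) : Finset ℕ) := by
  ext n
  simp only [MSet, coe_filter, mem_Ioo, Set.mem_ofPred_eq]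
  constructor
  · rintro ⟨h1, h2, l, hl, h3⟩
    rw [isCF_iff h1 h2] at hl
    subst hl
    exact ⟨⟨h1, h2⟩, h3⟩
  · rintro ⟨⟨h1, h2⟩, h3⟩
    exact ⟨h1, h2, _, isCF_cf h1 h2, h3⟩

theorem MbarSet_eq (p : ℕ) :
    MbarSet p = ((Ioo 0 p).filter (fun n => J p n = -L p n) : Finset ℕ) := by
  ext n
  simp only [MbarSet, coe_filter, mem_Ioo, Set.mem_ofPred_eq]
  constructor
  · rintro ⟨h1, h2, l, hl, h3⟩
    rw [isCF_iff h1 h2] at hl
    subst hl
    refine ⟨⟨h1, h2⟩, ?_⟩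
    rw [J, L, h3, pow_succ]; ring
  · rintro ⟨⟨h1, h2⟩, h3⟩
    refine ⟨h1, h2, _, isCF_cf h1 h2, ?_⟩
    rw [pow_succ]
    change J p n = _
    rw [h3, L]; ring

theorem N_eq (p : ℕ) : N p = #((Ioo 0 p).filter (fun n => J p n = L p n)) := by
  rw [N, MSet_eq, Set.ncard_coe_finset]

theorem Nbar_eq (p : ℕ) : Nbar p = #((Ioo 0 p).filter (fun n => J p n = -L p n)) := by
  rw [Nbar, MbarSet_eq, Set.ncard_coe_finset]

theorem J_cases (p n : ℕ) (h : Nat.Coprime p n) : J p n = 1 ∨ J p n = -1 := by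
  apply jacobiSym.eq_one_or_neg_one
  rw [Int.gcd_natCast_natCast]
  exact h.symm

theorem J_zero {p n : ℕ} (hp : 0 < p) (h : ¬ Nat.Coprime p n) : J p n = 0 := by
  have : NeZero p := ⟨hp.ne'⟩
  rw [J, jacobiSym.eq_zero_iff_not_coprime, Int.gcd_natCast_natCast]
  intro h1
  exact h (Nat.Coprime.symm h1)

/-- The difference as a character sum. -/
theorem N_sub_Nbar (p : ℕ) (hp : 0 < p) :
    (N p : ℤ) - Nbar p = ∑ n ∈ Ioo 0 p, J p n * L p n := by
  rw [N_eq, Nbar_eq, card_filter, card_filter]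
  push_cast
  rw [← sum_sub_distrib]
  apply sum_congr rfl
  intro n _
  by_cases h : Nat.Coprime p n
  · rcases J_cases p n h with h1 | h1 <;> rcases L_cases p n with h2 | h2 <;> rw [h1, h2] <;> norm_num
  · rw [J_zero hp h]
    rcases L_cases p n with h2 | h2 <;> rw [h2] <;> norm_num

theorem N_add_Nbar (p : ℕ) (hp : 1 < p) : N p + Nbar p = Nat.totient p := by
  rw [N_eq, Nbar_eq, card_filter, card_filter, ← sum_add_distrib]
  have h1 : Nat.totient p = ∑ n ∈ Ioo 0 p, if Nat.Coprime p n then 1 else 0 := by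
    rw [Nat.totient, card_filter]
    symm
    apply sum_subset
    · intro n hn
      simp only [mem_Ioo, mem_range] at hn ⊢
      exact hn.2
    · intro n hn hn2
      simp only [mem_Ioo, mem_range, not_and_or, not_lt] at hn hn2
      have : n = 0 := by omega
      subst this
      rw [if_neg]
      simp
      omega
  rw [h1]
  apply sum_congr rfl
  intro n _
  by_cases h : Nat.Coprime p n
  · rw [if_pos h]
    rcases J_cases p n h with h1 | h1 <;> rcases L_cases p n with h2 | h2 <;> rw [h1, h2] <;> norm_num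
  · rw [if_neg h, J_zero (by omega) h]
    rcases L_cases p n with h2 | h2 <;> rw [h2] <;> norm_num

theorem sum_split (m : ℕ) (f : ℕ → ℤ) :
    ∑ n ∈ Ioo 0 (2 * m + 1), f n = ∑ n ∈ Icc 1 m, (f n + f (2 * m + 1 - n)) := by
  rw [sum_add_distrib]
  have h1 : Ioo 0 (2 * m + 1) = Icc 1 m ∪ Icc (m + 1) (2 * m) := by
    ext n; simp only [mem_Ioo, mem_union, mem_Icc]; omega
  have h2 : Disjoint (Icc 1 m) (Icc (m + 1) (2 * m)) := by
    rw [disjoint_left]
    intro n; simp only [mem_Icc]; omega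
  rw [h1, sum_union h2]
  congr 1
  apply sum_nbij' (fun n => 2 * m + 1 - n) (fun n => 2 * m + 1 - n)
  · intro n; simp only [mem_Icc]; omega
  · intro n; simp only [mem_Icc]; omega
  · intro n; simp only [mem_Icc]; omega
  · intro n; simp only [mem_Icc]; omega
  · intro n hn
    simp only [mem_Icc] at hn
    congr 1
    omega

theorem L_sub {p n : ℕ} (hn : 0 < n) (hnp : 2 * n < p) : L p (p - n) = -L p n := by
  rw [L, L, cf_sub hn hnp, pow_succ]; ring

theorem J_neg_one_one {p : ℕ} (hp : p % 4 = 1) : jacobiSym (-1) p = 1 := by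
  rw [jacobiSym.at_neg_one (Nat.odd_iff.2 (by omega)), ZMod.χ₄_nat_one_mod_four hp]

theorem J_neg_one_three {p : ℕ} (hp : p % 4 = 3) : jacobiSym (-1) p = -1 := by
  rw [jacobiSym.at_neg_one (Nat.odd_iff.2 (by omega)), ZMod.χ₄_nat_three_mod_four hp]

theorem J_sub {p n : ℕ} (hnp : n ≤ p) : J p (p - n) = jacobiSym (-1) p * J p n := by
  rw [J, J, ← jacobiSym.mul_left]
  apply jacobiSym.mod_left'
  push_cast [hnp]
  rw [show (p : ℤ) - n = -1 * n + p by ring, Int.add_emod_right]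

theorem eq_of_one_mod_four {p : ℕ} (hp : p % 4 = 1) : N p = Nbar p := by
  have h := N_sub_Nbar p (by omega)
  obtain ⟨m, rfl⟩ : ∃ m, p = 2 * m + 1 := ⟨p / 2, by omega⟩
  rw [sum_split, sum_eq_zero] at h
  · omega
  · intro n hn
    rw [mem_Icc] at hn
    rw [L_sub (by omega) (by omega), J_sub (by omega), J_neg_one_one hp]
    ring

/-- The involution kills the terms with even length. -/
theorem sum_even_zero {m : ℕ} (hp : (2 * m + 1) % 4 = 3) :
    ∑ n ∈ Icc 1 m, J (2 * m + 1) n * (L (2 * m + 1) n + 1) = 0 := by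
  have hp2 : (2 * m + 1) % 2 = 1 := by omega
  have hred : ∑ n ∈ Icc 1 m, J (2 * m + 1) n * (L (2 * m + 1) n + 1) =
      ∑ n ∈ (Icc 1 m).filter (fun n => Nat.Coprime (2 * m + 1) n),
        J (2 * m + 1) n * (L (2 * m + 1) n + 1) := by
    symm
    apply sum_filter_of_ne
    intro n _ h
    by_contra hcop
    exact h (by rw [J_zero (by omega) hcop, zero_mul])
  rw [hred]
  have key : ∀ n ∈ (Icc 1 m).filter (fun n => Nat.Coprime (2 * m + 1) n),
      J (2 * m + 1) n * (L (2 * m + 1) n + 1) +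
      J (2 * m + 1) (dual (2 * m + 1) n) * (L (2 * m + 1) (dual (2 * m + 1) n) + 1) = 0 := by
    intro n hn
    rw [mem_filter, mem_Icc] at hn
    obtain ⟨h1, h2, h3, h4, h5, z, hz⟩ := dual_spec hp2 (by omega : 0 < n) (by omega) hn.2
    have hL : L (2 * m + 1) (dual (2 * m + 1) n) = L (2 * m + 1) n := by
      rw [L, L, h4, List.length_reverse]
    rw [hL]
    have hJ : J (2 * m + 1) (dual (2 * m + 1) n) * J (2 * m + 1) n = -(L (2 * m + 1) n) := by
      rw [J, J, ← jacobiSym.mul_left]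
      have e : jacobiSym (((dual (2 * m + 1) n : ℕ) : ℤ) * (n : ℤ)) (2 * m + 1) =
          jacobiSym (-(-1) ^ (cf (2 * m + 1) n).length) (2 * m + 1) := by
        apply jacobiSym.mod_left'
        have : ((dual (2 * m + 1) n : ℕ) : ℤ) * (n : ℤ) =
          -(-1) ^ (cf (2 * m + 1) n).length + ((2 * m + 1 : ℕ) : ℤ) * z := by
          rw [← hz]; ring
        rw [this, Int.add_mul_emod_self_left]
      rw [e, L]
      rcases neg_one_pow_eq_or ℤ (cf (2 * m + 1) n).length with h | h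
      · rw [h, J_neg_one_three hp]
      · rw [h, neg_neg, jacobiSym.one_left]
    rcases L_cases (2 * m + 1) n with h | h
    · rw [h] at hJ ⊢
      rcases J_cases _ _ hn.2 with h' | h' <;> rcases J_cases _ _ h3 with h'' | h'' <;>
        rw [h', h''] at hJ ⊢ <;> omega
    · rw [h]; ring
  apply sum_involution (fun n _ => dual (2 * m + 1) n) key
  · intro n hn hne heq
    have := key n hn
    rw [heq] at this
    omega
  · intro n hn
    rw [mem_filter, mem_Icc] at hn ⊢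
    obtain ⟨h1, h2, h3, _⟩ := dual_spec hp2 (by omega : 0 < n) (by omega) hn.2
    exact ⟨⟨by omega, by omega⟩, h3⟩
  · intro n hn
    rw [mem_filter, mem_Icc] at hn
    obtain ⟨_, _, _, _, h5, _⟩ := dual_spec hp2 (by omega : 0 < n) (by omega) hn.2
    exact h5

/-- The exact formula `N̄(p) - N(p) = 2 ∑_{n < p/2} (n/p)` for `p ≡ 3 (mod 4)`. -/
theorem Nbar_sub_N {m : ℕ} (hp : (2 * m + 1) % 4 = 3) :
    (Nbar (2 * m + 1) : ℤ) - N (2 * m + 1) = 2 * ∑ n ∈ Icc 1 m, jacobiSym (n : ℤ) (2 * m + 1) := by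
  have h := N_sub_Nbar (2 * m + 1) (by omega)
  have h2 := sum_even_zero hp
  rw [sum_split] at h
  have h3 : ∑ n ∈ Icc 1 m, (J (2 * m + 1) n * L (2 * m + 1) n +
      J (2 * m + 1) (2 * m + 1 - n) * L (2 * m + 1) (2 * m + 1 - n)) =
      ∑ n ∈ Icc 1 m, (2 * (J (2 * m + 1) n * (L (2 * m + 1) n + 1)) - 2 * J (2 * m + 1) n) := by
    apply sum_congr rfl
    intro n hn
    rw [mem_Icc] at hn
    rw [L_sub (by omega) (by omega), J_sub (by omega), J_neg_one_three hp]
    ring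
  rw [h3, sum_sub_distrib, ← mul_sum, ← mul_sum, h2] at h
  have h4 : ∑ n ∈ Icc 1 m, J (2 * m + 1) n = ∑ n ∈ Icc 1 m, jacobiSym (n : ℤ) (2 * m + 1) := rfl
  rw [h4] at h
  linarith

end Pool.Agent.X11.Rot
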