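import Pool.Agent.X11.BinFin

/-!
# Second binary digit of `c_3(n)`
-/

namespace Pool.Agent.X11.ColPart

open PowerSeries

noncomputable section

/-- odd section: `V (∑ a_n x^n) = ∑ a_{2n+1} x^n` -/
def V (f : ℤ⟦X⟧) : ℤ⟦X⟧ := mk (fun n => coeff (2 * n + 1) f)

@[simp] lemma coeff_V (n : ℕ) (f : ℤ⟦X⟧) : coeff n (V f) = coeff (2 * n + 1) f := by simp [V]

lemma V_add (f g : ℤ⟦X⟧) : V (f + g) = V f + V g := by ext n; simp
lemma V_C_mul (a : ℤ) (f : ℤ⟦X⟧) : V (C a * f) = C a * V f := by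
  ext n; rw [coeff_V, coeff_C_mul, coeff_C_mul, coeff_V]

lemma V_eq (f : ℤ⟦X⟧) : X * V f = U 2 (X * f) := by
  ext n
  rw [coeff_U]
  cases n with
  | zero => simp
  | succ n =>
    rw [coeff_succ_X_mul, coeff_V]
    have : 2 * (n + 1) = (2 * n + 1) + 1 := by ring
    rw [this, coeff_succ_X_mul]

lemma X_ne : (X : ℤ⟦X⟧) ≠ 0 := X_ne_zero

lemma V_mul_expand (f g : ℤ⟦X⟧) : V (f * expand 2 two_ne_zero g) = V f * g := by
  apply mul_left_cancel₀ X_ne
  rw [V_eq, ← mul_assoc, U_mul_expand, ← V_eq, mul_assoc]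

lemma V_expand (g : ℤ⟦X⟧) : V (expand 2 two_ne_zero g) = 0 := by
  ext n
  rw [coeff_V, coeff_expand, if_neg (by omega), map_zero]

/-- inverse of `A 2` -/
def ai : ℤ⟦X⟧ := invOfUnit (A 2) 1

lemma A_mul_ai : A 2 * ai = 1 := by
  apply mul_invOfUnit
  have := A_const
  rwa [coeff_zero_eq_constantCoeff_apply] at this

lemma ai_expand : expand 2 two_ne_zero ai = z * ai := by
  have h1 := congrArg (expand 2 two_ne_zero) A_mul_ai
  rw [map_mul, map_one] at h1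
  have h2 := A_mul_ai
  have h3 := A_two
  linear_combination (-expand 2 two_ne_zero ai) * h2 + expand 2 two_ne_zero ai * ai * h3
    + z * ai * h1

def TM : ℤ⟦X⟧ := ai * iv 1

lemma iv_two : (1 + X) * iv 2 = iv 1 := by
  have h2 := mul_iv (d := 2) two_ne_zero
  apply mul_left_cancel₀ one_sub_X_ne
  linear_combination h2 - iv_one_mul

lemma ai_eq : ai = (1 - X) * TM := by
  unfold TM; linear_combination (-ai) * iv_one_mul

lemma TM_expand : (1 - X) * expand 2 two_ne_zero TM = TM := by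
  have h1 : expand 2 two_ne_zero (iv 1) = iv 2 := by
    rw [expand_iv two_ne_zero one_ne_zero, mul_one]
  unfold TM
  rw [map_mul, ai_expand, h1]
  linear_combination ai * iv 2 * z_mul + ai * iv_two

lemma TM_coeff_zero : coeff 0 TM = 1 := by
  have h := A_mul_ai
  have h2 : coeff 0 (A 2 * ai) = 1 := by rw [h]; simp
  rw [coeff_zero_mul, A_const, one_mul] at h2
  unfold TM
  rw [coeff_zero_mul, h2, iv_one_coeff, one_mul]
where
  coeff_zero_mul (f g : ℤ⟦X⟧) : coeff 0 (f * g) = coeff 0 f * coeff 0 g := by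
    simp [coeff_zero_eq_constantCoeff_apply]

lemma TM_even (n : ℕ) : coeff (2 * n) TM = coeff n TM := by
  conv_lhs => rw [← TM_expand]
  rw [sub_mul, one_mul, map_sub, coeff_expand_mul]
  cases n with
  | zero => simp
  | succ n =>
    have : 2 * (n + 1) = (2 * n + 1) + 1 := by ring
    rw [this, coeff_succ_X_mul, coeff_expand, if_neg (by omega), sub_zero]

lemma TM_odd (n : ℕ) : coeff (2 * n + 1) TM = - coeff n TM := by
  conv_lhs => rw [← TM_expand]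
  rw [sub_mul, one_mul, map_sub, coeff_succ_X_mul, coeff_expand_mul, coeff_expand,
    if_neg (by omega), zero_sub]

lemma TM_pm (n : ℕ) : coeff n TM = 1 ∨ coeff n TM = -1 := by
  induction n using Nat.strong_induction_on with
  | _ n ih =>
    rcases Nat.even_or_odd' n with ⟨r, rfl | rfl⟩
    · rw [TM_even]
      by_cases hr : r = 0
      · subst hr; left; exact TM_coeff_zero
      · exact ih r (by omega)
    · rw [TM_odd]
      rcases ih r (by omega) with h | h <;> rw [h] <;> simp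

lemma ai_odd (n : ℕ) : coeff (2 * n + 1) ai = -2 * coeff n TM := by
  rw [ai_eq, sub_mul, one_mul, map_sub, coeff_succ_X_mul, TM_odd, TM_even]; ring

/-- `G = (A-1)/2` -/
lemma exists_G : ∃ G : ℤ⟦X⟧, A 2 = 1 + 2 * G := by
  have h : ∀ n, (2 : ℤ) ∣ coeff n (A 2 - 1) := by
    intro n
    have h1 : red (A 2 - 1) = 0 := by rw [map_sub, red_A, map_one, sub_self]
    have h2 := congrArg (coeff n) h1
    rw [coeff_map, map_zero] at h2
    have h3 : ((coeff n (A 2 - 1) : ℤ) : ZMod 2) = 0 := h2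
    exact (ZMod.intCast_zmod_eq_zero_iff_dvd _ _).mp h3 |> (by simpa using ·)
  refine ⟨mk (fun n => coeff n (A 2 - 1) / 2), ?_⟩
  have : (2 : ℤ⟦X⟧) = C (2 : ℤ) := by simp
  rw [this, eq_comm, ← eq_sub_iff_add_eq']
  ext n
  rw [coeff_C_mul, coeff_mk]
  exact Int.mul_ediv_cancel' (h n)

/-- `A² = 1 + 4 J` with `J = κ + J(x²) + 4 κ J(x²)` -/
lemma exists_J : ∃ J : ℤ⟦X⟧, A 2 ^ 2 = 1 + 4 * J ∧
    J = X * iv 1 ^ 2 + expand 2 two_ne_zero J
      + 4 * (X * iv 1 ^ 2) * expand 2 two_ne_zero J := by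
  obtain ⟨G, hG⟩ := exists_G
  have h4 : (4 : ℤ⟦X⟧) ≠ 0 := by
    intro h
    have := congrArg (coeff 0) h
    have e : (4 : ℤ⟦X⟧) = C (4 : ℤ) := by simp
    rw [e, coeff_C, map_zero] at this
    norm_num at this
  refine ⟨G + G ^ 2, by rw [hG]; ring, ?_⟩
  apply mul_left_cancel₀ h4
  have e1 : (1 : ℤ⟦X⟧) + 4 * (G + G ^ 2) = A 2 ^ 2 := by rw [hG]; ring
  have e2 : (1 : ℤ⟦X⟧) + 4 * expand 2 two_ne_zero (G + G ^ 2)
      = expand 2 two_ne_zero (A 2) ^ 2 := by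
    rw [← map_pow, ← e1]; simp only [map_add, map_mul, map_one, map_ofNat]
  have e3 : A 2 ^ 2 = z ^ 2 * expand 2 two_ne_zero (A 2) ^ 2 := by
    conv_lhs => rw [A_two]
    ring
  have e4 := z_sq_sub
  linear_combination e1 + e3 - z ^ 2 * e2 + (1 + 4 * expand 2 two_ne_zero (G + G ^ 2)) * e4

lemma sum_sq_aux (i : ℕ) : (3 : ℤ) * coeff (2 * i + 1) (X * iv 1 ^ 2)
    + 2 * coeff (2 * i + 1) ((X * iv 1 ^ 2) ^ 2)
    = 3 * (2 * i + 1) + 8 * ∑ j ∈ Finset.range (i + 1), (j : ℤ) ^ 2 := by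
  have h1 := kap_sq_coeff' (2 * i + 1)
  have h2 : (6 : ℤ) * ∑ j ∈ Finset.range (i + 1), (j : ℤ) ^ 2 = i * (i + 1) * (2 * i + 1) := by
    induction i with
    | zero => simp
    | succ i ih =>
      rw [Finset.sum_range_succ, mul_add, ih (kap_sq_coeff' _)]
      push_cast; ring
  rw [koebe_coeff]
  push_cast at h1 ⊢
  have : (3 : ℤ) * (3 * (2 * i + 1) + 2 * coeff (2 * i + 1) ((X * iv 1 ^ 2) ^ 2))
      = 3 * (3 * (2 * i + 1) + 8 * ∑ j ∈ Finset.range (i + 1), (j : ℤ) ^ 2) := by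
    linear_combination h1 - 4 * h2
  linarith
where
  kap_sq_coeff' (n : ℕ) : 6 * coeff n ((X * iv 1 ^ 2) ^ 2) = (n : ℤ) ^ 3 - n := by
    have hk : (1 - X) ^ 2 * (X * iv 1 ^ 2) = (X : ℤ⟦X⟧) := by
      linear_combination X * ((1 - X) * iv 1 + 1) * iv_one_mul
    have hrec : ∀ n, coeff (n + 2) ((X * iv 1 ^ 2) ^ 2) - 2 * coeff (n + 1) ((X * iv 1 ^ 2) ^ 2)
        + coeff n ((X * iv 1 ^ 2) ^ 2) = (n : ℤ) + 1 := by
      intro n
      have h1 : (1 - X) ^ 2 * (X * iv 1 ^ 2) ^ 2 = X * (X * iv 1 ^ 2) := by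
        linear_combination (X * iv 1 ^ 2) * hk
      have h2 := congrArg (coeff (n + 2)) h1
      have e : (1 - X : ℤ⟦X⟧) ^ 2 * (X * iv 1 ^ 2) ^ 2
        = (X * iv 1 ^ 2) ^ 2 - C (2 : ℤ) * (X * (X * iv 1 ^ 2) ^ 2)
          + X * (X * (X * iv 1 ^ 2) ^ 2) := by
        have : (C (2 : ℤ) : ℤ⟦X⟧) = 2 := by simp
        rw [this]; ring
      rw [e, map_add, map_sub, coeff_C_mul, coeff_succ_X_mul, coeff_succ_X_mul, coeff_succ_X_mul,
        coeff_succ_X_mul, koebe_coeff] at h2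
      rw [h2]; push_cast; ring
    induction n using Nat.strong_induction_on with
    | _ n ih =>
      match n with
      | 0 => simp [mul_pow]
      | 1 =>
        have e : (X * iv 1 ^ 2) ^ 2 = X * (X * iv 1 ^ 4) := by ring
        rw [e, coeff_succ_X_mul, coeff_zero_X_mul]; simp
      | (n + 2) =>
        have h1 := ih (n + 1) (by omega)
        have h0 := ih n (by omega)
        have h2 := hrec n
        push_cast at h1 h0 ⊢
        linear_combination 6 * h2 + 2 * h1 - h0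

lemma mu_coeff (i : ℕ) : coeff i ((1 + X) * iv 1 ^ 2) = 2 * (i : ℤ) + 1 := by
  have e : (1 + X) * iv 1 ^ 2 = iv 1 + C (2 : ℤ) * (X * iv 1 ^ 2) := by
    have : (C (2 : ℤ) : ℤ⟦X⟧) = 2 := by simp
    rw [this]
    linear_combination iv 1 * iv_one_mul
  rw [e, map_add, coeff_C_mul, koebe_coeff, iv_one_coeff]; ring

lemma ai_mu : ai * ((1 + X) * iv 1 ^ 2) = (1 + X) * expand 2 two_ne_zero TM := by
  have h := TM_expand
  apply mul_left_cancel₀ one_sub_X_ne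
  have : (1 - X) * ((1 + X) * expand 2 two_ne_zero TM) = (1 + X) * TM := by
    linear_combination (1 + X : ℤ⟦X⟧) * h
  rw [this]
  unfold TM
  linear_combination ai * (1 + X) * iv 1 * iv_one_mul

lemma ai_mu_coeff (i : ℕ) : coeff i (ai * ((1 + X) * iv 1 ^ 2)) = 1 ∨
    coeff i (ai * ((1 + X) * iv 1 ^ 2)) = -1 := by
  have key : ∃ j, coeff i (ai * ((1 + X) * iv 1 ^ 2)) = coeff j TM := by
    rw [ai_mu, add_mul, one_mul, map_add]
    rcases Nat.even_or_odd' i with ⟨r, rfl | rfl⟩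
    · refine ⟨r, ?_⟩
      rw [coeff_expand_mul]
      cases r with
      | zero => simp
      | succ r =>
        have : 2 * (r + 1) = (2 * r + 1) + 1 := by ring
        rw [this, coeff_succ_X_mul, coeff_expand, if_neg (by omega), add_zero]
    · refine ⟨r, ?_⟩
      rw [coeff_succ_X_mul, coeff_expand_mul, coeff_expand, if_neg (by omega), zero_add]
  obtain ⟨j, hj⟩ := key
  rw [hj]; exact TM_pm j

/-- odd `n` -/
lemma c3_odd (i : ℕ) : (16 : ℤ) ∣ S 2 3 (2 * i + 1) - 10 ∨ (16 : ℤ) ∣ S 2 3 (2 * i + 1) - 6 := by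
  obtain ⟨J, h1, h2⟩ := exists_J
  obtain ⟨G, hG⟩ := exists_G
  have h3 : A 2 ^ 3 = ai + C (8 : ℤ) * J + C (16 : ℤ) * (ai * J ^ 2 - G * ai * J) := by
    have e8 : (C (8 : ℤ) : ℤ⟦X⟧) = 8 := by simp
    have e16 : (C (16 : ℤ) : ℤ⟦X⟧) = 16 := by simp
    rw [e8, e16]
    -- A³ = ai * A⁴ = ai (1+4J)²,  ai = 1 - 2 G ai
    have e1 : A 2 ^ 3 = ai * (1 + 4 * J) ^ 2 := by
      rw [← h1]; linear_combination (-A 2 ^ 3) * A_mul_ai
    have e2 : ai = 1 - 2 * G * ai := by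
      have := A_mul_ai
      rw [hG] at this
      linear_combination this
    linear_combination e1 + 8 * J * e2
  have hJ : ∃ w : ℤ, coeff (2 * i + 1) J = 1 + 2 * w := by
    have e : J = X * iv 1 ^ 2 + expand 2 two_ne_zero J
      + C (4 : ℤ) * ((X * iv 1 ^ 2) * expand 2 two_ne_zero J) := by
      have : (C (4 : ℤ) : ℤ⟦X⟧) = 4 := by simp
      rw [this]; linear_combination h2
    have e2 := congrArg (coeff (2 * i + 1)) e
    rw [map_add, map_add, koebe_coeff, coeff_C_mul, coeff_expand, if_neg (by omega)] at e2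
    refine ⟨i + 2 * coeff (2 * i + 1) ((X * iv 1 ^ 2) * expand 2 two_ne_zero J), ?_⟩
    rw [e2]; push_cast; ring
  obtain ⟨w, hw⟩ := hJ
  rw [S_eq le_rfl, h3, map_add, map_add, coeff_C_mul, coeff_C_mul, hw, ai_odd]
  rcases TM_pm i with h | h <;> rw [h]
  · right
    exact ⟨w + coeff (2 * i + 1) (ai * J ^ 2 - G * ai * J), by ring⟩
  · left
    exact ⟨w + coeff (2 * i + 1) (ai * J ^ 2 - G * ai * J), by ring⟩

/-- twice an odd number -/
lemma c3_two_odd (i : ℕ) : (64 : ℤ) ∣ S 2 3 (2 * (2 * i + 1)) - 24 ∨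
    (64 : ℤ) ∣ S 2 3 (2 * (2 * i + 1)) - 40 := by
  obtain ⟨J, h1, h2⟩ := exists_J
  set J2 := expand 2 two_ne_zero J with hJ2
  set k := (X * iv 1 ^ 2 : ℤ⟦X⟧) with hk
  -- U_2 A³
  have e1 : U 2 (A 2 ^ 3) = (4 * z ^ 3 - 3 * z) * A 2 ^ 3 := by
    conv_lhs => rw [A_pow 3, U_mul_expand, U_z_pow]
    have : (Polynomial.Chebyshev.T ℤ ((3 : ℕ) : ℤ)) = 4 * Polynomial.X ^ 3 - 3 * Polynomial.X := by
      have h3 := Polynomial.Chebyshev.T_add_two ℤ 1
      have h4 : ((3 : ℕ) : ℤ) = 1 + 2 := by norm_num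
      rw [h4, h3]
      norm_num [Polynomial.Chebyshev.T_two]
      ring
    rw [this]
    simp only [map_sub, map_mul, map_pow, Polynomial.aeval_X, map_ofNat]
  have e2 : (4 * z ^ 3 - 3 * z) * A 2 ^ 3
      = (C (8 : ℤ) * (3 * k + 2 * k ^ 2) + C (64 : ℤ) * (k * J2 + 2 * k ^ 2 * J2 + 2 * k * J2 ^ 2
        + 4 * k ^ 2 * J2 ^ 2 + 2 * k * J + 4 * k * J ^ 2) + expand 2 two_ne_zero (1 + 8 * J +
        16 * J ^ 2)) * expand 2 two_ne_zero ai := by
    have e8 : (C (8 : ℤ) : ℤ⟦X⟧) = 8 := by simp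
    have e64 : (C (64 : ℤ) : ℤ⟦X⟧) = 64 := by simp
    have a1 : A 2 ^ 3 = ai * (1 + 4 * J) ^ 2 := by
      rw [← h1]; linear_combination (-A 2 ^ 3) * A_mul_ai
    have a2 : z ^ 2 = 1 + 4 * k := by rw [hk]; linear_combination z_sq_sub
    have a3 : expand 2 two_ne_zero (1 + 8 * J + 16 * J ^ 2) = 1 + 8 * J2 + 16 * J2 ^ 2 := by
      simp only [hJ2, map_add, map_mul, map_one, map_ofNat, map_pow]
    rw [e8, e64, a3, ai_expand, a1]
    have a4 : (4 * z ^ 3 - 3 * z) * (ai * (1 + 4 * J) ^ 2)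
      = z * ai * ((1 + 16 * k) * (1 + 4 * J) ^ 2) := by
      linear_combination 4 * z * ai * (1 + 4 * J) ^ 2 * a2
    rw [a4]
    linear_combination z * ai * (8 + 16 * (J + (k + J2 + 4 * k * J2))) * h2
  have e3 : S 2 3 (2 * (2 * i + 1)) = 8 * (3 * coeff i (ai * ((1 + X) * iv 1 ^ 2)))
      + 64 * (coeff i (mk (fun i => ∑ j ∈ Finset.range (i + 1), (j : ℤ) ^ 2) * ai)
        + coeff i (V (k * J2 + 2 * k ^ 2 * J2 + 2 * k * J2 ^ 2
        + 4 * k ^ 2 * J2 ^ 2 + 2 * k * J + 4 * k * J ^ 2) * ai)) := by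
    rw [S_eq le_rfl, ← coeff_U, e1, e2, ← coeff_V, V_mul_expand, V_add, V_add, V_C_mul, V_C_mul,
      V_expand]
    have b1 : V (3 * k + 2 * k ^ 2) = C (3 : ℤ) * ((1 + X) * iv 1 ^ 2)
        + C (8 : ℤ) * mk (fun i => ∑ j ∈ Finset.range (i + 1), (j : ℤ) ^ 2) := by
      ext j
      have c1 : 3 * k + 2 * k ^ 2 = C (3 : ℤ) * k + C (2 : ℤ) * k ^ 2 := by simp
      rw [c1, coeff_V, map_add, map_add, coeff_C_mul, coeff_C_mul, coeff_C_mul, coeff_C_mul,
        coeff_mk, mu_coeff, hk, sum_sq_aux]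
    rw [b1]
    have b2 : (C (8 : ℤ) * (C (3 : ℤ) * ((1 + X) * iv 1 ^ 2)
        + C (8 : ℤ) * mk (fun i => ∑ j ∈ Finset.range (i + 1), (j : ℤ) ^ 2))
        + C (64 : ℤ) * V (k * J2 + 2 * k ^ 2 * J2 + 2 * k * J2 ^ 2
        + 4 * k ^ 2 * J2 ^ 2 + 2 * k * J + 4 * k * J ^ 2) + 0) * ai
        = C (24 : ℤ) * (ai * ((1 + X) * iv 1 ^ 2))
          + C (64 : ℤ) * (mk (fun i => ∑ j ∈ Finset.range (i + 1), (j : ℤ) ^ 2) * ai
          + V (k * J2 + 2 * k ^ 2 * J2 + 2 * k * J2 ^ 2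
        + 4 * k ^ 2 * J2 ^ 2 + 2 * k * J + 4 * k * J ^ 2) * ai) := by
      have e8 : (C (8 : ℤ) : ℤ⟦X⟧) = 8 := by simp
      have e64 : (C (64 : ℤ) : ℤ⟦X⟧) = 64 := by simp
      have e3 : (C (3 : ℤ) : ℤ⟦X⟧) = 3 := by simp
      have e24 : (C (24 : ℤ) : ℤ⟦X⟧) = 24 := by simp
      rw [e8, e64, e3, e24]; ring
    rw [b2, map_add, coeff_C_mul, coeff_C_mul, map_add]; ring
  rw [e3]
  set B := coeff i (mk (fun i => ∑ j ∈ Finset.range (i + 1), (j : ℤ) ^ 2) * ai)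
        + coeff i (V (k * J2 + 2 * k ^ 2 * J2 + 2 * k * J2 ^ 2
        + 4 * k ^ 2 * J2 ^ 2 + 2 * k * J + 4 * k * J ^ 2) * ai) with hB
  rcases ai_mu_coeff i with h | h <;> rw [h]
  · left; exact ⟨B, by ring⟩
  · right; exact ⟨B - 1, by ring⟩

/-- all `n`: `c_3(n)` is `6, 10 mod 16` or `24, 40 mod 64` -/
lemma c3_all (n : ℕ) (hn : 0 < n) :
    ((16 : ℤ) ∣ S 2 3 n - 10 ∨ (16 : ℤ) ∣ S 2 3 n - 6) ∨
    ((64 : ℤ) ∣ S 2 3 n - 24 ∨ (64 : ℤ) ∣ S 2 3 n - 40) := by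
  obtain ⟨s, t, ht, rfl⟩ := Nat.exists_eq_two_pow_mul_odd hn.ne'
  clear hn
  have key : ∀ r, ((16 : ℤ) ∣ S 2 3 (2 ^ (2 * r) * t) - 10 ∨ (16 : ℤ) ∣ S 2 3 (2 ^ (2 * r) * t) - 6)
      ∧ ((64 : ℤ) ∣ S 2 3 (2 ^ (2 * r + 1) * t) - 24 ∨ (64 : ℤ) ∣ S 2 3 (2 ^ (2 * r + 1) * t) - 40) := by
    intro r
    induction r with
    | zero =>
      obtain ⟨i, rfl⟩ := ht
      constructor
      · simpa using c3_odd i
      · simpa using c3_two_odd i
    | succ r ih =>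
      have d1 := odd_dvd 0 (2 * r) 1 t 3 (by norm_num)
      have d2 := odd_dvd 0 (2 * r + 1) 1 t 3 (by norm_num)
      have e1 : 4 * (2 ^ (2 * r) * t) = 2 ^ (2 * (r + 1)) * t := by ring
      have e2 : 4 * (2 ^ (2 * r + 1) * t) = 2 ^ (2 * (r + 1) + 1) * t := by ring
      rw [e1] at d1
      rw [e2] at d2
      have d1' : (16 : ℤ) ∣ S 2 3 (2 ^ (2 * (r + 1)) * t) - S 2 3 (2 ^ (2 * r) * t) := by
        refine dvd_trans ?_ d1
        have : (16 : ℤ) = 2 ^ 4 := by norm_num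
        rw [this]; exact pow_dvd_pow _ (by omega)
      have d2' : (64 : ℤ) ∣ S 2 3 (2 ^ (2 * (r + 1) + 1) * t) - S 2 3 (2 ^ (2 * r + 1) * t) := by
        refine dvd_trans ?_ d2
        have : (64 : ℤ) = 2 ^ 6 := by norm_num
        rw [this]; exact pow_dvd_pow _ (by omega)
      obtain ⟨ih1, ih2⟩ := ih
      constructor
      · rcases ih1 with h | h
        · left; have := dvd_add d1' h; simpa using this
        · right; have := dvd_add d1' h; simpa using this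
      · rcases ih2 with h | h
        · left; have := dvd_add d2' h; simpa using this
        · right; have := dvd_add d2' h; simpa using this
  rcases Nat.even_or_odd' s with ⟨r, rfl | rfl⟩
  · left; exact (key r).1
  · right; exact (key r).2

end

end Pool.Agent.X11.ColPart
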