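import Mathlib

/-! A digit shuffle: an injective measurable map with infinite approximate difference quotients. -/

namespace Pool.Agent.X11.Shuffle

open MeasureTheory Set Filter Topology

/-- The binary digit of `x ≥ 0` with weight `2 ^ (-i)`. -/
noncomputable def d (i : ℕ) (x : ℝ) : ℕ := ⌊x * 2 ^ i⌋₊ % 2

theorem d_lt (i : ℕ) (x : ℝ) : d i x < 2 := Nat.mod_lt _ (by norm_num)

theorem d_meas (i : ℕ) : Measurable (d i) := by
  have h1 : Measurable (fun x : ℝ => ⌊x * 2 ^ i⌋₊) :=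
    Nat.measurable_floor.comp (measurable_id.mul_const _)
  exact (measurable_from_top (f := fun n : ℕ => n % 2)).comp h1

/-- The digits of the image: own digits and digits far ahead. -/
noncomputable def c (i : ℕ) (x : ℝ) : ℕ := d i x + 2 * d (8 * i) x

theorem c_le (i : ℕ) (x : ℝ) : c i x ≤ 3 := by
  have h1 := d_lt i x
  have h2 := d_lt (8 * i) x
  unfold c
  omega

/-- The map. -/
noncomputable def phi (x : ℝ) : ℝ := 1 / 2 + ∑' i : ℕ, (c i x : ℝ) / 16 ^ (i + 1)

theorem geo_summable : Summable (fun i : ℕ => (1 : ℝ) / 16 ^ (i + 1)) := by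
  have : (fun i : ℕ => (1 : ℝ) / 16 ^ (i + 1)) = fun i : ℕ => (1 / 16) * (1 / 16 : ℝ) ^ i := by
    ext i
    rw [one_div_pow, pow_succ]
    ring
  rw [this]
  exact (summable_geometric_of_lt_one (by norm_num) (by norm_num)).mul_left _

theorem geo_tsum : ∑' i : ℕ, (1 : ℝ) / 16 ^ (i + 1) = 1 / 15 := by
  have : (fun i : ℕ => (1 : ℝ) / 16 ^ (i + 1)) = fun i : ℕ => (1 / 16) * (1 / 16 : ℝ) ^ i := by
    ext i
    rw [one_div_pow, pow_succ]
    ring
  rw [this, tsum_mul_left, tsum_geometric_of_lt_one (by norm_num) (by norm_num)]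
  norm_num

theorem c_summable (x : ℝ) : Summable (fun i : ℕ => (c i x : ℝ) / 16 ^ (i + 1)) := by
  apply Summable.of_nonneg_of_le (fun i => by positivity) (fun i => ?_) (geo_summable.mul_left 3)
  have : (c i x : ℝ) ≤ 3 := by exact_mod_cast c_le i x
  rw [mul_one_div]
  exact div_le_div_of_nonneg_right this (by positivity)

theorem phi_meas : Measurable phi := by
  apply Measurable.const_add
  apply Measurable.tsum
  intro i
  apply Measurable.div_const
  have : Measurable (c i) := (d_meas i).add ((d_meas (8 * i)).const_mul 2)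
  exact measurable_from_top.comp this

theorem phi_mem (x : ℝ) : phi x ∈ Ioo (0 : ℝ) 1 := by
  have h0 : 0 ≤ ∑' i : ℕ, (c i x : ℝ) / 16 ^ (i + 1) := tsum_nonneg fun i => by positivity
  have h1 : ∑' i : ℕ, (c i x : ℝ) / 16 ^ (i + 1) ≤ 3 * (1 / 15) := by
    rw [← geo_tsum, ← tsum_mul_left]
    apply (c_summable x).tsum_le_tsum _ (geo_summable.mul_left 3)
    intro i
    have : (c i x : ℝ) ≤ 3 := by exact_mod_cast c_le i x
    rw [mul_one_div]
    exact div_le_div_of_nonneg_right this (by positivity)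
  unfold phi
  constructor <;> linarith

/-- Separation: the first differing digit dominates. -/
theorem sep {a : ℕ → ℝ} {k : ℕ} (h0 : ∀ i < k, a i = 0) (hk : 1 ≤ |a k|)
    (h3 : ∀ i, |a i| ≤ 3) : 4 / 5 / 16 ^ (k + 1) ≤ |∑' i : ℕ, a i / 16 ^ (i + 1)| := by
  have hs : Summable (fun i : ℕ => a i / 16 ^ (i + 1)) := by
    apply Summable.of_norm_bounded (geo_summable.mul_left 3)
    intro i
    rw [norm_div, Real.norm_eq_abs, Real.norm_eq_abs, mul_one_div, abs_of_pos (by positivity : (0 : ℝ) < 16 ^ (i + 1))]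
    exact div_le_div_of_nonneg_right (h3 i) (by positivity)
  rw [← hs.sum_add_tsum_nat_add (k + 1), Finset.sum_range_succ, Finset.sum_eq_zero, zero_add]
  · have htail : |∑' i : ℕ, a (i + (k + 1)) / 16 ^ (i + (k + 1) + 1)| ≤ 1 / 5 / 16 ^ (k + 1) := by
      have hg : Summable (fun i : ℕ => (3 / 16 ^ (k + 1) : ℝ) * (1 / 16 ^ (i + 1))) :=
        geo_summable.mul_left _
      have hb : ∀ i : ℕ, ‖a (i + (k + 1)) / 16 ^ (i + (k + 1) + 1)‖ ≤
          (3 / 16 ^ (k + 1) : ℝ) * (1 / 16 ^ (i + 1)) := by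
        intro i
        rw [norm_div, Real.norm_eq_abs, Real.norm_eq_abs,
          abs_of_pos (by positivity : (0 : ℝ) < 16 ^ (i + (k + 1) + 1)), div_mul_div_comm, mul_one,
          ← pow_add, show k + 1 + (i + 1) = i + (k + 1) + 1 by ring]
        exact div_le_div_of_nonneg_right (h3 _) (by positivity)
      have := tsum_of_norm_bounded hg.hasSum hb
      rw [Real.norm_eq_abs, tsum_mul_left, geo_tsum] at this
      refine this.trans (le_of_eq ?_)
      ring
    have hmain : 1 / 16 ^ (k + 1) ≤ |a k / 16 ^ (k + 1)| := by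
      rw [abs_div, abs_of_pos (by positivity : (0 : ℝ) < 16 ^ (k + 1))]
      exact div_le_div_of_nonneg_right hk (by positivity)
    have htri := abs_sub_abs_le_abs_sub (a k / 16 ^ (k + 1))
      (-∑' i : ℕ, a (i + (k + 1)) / 16 ^ (i + (k + 1) + 1))
    rw [sub_neg_eq_add, abs_neg] at htri
    have e : (4 : ℝ) / 5 / 16 ^ (k + 1) = 1 / 16 ^ (k + 1) - 1 / 5 / 16 ^ (k + 1) := by ring
    rw [e]
    linarith
  · intro i hi
    rw [h0 i (Finset.mem_range.1 hi), zero_div]

theorem phi_sub (x y : ℝ) :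
    phi x - phi y = ∑' i : ℕ, ((c i x : ℝ) - c i y) / 16 ^ (i + 1) := by
  unfold phi
  rw [add_sub_add_left_eq_sub, ← (c_summable x).tsum_sub (c_summable y)]
  congr 1
  ext i
  ring

theorem c_eq_of_close {x y : ℝ} {k : ℕ} (h : |phi x - phi y| < 4 / 5 / 16 ^ (k + 1)) :
    ∀ i ≤ k, c i x = c i y := by
  intro i
  induction i using Nat.strong_induction_on with
  | _ i ih =>
    intro hik
    by_contra hne
    have h1 : 4 / 5 / 16 ^ (i + 1) ≤ |phi x - phi y| := by
      rw [phi_sub]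
      apply sep
      · intro j hj
        rw [ih j hj (by omega), sub_self]
      · have : (1 : ℤ) ≤ |(c i x : ℤ) - c i y| := Int.one_le_abs (by omega)
        exact_mod_cast this
      · intro j
        have a1 := c_le j x
        have a2 := c_le j y
        have : |(c j x : ℤ) - c j y| ≤ 3 := by rw [abs_le]; omega
        exact_mod_cast this
    have h2 : (4 : ℝ) / 5 / 16 ^ (k + 1) ≤ 4 / 5 / 16 ^ (i + 1) := by
      apply div_le_div_of_nonneg_left (by norm_num) (by positivity)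
      exact pow_le_pow_right₀ (by norm_num) (by omega)
    linarith

theorem d_eq_of_c_eq {i : ℕ} {x y : ℝ} (h : c i x = c i y) :
    d i x = d i y ∧ d (8 * i) x = d (8 * i) y := by
  have h1 := d_lt i x
  have h2 := d_lt (8 * i) x
  have h3 := d_lt i y
  have h4 := d_lt (8 * i) y
  unfold c at h
  omega

theorem floor_step {x : ℝ} (_hx : 0 ≤ x) (M k : ℕ) (hk : k ≤ M) :
    ⌊x * 2 ^ (M - k)⌋₊ = ⌊x * 2 ^ M⌋₊ / 2 ^ k := by
  have : x * 2 ^ (M - k) = x * 2 ^ M / ((2 ^ k : ℕ) : ℝ) := by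
    push_cast
    rw [eq_div_iff (by positivity), mul_assoc, ← pow_add, Nat.sub_add_cancel hk]
  rw [this, Nat.floor_div_natCast]

theorem phi_inj : InjOn phi (Ioo 0 2) := by
  intro x hx y hy hxy
  have hc : ∀ i, c i x = c i y := by
    intro i
    apply c_eq_of_close (k := i) _ i le_rfl
    rw [hxy, sub_self, abs_zero]
    positivity
  have hd : ∀ i, d i x = d i y := fun i => (d_eq_of_c_eq (hc i)).1
  have hfl : ∀ i : ℕ, ⌊x * 2 ^ i⌋₊ = ⌊y * 2 ^ i⌋₊ := by
    intro i
    induction i with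
    | zero =>
      have h1 := hd 0
      unfold d at h1
      rw [pow_zero, mul_one, mul_one] at h1 ⊢
      have a1 : ⌊x⌋₊ < 2 := (Nat.floor_lt hx.1.le).2 (by exact_mod_cast hx.2)
      have a2 : ⌊y⌋₊ < 2 := (Nat.floor_lt hy.1.le).2 (by exact_mod_cast hy.2)
      omega
    | succ i ih =>
      have h1 := hd (i + 1)
      unfold d at h1
      have h2 := floor_step hx.1.le (i + 1) 1 (by omega)
      have h3 := floor_step hy.1.le (i + 1) 1 (by omega)
      rw [Nat.add_sub_cancel, pow_one] at h2 h3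
      omega
  have habs : ∀ i : ℕ, |x - y| ≤ (1 / 2 : ℝ) ^ i := by
    intro i
    have hp : (0 : ℝ) < 2 ^ i := by positivity
    have h1 := Nat.floor_le (mul_nonneg hx.1.le hp.le)
    have h2 := Nat.lt_floor_add_one (x * 2 ^ i)
    have h3 := Nat.floor_le (mul_nonneg hy.1.le hp.le)
    have h4 := Nat.lt_floor_add_one (y * 2 ^ i)
    rw [hfl i] at h1 h2
    have h5 : |(x - y) * 2 ^ i| ≤ 1 := by
      rw [abs_le]
      constructor <;> nlinarith
    rw [abs_mul, abs_of_pos hp] at h5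
    rw [one_div_pow, le_div_iff₀ hp]
    exact h5
  have hlim : Tendsto (fun i : ℕ => (1 / 2 : ℝ) ^ i) atTop (𝓝 0) :=
    tendsto_pow_atTop_nhds_zero_of_lt_one (by norm_num) (by norm_num)
  have h0 : |x - y| ≤ 0 := ge_of_tendsto' hlim habs
  have := abs_nonneg (x - y)
  have h1 : |x - y| = 0 := le_antisymm h0 this
  exact sub_eq_zero.1 (abs_eq_zero.1 h1)

/-! ### The measure of a set with prescribed digits -/

/-- Points of the dyadic interval number `a` of level `m` with prescribed digits. -/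
def Cyl (m a : ℕ) (F : Finset ℕ) (w : ℕ → ℕ) : Set ℝ :=
  {y | 0 ≤ y ∧ ⌊y * 2 ^ m⌋₊ = a ∧ ∀ i ∈ F, d i y = w i}

theorem Cyl_meas (m a : ℕ) (F : Finset ℕ) (w : ℕ → ℕ) : MeasurableSet (Cyl m a F w) := by
  have h1 : MeasurableSet {y : ℝ | 0 ≤ y} := measurableSet_Ici
  have h2 : MeasurableSet {y : ℝ | ⌊y * 2 ^ m⌋₊ = a} := by
    have : Measurable (fun x : ℝ => ⌊x * 2 ^ m⌋₊) :=
      Nat.measurable_floor.comp (measurable_id.mul_const _)
    exact this (measurableSet_singleton a)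
  have h3 : MeasurableSet {y : ℝ | ∀ i ∈ F, d i y = w i} := by
    have : {y : ℝ | ∀ i ∈ F, d i y = w i} = ⋂ i ∈ F, {y : ℝ | d i y = w i} := by
      ext y; simp
    rw [this]
    apply Finset.measurableSet_biInter
    intro i _
    exact d_meas i (measurableSet_singleton _)
  exact h1.inter (h2.inter h3)

theorem shift_up {M : ℕ} {y : ℝ} (hy : 0 ≤ y) (he : ⌊y * 2 ^ M⌋₊ % 2 = 0) :
    (∀ i < M, ⌊(y + 1 / 2 ^ M) * 2 ^ i⌋₊ = ⌊y * 2 ^ i⌋₊) ∧
    ⌊(y + 1 / 2 ^ M) * 2 ^ M⌋₊ = ⌊y * 2 ^ M⌋₊ + 1 := by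
  have hM : ⌊(y + 1 / 2 ^ M) * 2 ^ M⌋₊ = ⌊y * 2 ^ M⌋₊ + 1 := by
    rw [add_mul, one_div, inv_mul_cancel₀ (by positivity)]
    exact Nat.floor_add_one (by positivity)
  refine ⟨fun i hi => ?_, hM⟩
  have h1 := floor_step (x := y + 1 / 2 ^ M) (by positivity) M (M - i) (by omega)
  have h2 := floor_step hy M (M - i) (by omega)
  rw [show M - (M - i) = i by omega] at h1 h2
  rw [h1, h2, hM]
  obtain ⟨k, hk⟩ : ∃ k, M - i = k + 1 := ⟨M - i - 1, by omega⟩
  rw [hk, pow_succ', ← Nat.div_div_eq_div_mul, ← Nat.div_div_eq_div_mul]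
  congr 1
  omega

theorem shift_down {M : ℕ} {y : ℝ} (he : ⌊y * 2 ^ M⌋₊ % 2 = 1) :
    0 ≤ y - 1 / 2 ^ M ∧
    (∀ i < M, ⌊(y - 1 / 2 ^ M) * 2 ^ i⌋₊ = ⌊y * 2 ^ i⌋₊) ∧
    ⌊(y - 1 / 2 ^ M) * 2 ^ M⌋₊ = ⌊y * 2 ^ M⌋₊ - 1 := by
  have hp : (0 : ℝ) < 2 ^ M := by positivity
  have h1 : 1 ≤ y * 2 ^ M := by
    rw [← Nat.one_le_floor_iff]
    omega
  have hy' : 0 ≤ y - 1 / 2 ^ M := by
    rw [sub_nonneg, div_le_iff₀ hp]; exact h1
  have hy : 0 ≤ y := by
    have : (0 : ℝ) < 1 / 2 ^ M := by positivity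
    linarith
  have hM : ⌊(y - 1 / 2 ^ M) * 2 ^ M⌋₊ = ⌊y * 2 ^ M⌋₊ - 1 := by
    rw [sub_mul, one_div, inv_mul_cancel₀ hp.ne']
    exact Nat.floor_sub_one _
  refine ⟨hy', fun i hi => ?_, hM⟩
  have h1 := floor_step hy' M (M - i) (by omega)
  have h2 := floor_step hy M (M - i) (by omega)
  rw [show M - (M - i) = i by omega] at h1 h2
  rw [h1, h2, hM]
  obtain ⟨k, hk⟩ : ∃ k, M - i = k + 1 := ⟨M - i - 1, by omega⟩
  rw [hk, pow_succ', ← Nat.div_div_eq_div_mul, ← Nat.div_div_eq_div_mul]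
  congr 1
  omega

theorem Cyl_measure (m a : ℕ) (w : ℕ → ℕ) (F : Finset ℕ) : (∀ i ∈ F, m < i) →
    volume (Cyl m a F w) ≤ ENNReal.ofReal ((1 / 2) ^ (m + F.card)) := by
  induction F using Finset.induction_on_max with
  | empty =>
    intro _
    have hsub : Cyl m a ∅ w ⊆ Ico ((a : ℝ) / 2 ^ m) (((a : ℝ) + 1) / 2 ^ m) := by
      rintro y ⟨h0, h1, _⟩
      have hp : (0 : ℝ) < 2 ^ m := by positivity
      rw [mem_Ico, div_le_iff₀ hp, lt_div_iff₀ hp, ← h1]
      exact ⟨Nat.floor_le (by positivity), Nat.lt_floor_add_one _⟩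
    refine (measure_mono hsub).trans ?_
    rw [Real.volume_Ico]
    apply ENNReal.ofReal_le_ofReal
    rw [Finset.card_empty, add_zero, one_div_pow]
    apply le_of_eq
    ring
  | insert M s hM ih =>
    intro hF
    have hms : ∀ i ∈ s, m < i := fun i hi => hF i (Finset.mem_insert_of_mem hi)
    have hmM : m < M := hF M (Finset.mem_insert_self _ _)
    have hMs : M ∉ s := fun h => lt_irrefl _ (hM M h)
    have ih' := ih hms
    -- the two halves
    obtain ⟨A, hA⟩ : ∃ A : ℕ → Set ℝ, A = fun e => Cyl m a s w ∩ {y | d M y = e} := ⟨_, rfl⟩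
    have hAm : ∀ e, MeasurableSet (A e) := by
      intro e
      rw [hA]
      exact (Cyl_meas m a s w).inter (d_meas M (measurableSet_singleton e))
    have h01 : volume (A 0) ≤ volume (A 1) := by
      have : A 0 ⊆ (fun y => y + 1 / 2 ^ M) ⁻¹' (A 1) := by
        rw [hA]
        rintro y ⟨⟨h0, h1, h2⟩, h3⟩
        have h3' : ⌊y * 2 ^ M⌋₊ % 2 = 0 := h3
        obtain ⟨g1, g2⟩ := shift_up h0 h3'
        refine ⟨⟨by positivity, (g1 m hmM).trans h1, fun i hi => ?_⟩, ?_⟩
        · rw [← h2 i hi, d, d, g1 i (hM i hi)]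
        · show d M (y + 1 / 2 ^ M) = 1
          rw [d, g2]
          omega
      refine (measure_mono this).trans (le_of_eq ?_)
      exact measure_preimage_add_right volume _ _
    have h10 : volume (A 1) ≤ volume (A 0) := by
      have : A 1 ⊆ (fun y => y + -(1 / 2 ^ M)) ⁻¹' (A 0) := by
        rw [hA]
        rintro y ⟨⟨h0, h1, h2⟩, h3⟩
        have h3' : ⌊y * 2 ^ M⌋₊ % 2 = 1 := h3
        obtain ⟨g0, g1, g2⟩ := shift_down h3'
        show y + -(1 / 2 ^ M) ∈ Cyl m a s w ∩ {y | d M y = 0}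
        rw [← sub_eq_add_neg]
        refine ⟨⟨g0, (g1 m hmM).trans h1, fun i hi => ?_⟩, ?_⟩
        · rw [← h2 i hi, d, d, g1 i (hM i hi)]
        · show d M (y - 1 / 2 ^ M) = 0
          rw [d, g2]
          omega
      refine (measure_mono this).trans (le_of_eq ?_)
      exact measure_preimage_add_right volume _ _
    have hdisj : Disjoint (A 0) (A 1) := by
      rw [Set.disjoint_left, hA]
      rintro y ⟨_, h1⟩ ⟨_, h2⟩
      have h1' : d M y = 0 := h1
      have h2' : d M y = 1 := h2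
      omega
    have hsum : volume (A 0) + volume (A 1) ≤ ENNReal.ofReal ((1 / 2) ^ (m + s.card)) := by
      rw [← measure_union hdisj (hAm 1)]
      refine (measure_mono ?_).trans ih'
      rw [hA]
      exact union_subset inter_subset_left inter_subset_left
    have hsub : ∃ e, (e = 0 ∨ e = 1) ∧ Cyl m a (insert M s) w ⊆ A e ∨
        Cyl m a (insert M s) w = ∅ := by
      by_cases hw : w M < 2
      · refine ⟨w M, Or.inl ⟨by omega, ?_⟩⟩
        rw [hA]
        rintro y ⟨h0, h1, h2⟩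
        exact ⟨⟨h0, h1, fun i hi => h2 i (Finset.mem_insert_of_mem hi)⟩,
          h2 M (Finset.mem_insert_self _ _)⟩
      · refine ⟨0, Or.inr ?_⟩
        rw [Set.eq_empty_iff_forall_notMem]
        rintro y ⟨_, _, h2⟩
        have := h2 M (Finset.mem_insert_self _ _)
        have h4 := d_lt M y
        omega
    obtain ⟨e, he⟩ := hsub
    rcases he with ⟨he, hsub⟩ | hemp
    · have hle : volume (A e) + volume (A e) ≤ ENNReal.ofReal ((1 / 2) ^ (m + s.card)) := by
        rcases he with rfl | rfl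
        · exact (add_le_add le_rfl h01).trans hsum
        · exact (add_le_add h10 le_rfl).trans hsum
      refine (measure_mono hsub).trans ?_
      rw [Finset.card_insert_of_notMem hMs, ← add_assoc, pow_succ]
      rw [← two_mul] at hle
      have e2 : ENNReal.ofReal ((1 / 2) ^ (m + s.card) * (1 / 2)) =
          ENNReal.ofReal ((1 / 2) ^ (m + s.card)) / 2 := by
        rw [mul_one_div, ENNReal.ofReal_div_of_pos (by norm_num)]
        norm_num
      rw [e2, ENNReal.le_div_iff_mul_le (Or.inl (by norm_num)) (Or.inl (by norm_num)), mul_comm]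
      exact hle
    · rw [hemp, measure_empty]
      exact bot_le

/-! ### The main estimate -/

/-- The read-ahead positions beyond `m`. -/
def FF (m T : ℕ) : Finset ℕ := ((Finset.range ((m - T) / 4)).filter (fun i => m < 8 * i)).image (8 * ·)

theorem FF_card (m T : ℕ) : (m - T) / 4 ≤ (FF m T).card + (m / 8 + 1) := by
  have h1 : (FF m T).card = ((Finset.range ((m - T) / 4)).filter (fun i => m < 8 * i)).card := by
    rw [FF, Finset.card_image_of_injective]
    intro a b h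
    simpa using h
  have h2 : ((Finset.range ((m - T) / 4)).filter (fun i => ¬ m < 8 * i)).card ≤ m / 8 + 1 := by
    rw [← Finset.card_range (m / 8 + 1)]
    apply Finset.card_le_card
    intro i hi
    simp only [Finset.mem_filter, Finset.mem_range] at hi ⊢
    omega
  have h3 := Finset.card_filter_add_card_filter_not (s := Finset.range ((m - T) / 4)) (fun i => m < 8 * i)
  rw [Finset.card_range] at h3
  omega

theorem bad_bound {x : ℝ} (hx : 0 < x) {t : ℝ} {T m : ℕ} (hT : t ≤ 4 / 5 * 2 ^ T) (hm : T + 4 ≤ m)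
    {r : ℝ} (hr : r ≤ (1 / 2) ^ m) :
    volume {h : ℝ | h ∈ Ioo 0 r ∧ |(phi (x + h) - phi x) / h| < t} ≤
      ENNReal.ofReal (2 * (1 / 2) ^ (m + (FF m T).card)) := by
  have hp : (0 : ℝ) < 2 ^ m := by positivity
  obtain ⟨a, ha⟩ : ∃ a, a = ⌊x * 2 ^ m⌋₊ := ⟨_, rfl⟩
  have hF : ∀ i ∈ FF m T, m < i := by
    intro i hi
    simp only [FF, Finset.mem_image, Finset.mem_filter] at hi
    obtain ⟨j, ⟨_, hj⟩, rfl⟩ := hi
    exact hj
  have hsub : {h : ℝ | h ∈ Ioo 0 r ∧ |(phi (x + h) - phi x) / h| < t} ⊆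
      (fun h => x + h) ⁻¹' (Cyl m a (FF m T) (fun i => d i x) ∪
        Cyl m (a + 1) (FF m T) (fun i => d i x)) := by
    rintro h ⟨⟨h0, h1⟩, h2⟩
    have hy0 : 0 ≤ x + h := by linarith
    have hh : h * 2 ^ m < 1 := by
      have : h < (1 / 2) ^ m := lt_of_lt_of_le h1 hr
      rw [one_div_pow, lt_div_iff₀ hp] at this
      exact this
    have hh0 : 0 < h * 2 ^ m := by positivity
    have hfl : ⌊(x + h) * 2 ^ m⌋₊ = a ∨ ⌊(x + h) * 2 ^ m⌋₊ = a + 1 := by
      have g1 : a ≤ ⌊(x + h) * 2 ^ m⌋₊ := by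
        rw [ha]
        apply Nat.floor_le_floor
        nlinarith
      have g2 : ⌊(x + h) * 2 ^ m⌋₊ < a + 2 := by
        rw [Nat.floor_lt (by positivity)]
        have := Nat.lt_floor_add_one (x * 2 ^ m)
        rw [← ha] at this
        push_cast
        nlinarith
      omega
    have hdig : ∀ i ∈ FF m T, d i (x + h) = d i x := by
      obtain ⟨k, hk⟩ : ∃ k, (m - T) / 4 = k + 1 := ⟨(m - T) / 4 - 1, by omega⟩
      have hclose : |phi (x + h) - phi x| < 4 / 5 / 16 ^ (k + 1) := by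
        rw [abs_div, abs_of_pos h0, div_lt_iff₀ h0] at h2
        have ht : 0 < t := by
          by_contra hcon
          push Not at hcon
          have := abs_nonneg (phi (x + h) - phi x)
          nlinarith
        refine lt_of_lt_of_le h2 ?_
        have e1 : t * h ≤ t / 2 ^ m := by
          rw [le_div_iff₀ hp, mul_assoc]
          nlinarith
        have e2 : t / 2 ^ m ≤ 4 / 5 * 2 ^ T / 2 ^ m := div_le_div_of_nonneg_right hT hp.le
        have e3 : (4 / 5 * 2 ^ T / 2 ^ m : ℝ) ≤ 4 / 5 / 16 ^ (k + 1) := by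
          rw [div_le_div_iff₀ hp (by positivity), mul_assoc]
          apply mul_le_mul_of_nonneg_left _ (by norm_num)
          rw [show (16 : ℝ) = 2 ^ 4 by norm_num, ← pow_mul, ← pow_add]
          apply pow_le_pow_right₀ (by norm_num)
          omega
        linarith
      have hc := c_eq_of_close hclose
      intro i hi
      simp only [FF, Finset.mem_image, Finset.mem_filter, Finset.mem_range] at hi
      obtain ⟨j, ⟨hj, _⟩, rfl⟩ := hi
      exact (d_eq_of_c_eq (hc j (by omega))).2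
    rcases hfl with g | g
    · exact Or.inl ⟨hy0, g, hdig⟩
    · exact Or.inr ⟨hy0, g, hdig⟩
  refine (measure_mono hsub).trans ?_
  rw [measure_preimage_add]
  refine (measure_union_le _ _).trans ?_
  have g1 := Cyl_measure m a (fun i => d i x) (FF m T) hF
  have g2 := Cyl_measure m (a + 1) (fun i => d i x) (FF m T) hF
  refine (add_le_add g1 g2).trans (le_of_eq ?_)
  rw [← ENNReal.ofReal_add (by positivity) (by positivity), two_mul]

theorem main {x : ℝ} (hx : 0 < x) (t : ℝ) :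
    Tendsto (fun r : ℝ => (volume {h : ℝ | h ∈ Ioo 0 r ∧ |(phi (x + h) - phi x) / h| < t}).toReal / r)
      (𝓝[>] 0) (𝓝 0) := by
  obtain ⟨T, hT⟩ : ∃ T : ℕ, t ≤ 4 / 5 * 2 ^ T := by
    obtain ⟨T, hT⟩ := pow_unbounded_of_one_lt (5 / 4 * t) (by norm_num : (1 : ℝ) < 2)
    exact ⟨T, by linarith⟩
  rw [Metric.tendsto_nhdsWithin_nhds]
  intro ε hε
  obtain ⟨K, hK⟩ := exists_pow_lt_of_lt_one (show 0 < ε / 4 by linarith) (by norm_num : (1 / 2 : ℝ) < 1)
  refine ⟨(1 / 2) ^ (8 * K + 8 * T + 100), by positivity, ?_⟩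
  intro r hr0 hr
  have hr0' : 0 < r := hr0
  rw [Real.dist_eq, sub_zero, abs_of_pos hr0'] at hr
  obtain ⟨m, hm1, hm2⟩ := exists_nat_pow_near_of_lt_one hr0'
    (hr.le.trans (pow_le_one₀ (by norm_num) (by norm_num)))
    (by norm_num : (0 : ℝ) < 1 / 2) (by norm_num : (1 / 2 : ℝ) < 1)
  have hmN : 8 * K + 8 * T + 100 < m + 1 := by
    by_contra hcon
    push Not at hcon
    have := pow_le_pow_of_le_one (by norm_num : (0 : ℝ) ≤ 1 / 2) (by norm_num) hcon
    linarith
  have hcard : K ≤ (FF m T).card := by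
    have := FF_card m T
    omega
  have hb := bad_bound hx hT (by omega : T + 4 ≤ m) hm2
  have hb' : (volume {h : ℝ | h ∈ Ioo 0 r ∧ |(phi (x + h) - phi x) / h| < t}).toReal ≤
      2 * (1 / 2) ^ (m + (FF m T).card) := by
    apply ENNReal.toReal_le_of_le_ofReal (by positivity) hb
  rw [Real.dist_eq, sub_zero, abs_of_nonneg (div_nonneg ENNReal.toReal_nonneg hr0'.le),
    div_lt_iff₀ hr0']
  refine lt_of_le_of_lt hb' ?_
  have e1 : (2 : ℝ) * (1 / 2) ^ (m + (FF m T).card) = 4 * (1 / 2) ^ (FF m T).card * (1 / 2) ^ (m + 1) := by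
    rw [pow_add, pow_succ]; ring
  have e2 : (1 / 2 : ℝ) ^ (FF m T).card ≤ (1 / 2) ^ K :=
    pow_le_pow_of_le_one (by norm_num) (by norm_num) hcard
  rw [e1]
  have e3 : 4 * (1 / 2 : ℝ) ^ (FF m T).card < ε := by linarith
  exact mul_lt_mul e3 hm1.le (by positivity) hε.le

end Pool.Agent.X11.Shuffle
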