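import Mathlib

/-!
# The Thue-Morse-twisted Fibonacci sequence
-/

namespace Pool.Agent.X11.TMFib

/-- `t_n = (-1)^{s_2(n)}` -/
def t (n : ℕ) : ℤ := (-1) ^ (Nat.digits 2 n).sum

/-- `h_0 = 0`, `h_1 = 1`, `h_n = t_n h_{n-1} + h_{n-2}` -/
def h : ℕ → ℤ
  | 0 => 0
  | 1 => 1
  | (n + 2) => t (n + 2) * h (n + 1) + h n

lemma h_add_two (n : ℕ) : h (n + 2) = t (n + 2) * h (n + 1) + h n := by rw [h]

lemma t_even (n : ℕ) : t (2 * n) = t n := by
  unfold t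
  rcases Nat.eq_zero_or_pos n with rfl | hn
  · rfl
  · rw [Nat.digits_def' (by norm_num) (by omega : 0 < 2 * n)]
    have e1 : 2 * n % 2 = 0 := by omega
    have e2 : 2 * n / 2 = n := by omega
    rw [e1, e2, List.sum_cons, zero_add]

lemma t_odd (n : ℕ) : t (2 * n + 1) = - t n := by
  unfold t
  rw [Nat.digits_def' (by norm_num) (by omega : 0 < 2 * n + 1)]
  have e1 : (2 * n + 1) % 2 = 1 := by omega
  have e2 : (2 * n + 1) / 2 = n := by omega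
  rw [e1, e2, List.sum_cons, pow_add, pow_one]; ring

lemma t_sq (n : ℕ) : t n * t n = 1 := by
  unfold t; rw [← pow_add, ← two_mul, pow_mul]; norm_num

/-- entries of the block matrices -/
def W : ℕ → ℤ × ℤ × ℤ × ℤ
  | 0 => (0, -1, 1, 1)
  | (k + 1) =>
    let (a, b, c, d) := W k
    (a ^ 2 - b * c, b * (a - d), -(c * (a - d)), d ^ 2 - b * c)

lemma W_succ {k : ℕ} {a b c d : ℤ} (h : W k = (a, b, c, d)) :
    W (k + 1) = (a ^ 2 - b * c, b * (a - d), -(c * (a - d)), d ^ 2 - b * c) := by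
  simp only [W, h]

/-- `a d - b c = 1` -/
lemma W_det (k : ℕ) : (W k).1 * (W k).2.2.2 - (W k).2.1 * (W k).2.2.1 = 1 := by
  induction k with
  | zero => norm_num [W]
  | succ k ih =>
    rcases hW : W k with ⟨a, b, c, d⟩
    rw [hW] at ih
    simp only at ih
    simp only [W, hW]
    have : a * d - b * c = 1 := ih
    linear_combination ((a * d - b * c) + 1) * this

/-- evolution over the block `[j 2^{k+1}, (j+1) 2^{k+1})`, `j ≥ 1` -/
lemma block (k : ℕ) : ∀ j, 1 ≤ j →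
    h ((j + 1) * 2 ^ (k + 1) - 1)
      = (W k).1 * h (j * 2 ^ (k + 1) - 1) + t j * (W k).2.1 * h (j * 2 ^ (k + 1) - 2) ∧
    h ((j + 1) * 2 ^ (k + 1) - 2)
      = t j * (W k).2.2.1 * h (j * 2 ^ (k + 1) - 1) + (W k).2.2.2 * h (j * 2 ^ (k + 1) - 2) := by
  induction k with
  | zero =>
    intro j hj
    obtain ⟨i, rfl⟩ : ∃ i, j = i + 1 := ⟨j - 1, by omega⟩
    have e1 : (i + 1 + 1) * 2 ^ (0 + 1) - 1 = (2 * i + 1) + 2 := by ring_nf; omega
    have e2 : (i + 1 + 1) * 2 ^ (0 + 1) - 2 = (2 * i) + 2 := by ring_nf; omega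
    have e3 : (i + 1) * 2 ^ (0 + 1) - 1 = 2 * i + 1 := by ring_nf; omega
    have e4 : (i + 1) * 2 ^ (0 + 1) - 2 = 2 * i := by ring_nf; omega
    rw [e1, e2, e3, e4, h_add_two (2 * i + 1), h_add_two (2 * i)]
    have t1 : t (2 * i + 1 + 2) = - t (i + 1) := by
      have : 2 * i + 1 + 2 = 2 * (i + 1) + 1 := by ring
      rw [this, t_odd]
    have t2 : t (2 * i + 2) = t (i + 1) := by
      have : 2 * i + 2 = 2 * (i + 1) := by ring
      rw [this, t_even]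
    rw [t1, t2]
    have hs := t_sq (i + 1)
    simp only [W]
    constructor
    · linear_combination (-h (2 * i + 1)) * hs
    · ring
  | succ k ih =>
    intro j hj
    obtain ⟨p1, p2⟩ := ih (2 * j) (by omega)
    obtain ⟨q1, q2⟩ := ih (2 * j + 1) (by omega)
    rw [t_even] at p1 p2
    rw [t_odd] at q1 q2
    have e1 : (2 * j + 1 + 1) * 2 ^ (k + 1) = (j + 1) * 2 ^ (k + 1 + 1) := by ring
    have e2 : 2 * j * 2 ^ (k + 1) = j * 2 ^ (k + 1 + 1) := by ring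
    rw [e1] at q1 q2
    rw [e2] at p1 p2
    rw [p1, p2] at q1 q2
    rw [q1, q2]
    rcases hW : W k with ⟨a, b, c, d⟩
    simp only [W, hW]
    have hs := t_sq j
    constructor
    · linear_combination (-b * c * h (j * 2 ^ (k + 1 + 1) - 1)) * hs
    · linear_combination (-b * c * h (j * 2 ^ (k + 1 + 1) - 2)) * hs

/-- `h_{2^{k+1}-1} = a - b`, `h_{2^{k+1}-2} = c - d` -/
lemma h_end (k : ℕ) : h (2 ^ (k + 1) - 1) = (W k).1 - (W k).2.1 ∧
    h (2 ^ (k + 1) - 2) = (W k).2.2.1 - (W k).2.2.2 := by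
  induction k with
  | zero => constructor <;> norm_num [W, h]
  | succ k ih =>
    obtain ⟨p1, p2⟩ := block k 1 le_rfl
    have t1 : t 1 = -1 := by
      have := t_odd 0
      simpa [t] using this
    have e1 : (1 + 1) * 2 ^ (k + 1) = 2 ^ (k + 1 + 1) := by ring
    rw [e1, one_mul, t1, ih.1, ih.2] at p1 p2
    rw [p1, p2]
    rcases hW : W k with ⟨a, b, c, d⟩
    simp only [W, hW]
    constructor <;> ring

lemma t_pow (k : ℕ) : t (2 ^ k - 1) = (-1) ^ k := by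
  induction k with
  | zero => simp [t]
  | succ k ih =>
    have : 2 ^ (k + 1) - 1 = 2 * (2 ^ k - 1) + 1 := by
      have : 0 < 2 ^ k := by positivity
      rw [pow_succ]; omega
    rw [this, t_odd, ih, pow_succ]; ring

/-- `h_{2^{k+1}-3} = (a - b) - (-1)^{k+1} (c - d)` -/
lemma h_three (k : ℕ) (hk : 1 ≤ k) : h (2 ^ (k + 1) - 3)
    = (W k).1 - (W k).2.1 - (-1) ^ (k + 1) * ((W k).2.2.1 - (W k).2.2.2) := by
  obtain ⟨p1, p2⟩ := h_end k
  have hpos : 4 ≤ 2 ^ (k + 1) := by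
    calc 4 = 2 ^ 2 := by norm_num
      _ ≤ 2 ^ (k + 1) := Nat.pow_le_pow_right (by norm_num) (by omega)
  have e := h_add_two (2 ^ (k + 1) - 3)
  have e1 : 2 ^ (k + 1) - 3 + 2 = 2 ^ (k + 1) - 1 := by omega
  have e2 : 2 ^ (k + 1) - 3 + 1 = 2 ^ (k + 1) - 2 := by omega
  rw [e1, e2, t_pow, p1, p2] at e
  linear_combination -e

/-- `h_{2^{k+1}-6} = -(-1)^{k+1} h_{2^{k+1}-3}` -/
lemma h_six (k : ℕ) (hk : 2 ≤ k) : h (2 ^ (k + 1) - 6)
    = -(-1) ^ (k + 1) * h (2 ^ (k + 1) - 3) := by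
  obtain ⟨l, rfl⟩ : ∃ l, k = l + 2 := ⟨k - 2, by omega⟩
  have hl : 0 < 2 ^ l := by positivity
  have hp1 : 2 ^ (l + 1) = 2 * 2 ^ l := by ring
  have hp2 : 2 ^ (l + 2) = 4 * 2 ^ l := by ring
  have hp3 : 2 ^ (l + 2 + 1) = 8 * 2 ^ l := by ring
  have t0 : t (2 ^ (l + 2 + 1) - 3) = (-1) ^ l := by
    have e : 2 ^ (l + 2 + 1) - 3 = 2 * (2 * (2 ^ (l + 1) - 1)) + 1 := by omega
    rw [e, t_odd, t_even, t_pow, pow_succ]; ring
  have t1 : t (2 ^ (l + 2 + 1) - 2) = (-1) ^ l := by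
    have e : 2 ^ (l + 2 + 1) - 2 = 2 * (2 ^ (l + 2) - 1) := by omega
    rw [e, t_even, t_pow, pow_succ, pow_succ]; ring
  have t2 : t (2 ^ (l + 2 + 1) - 4) = -(-1) ^ l := by
    have e : 2 ^ (l + 2 + 1) - 4 = 2 * (2 * (2 ^ (l + 1) - 1)) := by omega
    rw [e, t_even, t_even, t_pow, pow_succ]; ring
  have s1 := h_add_two (2 ^ (l + 2 + 1) - 6)
  have s2 := h_add_two (2 ^ (l + 2 + 1) - 5)
  have s3 := h_add_two (2 ^ (l + 2 + 1) - 4)
  have f1 : 2 ^ (l + 2 + 1) - 6 + 2 = 2 ^ (l + 2 + 1) - 4 := by omega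
  have f2 : 2 ^ (l + 2 + 1) - 6 + 1 = 2 ^ (l + 2 + 1) - 5 := by omega
  have f3 : 2 ^ (l + 2 + 1) - 5 + 2 = 2 ^ (l + 2 + 1) - 3 := by omega
  have f4 : 2 ^ (l + 2 + 1) - 5 + 1 = 2 ^ (l + 2 + 1) - 4 := by omega
  have f5 : 2 ^ (l + 2 + 1) - 4 + 2 = 2 ^ (l + 2 + 1) - 2 := by omega
  have f6 : 2 ^ (l + 2 + 1) - 4 + 1 = 2 ^ (l + 2 + 1) - 3 := by omega
  rw [f1, f2, t2] at s1
  rw [f3, f4, t0] at s2
  rw [f5, f6, t1] at s3
  have hs : ((-1 : ℤ) ^ l) * (-1) ^ l = 1 := by rw [← pow_add, ← two_mul, pow_mul]; norm_num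
  have e3 : (-1 : ℤ) ^ (l + 2 + 1) = -(-1) ^ l := by rw [pow_succ, pow_succ, pow_succ]; ring
  rw [e3]
  linear_combination (-1) * s1 + (-(-1 : ℤ) ^ l) * s2 - h (2 ^ (l + 2 + 1) - 4) * hs

end Pool.Agent.X11.TMFib
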