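import Pool.Agent.X11.Bin

/-!
# Coloured ternary partitions
-/

namespace Pool.Agent.X11.ColPart

open PowerSeries

noncomputable section

/-- `κ = x/(1-x)^2` -/
def kap : ℤ⟦X⟧ := X * iv 1 ^ 2

lemma kap_mul : (1 - X) ^ 2 * kap = X := by
  unfold kap
  linear_combination X * ((1 - X) * iv 1 + 1) * iv_one_mul

lemma kap_expand : (1 - X ^ 3) ^ 2 * expand 3 three_ne_zero kap = X ^ 3 := by
  have := congrArg (expand 3 three_ne_zero) kap_mul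
  simpa [map_mul, map_sub, map_add] using this

lemma kap_cubic : kap ^ 3 = expand 3 three_ne_zero kap * (1 + 3 * kap) ^ 2 := by
  have h2 : (1 - X ^ 3 : ℤ⟦X⟧) ≠ 0 := by
    intro h; have := mul_iv (d := 3) three_ne_zero; rw [h, zero_mul] at this
    exact zero_ne_one this
  have h3 : ((1 - X : ℤ⟦X⟧) ^ 6 * (1 - X ^ 3) ^ 2) ≠ 0 :=
    mul_ne_zero (pow_ne_zero _ one_sub_X_ne) (pow_ne_zero _ h2)
  apply mul_left_cancel₀ h3
  have e1 : (1 - X) ^ 6 * kap ^ 3 = X ^ 3 := by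
    have : (1 - X) ^ 6 * kap ^ 3 = ((1 - X) ^ 2 * kap) ^ 3 := by ring
    rw [this, kap_mul]
  have e2 : (1 - X) ^ 2 * (1 + 3 * kap) = 1 + X + X ^ 2 := by
    linear_combination 3 * kap_mul
  have e3 : (1 - X) ^ 6 * (1 - X ^ 3) ^ 2 * (expand 3 three_ne_zero kap * (1 + 3 * kap) ^ 2)
    = (1 - X) ^ 2 * ((1 - X ^ 3) ^ 2 * expand 3 three_ne_zero kap)
      * ((1 - X) ^ 2 * (1 + 3 * kap)) ^ 2 := by ring
  rw [e3, kap_expand, e2]
  have e4 : (1 - X) ^ 6 * (1 - X ^ 3) ^ 2 * kap ^ 3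
    = (1 - X ^ 3) ^ 2 * ((1 - X) ^ 6 * kap ^ 3) := by ring
  rw [e4, e1]; ring

lemma kap_coeff (n : ℕ) : coeff n kap = (n : ℤ) := by
  unfold kap
  cases n with
  | zero => simp
  | succ n =>
    rw [coeff_succ_X_mul, pow_two, coeff_mul]
    simp [iv_one_coeff]

/-- `Y = 3κ` -/
def Y3 : ℤ⟦X⟧ := 3 * kap

lemma Y3_cubic : Y3 ^ 3 = 9 * ((1 + Y3) ^ 2 * expand 3 three_ne_zero Y3) := by
  unfold Y3
  rw [map_mul, map_ofNat]
  linear_combination (27 : ℤ⟦X⟧) * kap_cubic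

lemma U3_one : U 3 (1 : ℤ⟦X⟧) = 1 := by
  ext n
  rw [coeff_U, coeff_one, coeff_one]
  by_cases h : n = 0 <;> simp [h]

lemma three_eq_C : (3 : ℤ⟦X⟧) = C (3 : ℤ) := by simp

lemma U3_Y : U 3 Y3 = 3 * Y3 := by
  ext n
  unfold Y3
  rw [three_eq_C, coeff_U, coeff_C_mul, coeff_C_mul, coeff_C_mul, kap_coeff, kap_coeff]
  push_cast; ring

/-- derivation-free formula: `κ² = ∑ (n³-n)/6 x^n` via `(1-x)² κ² = xκ` -/
lemma kap_sq_coeff (n : ℕ) : 6 * coeff n (kap ^ 2) = (n : ℤ) ^ 3 - n := by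
  have hrec : ∀ n, coeff (n + 2) (kap ^ 2) - 2 * coeff (n + 1) (kap ^ 2) + coeff n (kap ^ 2)
      = (n : ℤ) + 1 := by
    intro n
    have h1 : (1 - X) ^ 2 * kap ^ 2 = X * kap := by
      linear_combination kap * kap_mul
    have h2 := congrArg (coeff (n + 2)) h1
    have e : (1 - X : ℤ⟦X⟧) ^ 2 * kap ^ 2
      = kap ^ 2 - C (2 : ℤ) * (X * kap ^ 2) + X * (X * kap ^ 2) := by
      have : (C (2 : ℤ) : ℤ⟦X⟧) = 2 := by simp
      rw [this]; ring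
    rw [e, map_add, map_sub, coeff_C_mul, coeff_succ_X_mul, coeff_succ_X_mul, coeff_succ_X_mul,
      coeff_succ_X_mul, kap_coeff] at h2
    rw [h2]; push_cast; ring
  induction n using Nat.strong_induction_on with
  | _ n ih =>
    match n with
    | 0 => simp [kap, mul_pow]
    | 1 =>
      have e : kap ^ 2 = X * (X * iv 1 ^ 4) := by unfold kap; ring
      rw [e, coeff_succ_X_mul, coeff_zero_X_mul]; simp
    | (n + 2) =>
      have h1 := ih (n + 1) (by omega)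
      have h0 := ih n (by omega)
      have h2 := hrec n
      push_cast at h1 h0 ⊢
      linear_combination 6 * h2 + 2 * h1 - h0

lemma U3_Y_sq : U 3 (Y3 ^ 2) = 12 * Y3 + 27 * Y3 ^ 2 := by
  ext n
  have e1 : Y3 ^ 2 = C (9 : ℤ) * kap ^ 2 := by
    have : (C (9 : ℤ) : ℤ⟦X⟧) = 9 := by simp
    rw [this]; unfold Y3; ring
  have e2 : 12 * Y3 + 27 * Y3 ^ 2 = C (36 : ℤ) * kap + C (243 : ℤ) * kap ^ 2 := by
    have h1 : (C (36 : ℤ) : ℤ⟦X⟧) = 36 := by simp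
    have h2 : (C (243 : ℤ) : ℤ⟦X⟧) = 243 := by simp
    rw [h1, h2]; unfold Y3; ring
  rw [e2, e1, coeff_U, coeff_C_mul, map_add, coeff_C_mul, coeff_C_mul, kap_coeff]
  have h1 := kap_sq_coeff n
  have h2 := kap_sq_coeff (3 * n)
  push_cast at h2
  have : (6 : ℤ) * (9 * coeff (3 * n) (kap ^ 2))
    = 6 * (36 * (n : ℤ) + 243 * coeff n (kap ^ 2)) := by
    linear_combination 9 * h2 - 243 * h1
  linarith

lemma U3_rec (j : ℕ) : U 3 (Y3 ^ (j + 3))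
    = 9 * Y3 * (U 3 (Y3 ^ j) + 2 * U 3 (Y3 ^ (j + 1)) + U 3 (Y3 ^ (j + 2))) := by
  have h1 : Y3 ^ (j + 3) = C (9 : ℤ) * (((Y3 ^ j + C (2 : ℤ) * Y3 ^ (j + 1)) + Y3 ^ (j + 2)) *
      expand 3 three_ne_zero Y3) := by
    have h1 : (C (9 : ℤ) : ℤ⟦X⟧) = 9 := by simp
    have h2 : (C (2 : ℤ) : ℤ⟦X⟧) = 2 := by simp
    rw [h1, h2]
    linear_combination Y3 ^ j * Y3_cubic
  rw [h1, U_C_mul, U_mul_expand, U_add, U_add, U_C_mul]
  have h1 : (C (9 : ℤ) : ℤ⟦X⟧) = 9 := by simp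
  have h2 : (C (2 : ℤ) : ℤ⟦X⟧) = 2 := by simp
  rw [h1, h2]; ring

/-- the additive group `Y ℤ[Y]` inside the power series -/
def I3 : AddSubgroup ℤ⟦X⟧ where
  carrier := {f | ∃ q : Polynomial ℤ, f = Y3 * Polynomial.aeval Y3 q}
  zero_mem' := ⟨0, by simp⟩
  add_mem' := by
    rintro _ _ ⟨q, rfl⟩ ⟨r, rfl⟩
    exact ⟨q + r, by rw [map_add]; ring⟩
  neg_mem' := by
    rintro _ ⟨q, rfl⟩
    exact ⟨-q, by rw [map_neg]; ring⟩

lemma I3_Y_mul {f : ℤ⟦X⟧} (hf : f ∈ I3) : Y3 * f ∈ I3 := by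
  obtain ⟨q, rfl⟩ := hf
  exact ⟨Polynomial.X * q, by rw [map_mul, Polynomial.aeval_X]⟩

lemma I3_aeval_mul {f : ℤ⟦X⟧} (hf : f ∈ I3) (r : Polynomial ℤ) :
    Polynomial.aeval Y3 r * f ∈ I3 := by
  obtain ⟨q, rfl⟩ := hf
  exact ⟨r * q, by rw [map_mul]; ring⟩

lemma I3_nat_mul {f : ℤ⟦X⟧} (hf : f ∈ I3) (a : ℕ) : (a : ℤ⟦X⟧) * f ∈ I3 := by
  rw [← nsmul_eq_mul]; exact I3.nsmul_mem hf a

lemma Y3_mem : Y3 ∈ I3 := ⟨1, by simp⟩

lemma Y3_pow_mem (j : ℕ) : Y3 ^ (j + 1) ∈ I3 := ⟨Polynomial.X ^ j, by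
  rw [map_pow, Polynomial.aeval_X]; ring⟩

/-- `U_3(Y^{j+1}) ∈ 3 Yℤ[Y]` -/
lemma U3_pow (j : ℕ) : ∃ f ∈ I3, U 3 (Y3 ^ (j + 1)) = 3 * f := by
  induction j using Nat.strong_induction_on with
  | _ j ih =>
    match j with
    | 0 => exact ⟨Y3, Y3_mem, by rw [zero_add, pow_one, U3_Y]⟩
    | 1 =>
      refine ⟨(4 : ℕ) * Y3 + (9 : ℕ) * Y3 ^ (1 + 1),
        I3.add_mem (I3_nat_mul Y3_mem 4) (I3_nat_mul (Y3_pow_mem 1) 9), ?_⟩
      have e : (1 + 1 : ℕ) = 2 := rfl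
      rw [e, U3_Y_sq]; push_cast; ring
    | 2 =>
      refine ⟨(3 : ℕ) * (Y3 * (1 + 2 * (3 * Y3) + (12 * Y3 + 27 * Y3 ^ 2))), ?_, ?_⟩
      · refine I3_nat_mul ?_ 3
        exact ⟨1 + 2 * (3 * Polynomial.X) + (12 * Polynomial.X + 27 * Polynomial.X ^ 2), by
          simp only [map_add, map_mul, map_one, map_ofNat, map_pow, Polynomial.aeval_X]⟩
      · have h := U3_rec 0
        simp only [zero_add, pow_zero, pow_one] at h
        have e : (2 + 1 : ℕ) = 3 := rfl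
        rw [e, h, U3_one, U3_Y, U3_Y_sq]; push_cast; ring
    | (j + 3) =>
      obtain ⟨f0, h0, e0⟩ := ih j (by omega)
      obtain ⟨f1, h1, e1⟩ := ih (j + 1) (by omega)
      obtain ⟨f2, h2, e2⟩ := ih (j + 2) (by omega)
      refine ⟨(9 : ℕ) * (Y3 * (f0 + (2 : ℕ) * f1 + f2)), ?_, ?_⟩
      · exact I3_nat_mul (I3_Y_mul (I3.add_mem (I3.add_mem h0 (I3_nat_mul h1 2)) h2)) 9
      · have h := U3_rec (j + 1)
        have a1 : j + 3 + 1 = j + 1 + 3 := by ring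
        have a2 : j + 1 + 1 + 1 = j + 3 := by ring
        have a3 : j + 2 + 1 = j + 1 + 2 := by ring
        rw [a1, h, e0, e1]
        rw [a3] at e2
        rw [e2]; push_cast; ring

/-- `U_3(Y^{j+4}) ∈ 27 Yℤ[Y]` -/
lemma U3_pow' (j : ℕ) : ∃ f ∈ I3, U 3 (Y3 ^ (j + 4)) = 27 * f := by
  obtain ⟨f0, h0, e0⟩ := U3_pow j
  obtain ⟨f1, h1, e1⟩ := U3_pow (j + 1)
  obtain ⟨f2, h2, e2⟩ := U3_pow (j + 2)
  refine ⟨(Y3 * (f0 + (2 : ℕ) * f1 + f2)), ?_, ?_⟩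
  · exact (I3_Y_mul (I3.add_mem (I3.add_mem h0 (I3_nat_mul h1 2)) h2))
  · have h := U3_rec (j + 1)
    have a1 : j + 4 = j + 1 + 3 := by ring
    have a3 : j + 2 + 1 = j + 1 + 2 := by ring
    rw [a1, h, e0, e1]
    rw [a3] at e2
    rw [e2]; push_cast; ring

lemma U_finset_sum {ι : Type*} (k : ℕ) (s : Finset ι) (f : ι → ℤ⟦X⟧) :
    U k (∑ i ∈ s, f i) = ∑ i ∈ s, U k (f i) := by
  ext n; rw [coeff_U, map_sum, map_sum]; simp

lemma U_natCast_mul (k a : ℕ) (f : ℤ⟦X⟧) : U k ((a : ℤ⟦X⟧) * f) = (a : ℤ⟦X⟧) * U k f := by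
  have : ((a : ℕ) : ℤ⟦X⟧) = C (a : ℤ) := by simp
  rw [this, U_C_mul]

/-- `U_3(aeval Y q · Y) ∈ 3 Yℤ[Y]` -/
lemma U3_I3 {f : ℤ⟦X⟧} (hf : f ∈ I3) : ∃ g ∈ I3, U 3 f = 3 * g := by
  obtain ⟨q, rfl⟩ := hf
  refine poly_ind (p := fun q => ∃ g ∈ I3, U 3 (Y3 * Polynomial.aeval Y3 q) = 3 * g) q ?_ ?_
  · rintro q r ⟨g, hg, eg⟩ ⟨h, hh, eh⟩
    exact ⟨g + h, I3.add_mem hg hh, by rw [map_add, mul_add, U_add, eg, eh]; ring⟩
  · intro a k
    obtain ⟨g, hg, eg⟩ := U3_pow k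
    refine ⟨a • g, I3.zsmul_mem hg a, ?_⟩
    rw [map_smul, map_pow, Polynomial.aeval_X]
    have hC : (C a : ℤ⟦X⟧) = (a : ℤ⟦X⟧) := by simp
    have h1 : Y3 * (a • Y3 ^ k) = C a * Y3 ^ (k + 1) := by
      rw [zsmul_eq_mul, hC]; ring
    rw [h1, U_C_mul, eg, zsmul_eq_mul, hC]; ring

lemma A_three : A 3 = (1 + Y3) * expand 3 three_ne_zero (A 3) := by
  have h := A_expand (k := 3) (by norm_num)
  have h3 : ((1 - X : ℤ⟦X⟧) ^ 3) ≠ 0 := pow_ne_zero _ one_sub_X_ne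
  apply mul_left_cancel₀ h3
  unfold Y3
  linear_combination h - 3 * (1 - X) * expand 3 three_ne_zero (A 3) * kap_mul

lemma A3_pow (m : ℕ) : A 3 ^ m = (1 + Y3) ^ m * expand 3 three_ne_zero (A 3 ^ m) := by
  conv_lhs => rw [A_three, mul_pow]
  rw [map_pow]

lemma coeff_step3 (m n : ℕ) (f : ℤ⟦X⟧) :
    coeff (3 * n) (f * A 3 ^ m) = coeff n (U 3 ((1 + Y3) ^ m * f) * A 3 ^ m) := by
  rw [← coeff_U, A3_pow m]
  have : f * ((1 + Y3) ^ m * expand 3 three_ne_zero (A 3 ^ m))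
    = ((1 + Y3) ^ m * f) * expand 3 three_ne_zero (A 3 ^ m) := by ring
  rw [this, U_mul_expand, ← A3_pow m]

lemma coeff_step3' (m n : ℕ) {f : ℤ⟦X⟧} (hf : f ∈ I3) :
    ∃ g ∈ I3, coeff (3 * n) (f * A 3 ^ m) = 3 * coeff n (g * A 3 ^ m) := by
  have h1 : (1 + Y3) ^ m * f ∈ I3 := by
    have := I3_aeval_mul hf ((1 + Polynomial.X) ^ m)
    simpa using this
  obtain ⟨g, hg, eg⟩ := U3_I3 h1
  refine ⟨g, hg, ?_⟩
  rw [coeff_step3, eg, three_eq_C, mul_assoc, coeff_C_mul]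

lemma coeff_iter3 (m s n : ℕ) {f : ℤ⟦X⟧} (hf : f ∈ I3) :
    ∃ g ∈ I3, coeff (3 ^ s * n) (f * A 3 ^ m) = 3 ^ s * coeff n (g * A 3 ^ m) := by
  induction s generalizing f with
  | zero => exact ⟨f, hf, by simp⟩
  | succ s ih =>
    obtain ⟨g, hg, eg⟩ := coeff_step3' m (3 ^ s * n) hf
    obtain ⟨h, hh, eh⟩ := ih hg
    refine ⟨h, hh, ?_⟩
    have : 3 ^ (s + 1) * n = 3 * (3 ^ s * n) := by ring
    rw [this, eg, eh]; ring

/-- coefficients of elements of `Yℤ[Y]·F` are multiples of 3 -/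
lemma three_dvd_coeff (n : ℕ) {f : ℤ⟦X⟧} (hf : f ∈ I3) (F : ℤ⟦X⟧) :
    (3 : ℤ) ∣ coeff n (f * F) := by
  obtain ⟨q, rfl⟩ := hf
  have : Y3 * Polynomial.aeval Y3 q * F = C (3 : ℤ) * (kap * Polynomial.aeval Y3 q * F) := by
    have : (C (3 : ℤ) : ℤ⟦X⟧) = 3 := by simp
    rw [this, Y3]; ring
  rw [this, coeff_C_mul]
  exact dvd_mul_right _ _

/-- `𝒯(1) - 1 = U_3((1+Y)^m) - 1` modulo 27 -/
lemma T_one (m : ℕ) : ∃ f ∈ I3, U 3 ((1 + Y3) ^ m)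
    = 1 + ((3 * m + 12 * m.choose 2 + 9 * m.choose 3 : ℕ) : ℤ⟦X⟧) * Y3 + 27 * f := by
  -- general statement for sums
  have hgen : ∀ N : ℕ, ∃ f ∈ I3, U 3 (∑ j ∈ Finset.range (N + 4), Y3 ^ j * ((m.choose j : ℕ) : ℤ⟦X⟧))
      = 1 + ((3 * m + 12 * m.choose 2 + 9 * m.choose 3 : ℕ) : ℤ⟦X⟧) * Y3 + 27 * f := by
    intro N
    induction N with
    | zero =>
      refine ⟨((m.choose 2 : ℕ) : ℤ⟦X⟧) * Y3 ^ (1 + 1) + (((m.choose 3 : ℕ) : ℤ⟦X⟧) *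
        (((6 : ℕ) : ℤ⟦X⟧) * Y3 ^ (1 + 1) + ((9 : ℕ) : ℤ⟦X⟧) * Y3 ^ (2 + 1))),
        I3.add_mem (I3_nat_mul (Y3_pow_mem 1) _) (I3_nat_mul (I3.add_mem
          (I3_nat_mul (Y3_pow_mem 1) 6) (I3_nat_mul (Y3_pow_mem 2) 9)) _), ?_⟩
      have hr := U3_rec 0
      simp only [zero_add, pow_zero, pow_one] at hr
      rw [U3_one, U3_Y, U3_Y_sq] at hr
      rw [U_finset_sum]
      simp only [Finset.sum_range_succ, Finset.sum_range_zero, zero_add, mul_comm (Y3 ^ _),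
        U_natCast_mul, pow_zero, pow_one, U3_one, U3_Y, U3_Y_sq, hr, Nat.choose_zero_right,
        Nat.choose_one_right]
      push_cast
      ring
    | succ N ih =>
      obtain ⟨f, hf, ef⟩ := ih
      obtain ⟨g, hg, eg⟩ := U3_pow' N
      refine ⟨f + ((m.choose (N + 4) : ℕ) : ℤ⟦X⟧) * g, I3.add_mem hf (I3_nat_mul hg _), ?_⟩
      have : N + 1 + 4 = (N + 4) + 1 := by ring
      rw [this, Finset.sum_range_succ, U_add, ef, mul_comm (Y3 ^ (N + 4)), U_natCast_mul, eg]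
      ring
  obtain ⟨f, hf, ef⟩ := hgen m
  refine ⟨f, hf, ?_⟩
  rw [← ef]
  congr 1
  rw [add_comm, add_pow]
  have hsub : Finset.range (m + 1) ⊆ Finset.range (m + 4) := by
    intro i hi; rw [Finset.mem_range] at *; omega
  have := Finset.sum_subset (f := fun j => Y3 ^ j * ((m.choose j : ℕ) : ℤ⟦X⟧)) hsub (by
    intro i _ hi
    rw [Finset.mem_range, not_lt] at hi
    rw [Nat.choose_eq_zero_of_lt (by omega)]; simp)
  rw [← this]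
  refine Finset.sum_congr rfl (fun j _ => ?_)
  rw [one_pow, mul_one]

/-- for `m ≡ 8 mod 9` -/
lemma T_one_27 (m : ℕ) (hm : m % 9 = 8) : ∃ f ∈ I3, U 3 ((1 + Y3) ^ m) = 1 + 27 * f := by
  obtain ⟨f, hf, ef⟩ := T_one m
  have hdvd : 27 ∣ (3 * m + 12 * (m.choose 2) + 9 * (m.choose 3) : ℕ) := by
    obtain ⟨r, hr⟩ : ∃ r, m = 9 * r + 8 := ⟨m / 9, by omega⟩
    have h2 : 2 * m.choose 2 = m * (m - 1) := by
      have := Nat.choose_two_right m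
      have h3 : 2 ∣ m * (m - 1) := (Nat.even_mul_pred_self m).two_dvd
      omega
    have h3 : 6 * m.choose 3 = m * (m - 1) * (m - 2) := by
      have := Nat.descFactorial_eq_factorial_mul_choose m 3
      simp only [Nat.descFactorial_succ, Nat.descFactorial_zero, Nat.factorial] at this
      norm_num at this
      rw [← this]; ring
    have h4 : 2 * (3 * m + 12 * (m.choose 2) + 9 * (m.choose 3))
      = 3 * (m * m) * (m + 1) := by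
      have a1 : m - 1 = 9 * r + 7 := by omega
      have a2 : m - 2 = 9 * r + 6 := by omega
      rw [a1] at h2 h3
      rw [a2] at h3
      rw [hr] at h2 h3 ⊢
      nlinarith
    have h5 : 27 ∣ 2 * (3 * m + 12 * (m.choose 2) + 9 * (m.choose 3)) := by
      rw [h4]
      exact ⟨(m * m) * (r + 1), by rw [hr]; ring⟩
    exact (Nat.Coprime.dvd_mul_left (by norm_num)).mp h5
  obtain ⟨w, hw⟩ := hdvd
  refine ⟨(w : ℕ) * Y3 + f, I3.add_mem (I3_nat_mul Y3_mem w) hf, ?_⟩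
  rw [ef, hw]; push_cast; ring

lemma ternary_dvd (m s t : ℕ) (hm : m % 9 = 8) :
    (3 : ℤ) ^ (s + 4) ∣ S 3 m (9 * (3 ^ s * t)) - S 3 m (3 ^ s * t) := by
  obtain ⟨f, hf, ef⟩ := T_one_27 m hm
  have h3 : (2 : ℕ) ≤ 3 := by norm_num
  have e9 : 9 * (3 ^ s * t) = 3 * (3 * (3 ^ s * t)) := by ring
  have e1 : S 3 m (9 * (3 ^ s * t)) = coeff (3 ^ s * t) (A 3 ^ m)
      + 27 * coeff (3 ^ s * t) (f * A 3 ^ m) + 27 * coeff (3 * (3 ^ s * t)) (f * A 3 ^ m) := by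
    rw [S_eq h3, e9]
    have a1 : coeff (3 * (3 * (3 ^ s * t))) (A 3 ^ m)
      = coeff (3 * (3 * (3 ^ s * t))) (1 * A 3 ^ m) := by rw [one_mul]
    have a2 : ∀ N, coeff N ((1 + 27 * f) * A 3 ^ m)
        = coeff N (A 3 ^ m) + 27 * coeff N (f * A 3 ^ m) := by
      intro N
      have : (1 + 27 * f) * A 3 ^ m = A 3 ^ m + C (27 : ℤ) * (f * A 3 ^ m) := by
        have : (C (27 : ℤ) : ℤ⟦X⟧) = 27 := by simp
        rw [this]; ring
      rw [this, map_add, coeff_C_mul]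
    have a3 : coeff (3 * (3 ^ s * t)) (A 3 ^ m) = coeff (3 ^ s * t) ((1 + 27 * f) * A 3 ^ m) := by
      have := coeff_step3 m (3 ^ s * t) 1
      rw [one_mul, mul_one, ef] at this
      exact this
    rw [a1, coeff_step3, mul_one, ef, a2, a3, a2]
  rw [e1, S_eq h3]
  have e2 : ∀ N, (3 : ℤ) ^ (s + 1) ∣ coeff (3 ^ s * N) (f * A 3 ^ m) := by
    intro N
    obtain ⟨g, hg, eg⟩ := coeff_iter3 m s N hf
    rw [eg, pow_succ]
    exact mul_dvd_mul_left _ (three_dvd_coeff N hg _)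
  have e3 := e2 t
  have e4 := e2 (3 * t)
  have e5 : 3 ^ s * (3 * t) = 3 * (3 ^ s * t) := by ring
  rw [e5] at e4
  obtain ⟨a, ha⟩ := e3
  obtain ⟨b, hb⟩ := e4
  rw [ha, hb]
  exact ⟨a + b, by ring⟩

end

end Pool.Agent.X11.ColPart
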